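import Pool.Agent.H1.BP.Wid

/-
ROW Ang.  On a circle of 3-periodic orbits f x < x + pi.
x0=x, x1=f x, x2=f x1, x3=x+2pi; d_k=(x_{k+1}-x_k)/2 in (0,pi), d_0+d_1+d_2 = pi; s_k=(x_k+x_{k+1})/2.
P_k = Gamma(s_k) = (h cos - h' sin, h sin + h' cos)(s_k) in R^2, n(x)=(cos x, sin x), t(x)=(-sin x, cos x).
p0 x_k x_{k+1} = P_k . n(x_k), p1 x_k x_{k+1} = P_k . n(x_{k+1}).  hf.inv: P_k . n(x_{k+1}) = P_{k+1} . n(x_{k+1}), so P_{k+1} - P_k = l_{k+1} t(x_{k+1}) with l_{k+1} = (P_{k+1}-P_k).t(x_{k+1}).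
l_{k+1} > 0: (P_{k+1} - P_k).n(s_{k+1}) = h(s_{k+1}) - (h(s_k) cos(s_{k+1}-s_k) + h'(s_k) sin(s_{k+1}-s_k)) > 0 by Wid.support_lt (0 < s_{k+1}-s_k = d_k+d_{k+1} < 2pi), and t(x_{k+1}).n(s_{k+1}) = sin(s_{k+1}-x_{k+1}) = sin d_{k+1} > 0.
P_{k+3} = P_k (periodicity), so l_1 t(x_1) + l_2 t(x_2) + l_3 t(x_3) = 0, t(x_3) = t(x_0). Cross product with t(x_0): l_1 sin(2 d_0) = l_2 sin(2 d_2) [x_1-x_0 = 2d_0, x_2 - x_0 = 2pi - 2 d_2]; with t(x_1): l_2 sin(2d_1) = l_3 sin (2 d_0) .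
So the three sin(2 d_k) are all > 0 or all <= 0; in the second case 2 d_k >= pi for all k (2 d_k in (0,2pi)), sum >= 3pi > 2pi: contradiction. So 2 d_0 < pi, i.e. f x < x + pi.
-/

set_option autoImplicit false
open Set

namespace Pool.Agent.H1.BP

variable {h : ℝ → ℝ}

/-- `P . n(th)` for the contact point `P` of the line with normal angle `s` -/
private noncomputable def Ang_G (h : ℝ → ℝ) (s th : ℝ) : ℝ :=
  h s * Real.cos (th - s) + deriv h s * Real.sin (th - s)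

private noncomputable def Ang_T (h : ℝ → ℝ) (s th : ℝ) : ℝ :=
  -(h s * Real.sin (th - s)) + deriv h s * Real.cos (th - s)

private theorem Ang_rot (s u th : ℝ) :
    Ang_G h s th = Ang_G h s u * Real.cos (th - u) + Ang_T h s u * Real.sin (th - u) := by
  unfold Ang_G Ang_T
  have e : th - s = (th - u) + (u - s) := by ring
  rw [e, Real.cos_add, Real.sin_add]
  ring

private theorem Ang_diff {s s' u : ℝ} (e : Ang_G h s u = Ang_G h s' u) (th : ℝ) :
    Ang_G h s' th - Ang_G h s th = (Ang_T h s' u - Ang_T h s u) * Real.sin (th - u) := by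
  rw [Ang_rot s u th, Ang_rot s' u th, e]
  ring

private theorem Ang_inv {x y z : ℝ} (e : p1 h x y = p0 h y z) :
    Ang_G h ((x + y) / 2) y = Ang_G h ((y + z) / 2) y := by
  unfold p1 p0 at e
  unfold Ang_G
  have e1 : y - (x + y) / 2 = (y - x) / 2 := by ring
  have e2 : y - (y + z) / 2 = -((z - y) / 2) := by ring
  rw [e1, e2, Real.cos_neg, Real.sin_neg]
  linarith

/-- the edges have positive length -/
private theorem Ang_pos (hs : Supp h) {x y z : ℝ} (h1 : x < y) (h2 : y < x + 2 * Real.pi)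
    (h3 : y < z) (h4 : z < y + 2 * Real.pi)
    (e : p1 h x y = p0 h y z) :
    0 < Ang_T h ((y + z) / 2) y - Ang_T h ((x + y) / 2) y := by
  have h5 := Ang_diff (Ang_inv e) ((y + z) / 2)
  have h6 : Ang_G h ((y + z) / 2) ((y + z) / 2) = h ((y + z) / 2) := by
    unfold Ang_G
    simp
  have h7 : Ang_G h ((x + y) / 2) ((y + z) / 2) < h ((y + z) / 2) := by
    have h8 := support_lt hs ((x + y) / 2) ((y + z) / 2 - (x + y) / 2) (by linarith) (by linarith)
    have e1 : (x + y) / 2 + ((y + z) / 2 - (x + y) / 2) = (y + z) / 2 := by ring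
    rw [e1] at h8
    exact h8
  have h8 : 0 < Real.sin ((y + z) / 2 - y) :=
    Real.sin_pos_of_pos_of_lt_pi (by linarith) (by linarith)
  have h9 : 0 < (Ang_T h ((y + z) / 2) y - Ang_T h ((x + y) / 2) y) *
      Real.sin ((y + z) / 2 - y) := by
    rw [← h5]
    linarith
  exact (pos_iff_pos_of_mul_pos h9).2 h8

theorem circle_gap (hs : Supp h) {f : ℝ → ℝ} (hf : Circle h f) (h3 : ∀ x, f (f (f x)) = x + 2 * Real.pi)
    (x : ℝ) : f x < x + Real.pi := by
  have hpi := Real.pi_pos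
  obtain ⟨y, hy⟩ : ∃ y, y = f x := ⟨_, rfl⟩
  obtain ⟨z, hz⟩ : ∃ z, z = f y := ⟨_, rfl⟩
  have hw : f z = x + 2 * Real.pi := by rw [hz, hy]; exact h3 x
  have hw2 : f (x + 2 * Real.pi) = y + 2 * Real.pi := by rw [hf.per, hy]
  have a1 : x < y := by rw [hy]; exact hf.lo x
  have a2 : y < x + 2 * Real.pi := by rw [hy]; exact hf.hi x
  have b1 : y < z := by rw [hz]; exact hf.lo y
  have b2 : z < y + 2 * Real.pi := by rw [hz]; exact hf.hi y
  have c1 : z < x + 2 * Real.pi := by rw [← hw]; exact hf.lo z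
  have c2 : x + 2 * Real.pi < z + 2 * Real.pi := by linarith
  have i1 : p1 h x y = p0 h y z := by
    have := hf.inv x
    rw [← hy, ← hz] at this
    exact this
  have i2 : p1 h y z = p0 h z (x + 2 * Real.pi) := by
    have := hf.inv y
    rw [← hz, hw] at this
    exact this
  have i3 : p1 h z (x + 2 * Real.pi) = p0 h (x + 2 * Real.pi) (y + 2 * Real.pi) := by
    have := hf.inv z
    rw [hw, hw2] at this
    exact this
  have l1 := Ang_pos hs a1 a2 b1 b2 i1
  have l2 := Ang_pos hs b1 b2 c1 (by linarith) i2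
  have d1 := Ang_diff (Ang_inv i1) x
  have d2 := Ang_diff (Ang_inv i2) x
  -- closing up
  have d3 : Ang_G h ((z + (x + 2 * Real.pi)) / 2) x = Ang_G h ((x + y) / 2) x := by
    have h4 := Ang_inv i3
    have e1 : ((x + 2 * Real.pi) + (y + 2 * Real.pi)) / 2 = (x + y) / 2 + 2 * Real.pi := by ring
    rw [e1] at h4
    unfold Ang_G at h4 ⊢
    rw [hs.per, d1_per hs] at h4
    have e2 : x + 2 * Real.pi - ((x + y) / 2 + 2 * Real.pi) = x - (x + y) / 2 := by ring
    have e3 : x + 2 * Real.pi - (z + (x + 2 * Real.pi)) / 2 =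
        (x - (z + (x + 2 * Real.pi)) / 2) + 2 * Real.pi := by ring
    rw [e2, e3, Real.cos_add_two_pi, Real.sin_add_two_pi] at h4
    exact h4
  obtain ⟨L1, hL1⟩ : ∃ L, L = Ang_T h ((y + z) / 2) y - Ang_T h ((x + y) / 2) y := ⟨_, rfl⟩
  obtain ⟨L2, hL2⟩ : ∃ L, L = Ang_T h ((z + (x + 2 * Real.pi)) / 2) z - Ang_T h ((y + z) / 2) z :=
    ⟨_, rfl⟩
  rw [← hL1] at l1 d1
  rw [← hL2] at l2 d2
  have e0 : L1 * Real.sin (x - y) + L2 * Real.sin (x - z) = 0 := by
    rw [← d1, ← d2, d3]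
    ring
  by_contra hcon
  have hc : x + Real.pi ≤ y := by
    rw [hy]
    exact not_lt.1 hcon
  have s1 : 0 ≤ Real.sin (x - y) := by
    have e1 : Real.sin (x - y) = Real.sin (x - y + 2 * Real.pi) := (Real.sin_add_two_pi _).symm
    rw [e1]
    exact Real.sin_nonneg_of_nonneg_of_le_pi (by linarith) (by linarith)
  have s2 : 0 < Real.sin (x - z) := by
    have e1 : Real.sin (x - z) = Real.sin (x - z + 2 * Real.pi) := (Real.sin_add_two_pi _).symm
    rw [e1]
    exact Real.sin_pos_of_pos_of_lt_pi (by linarith) (by linarith)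
  have p1' : 0 ≤ L1 * Real.sin (x - y) := mul_nonneg l1.le s1
  have p2' : 0 < L2 * Real.sin (x - z) := mul_pos l2 s2
  linarith

end Pool.Agent.H1.BP
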