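import Pool.Agent.H1.BP.Defs

/-
ROW Byp.  Integration by parts.  r = eta - eps, y = g r, det g = 1.
 cr y y' = cr (g r) (g' r) + cr (g r) (g r') = cr (g r)(g' r) + cr r r'  (cr (g z)(g w) = det g * cr z w).
 int [cr eps eps' - cr r r'] = int [ - cr eta eta' + 2 cr eps eta' ]:  cr r r' = cr eta eta' - cr eta eps' - cr eps eta' + cr eps eps', and (cr eta eps)' = cr eta' eps + cr eta eps', cr eta' eps = - cr eps eta', so
 int cr eta eps' = int cr eps eta'  (periodicity).
-/

set_option autoImplicit false
open Set MeasureTheory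

namespace Pool.Agent.H1.BP

theorem Byp_re {f : ℝ → ℂ} {f' : ℂ} {s : ℝ} (h : HasDerivAt f f' s) :
    HasDerivAt (fun x => (f x).re) f'.re s :=
  (Complex.reCLM.hasFDerivAt (x := f s)).comp_hasDerivAt s h

theorem Byp_im {f : ℝ → ℂ} {f' : ℂ} {s : ℝ} (h : HasDerivAt f f' s) :
    HasDerivAt (fun x => (f x).im) f'.im s :=
  (Complex.imCLM.hasFDerivAt (x := f s)).comp_hasDerivAt s h

theorem Byp_mk {u v : ℝ → ℝ} {u' v' s : ℝ} (hu : HasDerivAt u u' s) (hv : HasDerivAt v v' s) :
    HasDerivAt (fun x => (⟨u x, v x⟩ : ℂ)) ⟨u', v'⟩ s := by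
  have h1 := hu.ofReal_comp.add (hv.ofReal_comp.mul_const Complex.I)
  have e1 : (fun x => (⟨u x, v x⟩ : ℂ)) = fun x => ((u x : ℝ) : ℂ) + ((v x : ℝ) : ℂ) * Complex.I := by
    funext x
    apply Complex.ext <;> simp
  have e2 : (⟨u', v'⟩ : ℂ) = ((u' : ℝ) : ℂ) + ((v' : ℝ) : ℂ) * Complex.I := by
    apply Complex.ext <;> simp
  rw [e1, e2]
  exact h1

theorem Byp_app {a b c : ℝ → ℝ} {z : ℝ → ℂ} {a' b' c' s : ℝ} {z' : ℂ}
    (ha : HasDerivAt a a' s) (hb : HasDerivAt b b' s) (hc : HasDerivAt c c' s)
    (hz : HasDerivAt z z' s) :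
    HasDerivAt (fun x => app (a x) (b x) (c x) (z x))
      (app a' b' c' (z s) + app (a s) (b s) (c s) z') s := by
  have h1 := (ha.mul (Byp_re hz)).add (hb.mul (Byp_im hz))
  have h2 := (hb.mul (Byp_re hz)).add (hc.mul (Byp_im hz))
  have h3 := Byp_mk h1 h2
  have e : app a' b' c' (z s) + app (a s) (b s) (c s) z' =
      (⟨a' * (z s).re + a s * z'.re + (b' * (z s).im + b s * z'.im),
        b' * (z s).re + b s * z'.re + (c' * (z s).im + c s * z'.im)⟩ : ℂ) := by
    unfold app
    apply Complex.ext
    · simp only [Complex.add_re]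
      ring
    · simp only [Complex.add_im]
      ring
  rw [e]
  exact h3

theorem byp (a b c : ℝ → ℝ) (ha : ContDiff ℝ 1 a) (hb : ContDiff ℝ 1 b) (hc : ContDiff ℝ 1 c)
    (hdet : ∀ s, a s * c s - b s ^ 2 = 1)
    (eta eps : ℝ → ℂ) (he : ContDiff ℝ 1 eta) (hep : ∀ s, eta (s + 2 * Real.pi) = eta s)
    (hq : ContDiff ℝ 1 eps) (hqp : ∀ s, eps (s + 2 * Real.pi) = eps s) :
    (∫ s in (0 : ℝ)..(2 * Real.pi), (cr (eps s) (deriv eps s) - Complex.normSq (eps s)))
      - (∫ s in (0 : ℝ)..(2 * Real.pi),
        (cr (app (a s) (b s) (c s) (eta s - eps s))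
            (deriv (fun s => app (a s) (b s) (c s) (eta s - eps s)) s)
          + Complex.normSq (app (a s) (b s) (c s) (eta s - eps s))))
      = ∫ s in (0 : ℝ)..(2 * Real.pi),
        (- cr (eta s) (deriv eta s) + 2 * cr (eps s) (deriv eta s) - Complex.normSq (eps s)
          - Complex.normSq (app (a s) (b s) (c s) (eta s - eps s))
          - cr (app (a s) (b s) (c s) (eta s - eps s))
              (app (deriv a s) (deriv b s) (deriv c s) (eta s - eps s))) := by
  have da : ∀ s, HasDerivAt a (deriv a s) s := fun s =>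
    (ha.differentiable one_ne_zero s).hasDerivAt
  have db : ∀ s, HasDerivAt b (deriv b s) s := fun s =>
    (hb.differentiable one_ne_zero s).hasDerivAt
  have dc : ∀ s, HasDerivAt c (deriv c s) s := fun s =>
    (hc.differentiable one_ne_zero s).hasDerivAt
  have de : ∀ s, HasDerivAt eta (deriv eta s) s := fun s =>
    (he.differentiable one_ne_zero s).hasDerivAt
  have dq : ∀ s, HasDerivAt eps (deriv eps s) s := fun s =>
    (hq.differentiable one_ne_zero s).hasDerivAt
  have ca := ha.continuous
  have cb := hb.continuous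
  have cc := hc.continuous
  have ce := he.continuous
  have cq := hq.continuous
  have ca' := ha.continuous_deriv le_rfl
  have cb' := hb.continuous_deriv le_rfl
  have cc' := hc.continuous_deriv le_rfl
  have ce' := he.continuous_deriv le_rfl
  have cq' := hq.continuous_deriv le_rfl
  have e1 := Complex.continuous_re.comp ce
  have e2 := Complex.continuous_im.comp ce
  have e3 := Complex.continuous_re.comp cq
  have e4 := Complex.continuous_im.comp cq
  have e5 := Complex.continuous_re.comp ce'
  have e6 := Complex.continuous_im.comp ce'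
  have e7 := Complex.continuous_re.comp cq'
  have e8 := Complex.continuous_im.comp cq'
  have hd : ∀ s, deriv (fun s => app (a s) (b s) (c s) (eta s - eps s)) s =
      app (deriv a s) (deriv b s) (deriv c s) (eta s - eps s)
        + app (a s) (b s) (c s) (deriv eta s - deriv eps s) := fun s =>
    (Byp_app (da s) (db s) (dc s) ((de s).sub (dq s))).deriv
  simp only [hd]
  -- continuity of the integrands
  have k1 : Continuous fun s => cr (eps s) (deriv eps s) - Complex.normSq (eps s) := by
    simp only [cr, Complex.normSq_apply]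
    exact ((e3.mul e8).sub (e4.mul e7)).sub ((e3.mul e3).add (e4.mul e4))
  have k2 : Continuous fun s => cr (app (a s) (b s) (c s) (eta s - eps s))
            (app (deriv a s) (deriv b s) (deriv c s) (eta s - eps s)
              + app (a s) (b s) (c s) (deriv eta s - deriv eps s))
          + Complex.normSq (app (a s) (b s) (c s) (eta s - eps s)) := by
    simp only [cr, Complex.normSq_apply, app, Complex.add_re, Complex.add_im, Complex.sub_re,
      Complex.sub_im]
    fun_prop
  have kD : ∀ s, HasDerivAt (fun x => (eta x).re * (eps x).im - (eta x).im * (eps x).re)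
      ((deriv eta s).re * (eps s).im + (eta s).re * (deriv eps s).im
        - ((deriv eta s).im * (eps s).re + (eta s).im * (deriv eps s).re)) s := fun s =>
    ((Byp_re (de s)).mul (Byp_im (dq s))).sub ((Byp_im (de s)).mul (Byp_re (dq s)))
  have k4 : Continuous fun s => (deriv eta s).re * (eps s).im + (eta s).re * (deriv eps s).im
        - ((deriv eta s).im * (eps s).re + (eta s).im * (deriv eps s).re) :=
    ((e5.mul e4).add (e1.mul e8)).sub ((e6.mul e3).add (e2.mul e7))
  have h0 : ∫ s in (0 : ℝ)..(2 * Real.pi),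
      ((deriv eta s).re * (eps s).im + (eta s).re * (deriv eps s).im
        - ((deriv eta s).im * (eps s).re + (eta s).im * (deriv eps s).re)) = 0 := by
    rw [intervalIntegral.integral_eq_sub_of_hasDerivAt (fun s _ => kD s)
      (k4.intervalIntegrable _ _)]
    have h1 := hep 0
    have h2 := hqp 0
    rw [zero_add] at h1 h2
    rw [h1, h2]
    ring
  have i1 := k1.intervalIntegrable (μ := volume) 0 (2 * Real.pi)
  have i2 := k2.intervalIntegrable (μ := volume) 0 (2 * Real.pi)
  have i4 := k4.intervalIntegrable (μ := volume) 0 (2 * Real.pi)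
  rw [← intervalIntegral.integral_sub i1 i2]
  have h5 := intervalIntegral.integral_sub (i1.sub i2) i4
  rw [h0, sub_zero] at h5
  refine Eq.trans h5.symm ?_
  refine intervalIntegral.integral_congr fun s _ => ?_
  have hs := hdet s
  have key : cr (app (a s) (b s) (c s) (eta s - eps s))
      (app (a s) (b s) (c s) (deriv eta s - deriv eps s)) =
        cr (eta s - eps s) (deriv eta s - deriv eps s) := by
    have e : cr (app (a s) (b s) (c s) (eta s - eps s))
      (app (a s) (b s) (c s) (deriv eta s - deriv eps s)) =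
        (a s * c s - b s ^ 2) * cr (eta s - eps s) (deriv eta s - deriv eps s) := by
      simp only [cr, app]
      ring
    rw [e, hs, one_mul]
  have key2 : ∀ z u v : ℂ, cr z (u + v) = cr z u + cr z v := by
    intro z u v
    simp only [cr, Complex.add_re, Complex.add_im]
    ring
  simp only [key2, key]
  simp only [cr, Complex.sub_re, Complex.sub_im]
  ring

end Pool.Agent.H1.BP
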