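import Pool.Agent.H1.BP.Defs

/-
ROW Gal.  Galerkin approximation.  tp N c s = sum_{k<N} c_k e^{i(k+1)s}.
(1) Existence: V = Fin N -> C as a real vector space (dimension 2N). B(c,c') = int_0^{2pi} ip (tp c) (g tp c') is symmetric, positive definite (g symmetric positive definite: ip z (g z) > 0 for z /= 0, continuous
    integrand, tp c = 0 identically only if c = 0: Fourier coefficients / linear independence of exponentials). So for each eta there is a unique c with B(c', c) = int ip (tp c') (g eta) for all c'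
    (injective linear map of finite dimensional spaces of equal dimension is surjective, LinearMap.injective_iff_surjective_of_finrank_eq_finrank, or Lax-Milgram).  Then with y = g(eta - tp c): int ip (tp c') y = 0 for all c';
    taking c' = e_k and c' = i e_k: int e^{-i(k+1)s} y = 0 for k < N.  [ip (e^{ins}) y = Re(e^{-ins} y), ip (i e^{ins}) y = Im(e^{-ins} y).]
(2) R-linearity in eta: for t in R^3, c_t = sum t_i c_i solves the problem for eta_t = sum t_i eta_i.
(3) zero mode: t -> int y_t is R-linear from R^3 to C = R^2: nontrivial kernel; normalise sum t_i^2 = 1.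
(4) bound: eps = tp c. For all c': int ip (tp c')' (g(eta-eps)) = 0 ((tp c')' is again of the form tp c''), so by parts int ip (tp c') (g'(eta-eps) + g(eta'-eps')) = 0; with tp c' = eps' :
    int ip eps' (g eps') = int ip eps' (g eta' + g'(eta-eps)).  lam |z|^2 <= ip z (g z), |g z| <= La|z|, |g' z| <= La|z| (La, lam > 0 from continuity/periodicity):  ||eps'|| <= (La/lam)(||eta'|| + ||eta-eps||), and
    lam ||eps||^2 <= int ip eps (g eps) = int ip eps (g eta) <= La ||eps|| ||eta||.  So ||y'|| <= La(||eta'||+||eps'||+||eta||+||eps||) <= C, C independent of N and of t (|t|=1).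
    ( ||.|| = L^2 norm on [0,2pi]; Cauchy-Schwarz for intervalIntegral, or use 2ab <= k a^2 + b^2/k pointwise to avoid Cauchy-Schwarz.)
-/

set_option autoImplicit false
open Set MeasureTheory

namespace Pool.Agent.H1.BP

/-! ### pointwise algebra -/

private theorem gal_app_eq (a b c : ℝ) (z : ℂ) : app a b c z =
    ((a * z.re + b * z.im : ℝ) : ℂ) + ((b * z.re + c * z.im : ℝ) : ℂ) * Complex.I := by
  unfold app
  rw [Complex.mk_eq_add_mul_I]

private theorem gal_app_add (a b c : ℝ) (z w : ℂ) : app a b c (z + w) = app a b c z + app a b c w := by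
  unfold app
  apply Complex.ext
  · simp only [Complex.add_re, Complex.add_im]; ring
  · simp only [Complex.add_re, Complex.add_im]; ring

private theorem gal_app_sub (a b c : ℝ) (z w : ℂ) : app a b c (z - w) = app a b c z - app a b c w := by
  unfold app
  apply Complex.ext
  · simp only [Complex.sub_re, Complex.sub_im]; ring
  · simp only [Complex.sub_re, Complex.sub_im]; ring

private theorem gal_app_smul (a b c r : ℝ) (z : ℂ) : app a b c (r • z) = r • app a b c z := by
  unfold app
  apply Complex.ext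
  · simp only [Complex.real_smul, Complex.mul_re, Complex.ofReal_re, Complex.ofReal_im, Complex.mul_im]; ring
  · simp only [Complex.real_smul, Complex.mul_re, Complex.ofReal_re, Complex.ofReal_im, Complex.mul_im]; ring

private theorem gal_ip_sub (z u v : ℂ) : ip z (u - v) = ip z u - ip z v := by
  unfold ip
  simp only [Complex.sub_re, Complex.sub_im]; ring

private theorem gal_ip_add (z u v : ℂ) : ip z (u + v) = ip z u + ip z v := by
  unfold ip
  simp only [Complex.add_re, Complex.add_im]; ring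

/-- lower bound for the form -/
private theorem gal_lower {a b c S : ℝ} (hdet : a * c - b ^ 2 = 1) (ha : 0 < a) (hS : a + c ≤ S) (z : ℂ) :
    Complex.normSq z ≤ S * ip z (app a b c z) := by
  have h1 : (a + c) * ip z (app a b c z) =
      Complex.normSq (app a b c z) + (a * c - b ^ 2) * Complex.normSq z := by
    unfold ip app
    simp only [Complex.normSq_apply]
    ring
  rw [hdet] at h1
  have hc : 0 < c := by
    by_contra h
    push Not at h
    nlinarith [mul_nonneg ha.le (neg_nonneg.2 h), sq_nonneg b]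
  have h2 : 0 ≤ Complex.normSq (app a b c z) := Complex.normSq_nonneg _
  have h3 : 0 ≤ Complex.normSq z := Complex.normSq_nonneg _
  have h4 : 0 ≤ ip z (app a b c z) := by
    by_contra h
    push Not at h
    nlinarith
  nlinarith

/-- upper bound for the map -/
private theorem gal_upper {a b c M : ℝ} (ha : |a| ≤ M) (hb : |b| ≤ M) (hc : |c| ≤ M) (z : ℂ) :
    Complex.normSq (app a b c z) ≤ 4 * M ^ 2 * Complex.normSq z := by
  unfold app
  simp only [Complex.normSq_apply]
  have h1 : a ^ 2 ≤ M ^ 2 := sq_le_sq' (by linarith [(abs_le.1 ha).1]) (abs_le.1 ha).2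
  have h2 : b ^ 2 ≤ M ^ 2 := sq_le_sq' (by linarith [(abs_le.1 hb).1]) (abs_le.1 hb).2
  have h3 : c ^ 2 ≤ M ^ 2 := sq_le_sq' (by linarith [(abs_le.1 hc).1]) (abs_le.1 hc).2
  have k1 : (a * z.re + b * z.im) * (a * z.re + b * z.im) ≤
      (a ^ 2 + b ^ 2) * (z.re * z.re + z.im * z.im) := by
    nlinarith [sq_nonneg (a * z.im - b * z.re)]
  have k2 : (b * z.re + c * z.im) * (b * z.re + c * z.im) ≤
      (b ^ 2 + c ^ 2) * (z.re * z.re + z.im * z.im) := by
    nlinarith [sq_nonneg (b * z.im - c * z.re)]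
  have hz : 0 ≤ z.re * z.re + z.im * z.im := add_nonneg (mul_self_nonneg _) (mul_self_nonneg _)
  have k3 : (a ^ 2 + b ^ 2) * (z.re * z.re + z.im * z.im) ≤
      (2 * M ^ 2) * (z.re * z.re + z.im * z.im) := mul_le_mul_of_nonneg_right (by linarith) hz
  have k4 : (b ^ 2 + c ^ 2) * (z.re * z.re + z.im * z.im) ≤
      (2 * M ^ 2) * (z.re * z.re + z.im * z.im) := mul_le_mul_of_nonneg_right (by linarith) hz
  linarith

private theorem gal_young (S : ℝ) (z w : ℂ) :
    S * ip z w ≤ Complex.normSq z / 2 + S ^ 2 / 2 * Complex.normSq w := by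
  unfold ip
  simp only [Complex.normSq_apply]
  nlinarith [sq_nonneg (z.re - S * w.re), sq_nonneg (z.im - S * w.im)]

private theorem gal_sum2 (z w : ℂ) :
    Complex.normSq (z + w) ≤ 2 * Complex.normSq z + 2 * Complex.normSq w := by
  simp only [Complex.normSq_apply, Complex.add_re, Complex.add_im]
  nlinarith [sq_nonneg (z.re - w.re), sq_nonneg (z.im - w.im)]

private theorem gal_sub2 (z w : ℂ) :
    Complex.normSq (z - w) ≤ 2 * Complex.normSq z + 2 * Complex.normSq w := by
  simp only [Complex.normSq_apply, Complex.sub_re, Complex.sub_im]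
  nlinarith [sq_nonneg (z.re + w.re), sq_nonneg (z.im + w.im)]

/-! ### continuity and derivatives -/

private theorem gal_app_cont {a b c : ℝ → ℝ} {f : ℝ → ℂ} (ha : Continuous a) (hb : Continuous b)
    (hc : Continuous c) (hf : Continuous f) : Continuous fun s => app (a s) (b s) (c s) (f s) := by
  have h1 : Continuous fun s => (f s).re := Complex.continuous_re.comp hf
  have h2 : Continuous fun s => (f s).im := Complex.continuous_im.comp hf
  simp only [gal_app_eq]
  exact (Complex.continuous_ofReal.comp ((ha.mul h1).add (hb.mul h2))).add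
    ((Complex.continuous_ofReal.comp ((hb.mul h1).add (hc.mul h2))).mul continuous_const)

private theorem gal_ip_cont {f g : ℝ → ℂ} (hf : Continuous f) (hg : Continuous g) :
    Continuous fun s => ip (f s) (g s) := by
  unfold ip
  exact ((Complex.continuous_re.comp hf).mul (Complex.continuous_re.comp hg)).add
    ((Complex.continuous_im.comp hf).mul (Complex.continuous_im.comp hg))

private theorem gal_re_deriv {f : ℝ → ℂ} {f' : ℂ} {s : ℝ} (h : HasDerivAt f f' s) :
    HasDerivAt (fun s => (f s).re) f'.re s :=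
  (Complex.reCLM.hasFDerivAt (x := f s)).comp_hasDerivAt s h

private theorem gal_im_deriv {f : ℝ → ℂ} {f' : ℂ} {s : ℝ} (h : HasDerivAt f f' s) :
    HasDerivAt (fun s => (f s).im) f'.im s :=
  (Complex.imCLM.hasFDerivAt (x := f s)).comp_hasDerivAt s h

private theorem gal_app_deriv {a b c : ℝ → ℝ} {f : ℝ → ℂ} {a' b' c' : ℝ} {f' : ℂ} {s : ℝ}
    (ha : HasDerivAt a a' s) (hb : HasDerivAt b b' s) (hc : HasDerivAt c c' s)
    (hf : HasDerivAt f f' s) : HasDerivAt (fun s => app (a s) (b s) (c s) (f s))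
      (app a' b' c' (f s) + app (a s) (b s) (c s) f') s := by
  have h1 := gal_re_deriv hf
  have h2 := gal_im_deriv hf
  simp only [gal_app_eq]
  have k1 := ((ha.mul h1).add (hb.mul h2)).ofReal_comp
  have k2 := (((hb.mul h1).add (hc.mul h2)).ofReal_comp).mul_const Complex.I
  have k := k1.add k2
  refine k.congr_deriv ?_
  push_cast
  ring

private theorem gal_ip_deriv {f g : ℝ → ℂ} {f' g' : ℂ} {s : ℝ}
    (hf : HasDerivAt f f' s) (hg : HasDerivAt g g' s) : HasDerivAt (fun s => ip (f s) (g s))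
      (ip f' (g s) + ip (f s) g') s := by
  have h1 := gal_re_deriv hf
  have h2 := gal_im_deriv hf
  have h3 := gal_re_deriv hg
  have h4 := gal_im_deriv hg
  have k := (h1.mul h3).add (h2.mul h4)
  refine k.congr_deriv ?_
  unfold ip
  ring

private theorem gal_int_le {f g : ℝ → ℝ} (hf : Continuous f) (hg : Continuous g)
    (h : ∀ s ∈ Icc 0 (2 * Real.pi), f s ≤ g s) :
    ∫ s in (0 : ℝ)..(2 * Real.pi), f s ≤ ∫ s in (0 : ℝ)..(2 * Real.pi), g s :=
  intervalIntegral.integral_mono_on Real.two_pi_pos.le (hf.intervalIntegrable _ _)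
    (hg.intervalIntegrable _ _) h

/-! ### the energy estimate -/

private theorem gal_est (M H : ℝ) (_hM : 0 ≤ M) (_hH : 0 ≤ H) (a b c a' b' c' : ℝ → ℝ) (u v u' v' : ℝ → ℂ)
    (ha : Continuous a) (hb : Continuous b) (hc : Continuous c)
    (ha' : Continuous a') (hb' : Continuous b') (hc' : Continuous c')
    (hu : Continuous u) (hv : Continuous v) (hu' : Continuous u') (hv' : Continuous v')
    (hpos : ∀ s, 0 < a s) (hdet : ∀ s, a s * c s - b s ^ 2 = 1)
    (hMa : ∀ s ∈ Icc 0 (2 * Real.pi), |a s| ≤ M ∧ |b s| ≤ M ∧ |c s| ≤ M)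
    (hMa' : ∀ s ∈ Icc 0 (2 * Real.pi), |a' s| ≤ M ∧ |b' s| ≤ M ∧ |c' s| ≤ M)
    (hHu : ∀ s ∈ Icc 0 (2 * Real.pi), Complex.normSq (u s) ≤ H ∧ Complex.normSq (u' s) ≤ H)
    (h1 : ∫ s in (0 : ℝ)..(2 * Real.pi), ip (v s) (app (a s) (b s) (c s) (u s - v s)) = 0)
    (h2 : ∫ s in (0 : ℝ)..(2 * Real.pi), ip (v' s) (app (a' s) (b' s) (c' s) (u s - v s) +
      app (a s) (b s) (c s) (u' s - v' s)) = 0) :
    ∫ s in (0 : ℝ)..(2 * Real.pi), Complex.normSq (app (a' s) (b' s) (c' s) (u s - v s) +
      app (a s) (b s) (c s) (u' s - v' s)) ≤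
      4 * (4 * M ^ 2) * (2 * Real.pi * (2 * H) + (2 * M) ^ 2 * (4 * M ^ 2 * H) * (2 * Real.pi) +
        (2 * M) ^ 2 * ((4 * (4 * M ^ 2) * H + 2 * (4 * M ^ 2) * H) * (2 * Real.pi) +
          4 * (4 * M ^ 2) * ((2 * M) ^ 2 * (4 * M ^ 2 * H) * (2 * Real.pi)))) := by
  have hnv : Continuous fun s => Complex.normSq (v s) := Complex.continuous_normSq.comp hv
  have hnv' : Continuous fun s => Complex.normSq (v' s) := Complex.continuous_normSq.comp hv'
  have hy : Continuous fun s => app (a s) (b s) (c s) (u s - v s) := gal_app_cont ha hb hc (hu.sub hv)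
  have hy1 : Continuous fun s => app (a' s) (b' s) (c' s) (u s - v s) :=
    gal_app_cont ha' hb' hc' (hu.sub hv)
  have hy2 : Continuous fun s => app (a s) (b s) (c s) (u' s - v' s) :=
    gal_app_cont ha hb hc (hu'.sub hv')
  have hy' := hy1.add hy2
  obtain ⟨K, hK⟩ : ∃ K : ℝ, K = 4 * M ^ 2 := ⟨_, rfl⟩
  have hK0 : 0 ≤ K := by rw [hK]; positivity
  obtain ⟨S, hS⟩ : ∃ S : ℝ, S = 2 * M := ⟨_, rfl⟩
  have hSac : ∀ s ∈ Icc 0 (2 * Real.pi), a s + c s ≤ S := by
    intro s hs
    have h := hMa s hs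
    rw [hS]
    linarith [(abs_le.1 h.1).2, (abs_le.1 h.2.2).2]
  rw [← hK, ← hS]
  obtain ⟨X1, hX1⟩ : ∃ X : ℝ, X = ∫ s in (0 : ℝ)..(2 * Real.pi), Complex.normSq (v s) := ⟨_, rfl⟩
  obtain ⟨X2, hX2⟩ : ∃ X : ℝ, X = ∫ s in (0 : ℝ)..(2 * Real.pi), Complex.normSq (v' s) := ⟨_, rfl⟩
  -- first estimate
  have e1 : X1 ≤ S ^ 2 * (K * H) * (2 * Real.pi) := by
    have k1 : X1 ≤ ∫ s in (0 : ℝ)..(2 * Real.pi), (1 / 2 * Complex.normSq (v s) +
        S ^ 2 / 2 * (K * H) - S * ip (v s) (app (a s) (b s) (c s) (u s - v s))) := by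
      rw [hX1]
      refine gal_int_le hnv (((continuous_const.mul hnv).add continuous_const).sub
        (continuous_const.mul (gal_ip_cont hv hy))) ?_
      intro s hs
      have l1 := gal_lower (hdet s) (hpos s) (hSac s hs) (v s)
      have l2 := gal_young S (v s) (app (a s) (b s) (c s) (u s))
      have hm := hMa s hs
      have l3 := gal_upper hm.1 hm.2.1 hm.2.2 (u s)
      rw [← hK] at l3
      have l4 : K * Complex.normSq (u s) ≤ K * H := mul_le_mul_of_nonneg_left (hHu s hs).1 hK0
      have l5 : S ^ 2 / 2 * Complex.normSq (app (a s) (b s) (c s) (u s)) ≤ S ^ 2 / 2 * (K * H) :=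
        mul_le_mul_of_nonneg_left (l3.trans l4) (by positivity)
      have l6 : ip (v s) (app (a s) (b s) (c s) (u s - v s)) =
          ip (v s) (app (a s) (b s) (c s) (u s)) - ip (v s) (app (a s) (b s) (c s) (v s)) := by
        rw [gal_app_sub, gal_ip_sub]
      rw [l6]
      linarith
    rw [intervalIntegral.integral_sub, intervalIntegral.integral_add] at k1
    · simp only [intervalIntegral.integral_const_mul, intervalIntegral.integral_const] at k1
      rw [h1, ← hX1] at k1
      simp only [sub_zero, smul_eq_mul, mul_zero] at k1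
      linarith
    · exact (continuous_const.mul hnv).intervalIntegrable _ _
    · exact continuous_const.intervalIntegrable _ _
    · exact ((continuous_const.mul hnv).add continuous_const).intervalIntegrable _ _
    · exact (continuous_const.mul (gal_ip_cont hv hy)).intervalIntegrable _ _
  -- second estimate
  have e2 : X2 ≤ S ^ 2 * ((4 * K * H + 2 * K * H) * (2 * Real.pi) + 4 * K * X1) := by
    have k1 : X2 ≤ ∫ s in (0 : ℝ)..(2 * Real.pi), (1 / 2 * Complex.normSq (v' s) +
        S ^ 2 / 2 * (4 * K * H + 2 * K * H) + S ^ 2 / 2 * (4 * K) * Complex.normSq (v s) -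
        S * ip (v' s) (app (a' s) (b' s) (c' s) (u s - v s) +
          app (a s) (b s) (c s) (u' s - v' s))) := by
      rw [hX2]
      refine gal_int_le hnv' ((((continuous_const.mul hnv').add continuous_const).add
        (continuous_const.mul hnv)).sub (continuous_const.mul (gal_ip_cont hv' hy'))) ?_
      intro s hs
      have l1 := gal_lower (hdet s) (hpos s) (hSac s hs) (v' s)
      have l2 := gal_young S (v' s) (app (a' s) (b' s) (c' s) (u s - v s) + app (a s) (b s) (c s) (u' s))
      have hm := hMa s hs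
      have hm' := hMa' s hs
      have l3 := gal_upper hm.1 hm.2.1 hm.2.2 (u' s)
      have l3' := gal_upper hm'.1 hm'.2.1 hm'.2.2 (u s - v s)
      rw [← hK] at l3 l3'
      have l4 : K * Complex.normSq (u' s) ≤ K * H := mul_le_mul_of_nonneg_left (hHu s hs).2 hK0
      have l4' : K * Complex.normSq (u s - v s) ≤ K * (2 * H + 2 * Complex.normSq (v s)) := by
        refine mul_le_mul_of_nonneg_left ((gal_sub2 (u s) (v s)).trans ?_) hK0
        linarith [(hHu s hs).1]
      have l5 := gal_sum2 (app (a' s) (b' s) (c' s) (u s - v s)) (app (a s) (b s) (c s) (u' s))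
      have l6 : Complex.normSq (app (a' s) (b' s) (c' s) (u s - v s) + app (a s) (b s) (c s) (u' s)) ≤
          4 * K * H + 2 * K * H + 4 * K * Complex.normSq (v s) := by linarith
      have l7 := mul_le_mul_of_nonneg_left l6 (show 0 ≤ S ^ 2 / 2 by positivity)
      have l8 : ip (v' s) (app (a' s) (b' s) (c' s) (u s - v s) +
          app (a s) (b s) (c s) (u' s - v' s)) =
          ip (v' s) (app (a' s) (b' s) (c' s) (u s - v s) + app (a s) (b s) (c s) (u' s)) -
            ip (v' s) (app (a s) (b s) (c s) (v' s)) := by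
        rw [gal_app_sub (a s) (b s) (c s) (u' s) (v' s), ← gal_ip_sub]
        congr 1
        ring
      rw [l8]
      linarith
    rw [intervalIntegral.integral_sub, intervalIntegral.integral_add,
      intervalIntegral.integral_add] at k1
    · simp only [intervalIntegral.integral_const_mul, intervalIntegral.integral_const] at k1
      rw [h2, ← hX1, ← hX2] at k1
      simp only [sub_zero, smul_eq_mul, mul_zero] at k1
      linarith
    · exact (continuous_const.mul hnv').intervalIntegrable _ _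
    · exact continuous_const.intervalIntegrable _ _
    · exact ((continuous_const.mul hnv').add continuous_const).intervalIntegrable _ _
    · exact (continuous_const.mul hnv).intervalIntegrable _ _
    · exact (((continuous_const.mul hnv').add continuous_const).add
        (continuous_const.mul hnv)).intervalIntegrable _ _
    · exact (continuous_const.mul (gal_ip_cont hv' hy')).intervalIntegrable _ _
  -- third estimate
  have e3 : ∫ s in (0 : ℝ)..(2 * Real.pi), Complex.normSq (app (a' s) (b' s) (c' s) (u s - v s) +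
      app (a s) (b s) (c s) (u' s - v' s)) ≤
      ∫ s in (0 : ℝ)..(2 * Real.pi), (4 * K * (2 * H) + 4 * K * Complex.normSq (v s) +
        4 * K * Complex.normSq (v' s)) := by
    refine gal_int_le (Complex.continuous_normSq.comp hy') ((continuous_const.add
      (continuous_const.mul hnv)).add (continuous_const.mul hnv')) ?_
    intro s hs
    have hm := hMa s hs
    have hm' := hMa' s hs
    have l3 := gal_upper hm.1 hm.2.1 hm.2.2 (u' s - v' s)
    have l3' := gal_upper hm'.1 hm'.2.1 hm'.2.2 (u s - v s)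
    rw [← hK] at l3 l3'
    have l5 := gal_sum2 (app (a' s) (b' s) (c' s) (u s - v s)) (app (a s) (b s) (c s) (u' s - v' s))
    have l4 : K * Complex.normSq (u' s - v' s) ≤ K * (2 * H + 2 * Complex.normSq (v' s)) := by
      refine mul_le_mul_of_nonneg_left ((gal_sub2 (u' s) (v' s)).trans ?_) hK0
      linarith [(hHu s hs).2]
    have l4' : K * Complex.normSq (u s - v s) ≤ K * (2 * H + 2 * Complex.normSq (v s)) := by
      refine mul_le_mul_of_nonneg_left ((gal_sub2 (u s) (v s)).trans ?_) hK0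
      linarith [(hHu s hs).1]
    linarith
  rw [intervalIntegral.integral_add, intervalIntegral.integral_add] at e3
  · simp only [intervalIntegral.integral_const_mul, intervalIntegral.integral_const] at e3
    rw [← hX1, ← hX2] at e3
    simp only [sub_zero, smul_eq_mul] at e3
    have e4 : 4 * K * X1 ≤ 4 * K * (S ^ 2 * (K * H) * (2 * Real.pi)) :=
      mul_le_mul_of_nonneg_left e1 (by positivity)
    have e5 : S ^ 2 * ((4 * K * H + 2 * K * H) * (2 * Real.pi) + 4 * K * X1) ≤
        S ^ 2 * ((4 * K * H + 2 * K * H) * (2 * Real.pi) +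
          4 * K * (S ^ 2 * (K * H) * (2 * Real.pi))) :=
      mul_le_mul_of_nonneg_left (by linarith) (by positivity)
    have e6 : 4 * K * X2 ≤ 4 * K * (S ^ 2 * ((4 * K * H + 2 * K * H) * (2 * Real.pi) +
          4 * K * (S ^ 2 * (K * H) * (2 * Real.pi)))) :=
      mul_le_mul_of_nonneg_left (e2.trans e5) (by positivity)
    linarith
  · exact continuous_const.intervalIntegrable _ _
  · exact (continuous_const.mul hnv).intervalIntegrable _ _
  · exact (continuous_const.add (continuous_const.mul hnv)).intervalIntegrable _ _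
  · exact (continuous_const.mul hnv').intervalIntegrable _ _

/-! ### trigonometric polynomials -/

private noncomputable def tpc (N : ℕ) (c : Fin N → ℂ) (s : ℝ) : ℂ :=
  ∑ k : Fin N, c k * Complex.exp (Complex.I * (((k : ℕ) : ℂ) + 1) * s)

private theorem tpc_deriv (N : ℕ) (c : Fin N → ℂ) (s : ℝ) :
    HasDerivAt (tpc N c) (tpc N (fun k => Complex.I * (((k : ℕ) : ℂ) + 1) * c k) s) s := by
  unfold tpc
  have h : ∀ k ∈ (Finset.univ : Finset (Fin N)), HasDerivAt
      (fun s : ℝ => c k * Complex.exp (Complex.I * (((k : ℕ) : ℂ) + 1) * s))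
      (Complex.I * (((k : ℕ) : ℂ) + 1) * c k *
        Complex.exp (Complex.I * (((k : ℕ) : ℂ) + 1) * s)) s := by
    intro k _
    have h1 : HasDerivAt (fun s : ℝ => (s : ℂ)) 1 s := Complex.ofRealCLM.hasDerivAt
    have h2 := (h1.const_mul (Complex.I * (((k : ℕ) : ℂ) + 1))).cexp.const_mul (c k)
    refine h2.congr_deriv ?_
    ring
  have h3 := HasDerivAt.sum h
  refine h3.congr_of_eventuallyEq ?_
  exact Filter.Eventually.of_forall (fun x => by simp [Finset.sum_apply])

private theorem tpc_cont (N : ℕ) (c : Fin N → ℂ) : Continuous (tpc N c) :=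
  continuous_iff_continuousAt.2 (fun s => (tpc_deriv N c s).continuousAt)

private theorem tpc_contDiff (N : ℕ) (c : Fin N → ℂ) : ContDiff ℝ 1 (tpc N c) := by
  rw [contDiff_one_iff_deriv]
  refine ⟨fun s => (tpc_deriv N c s).differentiableAt, ?_⟩
  have : deriv (tpc N c) = tpc N (fun k => Complex.I * (((k : ℕ) : ℂ) + 1) * c k) := by
    ext s
    exact (tpc_deriv N c s).deriv
  rw [this]
  exact tpc_cont _ _

private theorem gal_exp_per (n : ℤ) (s : ℝ) :
    Complex.exp (Complex.I * n * ((s + 2 * Real.pi : ℝ) : ℂ)) = Complex.exp (Complex.I * n * s) := by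
  have e : Complex.I * n * ((s + 2 * Real.pi : ℝ) : ℂ) =
      Complex.I * n * s + n * (2 * Real.pi * Complex.I) := by
    push_cast
    ring
  rw [e, Complex.exp_add, Complex.exp_int_mul_two_pi_mul_I, mul_one]

private theorem tpc_per (N : ℕ) (c : Fin N → ℂ) (s : ℝ) :
    tpc N c (s + 2 * Real.pi) = tpc N c s := by
  unfold tpc
  refine Finset.sum_congr rfl (fun k _ => ?_)
  have h := gal_exp_per ((k : ℕ) + 1 : ℤ) s
  push_cast at h ⊢
  rw [h]

private theorem gal_four (n m : ℤ) : ∫ s in (0 : ℝ)..(2 * Real.pi),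
    Complex.exp (-(Complex.I * n * s)) * Complex.exp (Complex.I * m * s) =
      if n = m then ((2 * Real.pi : ℝ) : ℂ) else 0 := by
  have e : ∀ s : ℝ, Complex.exp (-(Complex.I * n * s)) * Complex.exp (Complex.I * m * s) =
      Complex.exp ((Complex.I * ((m - n : ℤ) : ℂ)) * s) := by
    intro s
    rw [← Complex.exp_add]
    congr 1
    push_cast
    ring
  simp only [e]
  split_ifs with h
  · rw [h]
    simp
  · have hne : Complex.I * ((m - n : ℤ) : ℂ) ≠ 0 := by
      refine mul_ne_zero Complex.I_ne_zero ?_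
      have : m - n ≠ 0 := fun h' => h (by omega)
      exact_mod_cast this
    rw [integral_exp_mul_complex hne]
    have h2 := gal_exp_per (m - n) 0
    rw [zero_add] at h2
    rw [h2, sub_self, zero_div]

private theorem gal_e_cont (n : ℂ) {y : ℝ → ℂ} (hy : Continuous y) :
    Continuous fun s : ℝ => Complex.exp (-(Complex.I * n * s)) * y s := by
  refine Continuous.mul ?_ hy
  exact Complex.continuous_exp.comp ((continuous_const.mul Complex.continuous_ofReal).neg)

private theorem tpc_four (N : ℕ) (c : Fin N → ℂ) (n : ℤ) : ∫ s in (0 : ℝ)..(2 * Real.pi),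
    Complex.exp (-(Complex.I * n * s)) * tpc N c s =
      ∑ k : Fin N, c k * (if n = ((k : ℕ) : ℤ) + 1 then ((2 * Real.pi : ℝ) : ℂ) else 0) := by
  have e : ∀ s : ℝ, Complex.exp (-(Complex.I * n * s)) * tpc N c s =
      ∑ k : Fin N, c k * (Complex.exp (-(Complex.I * n * s)) *
        Complex.exp (Complex.I * ((((k : ℕ) : ℤ) + 1 : ℤ) : ℂ) * s)) := by
    intro s
    unfold tpc
    rw [Finset.mul_sum]
    refine Finset.sum_congr rfl (fun k _ => ?_)
    push_cast
    ring
  simp only [e]
  rw [intervalIntegral.integral_finsetSum]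
  · refine Finset.sum_congr rfl (fun k _ => ?_)
    rw [intervalIntegral.integral_const_mul, gal_four]
  · intro k _
    refine Continuous.intervalIntegrable ?_ _ _
    refine continuous_const.mul (gal_e_cont _ ?_)
    exact Complex.continuous_exp.comp (continuous_const.mul Complex.continuous_ofReal)

private theorem gal_ip_eq (z w : ℂ) : ip z w = ((starRingEnd ℂ) z * w).re := by
  unfold ip
  simp [Complex.mul_re]

private theorem gal_ipint (N : ℕ) (c : Fin N → ℂ) {y : ℝ → ℂ} (hy : Continuous y) :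
    ∫ s in (0 : ℝ)..(2 * Real.pi), ip (tpc N c s) (y s) =
      (∑ k : Fin N, (starRingEnd ℂ) (c k) * ∫ s in (0 : ℝ)..(2 * Real.pi),
        Complex.exp (-(Complex.I * (((k : ℕ) + 1 : ℕ) : ℂ) * s)) * y s).re := by
  have e : ∀ s : ℝ, ip (tpc N c s) (y s) = Complex.reCLM (∑ k : Fin N, (starRingEnd ℂ) (c k) *
      (Complex.exp (-(Complex.I * (((k : ℕ) + 1 : ℕ) : ℂ) * s)) * y s)) := by
    intro s
    rw [gal_ip_eq]
    unfold tpc
    rw [map_sum, Finset.sum_mul, Complex.reCLM_apply]
    congr 1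
    refine Finset.sum_congr rfl (fun k _ => ?_)
    rw [map_mul, ← Complex.exp_conj, mul_assoc]
    congr 3
    simp only [map_mul, Complex.conj_I, map_add, map_one, Complex.conj_ofReal, Complex.conj_natCast]
    push_cast
    ring
  simp only [e]
  have hc : ∀ k : Fin N, Continuous fun s : ℝ => (starRingEnd ℂ) (c k) *
      (Complex.exp (-(Complex.I * (((k : ℕ) + 1 : ℕ) : ℂ) * s)) * y s) :=
    fun k => continuous_const.mul (gal_e_cont _ hy)
  rw [ContinuousLinearMap.intervalIntegral_comp_comm Complex.reCLM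
    ((continuous_finsetSum _ (fun k _ => hc k)).intervalIntegrable _ _)]
  rw [Complex.reCLM_apply, intervalIntegral.integral_finsetSum
    (fun k _ => (hc k).intervalIntegrable _ _)]
  simp only [intervalIntegral.integral_const_mul]

/-! ### the linear map -/

private noncomputable def galY (a b c : ℝ → ℝ) (eta : Fin 3 → ℝ → ℂ) (N : ℕ)
    (p : (Fin 3 → ℝ) × (Fin N → ℂ)) (s : ℝ) : ℂ :=
  app (a s) (b s) (c s) (∑ i, (p.1 i : ℂ) * eta i s - tpc N p.2 s)

private theorem galY_cont {a b c : ℝ → ℝ} {eta : Fin 3 → ℝ → ℂ} {N : ℕ} (ha : Continuous a)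
    (hb : Continuous b) (hc : Continuous c) (he : ∀ i, Continuous (eta i))
    (p : (Fin 3 → ℝ) × (Fin N → ℂ)) : Continuous (galY a b c eta N p) := by
  unfold galY
  refine gal_app_cont ha hb hc (Continuous.sub ?_ (tpc_cont _ _))
  exact continuous_finsetSum _ (fun i _ => continuous_const.mul (he i))

private theorem galY_add (a b c : ℝ → ℝ) (eta : Fin 3 → ℝ → ℂ) (N : ℕ)
    (p q : (Fin 3 → ℝ) × (Fin N → ℂ)) (s : ℝ) :
    galY a b c eta N (p + q) s = galY a b c eta N p s + galY a b c eta N q s := by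
  unfold galY
  rw [← gal_app_add]
  congr 1
  unfold tpc
  simp only [Prod.fst_add, Prod.snd_add, Pi.add_apply, Complex.ofReal_add, add_mul,
    Finset.sum_add_distrib]
  ring

private theorem galY_smul (a b c : ℝ → ℝ) (eta : Fin 3 → ℝ → ℂ) (N : ℕ)
    (r : ℝ) (p : (Fin 3 → ℝ) × (Fin N → ℂ)) (s : ℝ) :
    galY a b c eta N (r • p) s = r • galY a b c eta N p s := by
  unfold galY
  rw [← gal_app_smul]
  congr 1
  unfold tpc
  rw [smul_sub, Finset.smul_sum, Finset.smul_sum]
  congr 1
  · refine Finset.sum_congr rfl (fun i _ => ?_)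
    simp only [Prod.smul_fst, Pi.smul_apply, smul_eq_mul, Complex.ofReal_mul, Complex.real_smul]
    ring
  · refine Finset.sum_congr rfl (fun i _ => ?_)
    simp only [Prod.smul_snd, Pi.smul_apply, Complex.real_smul]
    ring

private theorem gal_kernel {a b c : ℝ → ℝ} {eta : Fin 3 → ℝ → ℂ} {N : ℕ} (ha : Continuous a)
    (hb : Continuous b) (hc : Continuous c) (he : ∀ i, Continuous (eta i)) :
    ∃ p : (Fin 3 → ℝ) × (Fin N → ℂ), p ≠ 0 ∧ ∀ n : ℕ, n ≤ N →
      ∫ s in (0 : ℝ)..(2 * Real.pi), Complex.exp (-(Complex.I * (n : ℂ) * s)) *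
        galY a b c eta N p s = 0 := by
  let Φ : ((Fin 3 → ℝ) × (Fin N → ℂ)) →ₗ[ℝ] (Fin (N + 1) → ℂ) :=
    { toFun := fun p n => ∫ s in (0 : ℝ)..(2 * Real.pi),
        Complex.exp (-(Complex.I * ((n : ℕ) : ℂ) * s)) * galY a b c eta N p s
      map_add' := by
        intro p q
        funext n
        simp only [Pi.add_apply]
        rw [← intervalIntegral.integral_add
          ((gal_e_cont _ (galY_cont ha hb hc he p)).intervalIntegrable _ _)
          ((gal_e_cont _ (galY_cont ha hb hc he q)).intervalIntegrable _ _)]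
        refine intervalIntegral.integral_congr (fun s _ => ?_)
        simp only [galY_add]
        ring
      map_smul' := by
        intro r p
        funext n
        simp only [Pi.smul_apply, RingHom.id_apply]
        rw [← intervalIntegral.integral_smul]
        refine intervalIntegral.integral_congr (fun s _ => ?_)
        simp only [galY_smul, Complex.real_smul]
        ring }
  have hdim : Module.finrank ℝ (Fin (N + 1) → ℂ) <
      Module.finrank ℝ ((Fin 3 → ℝ) × (Fin N → ℂ)) := by
    rw [Module.finrank_prod, Module.finrank_pi_fintype, Module.finrank_pi_fintype,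
      Module.finrank_pi_fintype]
    simp only [Complex.finrank_real_complex, Module.finrank_self, Finset.sum_const,
      Finset.card_univ, Fintype.card_fin, smul_eq_mul]
    omega
  have hker := LinearMap.ker_ne_bot_of_finrank_lt (f := Φ) hdim
  obtain ⟨p, hp, hp0⟩ := Submodule.exists_mem_ne_zero_of_ne_bot hker
  refine ⟨p, hp0, fun n hn => ?_⟩
  have h1 : Φ p = 0 := LinearMap.mem_ker.1 hp
  have h2 := congrFun h1 ⟨n, by omega⟩
  exact h2

/-! ### the main statement -/

private theorem gal_bound {f : ℝ → ℝ} (hf : Continuous f) :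
    ∃ M : ℝ, ∀ s ∈ Icc 0 (2 * Real.pi), |f s| ≤ M := by
  obtain ⟨M, hM⟩ := (isCompact_Icc (a := (0 : ℝ)) (b := 2 * Real.pi)).exists_bound_of_continuousOn
    hf.continuousOn
  exact ⟨M, fun s hs => by
    have := hM s hs
    rwa [Real.norm_eq_abs] at this⟩

theorem gal (a b c : ℝ → ℝ) (ha : ContDiff ℝ 1 a) (hb : ContDiff ℝ 1 b) (hc : ContDiff ℝ 1 c)
    (hap : ∀ s, a (s + 2 * Real.pi) = a s) (hbp : ∀ s, b (s + 2 * Real.pi) = b s)
    (hcp : ∀ s, c (s + 2 * Real.pi) = c s) (hpos : ∀ s, 0 < a s) (hdet : ∀ s, a s * c s - b s ^ 2 = 1)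
    (eta : Fin 3 → ℝ → ℂ) (he : ∀ i, ContDiff ℝ 1 (eta i)) (hep : ∀ i s, eta i (s + 2 * Real.pi) = eta i s) :
    ∃ C : ℝ, ∀ N : ℕ, 1 ≤ N → ∃ t : Fin 3 → ℝ, (∑ i, t i ^ 2 = 1) ∧ ∃ eps : ℝ → ℂ,
      ContDiff ℝ 1 eps ∧ (∀ s, eps (s + 2 * Real.pi) = eps s) ∧
      (∀ n : ℤ, n ≤ 0 → ∫ s in (0 : ℝ)..(2 * Real.pi), Complex.exp (-(Complex.I * n * s)) * eps s = 0) ∧
      (∀ n : ℕ, n ≤ N → ∫ s in (0 : ℝ)..(2 * Real.pi), Complex.exp (-(Complex.I * n * s))
        * app (a s) (b s) (c s) (∑ i, (t i : ℂ) * eta i s - eps s) = 0) ∧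
      ∫ s in (0 : ℝ)..(2 * Real.pi), Complex.normSq
        (deriv (fun s => app (a s) (b s) (c s) (∑ i, (t i : ℂ) * eta i s - eps s)) s) ≤ C := by
  have ha0 := ha.continuous
  have hb0 := hb.continuous
  have hc0 := hc.continuous
  have he0 := fun i => (he i).continuous
  have ha1 : Continuous (deriv a) := ha.continuous_deriv le_rfl
  have hb1 : Continuous (deriv b) := hb.continuous_deriv le_rfl
  have hc1 : Continuous (deriv c) := hc.continuous_deriv le_rfl
  have he1 : ∀ i, Continuous (deriv (eta i)) := fun i => (he i).continuous_deriv le_rfl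
  have ha2 : ∀ s, HasDerivAt a (deriv a s) s := fun s => (ha.differentiable one_ne_zero s).hasDerivAt
  have hb2 : ∀ s, HasDerivAt b (deriv b s) s := fun s => (hb.differentiable one_ne_zero s).hasDerivAt
  have hc2 : ∀ s, HasDerivAt c (deriv c s) s := fun s => (hc.differentiable one_ne_zero s).hasDerivAt
  have he2 : ∀ i s, HasDerivAt (eta i) (deriv (eta i) s) s :=
    fun i s => ((he i).differentiable one_ne_zero s).hasDerivAt
  -- the common bound
  obtain ⟨M, hM⟩ := gal_bound (f := fun s => |a s| + |b s| + |c s| + |deriv a s| + |deriv b s| +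
    |deriv c s| + ∑ i, (‖eta i s‖ + ‖deriv (eta i) s‖)) (by
      have h7 : Continuous fun s => ∑ i, (‖eta i s‖ + ‖deriv (eta i) s‖) :=
        continuous_finsetSum _ (fun i _ => (he0 i).norm.add (he1 i).norm)
      exact (((((ha0.abs.add hb0.abs).add hc0.abs).add ha1.abs).add hb1.abs).add hc1.abs).add h7)
  have hsum0 : ∀ s, 0 ≤ ∑ i, (‖eta i s‖ + ‖deriv (eta i) s‖) := fun s =>
    Finset.sum_nonneg (fun i _ => add_nonneg (norm_nonneg _) (norm_nonneg _))
  have hM' : ∀ s ∈ Icc 0 (2 * Real.pi), |a s| + |b s| + |c s| + |deriv a s| + |deriv b s| +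
    |deriv c s| + ∑ i, (‖eta i s‖ + ‖deriv (eta i) s‖) ≤ M := fun s hs => (abs_le.1 (hM s hs)).2
  have hM0 : 0 ≤ M := le_trans (abs_nonneg _) (hM 0 ⟨le_rfl, Real.two_pi_pos.le⟩)
  have hMa : ∀ s ∈ Icc 0 (2 * Real.pi), |a s| ≤ M ∧ |b s| ≤ M ∧ |c s| ≤ M := by
    intro s hs
    have h := hM' s hs
    have h0 := hsum0 s
    have := abs_nonneg (a s)
    have := abs_nonneg (b s)
    have := abs_nonneg (c s)
    have := abs_nonneg (deriv a s)
    have := abs_nonneg (deriv b s)
    have := abs_nonneg (deriv c s)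
    refine ⟨?_, ?_, ?_⟩ <;> linarith
  have hMa' : ∀ s ∈ Icc 0 (2 * Real.pi), |deriv a s| ≤ M ∧ |deriv b s| ≤ M ∧ |deriv c s| ≤ M := by
    intro s hs
    have h := hM' s hs
    have h0 := hsum0 s
    have := abs_nonneg (a s)
    have := abs_nonneg (b s)
    have := abs_nonneg (c s)
    have := abs_nonneg (deriv a s)
    have := abs_nonneg (deriv b s)
    have := abs_nonneg (deriv c s)
    refine ⟨?_, ?_, ?_⟩ <;> linarith
  have hMe : ∀ s ∈ Icc 0 (2 * Real.pi), ∑ i, ‖eta i s‖ ≤ M ∧ ∑ i, ‖deriv (eta i) s‖ ≤ M := by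
    intro s hs
    have h := hM' s hs
    rw [Finset.sum_add_distrib] at h
    have h1 : 0 ≤ ∑ i, ‖eta i s‖ := Finset.sum_nonneg (fun i _ => norm_nonneg _)
    have h2 : 0 ≤ ∑ i, ‖deriv (eta i) s‖ := Finset.sum_nonneg (fun i _ => norm_nonneg _)
    have := abs_nonneg (a s)
    have := abs_nonneg (b s)
    have := abs_nonneg (c s)
    have := abs_nonneg (deriv a s)
    have := abs_nonneg (deriv b s)
    have := abs_nonneg (deriv c s)
    constructor <;> linarith
  refine ⟨4 * (4 * M ^ 2) * (2 * Real.pi * (2 * M ^ 2) + (2 * M) ^ 2 * (4 * M ^ 2 * M ^ 2) * (2 * Real.pi) +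
        (2 * M) ^ 2 * ((4 * (4 * M ^ 2) * M ^ 2 + 2 * (4 * M ^ 2) * M ^ 2) * (2 * Real.pi) +
          4 * (4 * M ^ 2) * ((2 * M) ^ 2 * (4 * M ^ 2 * M ^ 2) * (2 * Real.pi)))), ?_⟩
  intro N _
  obtain ⟨p, hp0, hp⟩ := gal_kernel (N := N) ha0 hb0 hc0 he0
  -- the real parameters do not vanish
  have hp1 : p.1 ≠ 0 := by
    intro h
    apply hp0
    have hzero : ∀ s, galY a b c eta N p s = - app (a s) (b s) (c s) (tpc N p.2 s) := by
      intro s
      unfold galY
      rw [h]
      simp only [Pi.zero_apply, Complex.ofReal_zero, zero_mul, Finset.sum_const_zero]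
      rw [gal_app_sub]
      have : app (a s) (b s) (c s) 0 = 0 := by
        unfold app
        apply Complex.ext <;> simp
      rw [this, zero_sub]
    have h1 := gal_ipint N p.2 (galY_cont ha0 hb0 hc0 he0 p)
    have h2 : ∀ k : Fin N, ∫ s in (0 : ℝ)..(2 * Real.pi),
        Complex.exp (-(Complex.I * (((k : ℕ) + 1 : ℕ) : ℂ) * s)) * galY a b c eta N p s = 0 :=
      fun k => hp (k + 1) (by have := k.2; omega)
    simp only [h2, mul_zero, Finset.sum_const_zero, Complex.zero_re] at h1
    have hyc : Continuous fun s => app (a s) (b s) (c s) (tpc N p.2 s) :=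
      gal_app_cont ha0 hb0 hc0 (tpc_cont _ _)
    have h3 : ∫ s in (0 : ℝ)..(2 * Real.pi), ip (tpc N p.2 s)
        (app (a s) (b s) (c s) (tpc N p.2 s)) = 0 := by
      have e : ∀ s, ip (tpc N p.2 s) (galY a b c eta N p s) =
          - ip (tpc N p.2 s) (app (a s) (b s) (c s) (tpc N p.2 s)) := by
        intro s
        rw [hzero s]
        unfold ip
        simp only [Complex.neg_re, Complex.neg_im]
        ring
      simp only [e] at h1
      rw [intervalIntegral.integral_neg] at h1
      linarith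
    have h4 : ∫ s in (0 : ℝ)..(2 * Real.pi), Complex.normSq (tpc N p.2 s) ≤ 0 := by
      have h5 : ∫ s in (0 : ℝ)..(2 * Real.pi), Complex.normSq (tpc N p.2 s) ≤
          ∫ s in (0 : ℝ)..(2 * Real.pi), 2 * M * ip (tpc N p.2 s)
            (app (a s) (b s) (c s) (tpc N p.2 s)) := by
        refine gal_int_le (Complex.continuous_normSq.comp (tpc_cont _ _))
          (continuous_const.mul (gal_ip_cont (tpc_cont _ _) hyc)) ?_
        intro s hs
        refine gal_lower (hdet s) (hpos s) ?_ _
        have h := hMa s hs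
        linarith [(abs_le.1 h.1).2, (abs_le.1 h.2.2).2]
      rw [intervalIntegral.integral_const_mul, h3, mul_zero] at h5
      exact h5
    have h6 := gal_ipint N p.2 (tpc_cont N p.2)
    have h7 : ∀ s, ip (tpc N p.2 s) (tpc N p.2 s) = Complex.normSq (tpc N p.2 s) := by
      intro s
      unfold ip
      rw [Complex.normSq_apply]
    simp only [h7] at h6
    have h8 : ∀ k : Fin N, ∫ s in (0 : ℝ)..(2 * Real.pi),
        Complex.exp (-(Complex.I * (((k : ℕ) + 1 : ℕ) : ℂ) * s)) * tpc N p.2 s =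
          p.2 k * ((2 * Real.pi : ℝ) : ℂ) := by
      intro k
      have h9 := tpc_four N p.2 (((k : ℕ) + 1 : ℕ) : ℤ)
      rw [Int.cast_natCast] at h9
      rw [h9, Finset.sum_eq_single k]
      · rw [if_pos (by push_cast; rfl)]
      · intro j _ hj
        rw [if_neg, mul_zero]
        intro h'
        apply hj
        apply Fin.ext
        omega
      · intro h'
        exact absurd (Finset.mem_univ k) h'
    simp only [h8] at h6
    have h10 : (∑ k : Fin N, (starRingEnd ℂ) (p.2 k) * (p.2 k * ((2 * Real.pi : ℝ) : ℂ))).re =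
        (2 * Real.pi) * ∑ k : Fin N, Complex.normSq (p.2 k) := by
      rw [Complex.re_sum, Finset.mul_sum]
      refine Finset.sum_congr rfl (fun k _ => ?_)
      rw [← mul_assoc, ← Complex.normSq_eq_conj_mul_self, ← Complex.ofReal_mul, Complex.ofReal_re]
      ring
    rw [h10] at h6
    have h11 : ∑ k : Fin N, Complex.normSq (p.2 k) ≤ 0 := by
      have h12 : (2 * Real.pi) * ∑ k : Fin N, Complex.normSq (p.2 k) ≤ 0 := by
        rw [← h6]
        exact h4
      by_contra h13
      push Not at h13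
      have := mul_pos Real.two_pi_pos h13
      linarith
    have h14 : ∀ k : Fin N, p.2 k = 0 := by
      intro k
      have h15 : Complex.normSq (p.2 k) ≤ ∑ k : Fin N, Complex.normSq (p.2 k) :=
        Finset.single_le_sum (f := fun k => Complex.normSq (p.2 k))
          (fun i _ => Complex.normSq_nonneg _) (Finset.mem_univ k)
      have h16 := Complex.normSq_nonneg (p.2 k)
      exact Complex.normSq_eq_zero.1 (le_antisymm (h15.trans h11) h16)
    exact Prod.ext h (funext h14)
  -- normalisation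
  have hT : 0 < ∑ i, p.1 i ^ 2 := by
    obtain ⟨i, hi⟩ := Function.ne_iff.1 hp1
    exact Finset.sum_pos' (fun i _ => sq_nonneg _) ⟨i, Finset.mem_univ i, by
      have : p.1 i ≠ 0 := hi
      positivity⟩
  obtain ⟨r, hr⟩ : ∃ r : ℝ, r = (Real.sqrt (∑ i, p.1 i ^ 2))⁻¹ := ⟨_, rfl⟩
  have hr2 : r ^ 2 * ∑ i, p.1 i ^ 2 = 1 := by
    rw [hr, inv_pow, Real.sq_sqrt hT.le]
    exact inv_mul_cancel₀ hT.ne'
  obtain ⟨q, hq⟩ : ∃ q : (Fin 3 → ℝ) × (Fin N → ℂ), q = r • p := ⟨_, rfl⟩
  have hqt : ∑ i, q.1 i ^ 2 = 1 := by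
    rw [hq, ← hr2, Finset.mul_sum]
    refine Finset.sum_congr rfl (fun i _ => ?_)
    simp only [Prod.smul_fst, Pi.smul_apply, smul_eq_mul]
    ring
  have hq0 : ∀ n : ℕ, n ≤ N → ∫ s in (0 : ℝ)..(2 * Real.pi),
      Complex.exp (-(Complex.I * (n : ℂ) * s)) * galY a b c eta N q s = 0 := by
    intro n hn
    have e : ∀ s : ℝ, Complex.exp (-(Complex.I * (n : ℂ) * s)) * galY a b c eta N q s =
        r • (Complex.exp (-(Complex.I * (n : ℂ) * s)) * galY a b c eta N p s) := by
      intro s
      rw [hq, galY_smul]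
      simp only [Complex.real_smul]
      ring
    simp only [e]
    rw [intervalIntegral.integral_smul, hp n hn, smul_zero]
  have hq1 : ∀ i, |q.1 i| ≤ 1 := by
    intro i
    have h1 : q.1 i ^ 2 ≤ ∑ i, q.1 i ^ 2 := Finset.single_le_sum (f := fun i => q.1 i ^ 2)
      (fun i _ => sq_nonneg _) (Finset.mem_univ i)
    rw [hqt] at h1
    exact abs_le_one_iff_mul_self_le_one.2 (by nlinarith)
  have horth : ∀ c' : Fin N → ℂ, ∫ s in (0 : ℝ)..(2 * Real.pi),
      ip (tpc N c' s) (galY a b c eta N q s) = 0 := by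
    intro c'
    rw [gal_ipint N c' (galY_cont ha0 hb0 hc0 he0 q)]
    have h2 : ∀ k : Fin N, ∫ s in (0 : ℝ)..(2 * Real.pi),
        Complex.exp (-(Complex.I * (((k : ℕ) + 1 : ℕ) : ℂ) * s)) * galY a b c eta N q s = 0 :=
      fun k => hq0 (k + 1) (by have := k.2; omega)
    simp only [h2, mul_zero, Finset.sum_const_zero, Complex.zero_re]
  -- the functions of the estimate
  obtain ⟨u, hu⟩ : ∃ u : ℝ → ℂ, u = fun s => ∑ i, (q.1 i : ℂ) * eta i s := ⟨_, rfl⟩
  obtain ⟨u', hu'⟩ : ∃ u' : ℝ → ℂ, u' = fun s => ∑ i, (q.1 i : ℂ) * deriv (eta i) s := ⟨_, rfl⟩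
  have huc : Continuous u := by
    rw [hu]
    exact continuous_finsetSum _ (fun i _ => continuous_const.mul (he0 i))
  have huc' : Continuous u' := by
    rw [hu']
    exact continuous_finsetSum _ (fun i _ => continuous_const.mul (he1 i))
  have hud : ∀ s, HasDerivAt u (u' s) s := by
    intro s
    rw [hu, hu']
    have h3 := HasDerivAt.sum (u := (Finset.univ : Finset (Fin 3)))
      (A := fun i s => (q.1 i : ℂ) * eta i s) (A' := fun i => (q.1 i : ℂ) * deriv (eta i) s)
      (x := s) (fun i _ => (he2 i s).const_mul (q.1 i : ℂ))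
    refine h3.congr_of_eventuallyEq ?_
    exact Filter.Eventually.of_forall (fun x => by simp [Finset.sum_apply])
  have hup : ∀ s, u (s + 2 * Real.pi) = u s := by
    intro s
    rw [hu]
    simp only [hep]
  have hbd : ∀ (f : Fin 3 → ℂ), ∑ i, ‖f i‖ ≤ M → Complex.normSq (∑ i, (q.1 i : ℂ) * f i) ≤ M ^ 2 := by
    intro f hf
    rw [Complex.normSq_eq_norm_sq]
    refine pow_le_pow_left₀ (norm_nonneg _) ?_ 2
    refine (norm_sum_le _ _).trans (le_trans (Finset.sum_le_sum (fun i _ => ?_)) hf)
    rw [norm_mul, Complex.norm_real, Real.norm_eq_abs]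
    calc |q.1 i| * ‖f i‖ ≤ 1 * ‖f i‖ := mul_le_mul_of_nonneg_right (hq1 i) (norm_nonneg _)
      _ = ‖f i‖ := one_mul _
  obtain ⟨d1, hd1⟩ : ∃ d : Fin N → ℂ, d = fun k : Fin N => Complex.I * (((k : ℕ) : ℂ) + 1) * q.2 k := ⟨_, rfl⟩
  obtain ⟨d2, hd2⟩ : ∃ d : Fin N → ℂ, d = fun k : Fin N => Complex.I * (((k : ℕ) : ℂ) + 1) * d1 k := ⟨_, rfl⟩
  have hv1 : ∀ s, HasDerivAt (tpc N q.2) (tpc N d1 s) s := by
    intro s
    rw [hd1]
    exact tpc_deriv N q.2 s
  have hv2 : ∀ s, HasDerivAt (tpc N d1) (tpc N d2 s) s := by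
    intro s
    rw [hd2]
    exact tpc_deriv N d1 s
  have hyd : ∀ s, HasDerivAt (fun s => app (a s) (b s) (c s) (u s - tpc N q.2 s))
      (app (deriv a s) (deriv b s) (deriv c s) (u s - tpc N q.2 s) +
        app (a s) (b s) (c s) (u' s - tpc N d1 s)) s := fun s =>
    gal_app_deriv (ha2 s) (hb2 s) (hc2 s) ((hud s).sub (hv1 s))
  have hyeq : ∀ s, galY a b c eta N q s = app (a s) (b s) (c s) (u s - tpc N q.2 s) := by
    intro s
    rw [hu]
    rfl
  have hyc : Continuous fun s => app (a s) (b s) (c s) (u s - tpc N q.2 s) :=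
    gal_app_cont ha0 hb0 hc0 (huc.sub (tpc_cont _ _))
  have hyc1 : Continuous fun s => app (deriv a s) (deriv b s) (deriv c s) (u s - tpc N q.2 s) +
        app (a s) (b s) (c s) (u' s - tpc N d1 s) :=
    (gal_app_cont ha1 hb1 hc1 (huc.sub (tpc_cont _ _))).add
      (gal_app_cont ha0 hb0 hc0 (huc'.sub (tpc_cont _ _)))
  have horth' : ∀ c' : Fin N → ℂ, ∫ s in (0 : ℝ)..(2 * Real.pi),
      ip (tpc N c' s) (app (a s) (b s) (c s) (u s - tpc N q.2 s)) = 0 := by
    intro c'
    have h := horth c'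
    simp only [hyeq] at h
    exact h
  have hparts : ∫ s in (0 : ℝ)..(2 * Real.pi), ip (tpc N d1 s)
      (app (deriv a s) (deriv b s) (deriv c s) (u s - tpc N q.2 s) +
        app (a s) (b s) (c s) (u' s - tpc N d1 s)) = 0 := by
    have h1 : ∫ s in (0 : ℝ)..(2 * Real.pi), (ip (tpc N d2 s)
        (app (a s) (b s) (c s) (u s - tpc N q.2 s)) + ip (tpc N d1 s)
        (app (deriv a s) (deriv b s) (deriv c s) (u s - tpc N q.2 s) +
        app (a s) (b s) (c s) (u' s - tpc N d1 s))) =
        ip (tpc N d1 (2 * Real.pi)) (app (a (2 * Real.pi)) (b (2 * Real.pi)) (c (2 * Real.pi))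
          (u (2 * Real.pi) - tpc N q.2 (2 * Real.pi))) -
        ip (tpc N d1 0) (app (a 0) (b 0) (c 0) (u 0 - tpc N q.2 0)) := by
      refine intervalIntegral.integral_eq_sub_of_hasDerivAt
        (f := fun s => ip (tpc N d1 s) (app (a s) (b s) (c s) (u s - tpc N q.2 s)))
        (fun s _ => gal_ip_deriv (hv2 s) (hyd s)) ?_
      exact ((gal_ip_cont (tpc_cont _ _) hyc).add
        (gal_ip_cont (tpc_cont _ _) hyc1)).intervalIntegrable _ _
    have e0 : ∀ f : ℝ → ℝ, (∀ s, f (s + 2 * Real.pi) = f s) → f (2 * Real.pi) = f 0 := by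
      intro f hf
      have := hf 0
      rwa [zero_add] at this
    have e1 : ∀ f : ℝ → ℂ, (∀ s, f (s + 2 * Real.pi) = f s) → f (2 * Real.pi) = f 0 := by
      intro f hf
      have := hf 0
      rwa [zero_add] at this
    rw [e0 a hap, e0 b hbp, e0 c hcp, e1 u hup, e1 _ (tpc_per N q.2), e1 _ (tpc_per N d1),
      sub_self, intervalIntegral.integral_add, horth' d2, zero_add] at h1
    · exact h1
    · exact (gal_ip_cont (tpc_cont _ _) hyc).intervalIntegrable _ _
    · exact (gal_ip_cont (tpc_cont _ _) hyc1).intervalIntegrable _ _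
  refine ⟨q.1, hqt, tpc N q.2, tpc_contDiff N q.2, tpc_per N q.2, ?_, ?_, ?_⟩
  · intro n hn
    rw [tpc_four]
    refine Finset.sum_eq_zero (fun k _ => ?_)
    rw [if_neg (by omega), mul_zero]
  · intro n hn
    exact hq0 n hn
  · have hder : ∀ s, deriv (fun s => app (a s) (b s) (c s)
        (∑ i, (q.1 i : ℂ) * eta i s - tpc N q.2 s)) s =
        app (deriv a s) (deriv b s) (deriv c s) (u s - tpc N q.2 s) +
        app (a s) (b s) (c s) (u' s - tpc N d1 s) := by
      intro s
      have h := (hyd s).deriv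
      rw [hu] at h
      rw [hu]
      exact h
    simp only [hder]
    refine gal_est M (M ^ 2) hM0 (by positivity) a b c (deriv a) (deriv b) (deriv c) u (tpc N q.2) u'
      (tpc N d1) ha0 hb0 hc0 ha1 hb1 hc1 huc (tpc_cont _ _) huc' (tpc_cont _ _) hpos hdet hMa hMa'
      ?_ (horth' q.2) hparts
    intro s hs
    rw [hu, hu']
    exact ⟨hbd _ (hMe s hs).1, hbd _ (hMe s hs).2⟩

end Pool.Agent.H1.BP
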