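import Pool.Agent.H1.BP.Defs

/-
ROW Prs.  Parseval inequalities for C^1, 2pi-periodic y : R -> C.  Fourier coefficients yh n = (1/2pi) int_0^{2pi} e^{-ins} y(s) ds.  Parseval: (1/2pi) int |y|^2 = sum |yh n|^2, (1/2pi) int |y'|^2 = sum n^2 |yh n|^2
 (coefficients of y' are i n yh n by integration by parts), (1/2pi) int conj(y) y' = sum i n |yh n|^2, so (1/2pi) int cr y y' = sum n |yh n|^2   (cr z w = Im (conj z * w)).
 Mathlib: fourierCoeff / fourierCoeffOn, tsum_sq_fourierCoeff, hasSum_sq..., fourierBasis.repr (inner products: HilbertBasis.tsum_inner_mul_inner / hasSum_inner_mul_inner), fourierCoeffOn_of_hasDerivAt.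
(a) If yh n = 0 for all n <= 0:  int [cr y y' - |y|^2] = 2pi sum_{n>=1} (n-1)|yh n|^2 >= 0.
(b) If yh n = 0 for 0 <= n <= N, N >= 1: int [cr y y' + |y|^2] = 2pi sum (n+1)|yh n|^2 <= 2pi sum_{n>N} (n+1) |yh n|^2 <= (2/N) 2pi sum n^2 |yh n|^2 = (2/N) int |y'|^2   (n+1 <= 0 for n<0; (n+1)/n^2 <= 2/n <= 2/N).
-/

set_option autoImplicit false
open Set MeasureTheory

namespace Pool.Agent.H1.BP

private theorem prs_pars (f : ℝ → ℂ) (hf : Continuous f) :
    HasSum (fun n : ℤ => ‖∫ s in (0 : ℝ)..(2 * Real.pi), Complex.exp (-(Complex.I * n * s)) * f s‖ ^ 2)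
      (2 * Real.pi * ∫ s in (0 : ℝ)..(2 * Real.pi), ‖f s‖ ^ 2) := by
  have hpi : (0 : ℝ) < 2 * Real.pi := by positivity
  have hL2 : MemLp f 2 (volume.restrict (Ioc 0 (2 * Real.pi))) := by
    obtain ⟨C, hC⟩ := isCompact_Icc.exists_bound_of_continuousOn (s := Icc 0 (2 * Real.pi)) (f := f) hf.continuousOn
    have : IsFiniteMeasure (volume.restrict (Ioc 0 (2 * Real.pi))) := ⟨by
      rw [Measure.restrict_apply MeasurableSet.univ, univ_inter, Real.volume_Ioc]
      exact ENNReal.ofReal_lt_top⟩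
    refine MemLp.of_bound hf.aestronglyMeasurable C ?_
    refine (ae_restrict_iff' measurableSet_Ioc).2 (Filter.Eventually.of_forall fun x hx => hC x (Ioc_subset_Icc_self hx))
  have h := hasSum_sq_fourierCoeffOn hpi hL2
  have h2 := h.mul_left ((2 * Real.pi) ^ 2)
  have e1 : ∀ n : ℤ, (2 * Real.pi) ^ 2 * ‖fourierCoeffOn hpi f n‖ ^ 2
      = ‖∫ s in (0 : ℝ)..(2 * Real.pi), Complex.exp (-(Complex.I * n * s)) * f s‖ ^ 2 := by
    intro n
    rw [fourierCoeffOn_eq_integral]
    have e2 : (∫ x in (0 : ℝ)..(2 * Real.pi), fourier (-n) (x : AddCircle (2 * Real.pi - 0)) • f x)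
        = ∫ s in (0 : ℝ)..(2 * Real.pi), Complex.exp (-(Complex.I * n * s)) * f s := by
      apply intervalIntegral.integral_congr
      intro x _
      have : fourier (-n) (x : AddCircle (2 * Real.pi - 0)) = Complex.exp (-(Complex.I * n * x)) := by
        rw [fourier_coe_apply]
        have hp : (Real.pi : ℂ) ≠ 0 := by exact_mod_cast Real.pi_ne_zero
        apply congrArg
        push_cast
        rw [sub_zero]
        field_simp
      simp only [this, smul_eq_mul]
    rw [e2, norm_smul, mul_pow, sub_zero]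
    have : ‖1 / (2 * Real.pi)‖ = 1 / (2 * Real.pi) := by
      rw [Real.norm_eq_abs, abs_of_pos (by positivity)]
    rw [this]
    field_simp
  have e3 : (2 * Real.pi) ^ 2 * ((2 * Real.pi - 0)⁻¹ • ∫ x in (0 : ℝ)..(2 * Real.pi), ‖f x‖ ^ 2)
      = 2 * Real.pi * ∫ s in (0 : ℝ)..(2 * Real.pi), ‖f s‖ ^ 2 := by
    rw [smul_eq_mul, sub_zero]
    field_simp
  rw [e3] at h2
  simpa only [e1] using h2

private theorem prs_der (y : ℝ → ℂ) (hy : ContDiff ℝ 1 y) (hp : ∀ s, y (s + 2 * Real.pi) = y s) (c : ℝ) (n : ℤ) :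
    ∫ s in (0 : ℝ)..(2 * Real.pi), Complex.exp (-(Complex.I * n * s)) * (deriv y s + Complex.I * c * y s)
      = Complex.I * (n + c) * ∫ s in (0 : ℝ)..(2 * Real.pi), Complex.exp (-(Complex.I * n * s)) * y s := by
  have hyc : Continuous y := hy.continuous
  have hdc : Continuous (deriv y) := hy.continuous_deriv le_rfl
  have hd : ∀ s, HasDerivAt y (deriv y s) s := fun s => (hy.differentiable one_ne_zero s).hasDerivAt
  have he : ∀ s : ℝ, HasDerivAt (fun s : ℝ => Complex.exp (-(Complex.I * n * s)))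
      (Complex.exp (-(Complex.I * n * s)) * (-(Complex.I * n))) s := by
    intro s
    have h1 : HasDerivAt (fun s : ℝ => -(Complex.I * n * (s : ℂ))) (-(Complex.I * n * 1)) s :=
      ((Complex.ofRealCLM.hasDerivAt (x := s)).const_mul (Complex.I * n)).neg
    have h2 := h1.cexp
    rwa [mul_one] at h2
  have hce : Continuous fun s : ℝ => Complex.exp (-(Complex.I * n * s)) := by fun_prop
  have key : ∫ s in (0 : ℝ)..(2 * Real.pi),
      (Complex.exp (-(Complex.I * n * s)) * (-(Complex.I * n)) * y s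
        + Complex.exp (-(Complex.I * n * s)) * deriv y s) = 0 := by
    rw [intervalIntegral.integral_eq_sub_of_hasDerivAt (f := fun s : ℝ => Complex.exp (-(Complex.I * n * s)) * y s)
      (fun s _ => (he s).mul (hd s))
      (Continuous.intervalIntegrable (by fun_prop) _ _)]
    have h1 : y (2 * Real.pi) = y 0 := by
      have := hp 0
      rwa [zero_add] at this
    have h2 : Complex.exp (-(Complex.I * n * ((2 * Real.pi : ℝ) : ℂ))) = 1 := by
      rw [Complex.exp_eq_one_iff]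
      refine ⟨-n, ?_⟩
      push_cast
      ring
    rw [h1, h2]
    simp
  have e : ∀ s : ℝ, Complex.exp (-(Complex.I * n * s)) * (deriv y s + Complex.I * c * y s)
      = (Complex.exp (-(Complex.I * n * s)) * (-(Complex.I * n)) * y s
        + Complex.exp (-(Complex.I * n * s)) * deriv y s)
        + Complex.I * (n + c) * (Complex.exp (-(Complex.I * n * s)) * y s) := by
    intro s
    ring
  simp_rw [e]
  rw [intervalIntegral.integral_add (Continuous.intervalIntegrable (by fun_prop) _ _)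
    (Continuous.intervalIntegrable (by fun_prop) _ _), key, zero_add,
    intervalIntegral.integral_const_mul]

private theorem prs_nc (y : ℝ → ℂ) (hy : ContDiff ℝ 1 y) (hp : ∀ s, y (s + 2 * Real.pi) = y s) (c : ℝ) :
    HasSum (fun n : ℤ => (n + c) ^ 2 * ‖∫ s in (0 : ℝ)..(2 * Real.pi), Complex.exp (-(Complex.I * n * s)) * y s‖ ^ 2)
      (2 * Real.pi * ∫ s in (0 : ℝ)..(2 * Real.pi),
        (Complex.normSq (deriv y s) + 2 * c * cr (y s) (deriv y s) + c ^ 2 * Complex.normSq (y s))) := by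
  have hyc : Continuous y := hy.continuous
  have hdc : Continuous (deriv y) := hy.continuous_deriv le_rfl
  have h := prs_pars (fun s => deriv y s + Complex.I * c * y s) (by fun_prop)
  simp_rw [prs_der y hy hp c] at h
  have e1 : ∀ n : ℤ, ‖Complex.I * (n + c) * ∫ s in (0 : ℝ)..(2 * Real.pi), Complex.exp (-(Complex.I * n * s)) * y s‖ ^ 2
      = (n + c) ^ 2 * ‖∫ s in (0 : ℝ)..(2 * Real.pi), Complex.exp (-(Complex.I * n * s)) * y s‖ ^ 2 := by
    intro n
    rw [norm_mul, norm_mul, Complex.norm_I, one_mul, mul_pow]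
    congr 1
    have : ((n : ℂ) + (c : ℂ)) = (((n : ℝ) + c : ℝ) : ℂ) := by push_cast; ring
    rw [this, Complex.norm_real, Real.norm_eq_abs, sq_abs]
  have e2 : ∀ s : ℝ, ‖deriv y s + Complex.I * c * y s‖ ^ 2
      = Complex.normSq (deriv y s) + 2 * c * cr (y s) (deriv y s) + c ^ 2 * Complex.normSq (y s) := by
    intro s
    rw [← Complex.normSq_eq_norm_sq, Complex.normSq_apply, Complex.normSq_apply, Complex.normSq_apply]
    simp only [cr, Complex.add_re, Complex.add_im, Complex.mul_re, Complex.mul_im, Complex.I_re, Complex.I_im,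
      Complex.ofReal_re, Complex.ofReal_im]
    ring
  simp_rw [e1, e2] at h
  exact h

private theorem prs_lin (y : ℝ → ℂ) (hy : ContDiff ℝ 1 y) (hp : ∀ s, y (s + 2 * Real.pi) = y s) (c : ℝ) :
    HasSum (fun n : ℤ => (n + c) ^ 2 * ‖∫ s in (0 : ℝ)..(2 * Real.pi), Complex.exp (-(Complex.I * n * s)) * y s‖ ^ 2)
      (2 * Real.pi * ((∫ s in (0 : ℝ)..(2 * Real.pi), Complex.normSq (deriv y s))
        + 2 * c * (∫ s in (0 : ℝ)..(2 * Real.pi), cr (y s) (deriv y s))
        + c ^ 2 * (∫ s in (0 : ℝ)..(2 * Real.pi), Complex.normSq (y s)))) := by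
  have hyc : Continuous y := hy.continuous
  have hdc : Continuous (deriv y) := hy.continuous_deriv le_rfl
  have hcr : Continuous fun s => cr (y s) (deriv y s) := by
    unfold cr
    fun_prop
  have hny : Continuous fun s => Complex.normSq (y s) := Complex.continuous_normSq.comp hyc
  have hnd : Continuous fun s => Complex.normSq (deriv y s) := Complex.continuous_normSq.comp hdc
  have hI : ∀ g : ℝ → ℝ, Continuous g → IntervalIntegrable g volume 0 (2 * Real.pi) :=
    fun g hg => hg.intervalIntegrable _ _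
  have ex : ∫ s in (0 : ℝ)..(2 * Real.pi),
        (Complex.normSq (deriv y s) + 2 * c * cr (y s) (deriv y s) + c ^ 2 * Complex.normSq (y s))
      = (∫ s in (0 : ℝ)..(2 * Real.pi), Complex.normSq (deriv y s))
        + 2 * c * (∫ s in (0 : ℝ)..(2 * Real.pi), cr (y s) (deriv y s))
        + c ^ 2 * (∫ s in (0 : ℝ)..(2 * Real.pi), Complex.normSq (y s)) := by
    rw [intervalIntegral.integral_add (hI _ (by fun_prop)) (hI _ (by fun_prop)),
      intervalIntegral.integral_add (hI _ (by fun_prop)) (hI _ (by fun_prop)),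
      intervalIntegral.integral_const_mul, intervalIntegral.integral_const_mul]
  rw [← ex]
  exact prs_nc y hy hp c

private theorem prs_int (y : ℝ → ℂ) (hy : ContDiff ℝ 1 y) :
    IntervalIntegrable (fun s => cr (y s) (deriv y s)) volume 0 (2 * Real.pi)
      ∧ IntervalIntegrable (fun s => Complex.normSq (y s)) volume 0 (2 * Real.pi) := by
  have hyc : Continuous y := hy.continuous
  have hdc : Continuous (deriv y) := hy.continuous_deriv le_rfl
  have hcr : Continuous fun s => cr (y s) (deriv y s) := by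
    unfold cr
    fun_prop
  have hny : Continuous fun s => Complex.normSq (y s) := Complex.continuous_normSq.comp hyc
  exact ⟨hcr.intervalIntegrable _ _, hny.intervalIntegrable _ _⟩

theorem prs_a (y : ℝ → ℂ) (hy : ContDiff ℝ 1 y) (hp : ∀ s, y (s + 2 * Real.pi) = y s)
    (h0 : ∀ n : ℤ, n ≤ 0 → ∫ s in (0 : ℝ)..(2 * Real.pi), Complex.exp (-(Complex.I * n * s)) * y s = 0) :
    0 ≤ ∫ s in (0 : ℝ)..(2 * Real.pi), (cr (y s) (deriv y s) - Complex.normSq (y s)) := by
  have hpi : (0 : ℝ) < 2 * Real.pi := by positivity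
  obtain ⟨i1, i2⟩ := prs_int y hy
  rw [intervalIntegral.integral_sub i1 i2]
  have S := (((prs_lin y hy hp 0).mul_left (-(5 : ℝ) / 4)).add ((prs_lin y hy hp 1).mul_left 2)).add
    ((prs_lin y hy hp 2).mul_left (-(3 : ℝ) / 4))
  have hnn := S.nonneg (fun n => by
    rcases le_or_gt n 0 with h | h
    · rw [h0 n h]
      simp
    · have hn : (1 : ℝ) ≤ n := by exact_mod_cast h
      have e : ∀ F : ℝ, -(5 : ℝ) / 4 * (((n : ℝ) + 0) ^ 2 * F) + 2 * (((n : ℝ) + 1) ^ 2 * F)
          + -(3 : ℝ) / 4 * (((n : ℝ) + 2) ^ 2 * F) = ((n : ℝ) - 1) * F := by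
        intro F
        ring
      rw [e]
      exact mul_nonneg (by linarith) (sq_nonneg _))
  have e2 : ∀ P Q W : ℝ, -(5 : ℝ) / 4 * (2 * Real.pi * (P + 2 * 0 * Q + 0 ^ 2 * W))
      + 2 * (2 * Real.pi * (P + 2 * 1 * Q + 1 ^ 2 * W)) + -(3 : ℝ) / 4 * (2 * Real.pi * (P + 2 * 2 * Q + 2 ^ 2 * W))
      = 2 * Real.pi * (Q - W) := by
    intro P Q W
    ring
  rw [e2] at hnn
  exact nonneg_of_mul_nonneg_right hnn hpi

theorem prs_b (y : ℝ → ℂ) (hy : ContDiff ℝ 1 y) (hp : ∀ s, y (s + 2 * Real.pi) = y s) (N : ℕ) (hN : 1 ≤ N)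
    (h0 : ∀ n : ℕ, n ≤ N → ∫ s in (0 : ℝ)..(2 * Real.pi), Complex.exp (-(Complex.I * n * s)) * y s = 0) :
    ∫ s in (0 : ℝ)..(2 * Real.pi), (cr (y s) (deriv y s) + Complex.normSq (y s))
      ≤ 2 / N * ∫ s in (0 : ℝ)..(2 * Real.pi), Complex.normSq (deriv y s) := by
  have hpi : (0 : ℝ) < 2 * Real.pi := by positivity
  obtain ⟨i1, i2⟩ := prs_int y hy
  rw [intervalIntegral.integral_add i1 i2]
  have S := (((prs_lin y hy hp 0).mul_left (2 / (N : ℝ))).sub
    (((prs_lin y hy hp 0).mul_left (-(1 : ℝ) / 4)).add ((prs_lin y hy hp 2).mul_left ((1 : ℝ) / 4))))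
  have hN' : (1 : ℝ) ≤ N := by exact_mod_cast hN
  have hnn := S.nonneg (fun n => by
    have e : ∀ F : ℝ, 2 / (N : ℝ) * (((n : ℝ) + 0) ^ 2 * F) - (-(1 : ℝ) / 4 * (((n : ℝ) + 0) ^ 2 * F)
        + (1 : ℝ) / 4 * (((n : ℝ) + 2) ^ 2 * F)) = (2 / (N : ℝ) * (n : ℝ) ^ 2 - (n + 1)) * F := by
      intro F
      ring
    rw [e]
    rcases lt_or_ge n 0 with h | h
    · have hn : (n : ℝ) ≤ -1 := by exact_mod_cast (Int.le_sub_one_of_lt h)
      refine mul_nonneg ?_ (sq_nonneg _)
      have : 0 ≤ 2 / (N : ℝ) * (n : ℝ) ^ 2 := by positivity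
      linarith
    · obtain ⟨m, rfl⟩ := Int.eq_ofNat_of_zero_le h
      rcases le_or_gt m N with hm | hm
      · have h1 := h0 m hm
        have h2 : ∫ s in (0 : ℝ)..(2 * Real.pi), Complex.exp (-(Complex.I * ((m : ℤ) : ℂ) * s)) * y s = 0 := by
          rw [← h1]
          simp
        rw [h2]
        simp
      · refine mul_nonneg ?_ (sq_nonneg _)
        have h3 : (N : ℝ) ≤ m := by exact_mod_cast hm.le
        have h4 : (((m : ℤ) : ℝ)) = (m : ℝ) := by simp
        rw [h4]
        have h5 : 2 * (m : ℝ) ≤ 2 / (N : ℝ) * (m : ℝ) ^ 2 := by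
          rw [div_mul_eq_mul_div, le_div_iff₀ (by linarith)]
          nlinarith
        linarith)
  have e2 : ∀ P Q W : ℝ, 2 / (N : ℝ) * (2 * Real.pi * (P + 2 * 0 * Q + 0 ^ 2 * W))
      - (-(1 : ℝ) / 4 * (2 * Real.pi * (P + 2 * 0 * Q + 0 ^ 2 * W))
      + (1 : ℝ) / 4 * (2 * Real.pi * (P + 2 * 2 * Q + 2 ^ 2 * W)))
      = 2 * Real.pi * (2 / (N : ℝ) * P - (Q + W)) := by
    intro P Q W
    ring
  rw [e2] at hnn
  have := nonneg_of_mul_nonneg_right hnn hpi
  linarith

end Pool.Agent.H1.BP
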