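import Pool.Agent.H1.BP.Pw
import Pool.Agent.H1.BP.Prs
import Pool.Agent.H1.BP.Gal
import Pool.Agent.H1.BP.Byp

/-
ROW Cat.  The core analytic theorem.
Let g = (g11,g12,g22).  For N take C, t = t_N, eps = eps_N of Gal; eta_t = sum t_i eta_i, r = eta_t - eps, w = eta_t' - i eta_t.
(1) For all s: Pw.pw and pw_slack:  ed + ed + ed >= -8pi cr r w - 4pi(|r|^2+|gr|^2+cr (gr)(g'r)) + c|r|^2.  Since cr r (eta' - i eta) = cr r eta' - ip r eta, the integrand of EE is
     >= 4pi [ - cr eta eta' + 2 cr eps eta' - |eps|^2 - |gr|^2 - cr(gr)(g'r) ] + c |r|^2      (algebra: r = eta - eps).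
    Integrate, use Byp, Prs.prs_a for eps, Prs.prs_b for y = g r:  EE(eta_t) >= - 4pi (2/N) C + c int |r|^2.
(2) EE(eta_t) <= 0, so int |eta_t - eps|^2 <= 8 pi C/(c N).
(3) compactness of the unit sphere of R^3: subsequence t_N -> t, sum t_i^2 = 1; t /= 0.  eta_{t_N} -> eta_t uniformly with derivatives.
    From (1) without slack: int[- cr eta eta' + 2 cr eps eta' - |eps|^2 - |gr|^2 - cr(gr)(g'r)] >= -2C/N.  With eps = eta - r this integrand is  cr eta eta' - |eta|^2 + (terms bounded by K(|r| + |r|^2)), K uniform.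
    int |r| <= sqrt(2pi) (int |r|^2)^(1/2) -> 0.  So int [cr eta_t eta_t' - |eta_t|^2] >= 0 in the limit.
(4) EE(eta_t) = int (ed+ed+ed) + 4pi int [cr eta eta' - |eta|^2] <= 0 with ed >= 0 continuous: so ed X s w = 0 for all s in [0,2pi] (continuous nonneg function with zero integral), hence (all s, periodicity) ip w (en (X s)) = 0 and
    ip w (en (X (s+2pi))) = 0 with X s < X(s+2pi) < X s + pi: w = 0. So eta_t' = i eta_t on R, eta_t(s) = eta_t(0) e^{is}.
-/

set_option autoImplicit false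
open Set MeasureTheory

namespace Pool.Agent.H1.BP

theorem Cat_cr_cont {T : Type*} [TopologicalSpace T] {f g : T → ℂ} (hf : Continuous f) (hg : Continuous g) :
    Continuous (fun s => cr (f s) (g s)) := by
  unfold cr
  exact ((Complex.continuous_re.comp hf).mul (Complex.continuous_im.comp hg)).sub
    ((Complex.continuous_im.comp hf).mul (Complex.continuous_re.comp hg))

theorem Cat_ns_cont {T : Type*} [TopologicalSpace T] {f : T → ℂ} (hf : Continuous f) :
    Continuous (fun s => Complex.normSq (f s)) :=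
  Complex.continuous_normSq.comp hf

theorem Cat_app_eq (a b c : ℝ) (z : ℂ) :
    app a b c z = ((a * z.re + b * z.im : ℝ) : ℂ) + ((b * z.re + c * z.im : ℝ) : ℂ) * Complex.I := by
  apply Complex.ext <;> simp [app]

theorem Cat_app_cont {a b c : ℝ → ℝ} {z : ℝ → ℂ} (ha : Continuous a) (hb : Continuous b) (hc : Continuous c)
    (hz : Continuous z) : Continuous (fun s => app (a s) (b s) (c s) (z s)) := by
  have h1 : (fun s => app (a s) (b s) (c s) (z s)) = fun s =>
      ((a s * (z s).re + b s * (z s).im : ℝ) : ℂ) + ((b s * (z s).re + c s * (z s).im : ℝ) : ℂ) * Complex.I :=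
    funext fun s => Cat_app_eq _ _ _ _
  rw [h1]
  have hre := Complex.continuous_re.comp hz
  have him := Complex.continuous_im.comp hz
  exact (Complex.continuous_ofReal.comp ((ha.mul hre).add (hb.mul him))).add
    ((Complex.continuous_ofReal.comp ((hb.mul hre).add (hc.mul him))).mul continuous_const)

theorem Cat_app_C1 {a b c : ℝ → ℝ} {z : ℝ → ℂ} (ha : ContDiff ℝ 1 a) (hb : ContDiff ℝ 1 b) (hc : ContDiff ℝ 1 c)
    (hz : ContDiff ℝ 1 z) : ContDiff ℝ 1 (fun s => app (a s) (b s) (c s) (z s)) := by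
  have h1 : (fun s => app (a s) (b s) (c s) (z s)) = fun s =>
      ((a s * (z s).re + b s * (z s).im : ℝ) : ℂ) + ((b s * (z s).re + c s * (z s).im : ℝ) : ℂ) * Complex.I :=
    funext fun s => Cat_app_eq _ _ _ _
  rw [h1]
  have hre : ContDiff ℝ 1 (fun s => (z s).re) := Complex.reCLM.contDiff.comp hz
  have him : ContDiff ℝ 1 (fun s => (z s).im) := Complex.imCLM.contDiff.comp hz
  have h2 : ContDiff ℝ 1 (fun s => ((a s * (z s).re + b s * (z s).im : ℝ) : ℂ)) :=
    Complex.ofRealCLM.contDiff.comp ((ha.mul hre).add (hb.mul him))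
  have h3 : ContDiff ℝ 1 (fun s => ((b s * (z s).re + c s * (z s).im : ℝ) : ℂ)) :=
    Complex.ofRealCLM.contDiff.comp ((hb.mul hre).add (hc.mul him))
  exact h2.add (h3.mul contDiff_const)

/-- the pointwise inequality with slack -/
theorem Cat_pt {X : ℝ → ℝ} (hX : Tri X) {c : ℝ} (hc : ∀ (s : ℝ) (r : ℂ), c * Complex.normSq r ≤
    8 * Real.pi * sg X s * ((m11 X s * r.re ^ 2 + 2 * m12 X s * r.re * r.im + m22 X s * r.im ^ 2) / Dt X s))
    (s : ℝ) (e e' eps : ℂ) :
    c * Complex.normSq (e - eps) + 4 * Real.pi * (- cr e e' + 2 * cr eps e' - Complex.normSq eps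
      - Complex.normSq (app (g11 X s) (g12 X s) (g22 X s) (e - eps))
      - cr (app (g11 X s) (g12 X s) (g22 X s) (e - eps))
          (app (deriv (g11 X) s) (deriv (g12 X) s) (deriv (g22 X) s) (e - eps))) ≤
    ed X s (e' - Complex.I * e) + ed X (s + 2 * Real.pi) (e' - Complex.I * e)
      + ed X (s + 4 * Real.pi) (e' - Complex.I * e)
      + 4 * Real.pi * cr e e' - 4 * Real.pi * Complex.normSq e := by
  have h1 := pw hX s (e' - Complex.I * e) (e - eps)
  have h2 := hc s (e - eps)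
  have key : 2 * cr (e - eps) (e' - Complex.I * e) + Complex.normSq (e - eps) =
      2 * cr e e' - 2 * cr eps e' + Complex.normSq eps - Complex.normSq e := by
    simp only [cr, Complex.normSq_apply, Complex.sub_re, Complex.sub_im, Complex.mul_re, Complex.mul_im,
      Complex.I_re, Complex.I_im]
    ring
  have k2 : 8 * Real.pi * cr (e - eps) (e' - Complex.I * e) + 4 * Real.pi * Complex.normSq (e - eps) =
      4 * Real.pi * (2 * cr e e' - 2 * cr eps e' + Complex.normSq eps - Complex.normSq e) := by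
    linear_combination (4 * Real.pi) * key
  linarith

/-- the pointwise lower bound of the limit integrand -/
theorem Cat_lo {M K : ℝ} (hM : 0 < M) (e e' eps A : ℂ) (B : ℝ) (hB : - B ≤ K * Complex.normSq (e - eps)) :
    (- cr e e' + 2 * cr eps e' - Complex.normSq eps - Complex.normSq A - B)
      - (2 * M + K) * Complex.normSq (e - eps) - (Complex.normSq e + Complex.normSq e') / M ≤
    cr e e' - Complex.normSq e := by
  have hA : 0 ≤ Complex.normSq A := Complex.normSq_nonneg _
  have h1 : 0 ≤ M * Complex.normSq (e - eps) + 2 * cr (e - eps) e' + Complex.normSq e' / M := by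
    have h : M * Complex.normSq (e - eps) + 2 * cr (e - eps) e' + Complex.normSq e' / M =
        ((M * (e - eps).re + e'.im) ^ 2 + (M * (e - eps).im - e'.re) ^ 2) / M := by
      simp only [cr, Complex.normSq_apply]
      field_simp
      ring
    rw [h]
    positivity
  have h2 : 0 ≤ M * Complex.normSq (e - eps) - 2 * ip (e - eps) e + Complex.normSq e / M := by
    have h : M * Complex.normSq (e - eps) - 2 * ip (e - eps) e + Complex.normSq e / M =
        ((M * (e - eps).re - e.re) ^ 2 + (M * (e - eps).im - e.im) ^ 2) / M := by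
      simp only [ip, Complex.normSq_apply]
      field_simp
      ring
    rw [h]
    positivity
  have h3 : 0 ≤ Complex.normSq (e - eps) := Complex.normSq_nonneg _
  have key : cr e e' - Complex.normSq e = (- cr e e' + 2 * cr eps e' - Complex.normSq eps) +
      2 * cr (e - eps) e' - 2 * ip (e - eps) e + Complex.normSq (e - eps) := by
    simp only [cr, ip, Complex.normSq_apply, Complex.sub_re, Complex.sub_im]
    ring
  have h4 : (Complex.normSq e + Complex.normSq e') / M = Complex.normSq e / M + Complex.normSq e' / M := add_div _ _ _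
  rw [h4]
  linarith

theorem Cat_dg {f : ℝ → ℝ} (h : ContDiff ℝ 1 f) : Continuous (deriv f) := h.continuous_deriv le_rfl

theorem Cat_dgc {f : ℝ → ℂ} (h : ContDiff ℝ 1 f) : Continuous (deriv f) := h.continuous_deriv le_rfl

/-- a uniform bound of the term with `g'` -/
theorem Cat_K {X : ℝ → ℝ} (hX : Tri X) : ∃ K : ℝ, 0 ≤ K ∧ ∀ s ∈ Icc (0 : ℝ) (2 * Real.pi), ∀ r : ℂ,
    - cr (app (g11 X s) (g12 X s) (g22 X s) r)
          (app (deriv (g11 X) s) (deriv (g12 X) s) (deriv (g22 X) s) r) ≤ K * Complex.normSq r := by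
  set p : ℝ → ℝ := fun s => |g11 X s * deriv (g12 X) s - g12 X s * deriv (g11 X) s| +
    |g11 X s * deriv (g22 X) s - g22 X s * deriv (g11 X) s| +
    |g12 X s * deriv (g22 X) s - g22 X s * deriv (g12 X) s| with hp
  have hpc : Continuous p := by
    have a1 := (g11_C1 hX).continuous
    have a2 := (g12_C1 hX).continuous
    have a3 := (g22_C1 hX).continuous
    have b1 := Cat_dg (g11_C1 hX)
    have b2 := Cat_dg (g12_C1 hX)
    have b3 := Cat_dg (g22_C1 hX)
    exact ((((a1.mul b2).sub (a2.mul b1)).abs).add (((a1.mul b3).sub (a3.mul b1)).abs)).add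
      (((a2.mul b3).sub (a3.mul b2)).abs)
  obtain ⟨K, hK⟩ := (isCompact_Icc (a := (0 : ℝ)) (b := 2 * Real.pi)).exists_bound_of_continuousOn hpc.continuousOn
  refine ⟨|K|, abs_nonneg _, fun s hs r => ?_⟩
  have h1 : p s ≤ |K| := (le_abs_self _).trans ((hK s hs).trans (le_abs_self _))
  have h2 : - cr (app (g11 X s) (g12 X s) (g22 X s) r)
          (app (deriv (g11 X) s) (deriv (g12 X) s) (deriv (g22 X) s) r) ≤ p s * Complex.normSq r := by
    simp only [cr, app, Complex.normSq_apply, hp]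
    set P := g11 X s * deriv (g12 X) s - g12 X s * deriv (g11 X) s with hP
    set Q := g11 X s * deriv (g22 X) s - g22 X s * deriv (g11 X) s with hQ
    set U := g12 X s * deriv (g22 X) s - g22 X s * deriv (g12 X) s with hU
    have e1 : -((g11 X s * r.re + g12 X s * r.im) * (deriv (g12 X) s * r.re + deriv (g22 X) s * r.im) -
        (g12 X s * r.re + g22 X s * r.im) * (deriv (g11 X) s * r.re + deriv (g12 X) s * r.im)) =
        - (P * r.re ^ 2 + Q * (r.re * r.im) + U * r.im ^ 2) := by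
      rw [hP, hQ, hU]
      ring
    rw [e1]
    have q1 : - (P * r.re ^ 2) ≤ |P| * r.re ^ 2 := by nlinarith [neg_abs_le P, sq_nonneg r.re]
    have q2 : - (U * r.im ^ 2) ≤ |U| * r.im ^ 2 := by nlinarith [neg_abs_le U, sq_nonneg r.im]
    have q3 : - (Q * (r.re * r.im)) ≤ |Q| * (r.re ^ 2 + r.im ^ 2) := by
      have q4 : - (Q * (r.re * r.im)) ≤ |Q| * |r.re * r.im| := by
        rw [← abs_mul]
        exact neg_le_abs _
      have q5 : |r.re * r.im| ≤ r.re ^ 2 + r.im ^ 2 := by
        rw [abs_le]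
        constructor <;> nlinarith [sq_nonneg (r.re + r.im), sq_nonneg (r.re - r.im)]
      exact q4.trans (mul_le_mul_of_nonneg_left q5 (abs_nonneg _))
    nlinarith [abs_nonneg P, abs_nonneg Q, abs_nonneg U, sq_nonneg r.re, sq_nonneg r.im,
      mul_nonneg (abs_nonneg P) (sq_nonneg r.im), mul_nonneg (abs_nonneg U) (sq_nonneg r.re)]
  exact h2.trans (mul_le_mul_of_nonneg_right h1 (Complex.normSq_nonneg _))

/-- the loops of the family and their derivatives -/
noncomputable def Cat_E (eta : Fin 3 → ℝ → ℂ) (t : Fin 3 → ℝ) (s : ℝ) : ℂ := ∑ i, (t i : ℂ) * eta i s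

noncomputable def Cat_D (eta : Fin 3 → ℝ → ℂ) (t : Fin 3 → ℝ) (s : ℝ) : ℂ := ∑ i, (t i : ℂ) * deriv (eta i) s

theorem Cat_E_C1 {eta : Fin 3 → ℝ → ℂ} (he : ∀ i, ContDiff ℝ 1 (eta i)) (t : Fin 3 → ℝ) :
    ContDiff ℝ 1 (Cat_E eta t) := by
  unfold Cat_E
  exact ContDiff.sum fun i _ => contDiff_const.mul (he i)

theorem Cat_E_deriv {eta : Fin 3 → ℝ → ℂ} (he : ∀ i, ContDiff ℝ 1 (eta i)) (t : Fin 3 → ℝ) (s : ℝ) :
    deriv (Cat_E eta t) s = Cat_D eta t s := by
  unfold Cat_E Cat_D
  refine HasDerivAt.deriv ?_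
  refine HasDerivAt.fun_sum fun i _ => ?_
  exact (((he i).differentiable (by norm_num)) s).hasDerivAt.const_mul _

theorem Cat_E_per {eta : Fin 3 → ℝ → ℂ} (hep : ∀ i s, eta i (s + 2 * Real.pi) = eta i s) (t : Fin 3 → ℝ) (s : ℝ) :
    Cat_E eta t (s + 2 * Real.pi) = Cat_E eta t s := by
  unfold Cat_E
  simp only [hep]

theorem Cat_joint {f : Fin 3 → ℝ → ℂ} (hf : ∀ i, Continuous (f i)) :
    Continuous (fun q : (Fin 3 → ℝ) × ℝ => ∑ i, (q.1 i : ℂ) * f i q.2) := by
  refine continuous_finsetSum _ fun i _ => ?_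
  exact (Complex.continuous_ofReal.comp ((continuous_apply i).comp continuous_fst)).mul ((hf i).comp continuous_snd)

noncomputable def Cat_Phi (eta : Fin 3 → ℝ → ℂ) (t : Fin 3 → ℝ) : ℝ :=
  ∫ s in (0 : ℝ)..(2 * Real.pi), (cr (Cat_E eta t s) (Cat_D eta t s) - Complex.normSq (Cat_E eta t s))

noncomputable def Cat_Psi (eta : Fin 3 → ℝ → ℂ) (t : Fin 3 → ℝ) : ℝ :=
  ∫ s in (0 : ℝ)..(2 * Real.pi), (Complex.normSq (Cat_E eta t s) + Complex.normSq (Cat_D eta t s))

theorem Cat_Phi_cont {eta : Fin 3 → ℝ → ℂ} (he : ∀ i, ContDiff ℝ 1 (eta i)) : Continuous (Cat_Phi eta) := by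
  unfold Cat_Phi
  apply intervalIntegral.continuous_parametric_intervalIntegral_of_continuous'
  have h1 := Cat_joint (fun i => (he i).continuous)
  have h2 := Cat_joint (fun i => Cat_dgc (he i))
  exact (Cat_cr_cont h1 h2).sub (Cat_ns_cont h1)

theorem Cat_Psi_cont {eta : Fin 3 → ℝ → ℂ} (he : ∀ i, ContDiff ℝ 1 (eta i)) : Continuous (Cat_Psi eta) := by
  unfold Cat_Psi
  apply intervalIntegral.continuous_parametric_intervalIntegral_of_continuous'
  have h1 := Cat_joint (fun i => (he i).continuous)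
  have h2 := Cat_joint (fun i => Cat_dgc (he i))
  exact (Cat_ns_cont h1).add (Cat_ns_cont h2)

theorem Cat_sphere : IsCompact {t : Fin 3 → ℝ | ∑ i, t i ^ 2 = 1} := by
  refine (isCompact_univ_pi fun _ : Fin 3 => isCompact_Icc (a := (-1 : ℝ)) (b := 1)).of_isClosed_subset ?_ ?_
  · exact isClosed_eq (continuous_finsetSum _ fun i _ => (continuous_apply i).pow 2) continuous_const
  · intro t ht i _
    have h1 : t i ^ 2 ≤ 1 := by
      rw [← (show ∑ i, t i ^ 2 = 1 from ht)]
      exact Finset.single_le_sum (f := fun i => t i ^ 2) (fun j _ => sq_nonneg (t j)) (Finset.mem_univ i)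
    exact abs_le.1 ((sq_le_one_iff_abs_le_one _).1 h1)

theorem Cat_ed_cont {X : ℝ → ℝ} (hX : Tri X) {w : ℝ → ℂ} (hw : Continuous w) (a : ℝ) :
    Continuous (fun s => ed X (s + a) (w s)) := by
  have hXc := hX.smooth.continuous
  have hdX := Cat_dg hX.smooth
  have hsh : Continuous (fun s : ℝ => s + a) := continuous_id.add continuous_const
  have h1 : Continuous (fun s => Av X (s + a)) := (Av_C1 hX).continuous.comp hsh
  have h2 : Continuous (wv X) := by
    unfold wv
    exact ((hdX.comp (continuous_id.add continuous_const)).add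
      (hdX.comp (continuous_id.add continuous_const))).div_const 2
  have h3 : Continuous (fun s => ip (w s) (en (X (s + a)))) := by
    unfold ip en
    exact ((Complex.continuous_re.comp hw).mul (Real.continuous_cos.comp (hXc.comp hsh))).add
      ((Complex.continuous_im.comp hw).mul (Real.continuous_sin.comp (hXc.comp hsh)))
  exact (h1.mul (h3.pow 2)).div (h2.comp hsh) (fun s => (wv_pos hX _).ne')

/-- the sum of the three densities -/
noncomputable def Cat_J (X : ℝ → ℝ) (e : ℝ → ℂ) (s : ℝ) : ℝ :=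
  ed X s (deriv e s - Complex.I * e s) + ed X (s + 2 * Real.pi) (deriv e s - Complex.I * e s)
    + ed X (s + 4 * Real.pi) (deriv e s - Complex.I * e s)

theorem Cat_J_cont {X : ℝ → ℝ} (hX : Tri X) {e : ℝ → ℂ} (he : ContDiff ℝ 1 e) : Continuous (Cat_J X e) := by
  have hw : Continuous (fun s => deriv e s - Complex.I * e s) :=
    (Cat_dgc he).sub (continuous_const.mul he.continuous)
  have h0 : Continuous (fun s => ed X s (deriv e s - Complex.I * e s)) := by
    simpa using Cat_ed_cont hX hw 0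
  exact (h0.add (Cat_ed_cont hX hw _)).add (Cat_ed_cont hX hw _)

theorem Cat_ed_nonneg {X : ℝ → ℝ} (hX : Tri X) (s : ℝ) (w : ℂ) : 0 ≤ ed X s w := by
  unfold ed
  have h1 := Av_pos hX s
  have h2 := wv_pos hX s
  positivity

theorem Cat_int {f g : ℝ → ℝ} (hf : Continuous f) (hg : Continuous g) (j k : ℝ) :
    ∫ s in (0 : ℝ)..(2 * Real.pi), (j * f s + k * g s) =
      j * (∫ s in (0 : ℝ)..(2 * Real.pi), f s) + k * ∫ s in (0 : ℝ)..(2 * Real.pi), g s := by
  have h1 : IntervalIntegrable (fun s => j * f s) volume 0 (2 * Real.pi) :=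
    (continuous_const.mul hf).intervalIntegrable _ _
  have h2 : IntervalIntegrable (fun s => k * g s) volume 0 (2 * Real.pi) :=
    (continuous_const.mul hg).intervalIntegrable _ _
  rw [intervalIntegral.integral_add h1 h2, intervalIntegral.integral_const_mul, intervalIntegral.integral_const_mul]

/-- the energy splits -/
theorem Cat_EE {X : ℝ → ℝ} (hX : Tri X) {e : ℝ → ℂ} (he : ContDiff ℝ 1 e) :
    EE X e = (∫ s in (0 : ℝ)..(2 * Real.pi), Cat_J X e s) +
      4 * Real.pi * ∫ s in (0 : ℝ)..(2 * Real.pi), (cr (e s) (deriv e s) - Complex.normSq (e s)) := by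
  have hc1 := Cat_cr_cont he.continuous (Cat_dgc he)
  have hc2 := Cat_ns_cont he.continuous
  have hc3 : Continuous (fun s => cr (e s) (deriv e s) - Complex.normSq (e s)) := hc1.sub hc2
  have h1 := Cat_int (Cat_J_cont hX he) hc3 1 (4 * Real.pi)
  rw [one_mul] at h1
  rw [← h1]
  unfold EE
  refine intervalIntegral.integral_congr fun s _ => ?_
  simp only [Cat_J]
  ring

theorem Cat_est {X : ℝ → ℝ} (hX : Tri X) {c : ℝ} (hc0 : 0 < c)
    (hc : ∀ (s : ℝ) (r : ℂ), c * Complex.normSq r ≤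
    8 * Real.pi * sg X s * ((m11 X s * r.re ^ 2 + 2 * m12 X s * r.re * r.im + m22 X s * r.im ^ 2) / Dt X s))
    {K : ℝ} (hK0 : 0 ≤ K) (hK : ∀ s ∈ Icc (0 : ℝ) (2 * Real.pi), ∀ r : ℂ,
    - cr (app (g11 X s) (g12 X s) (g22 X s) r)
          (app (deriv (g11 X) s) (deriv (g12 X) s) (deriv (g22 X) s) r) ≤ K * Complex.normSq r)
    {e : ℝ → ℂ} (he : ContDiff ℝ 1 e) (hep : ∀ s, e (s + 2 * Real.pi) = e s) (hE : EE X e ≤ 0)
    {C : ℝ} (hC0 : 0 ≤ C) (M : ℕ) (hM : 1 ≤ M) {eps : ℝ → ℂ} (h1 : ContDiff ℝ 1 eps)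
    (h2 : ∀ s, eps (s + 2 * Real.pi) = eps s)
    (h3 : ∀ n : ℤ, n ≤ 0 → ∫ s in (0 : ℝ)..(2 * Real.pi), Complex.exp (-(Complex.I * n * s)) * eps s = 0)
    (h4 : ∀ n : ℕ, n ≤ M ^ 2 → ∫ s in (0 : ℝ)..(2 * Real.pi), Complex.exp (-(Complex.I * n * s))
        * app (g11 X s) (g12 X s) (g22 X s) (e s - eps s) = 0)
    (h5 : ∫ s in (0 : ℝ)..(2 * Real.pi), Complex.normSq
        (deriv (fun s => app (g11 X s) (g12 X s) (g22 X s) (e s - eps s)) s) ≤ C) :
    - (2 * C + (2 + K) * (8 * Real.pi * C / c) +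
        ∫ s in (0 : ℝ)..(2 * Real.pi), (Complex.normSq (e s) + Complex.normSq (deriv e s))) / M ≤
      ∫ s in (0 : ℝ)..(2 * Real.pi), (cr (e s) (deriv e s) - Complex.normSq (e s)) := by
  have hpi := Real.pi_pos
  have hMr : (1 : ℝ) ≤ M := by exact_mod_cast hM
  have hM0 : (0 : ℝ) < M := by linarith
  have hM2 : (0 : ℝ) < (M : ℝ) ^ 2 := by positivity
  have hr1 : ContDiff ℝ 1 (fun s => e s - eps s) := he.sub h1
  have hB := byp (g11 X) (g12 X) (g22 X) (g11_C1 hX) (g12_C1 hX) (g22_C1 hX) (g_det hX) e eps he hep h1 h2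
  have hA := prs_a eps h1 h2 h3
  have hyC : ContDiff ℝ 1 (fun s => app (g11 X s) (g12 X s) (g22 X s) (e s - eps s)) :=
    Cat_app_C1 (g11_C1 hX) (g12_C1 hX) (g22_C1 hX) hr1
  have hY := prs_b (fun s => app (g11 X s) (g12 X s) (g22 X s) (e s - eps s)) hyC
    (fun s => by simp only [g11_per hX, g12_per hX, g22_per hX, hep, h2]) (M ^ 2)
    (Nat.one_le_iff_ne_zero.2 (by positivity)) h4
  set Bt : ℝ → ℝ := fun s => (- cr (e s) (deriv e s) + 2 * cr (eps s) (deriv e s) - Complex.normSq (eps s)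
          - Complex.normSq (app (g11 X s) (g12 X s) (g22 X s) (e s - eps s))
          - cr (app (g11 X s) (g12 X s) (g22 X s) (e s - eps s))
              (app (deriv (g11 X) s) (deriv (g12 X) s) (deriv (g22 X) s) (e s - eps s))) with hBt
  set IB : ℝ := ∫ s in (0 : ℝ)..(2 * Real.pi), Bt s with hIB
  set IR : ℝ := ∫ s in (0 : ℝ)..(2 * Real.pi), Complex.normSq (e s - eps s) with hIR
  set IP : ℝ := ∫ s in (0 : ℝ)..(2 * Real.pi), (Complex.normSq (e s) + Complex.normSq (deriv e s)) with hIP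
  have hga := (g11_C1 hX).continuous
  have hgb := (g12_C1 hX).continuous
  have hgc := (g22_C1 hX).continuous
  have hga' := Cat_dg (g11_C1 hX)
  have hgb' := Cat_dg (g12_C1 hX)
  have hgc' := Cat_dg (g22_C1 hX)
  have hec := he.continuous
  have hdc := Cat_dgc he
  have hpc := h1.continuous
  have hrc := hr1.continuous
  have hap := Cat_app_cont hga hgb hgc hrc
  have hap' := Cat_app_cont hga' hgb' hgc' hrc
  have hBc : Continuous Bt :=
    (((((Cat_cr_cont hec hdc).neg).add ((continuous_const.mul (Cat_cr_cont hpc hdc)))).sub (Cat_ns_cont hpc)).sub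
      (Cat_ns_cont hap)).sub (Cat_cr_cont hap hap')
  have hRc : Continuous (fun s => Complex.normSq (e s - eps s)) := Cat_ns_cont hrc
  have hPc : Continuous (fun s => Complex.normSq (e s) + Complex.normSq (deriv e s)) :=
    (Cat_ns_cont hec).add (Cat_ns_cont hdc)
  have hFc : Continuous (fun s => cr (e s) (deriv e s) - Complex.normSq (e s)) :=
    (Cat_cr_cont hec hdc).sub (Cat_ns_cont hec)
  -- lower bound of IB
  have hIB1 : - (2 * C / (M : ℝ) ^ 2) ≤ IB := by
    have h6 : (2 : ℝ) / ((M ^ 2 : ℕ) : ℝ) * (∫ s in (0 : ℝ)..(2 * Real.pi), Complex.normSq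
        (deriv (fun s => app (g11 X s) (g12 X s) (g22 X s) (e s - eps s)) s)) ≤ 2 / ((M ^ 2 : ℕ) : ℝ) * C :=
      mul_le_mul_of_nonneg_left h5 (by positivity)
    have h7 : (2 : ℝ) / ((M ^ 2 : ℕ) : ℝ) * C = 2 * C / (M : ℝ) ^ 2 := by
      push_cast
      ring
    rw [h7] at h6
    have h8 := hY.trans h6
    rw [← hB]
    linarith
  -- upper bound of IR
  have hIR0 : 0 ≤ IR := intervalIntegral.integral_nonneg (by positivity) fun s _ => Complex.normSq_nonneg _
  have hIR1 : c * IR ≤ 8 * Real.pi * C / (M : ℝ) ^ 2 := by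
    have h6 : c * IR + 4 * Real.pi * IB = ∫ s in (0 : ℝ)..(2 * Real.pi),
        (c * Complex.normSq (e s - eps s) + 4 * Real.pi * Bt s) := by
      exact (Cat_int hRc hBc c (4 * Real.pi)).symm
    have h7 : ∫ s in (0 : ℝ)..(2 * Real.pi), (c * Complex.normSq (e s - eps s) + 4 * Real.pi * Bt s) ≤
        ∫ s in (0 : ℝ)..(2 * Real.pi), (1 * Cat_J X e s + 4 * Real.pi * (cr (e s) (deriv e s) - Complex.normSq (e s))) := by
      refine intervalIntegral.integral_mono_on (by positivity)
        (((continuous_const.mul hRc).add (continuous_const.mul hBc)).intervalIntegrable _ _)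
        (((continuous_const.mul (Cat_J_cont hX he)).add (continuous_const.mul hFc)).intervalIntegrable _ _) fun s _ => ?_
      have h8 := Cat_pt hX hc s (e s) (deriv e s) (eps s)
      refine h8.trans (le_of_eq ?_)
      unfold Cat_J
      ring
    rw [Cat_int (Cat_J_cont hX he) hFc 1 (4 * Real.pi), one_mul, ← Cat_EE hX he] at h7
    have h9 : 4 * Real.pi * (- (2 * C / (M : ℝ) ^ 2)) ≤ 4 * Real.pi * IB :=
      mul_le_mul_of_nonneg_left hIB1 (by positivity)
    have h10 : 4 * Real.pi * (- (2 * C / (M : ℝ) ^ 2)) = - (8 * Real.pi * C / (M : ℝ) ^ 2) := by ring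
    rw [h10] at h9
    linarith
  have hIR2 : IR ≤ (8 * Real.pi * C / c) / (M : ℝ) ^ 2 := by
    have h6 : IR ≤ (8 * Real.pi * C / (M : ℝ) ^ 2) / c := by
      rw [le_div_iff₀ hc0]
      linarith
    refine h6.trans (le_of_eq ?_)
    field_simp
  -- the lower bound
  have h11 : IB - (2 * (M : ℝ) + K) * IR - IP / M ≤
      ∫ s in (0 : ℝ)..(2 * Real.pi), (cr (e s) (deriv e s) - Complex.normSq (e s)) := by
    have h6 : IB - (2 * (M : ℝ) + K) * IR - IP / M = ∫ s in (0 : ℝ)..(2 * Real.pi),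
        (Bt s - (2 * (M : ℝ) + K) * Complex.normSq (e s - eps s)
          - (Complex.normSq (e s) + Complex.normSq (deriv e s)) / M) := by
      have k1 := Cat_int hBc hRc 1 (- (2 * (M : ℝ) + K))
      have k2 := Cat_int ((continuous_const.mul hBc).add (continuous_const.mul hRc)) hPc
        1 (- (M : ℝ)⁻¹) (f := fun s => 1 * Bt s + (- (2 * (M : ℝ) + K)) * Complex.normSq (e s - eps s))
      rw [k1] at k2
      have k3 : ∫ s in (0 : ℝ)..(2 * Real.pi),
        (Bt s - (2 * (M : ℝ) + K) * Complex.normSq (e s - eps s)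
          - (Complex.normSq (e s) + Complex.normSq (deriv e s)) / M) = ∫ s in (0 : ℝ)..(2 * Real.pi),
        (1 * (1 * Bt s + (- (2 * (M : ℝ) + K)) * Complex.normSq (e s - eps s)) +
          (- (M : ℝ)⁻¹) * (Complex.normSq (e s) + Complex.normSq (deriv e s))) :=
        intervalIntegral.integral_congr fun s _ => by
          simp only [div_eq_mul_inv]
          ring
      rw [k3, k2, hIB, hIR, hIP, div_eq_mul_inv]
      ring
    rw [h6]
    refine intervalIntegral.integral_mono_on (by positivity)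
      (((hBc.sub (continuous_const.mul hRc)).sub (hPc.div_const _)).intervalIntegrable _ _)
      (hFc.intervalIntegrable _ _) fun s hs => ?_
    exact Cat_lo hM0 (e s) (deriv e s) (eps s) _ _ (hK s hs (e s - eps s))
  refine le_trans ?_ h11
  have hD : 0 ≤ 8 * Real.pi * C / c := by positivity
  have h12 : (2 * (M : ℝ) + K) * IR ≤ (2 + K) * (8 * Real.pi * C / c) / M := by
    have h6 : (2 * (M : ℝ) + K) * IR ≤ (2 * (M : ℝ) + K) * ((8 * Real.pi * C / c) / (M : ℝ) ^ 2) :=
      mul_le_mul_of_nonneg_left hIR2 (by positivity)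
    refine h6.trans ?_
    have h7 : 2 * (M : ℝ) + K ≤ (2 + K) * M := by nlinarith
    have h8 : (2 * (M : ℝ) + K) * ((8 * Real.pi * C / c) / (M : ℝ) ^ 2) ≤
        ((2 + K) * M) * ((8 * Real.pi * C / c) / (M : ℝ) ^ 2) :=
      mul_le_mul_of_nonneg_right h7 (by positivity)
    refine h8.trans (le_of_eq ?_)
    field_simp
  have h13 : - (2 * C / (M : ℝ)) ≤ IB := by
    refine le_trans ?_ hIB1
    have h6 : 2 * C / (M : ℝ) ^ 2 ≤ 2 * C / (M : ℝ) := by
      apply div_le_div_of_nonneg_left (by positivity) hM0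
      nlinarith
    linarith
  have h14 : - (2 * C + (2 + K) * (8 * Real.pi * C / c) + IP) / M =
      - (2 * C / (M : ℝ)) - (2 + K) * (8 * Real.pi * C / c) / M - IP / M := by ring
  rw [h14]
  linarith

theorem cat {X : ℝ → ℝ} (hX : Tri X) (eta : Fin 3 → ℝ → ℂ) (he : ∀ i, ContDiff ℝ 1 (eta i))
    (hep : ∀ i s, eta i (s + 2 * Real.pi) = eta i s)
    (hE : ∀ t : Fin 3 → ℝ, EE X (fun s => ∑ i, (t i : ℂ) * eta i s) ≤ 0) :
    ∃ t : Fin 3 → ℝ, t ≠ 0 ∧ ∃ c : ℂ, ∀ s : ℝ, ∑ i, (t i : ℂ) * eta i s = c * Complex.exp (Complex.I * s) := by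
  have hpi := Real.pi_pos
  obtain ⟨c, hc0, hc⟩ := pw_slack hX
  obtain ⟨K, hK0, hK⟩ := Cat_K hX
  obtain ⟨C, hgal⟩ := gal (g11 X) (g12 X) (g22 X) (g11_C1 hX) (g12_C1 hX) (g22_C1 hX) (g11_per hX)
    (g12_per hX) (g22_per hX) (g11_pos hX) (g_det hX) eta he hep
  have hne : ({t : Fin 3 → ℝ | ∑ i, t i ^ 2 = 1}).Nonempty := by
    obtain ⟨t, ht, -⟩ := hgal 1 le_rfl
    exact ⟨t, ht⟩
  obtain ⟨t0, ht0, hmax⟩ := Cat_sphere.exists_isMaxOn hne (Cat_Phi_cont he).continuousOn
  obtain ⟨P, hP⟩ := Cat_sphere.exists_bound_of_continuousOn (Cat_Psi_cont he).continuousOn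
  -- the maximum is nonnegative
  have hkey : ∀ M : ℕ, 1 ≤ M →
      - ((2 * |C| + (2 + K) * (8 * Real.pi * |C| / c) + P) / M) ≤ Cat_Phi eta t0 := by
    intro M hM
    obtain ⟨t, ht, eps, h1, h2, h3, h4, h5⟩ := hgal (M ^ 2) (Nat.one_le_iff_ne_zero.2 (by positivity))
    have hMr : (0 : ℝ) < M := by exact_mod_cast hM
    have h6 := Cat_est hX hc0 hc hK0 hK (Cat_E_C1 he t) (Cat_E_per hep t) (hE t) (abs_nonneg C) M hM h1 h2 h3 h4
      (h5.trans (le_abs_self C))
    simp only [Cat_E_deriv he t] at h6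
    have h7 : Cat_Phi eta t ≤ Cat_Phi eta t0 := hmax ht
    have h8 : Cat_Psi eta t ≤ P := (le_abs_self _).trans (hP t ht)
    refine le_trans ?_ (h6.trans h7)
    rw [neg_div]
    apply neg_le_neg
    apply div_le_div_of_nonneg_right _ hMr.le
    change _ + _ + Cat_Psi eta t ≤ _
    linarith
  have hPhi : 0 ≤ Cat_Phi eta t0 := by
    by_contra hneg
    push Not at hneg
    set D := 2 * |C| + (2 + K) * (8 * Real.pi * |C| / c) + P with hD
    obtain ⟨M, hM⟩ := exists_nat_gt (D / (- Cat_Phi eta t0))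
    have h1 := hkey (M + 1) (Nat.le_add_left 1 M)
    have hMr : (0 : ℝ) < ((M + 1 : ℕ) : ℝ) := by positivity
    rw [neg_le, le_div_iff₀ hMr] at h1
    rw [div_lt_iff₀ (by linarith)] at hM
    push_cast at h1
    nlinarith
  -- the equality case
  have heC := Cat_E_C1 he t0
  have hEE := hE t0
  change EE X (Cat_E eta t0) ≤ 0 at hEE
  rw [Cat_EE hX heC] at hEE
  simp only [Cat_E_deriv he t0] at hEE
  change _ + 4 * Real.pi * Cat_Phi eta t0 ≤ 0 at hEE
  have hJ0 : ∀ s, 0 ≤ Cat_J X (Cat_E eta t0) s := fun s =>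
    add_nonneg (add_nonneg (Cat_ed_nonneg hX _ _) (Cat_ed_nonneg hX _ _)) (Cat_ed_nonneg hX _ _)
  have hJI : ∫ s in (0 : ℝ)..(2 * Real.pi), Cat_J X (Cat_E eta t0) s ≤ 0 := by
    have : 0 ≤ 4 * Real.pi * Cat_Phi eta t0 := by positivity
    linarith
  have hJz : ∀ s ∈ Icc (0 : ℝ) (2 * Real.pi), Cat_J X (Cat_E eta t0) s = 0 := by
    intro s hs
    by_contra hne'
    have h1 := intervalIntegral.integral_pos (a := 0) (b := 2 * Real.pi) (by positivity)
      (Cat_J_cont hX heC).continuousOn (fun x _ => hJ0 x) ⟨s, hs, lt_of_le_of_ne (hJ0 s) (Ne.symm hne')⟩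
    linarith
  have hdper : ∀ s, deriv (Cat_E eta t0) (s + 2 * Real.pi) = deriv (Cat_E eta t0) s := by
    intro s
    have h1 : (fun s => Cat_E eta t0 (s + 2 * Real.pi)) = Cat_E eta t0 := funext (Cat_E_per hep t0)
    have h2 := deriv_comp_add_const (Cat_E eta t0) (2 * Real.pi) s
    rw [← h2, h1]
  have hJper : Function.Periodic (Cat_J X (Cat_E eta t0)) (2 * Real.pi) := by
    intro s
    unfold Cat_J
    rw [hdper, Cat_E_per hep t0]
    have e1 : s + 2 * Real.pi + 2 * Real.pi = s + 4 * Real.pi := by ring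
    have e2 : s + 2 * Real.pi + 4 * Real.pi = s + 6 * Real.pi := by ring
    rw [e1, e2, ed_per hX]
    ring
  have hJall : ∀ s, Cat_J X (Cat_E eta t0) s = 0 := by
    intro s
    obtain ⟨y, hy, hy'⟩ := hJper.exists_mem_Ico₀ (by positivity) s
    rw [hy']
    exact hJz y ⟨hy.1, hy.2.le⟩
  have hw0 : ∀ s, deriv (Cat_E eta t0) s = Complex.I * Cat_E eta t0 s := by
    intro s
    set w := deriv (Cat_E eta t0) s - Complex.I * Cat_E eta t0 s with hw
    have h1 := hJall s
    unfold Cat_J at h1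
    rw [← hw] at h1
    have n0 := Cat_ed_nonneg hX s w
    have n1 := Cat_ed_nonneg hX (s + 2 * Real.pi) w
    have n2 := Cat_ed_nonneg hX (s + 4 * Real.pi) w
    have z0 : ed X s w = 0 := by linarith
    have z1 : ed X (s + 2 * Real.pi) w = 0 := by linarith
    have hz : ∀ s', ed X s' w = 0 → ip w (en (X s')) = 0 := by
      intro s' h
      unfold ed at h
      rw [div_eq_zero_iff] at h
      have h2 := h.resolve_right (wv_pos hX s').ne'
      have h3 := (mul_eq_zero.1 h2).resolve_left (Av_pos hX s').ne'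
      exact pow_eq_zero_iff (by norm_num) |>.1 h3
    have i0 := hz s z0
    have i1 := hz _ z1
    simp only [ip, en] at i0 i1
    have hsin : 0 < Real.sin (X (s + 2 * Real.pi) - X s) :=
      Real.sin_pos_of_pos_of_lt_pi (by linarith [X_lt hX s]) (by linarith [hX.gap s])
    rw [Real.sin_sub] at hsin
    have r1 : w.re = 0 := by
      have : w.re * (Real.sin (X (s + 2 * Real.pi)) * Real.cos (X s) - Real.cos (X (s + 2 * Real.pi)) * Real.sin (X s)) = 0 := by
        linear_combination Real.sin (X (s + 2 * Real.pi)) * i0 - Real.sin (X s) * i1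
      exact (mul_eq_zero.1 this).resolve_right hsin.ne'
    have r2 : w.im = 0 := by
      have : w.im * (Real.sin (X (s + 2 * Real.pi)) * Real.cos (X s) - Real.cos (X (s + 2 * Real.pi)) * Real.sin (X s)) = 0 := by
        linear_combination Real.cos (X s) * i1 - Real.cos (X (s + 2 * Real.pi)) * i0
      exact (mul_eq_zero.1 this).resolve_right hsin.ne'
    have hw00 : w = 0 := Complex.ext r1 r2
    rw [hw, sub_eq_zero] at hw00
    exact hw00
  -- solve the linear equation
  have hconst : ∀ s : ℝ, Cat_E eta t0 s * Complex.exp (-(Complex.I * s)) = Cat_E eta t0 0 := by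
    have hd : ∀ s : ℝ, HasDerivAt (fun s : ℝ => Cat_E eta t0 s * Complex.exp (-(Complex.I * s))) 0 s := by
      intro s
      have h1 : HasDerivAt (Cat_E eta t0) (Complex.I * Cat_E eta t0 s) s := by
        rw [← hw0 s]
        exact ((heC.differentiable (by norm_num)) s).hasDerivAt
      have h2 : HasDerivAt (fun s : ℝ => Complex.exp (-(Complex.I * s)))
          (Complex.exp (-(Complex.I * s)) * (-(Complex.I * 1))) s := by
        have h3 : HasDerivAt (fun s : ℝ => -(Complex.I * (s : ℂ))) (-(Complex.I * 1)) s :=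
          ((HasDerivAt.ofReal_comp (hasDerivAt_id s)).const_mul Complex.I).neg
        exact h3.cexp
      refine (h1.mul h2).congr_deriv ?_
      ring
    intro s
    have h4 := is_const_of_deriv_eq_zero (fun x => (hd x).differentiableAt) (fun x => (hd x).deriv) s 0
    simp only [Complex.ofReal_zero, mul_zero, neg_zero, Complex.exp_zero, mul_one] at h4
    exact h4
  refine ⟨t0, ?_, Cat_E eta t0 0, fun s => ?_⟩
  · intro h0
    have h1 : ∑ i, t0 i ^ 2 = 1 := ht0
    rw [h0] at h1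
    simp at h1
  · change Cat_E eta t0 s = _
    rw [← hconst s, mul_assoc, ← Complex.exp_add, neg_add_cancel, Complex.exp_zero, mul_one]

end Pool.Agent.H1.BP
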