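import Pool.Agent.H1.BP.Der

/-
ROW Wid.  The width is positive, and the support inequality.
(1) width:  phi(s) = h'(x+s) sin s - h(x+s) cos s has derivative (h+h'')(x+s) sin s, which is > 0 on (0,pi); so
    phi(pi) > phi(0):  h(x+pi) > -h(x).   (strictMonoOn_of_deriv_pos on Icc 0 pi)
(2) support inequality: for 0 < s < 2 pi put Gamma(x) = h(x) n(x) + h'(x) t(x); Gamma(x) . n(x+s) = h(x) cos s + h'(x) sin s
    [n(x).n(x+s)=cos s, t(x).n(x+s)=sin s].  Claim h(x) cos s + h'(x) sin s < h(x+s).
    For 0 < s <= pi: D(s) = h(x+s) - h(x) cos s - h'(x) sin s satisfies D(0)=D'(0)=0, D''+D = rho(x+s) > 0. Put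
    E_c(v) = D'(v) sin(c-v) + D(v) cos(c-v): derivative in v is (D''+D)(v) sin(c-v) > 0 for v in (0,c), c <= pi. E_c(c) = D(c), E_c(0) = 0.
    So D(c) > 0 for 0<c<=pi.  For pi <= s < 2pi use the reflected function: apply the first case to h~(y) = h(-y) (x -> -x, s -> 2pi - s), or
    repeat the argument with v in (c,0), -pi <= c < 0, and periodicity (x+s = x+(s-2pi)+2pi).
-/

set_option autoImplicit false
open Set

namespace Pool.Agent.H1.BP

variable {h : ℝ → ℝ}

private theorem aux_der (hs : Supp h) (x c v : ℝ) :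
    HasDerivAt (fun v => deriv h (x + v) * Real.sin (c - v) + h (x + v) * Real.cos (c - v))
      ((h (x + v) + deriv (deriv h) (x + v)) * Real.sin (c - v)) v := by
  have hxv : HasDerivAt (fun v : ℝ => x + v) 1 v := (hasDerivAt_id v).const_add x
  have hcv : HasDerivAt (fun v : ℝ => c - v) (-1) v := (hasDerivAt_id v).const_sub c
  have e0 : HasDerivAt (fun v => h (x + v)) (deriv h (x + v) * 1) v :=
    (hd0 hs (x + v)).comp v hxv
  have e1 : HasDerivAt (fun v => deriv h (x + v)) (deriv (deriv h) (x + v) * 1) v :=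
    (hd1 hs (x + v)).comp v hxv
  have es : HasDerivAt (fun v => Real.sin (c - v)) (Real.cos (c - v) * (-1)) v :=
    (Real.hasDerivAt_sin (c - v)).comp v hcv
  have ec : HasDerivAt (fun v => Real.cos (c - v)) (-Real.sin (c - v) * (-1)) v :=
    (Real.hasDerivAt_cos (c - v)).comp v hcv
  have := (e1.mul es).add (e0.mul ec)
  refine HasDerivAt.congr_deriv this ?_
  ring

private theorem aux_cont (hs : Supp h) (x c : ℝ) :
    Continuous (fun v => deriv h (x + v) * Real.sin (c - v) + h (x + v) * Real.cos (c - v)) :=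
  continuous_iff_continuousAt.2 fun v => (aux_der hs x c v).continuousAt

private theorem aux_pos (hs : Supp h) (x c : ℝ) (h0 : 0 < c) (h1 : c ≤ Real.pi) :
    h x * Real.cos c + deriv h x * Real.sin c < h (x + c) := by
  have hm : StrictMonoOn
      (fun v => deriv h (x + v) * Real.sin (c - v) + h (x + v) * Real.cos (c - v)) (Icc 0 c) := by
    refine strictMonoOn_of_deriv_pos (convex_Icc 0 c) (aux_cont hs x c).continuousOn ?_
    intro v hv
    rw [interior_Icc] at hv
    rw [(aux_der hs x c v).deriv]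
    refine mul_pos (hs.curv _) (Real.sin_pos_of_pos_of_lt_pi ?_ ?_)
    · linarith [hv.2]
    · linarith [hv.1]
  have := hm (left_mem_Icc.2 h0.le) (right_mem_Icc.2 h0.le) h0
  simp only [add_zero, sub_zero, sub_self, Real.sin_zero, Real.cos_zero, mul_zero, mul_one,
    zero_add] at this
  linarith

private theorem aux_neg (hs : Supp h) (x c : ℝ) (h0 : c < 0) (h1 : -Real.pi ≤ c) :
    h x * Real.cos c + deriv h x * Real.sin c < h (x + c) := by
  have hm : StrictAntiOn
      (fun v => deriv h (x + v) * Real.sin (c - v) + h (x + v) * Real.cos (c - v)) (Icc c 0) := by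
    refine strictAntiOn_of_deriv_neg (convex_Icc c 0) (aux_cont hs x c).continuousOn ?_
    intro v hv
    rw [interior_Icc] at hv
    rw [(aux_der hs x c v).deriv]
    refine mul_neg_of_pos_of_neg (hs.curv _) (Real.sin_neg_of_neg_of_neg_pi_lt ?_ ?_)
    · linarith [hv.1]
    · linarith [hv.2]
  have := hm (left_mem_Icc.2 h0.le) (right_mem_Icc.2 h0.le) h0
  simp only [add_zero, sub_zero, sub_self, Real.sin_zero, Real.cos_zero, mul_zero, mul_one,
    zero_add] at this
  linarith

theorem width_pos (hs : Supp h) (x : ℝ) : 0 < h x + h (x + Real.pi) := by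
  have := aux_pos hs x Real.pi Real.pi_pos le_rfl
  rw [Real.cos_pi, Real.sin_pi] at this
  linarith

theorem support_lt (hs : Supp h) (x s : ℝ) (h0 : 0 < s) (h1 : s < 2 * Real.pi) :
    h x * Real.cos s + deriv h x * Real.sin s < h (x + s) := by
  rcases le_or_gt s Real.pi with h2 | h2
  · exact aux_pos hs x s h0 h2
  · have h3 := aux_neg hs x (s - 2 * Real.pi) (by linarith) (by linarith)
    have h4 : h (x + (s - 2 * Real.pi)) = h (x + s) := by
      rw [← hs.per (x + (s - 2 * Real.pi))]
      congr 1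
      ring
    rw [h4, Real.cos_sub_two_pi, Real.sin_sub_two_pi] at h3
    exact h3

end Pool.Agent.H1.BP
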