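import Pool.Agent.H1.BP.Mat

/-
ROW Zet.  The interpolating loop.  x_k = X(s+2pi k), d_k = dd X (s+2pi k), ps_k = ps X (s+2pi k), th_k = 2 ps_k = x_k + x_{k+1}.  d_0+d_1+d_2 = pi.
 sin 2d_k > 0;  th_1 - th_0 = x_2 - x_0 = 2(d_0+d_1) = 2pi - 2d_2, th_2 - th_1 = 2pi - 2 d_0 (x_3 = x_0+2pi), th_2 - th_0 = 2(d_0 + 2 d_1 + d_2) = 2pi + 2 d_1.
 (a) sum_k sin(2d_k) en(th_k) = 0;   (b) sum_k sin(4 d_k) cos^2 th_k = -2 sg, the same with sin^2, and with cos sin: 0   [sum_k sin(4 d_k) n n^T = -2 sg I].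
 For (b): equivalently sum sin 4d_k = -4 sg and sum sin(4 d_k) e^{2 i th_k} = 0.
 zt_C1: sg > 0 is C^1. zt_per: sg 2pi-periodic, the three terms are permuted (Ut, dd 6pi-periodic; en (2 ps X (s+6pi)) = en (2 ps X s + 4pi)).
 zt_spec: if sum_k sin(2d_k) U_k = 0 (U_k = Ut(s+2pi k)) then ip (zt s) (en th_k) = - U_k / 2. Proof: let z be the vector with ip z (en th_k) = -U_k/2 for k = 0,1 (en th_0, en th_1 independent, sin(th_1-th_0) = -sin 2d_2 /= 0); by (a)
   and the hypothesis also for k = 2. Then zt = (1/(4 sg)) sum sin(4d_k) U_k en th_k = -(1/(2 sg)) sum sin(4 d_k) ip z (en th_k) en th_k = z by (b).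
-/

set_option autoImplicit false
open Set

namespace Pool.Agent.H1.BP

variable {X : ℝ → ℝ}


private theorem Zet_s4 (s : ℝ) : s + 2 * Real.pi + 2 * Real.pi = s + 4 * Real.pi := by ring
private theorem Zet_s6 (s : ℝ) : s + 4 * Real.pi + 2 * Real.pi = s + 6 * Real.pi := by ring
private theorem Zet_s6' (s : ℝ) : s + 2 * Real.pi + 4 * Real.pi = s + 6 * Real.pi := by ring
private theorem Zet_s8 (s : ℝ) : s + 6 * Real.pi + 2 * Real.pi = s + 2 * Real.pi + 6 * Real.pi := by ring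

private theorem Zet_d0 (s : ℝ) : 2 * dd X s = X (s + 2 * Real.pi) - X s := by
  unfold dd; ring
private theorem Zet_d1 (s : ℝ) :
    2 * dd X (s + 2 * Real.pi) = X (s + 4 * Real.pi) - X (s + 2 * Real.pi) := by
  unfold dd; rw [Zet_s4]; ring
private theorem Zet_d2 (hX : Tri X) (s : ℝ) :
    2 * dd X (s + 4 * Real.pi) = X s - X (s + 4 * Real.pi) + 2 * Real.pi := by
  unfold dd; rw [Zet_s6, hX.per]; ring
private theorem Zet_p0 (s : ℝ) : 2 * ps X s = X (s + 2 * Real.pi) + X s := by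
  unfold ps; ring
private theorem Zet_p1 (s : ℝ) :
    2 * ps X (s + 2 * Real.pi) = X (s + 4 * Real.pi) + X (s + 2 * Real.pi) := by
  unfold ps; rw [Zet_s4]; ring
private theorem Zet_p2 (hX : Tri X) (s : ℝ) :
    2 * ps X (s + 4 * Real.pi) = X s + X (s + 4 * Real.pi) + 2 * Real.pi := by
  unfold ps; rw [Zet_s6, hX.per]; ring

private theorem Zet_sc (P Q : ℝ) :
    Real.sin (P - Q) * Real.cos (P + Q) = Real.sin P * Real.cos P - Real.sin Q * Real.cos Q := by
  rw [Real.sin_sub, Real.cos_add]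
  linear_combination (Real.sin P * Real.cos P) * Real.sin_sq_add_cos_sq Q
    - (Real.sin Q * Real.cos Q) * Real.sin_sq_add_cos_sq P

private theorem Zet_ss (P Q : ℝ) :
    Real.sin (P - Q) * Real.sin (P + Q) = Real.sin P ^ 2 - Real.sin Q ^ 2 := by
  rw [Real.sin_sub, Real.sin_add]
  linear_combination (Real.sin P ^ 2) * Real.sin_sq_add_cos_sq Q
    - (Real.sin Q ^ 2) * Real.sin_sq_add_cos_sq P

private theorem Zet_triple (A B : ℝ) :
    Real.sin (2 * A) + Real.sin (2 * B) - Real.sin (2 * A + 2 * B)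
      = 4 * (Real.sin A * Real.sin B * Real.sin (A + B)) := by
  rw [Real.sin_add (2 * A) (2 * B), Real.sin_two_mul, Real.sin_two_mul, Real.cos_two_mul',
    Real.cos_two_mul', Real.sin_add]
  linear_combination (-2 * Real.sin A * Real.cos A) * Real.sin_sq_add_cos_sq B
    + (-2 * Real.sin B * Real.cos B) * Real.sin_sq_add_cos_sq A

theorem sum_sin (hX : Tri X) (s : ℝ) :
    ((Real.sin (2 * dd X s) : ℝ) : ℂ) * en (2 * ps X s)
      + ((Real.sin (2 * dd X (s + 2 * Real.pi)) : ℝ) : ℂ) * en (2 * ps X (s + 2 * Real.pi))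
      + ((Real.sin (2 * dd X (s + 4 * Real.pi)) : ℝ) : ℂ) * en (2 * ps X (s + 4 * Real.pi)) = 0 := by
  rw [Zet_d0, Zet_d1, Zet_d2 hX, Zet_p0, Zet_p1, Zet_p2 hX, Real.sin_add_two_pi]
  have e1 := Zet_sc (X (s + 2 * Real.pi)) (X s)
  have e2 := Zet_sc (X (s + 4 * Real.pi)) (X (s + 2 * Real.pi))
  have e3 := Zet_sc (X s) (X (s + 4 * Real.pi))
  have f1 := Zet_ss (X (s + 2 * Real.pi)) (X s)
  have f2 := Zet_ss (X (s + 4 * Real.pi)) (X (s + 2 * Real.pi))
  have f3 := Zet_ss (X s) (X (s + 4 * Real.pi))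
  apply Complex.ext
  · simp only [en, Complex.add_re, Complex.re_ofReal_mul, Complex.zero_re, Real.cos_add_two_pi]
    linarith
  · simp only [en, Complex.add_im, Complex.im_ofReal_mul, Complex.zero_im, Real.sin_add_two_pi]
    linarith

theorem sum_sin4 (hX : Tri X) (s : ℝ) :
    (Real.sin (4 * dd X s) * Real.cos (2 * ps X s) ^ 2
      + Real.sin (4 * dd X (s + 2 * Real.pi)) * Real.cos (2 * ps X (s + 2 * Real.pi)) ^ 2
      + Real.sin (4 * dd X (s + 4 * Real.pi)) * Real.cos (2 * ps X (s + 4 * Real.pi)) ^ 2 = -2 * sg X s) ∧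
    (Real.sin (4 * dd X s) * Real.sin (2 * ps X s) ^ 2
      + Real.sin (4 * dd X (s + 2 * Real.pi)) * Real.sin (2 * ps X (s + 2 * Real.pi)) ^ 2
      + Real.sin (4 * dd X (s + 4 * Real.pi)) * Real.sin (2 * ps X (s + 4 * Real.pi)) ^ 2 = -2 * sg X s) ∧
    (Real.sin (4 * dd X s) * (Real.cos (2 * ps X s) * Real.sin (2 * ps X s))
      + Real.sin (4 * dd X (s + 2 * Real.pi))
          * (Real.cos (2 * ps X (s + 2 * Real.pi)) * Real.sin (2 * ps X (s + 2 * Real.pi)))
      + Real.sin (4 * dd X (s + 4 * Real.pi))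
          * (Real.cos (2 * ps X (s + 4 * Real.pi)) * Real.sin (2 * ps X (s + 4 * Real.pi))) = 0) := by
  have t0 : Real.sin (4 * dd X s) = Real.sin (2 * X (s + 2 * Real.pi) - 2 * X s) := by
    congr 1
    have := Zet_d0 (X := X) s
    linarith
  have t1 : Real.sin (4 * dd X (s + 2 * Real.pi))
      = Real.sin (2 * X (s + 4 * Real.pi) - 2 * X (s + 2 * Real.pi)) := by
    congr 1
    have := Zet_d1 (X := X) s
    linarith
  have t2 : Real.sin (4 * dd X (s + 4 * Real.pi)) = Real.sin (2 * X s - 2 * X (s + 4 * Real.pi)) := by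
    have e : 4 * dd X (s + 4 * Real.pi) = 2 * X s - 2 * X (s + 4 * Real.pi) + 2 * Real.pi + 2 * Real.pi := by
      have := Zet_d2 hX s
      linarith
    rw [e, Real.sin_add_two_pi, Real.sin_add_two_pi]
  have hs : Real.sin (2 * X (s + 2 * Real.pi) - 2 * X s)
      + Real.sin (2 * X (s + 4 * Real.pi) - 2 * X (s + 2 * Real.pi))
      + Real.sin (2 * X s - 2 * X (s + 4 * Real.pi)) = - 4 * sg X s := by
    have h := Zet_triple (X (s + 2 * Real.pi) - X s) (X (s + 4 * Real.pi) - X (s + 2 * Real.pi))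
    have a1 : 2 * (X (s + 2 * Real.pi) - X s) = 2 * X (s + 2 * Real.pi) - 2 * X s := by ring
    have a2 : 2 * (X (s + 4 * Real.pi) - X (s + 2 * Real.pi))
      = 2 * X (s + 4 * Real.pi) - 2 * X (s + 2 * Real.pi) := by ring
    have a3 : 2 * X (s + 2 * Real.pi) - 2 * X s + (2 * X (s + 4 * Real.pi) - 2 * X (s + 2 * Real.pi))
      = -(2 * X s - 2 * X (s + 4 * Real.pi)) := by ring
    have a4 : X (s + 2 * Real.pi) - X s + (X (s + 4 * Real.pi) - X (s + 2 * Real.pi))
      = -(X s - X (s + 4 * Real.pi)) := by ring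
    rw [a1, a2, a3, a4, Real.sin_neg, Real.sin_neg] at h
    unfold sg
    rw [Zet_d0, Zet_d1, Zet_d2 hX, Real.sin_add_two_pi]
    linarith
  have q0 : 2 * (2 * ps X s) = 2 * X (s + 2 * Real.pi) + 2 * X s := by rw [Zet_p0]; ring
  have q1 : 2 * (2 * ps X (s + 2 * Real.pi)) = 2 * X (s + 4 * Real.pi) + 2 * X (s + 2 * Real.pi) := by
    rw [Zet_p1]; ring
  have q2 : 2 * (2 * ps X (s + 4 * Real.pi))
      = 2 * X s + 2 * X (s + 4 * Real.pi) + 2 * Real.pi + 2 * Real.pi := by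
    rw [Zet_p2 hX]; ring
  have c0 : Real.cos (2 * (2 * ps X s)) = Real.cos (2 * X (s + 2 * Real.pi) + 2 * X s) := by rw [q0]
  have c1 : Real.cos (2 * (2 * ps X (s + 2 * Real.pi)))
      = Real.cos (2 * X (s + 4 * Real.pi) + 2 * X (s + 2 * Real.pi)) := by rw [q1]
  have c2 : Real.cos (2 * (2 * ps X (s + 4 * Real.pi)))
      = Real.cos (2 * X s + 2 * X (s + 4 * Real.pi)) := by
    rw [q2, Real.cos_add_two_pi, Real.cos_add_two_pi]
  have s0 : Real.sin (2 * (2 * ps X s)) = Real.sin (2 * X (s + 2 * Real.pi) + 2 * X s) := by rw [q0]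
  have s1 : Real.sin (2 * (2 * ps X (s + 2 * Real.pi)))
      = Real.sin (2 * X (s + 4 * Real.pi) + 2 * X (s + 2 * Real.pi)) := by rw [q1]
  have s2 : Real.sin (2 * (2 * ps X (s + 4 * Real.pi)))
      = Real.sin (2 * X s + 2 * X (s + 4 * Real.pi)) := by
    rw [q2, Real.sin_add_two_pi, Real.sin_add_two_pi]
  have e1 := Zet_sc (2 * X (s + 2 * Real.pi)) (2 * X s)
  have e2 := Zet_sc (2 * X (s + 4 * Real.pi)) (2 * X (s + 2 * Real.pi))
  have e3 := Zet_sc (2 * X s) (2 * X (s + 4 * Real.pi))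
  have f1 := Zet_ss (2 * X (s + 2 * Real.pi)) (2 * X s)
  have f2 := Zet_ss (2 * X (s + 4 * Real.pi)) (2 * X (s + 2 * Real.pi))
  have f3 := Zet_ss (2 * X s) (2 * X (s + 4 * Real.pi))
  have k : ∀ x : ℝ, Real.cos x ^ 2 = (1 + Real.cos (2 * x)) / 2 := fun x => by
    rw [Real.cos_two_mul]; ring
  have k' : ∀ x : ℝ, Real.sin x ^ 2 = (1 - Real.cos (2 * x)) / 2 := fun x => by
    rw [Real.cos_two_mul, Real.sin_sq]; ring
  have k2 : ∀ x : ℝ, Real.cos x * Real.sin x = Real.sin (2 * x) / 2 := fun x => by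
    rw [Real.sin_two_mul]; ring
  rw [t0, t1, t2]
  refine ⟨?_, ?_, ?_⟩
  · rw [k, k, k, c0, c1, c2]
    linear_combination hs / 2 + e1 / 2 + e2 / 2 + e3 / 2
  · rw [k', k', k', c0, c1, c2]
    linear_combination hs / 2 - e1 / 2 - e2 / 2 - e3 / 2
  · rw [k2, k2, k2, s0, s1, s2]
    linear_combination f1 / 2 + f2 / 2 + f3 / 2

private theorem Zet_X (hX : Tri X) (c : ℝ) : ContDiff ℝ 1 (fun s => X (s + c)) :=
  hX.smooth.comp (contDiff_id.add contDiff_const)

private theorem Zet_en {f : ℝ → ℝ} (hf : ContDiff ℝ 1 f) : ContDiff ℝ 1 (fun s => en (f s)) := by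
  have e : (fun s => en (f s)) = fun s => ((Real.cos (f s) : ℝ) : ℂ) + ((Real.sin (f s) : ℝ) : ℂ) * Complex.I := by
    funext s
    apply Complex.ext <;> simp [en, -Complex.ofReal_cos, -Complex.ofReal_sin]
  rw [e]
  exact (Complex.ofRealCLM.contDiff.comp (Real.contDiff_cos.comp hf)).add
    ((Complex.ofRealCLM.contDiff.comp (Real.contDiff_sin.comp hf)).mul contDiff_const)

private theorem Zet_dC (hX : Tri X) (c : ℝ) : ContDiff ℝ 1 (fun s => dd X (s + c)) := by
  unfold dd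
  have h1 : ContDiff ℝ 1 (fun s => X (s + c + 2 * Real.pi)) := by
    have e : (fun s => X (s + c + 2 * Real.pi)) = fun s => X (s + (c + 2 * Real.pi)) := by
      funext s
      rw [add_assoc]
    rw [e]
    exact Zet_X hX (c + 2 * Real.pi)
  exact (h1.sub (Zet_X hX c)).div_const 2

private theorem Zet_pC (hX : Tri X) (c : ℝ) : ContDiff ℝ 1 (fun s => ps X (s + c)) := by
  unfold ps
  have h1 : ContDiff ℝ 1 (fun s => X (s + c + 2 * Real.pi)) := by
    have e : (fun s => X (s + c + 2 * Real.pi)) = fun s => X (s + (c + 2 * Real.pi)) := by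
      funext s
      rw [add_assoc]
    rw [e]
    exact Zet_X hX (c + 2 * Real.pi)
  exact (h1.add (Zet_X hX c)).div_const 2

private theorem Zet_term (hX : Tri X) {Ut : ℝ → ℝ} (hU : ContDiff ℝ 1 Ut) (c : ℝ) :
    ContDiff ℝ 1 (fun s => ((Real.sin (4 * dd X (s + c)) * Ut (s + c) : ℝ) : ℂ) * en (2 * ps X (s + c))) := by
  refine ContDiff.mul ?_ (Zet_en (contDiff_const.mul (Zet_pC hX c)))
  refine Complex.ofRealCLM.contDiff.comp ?_
  exact (Real.contDiff_sin.comp (contDiff_const.mul (Zet_dC hX c))).mul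
    (hU.comp (contDiff_id.add contDiff_const))


theorem zt_C1 (hX : Tri X) {Ut : ℝ → ℝ} (hU : ContDiff ℝ 1 Ut) : ContDiff ℝ 1 (zt X Ut) := by
  unfold zt
  refine ContDiff.mul ?_ ?_
  · refine Complex.ofRealCLM.contDiff.comp ?_
    refine ContDiff.div contDiff_const (contDiff_const.mul (sg_C1 hX)) ?_
    intro s
    have := sg_pos hX s
    positivity
  · have h0 := Zet_term hX hU 0
    simp only [add_zero] at h0
    exact (h0.add (Zet_term hX hU (2 * Real.pi))).add (Zet_term hX hU (4 * Real.pi))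

theorem zt_per (hX : Tri X) {Ut : ℝ → ℝ} (hU : ∀ s, Ut (s + 6 * Real.pi) = Ut s) (s : ℝ) :
    zt X Ut (s + 2 * Real.pi) = zt X Ut s := by
  have hd : dd X (s + 6 * Real.pi) = dd X s := by
    unfold dd
    rw [Zet_s8, hX.per, hX.per]
    ring
  have hp : en (2 * ps X (s + 6 * Real.pi)) = en (2 * ps X s) := by
    have e : 2 * ps X (s + 6 * Real.pi) = 2 * ps X s + 2 * Real.pi + 2 * Real.pi := by
      unfold ps
      rw [Zet_s8, hX.per, hX.per]
      ring
    unfold en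
    rw [e, Real.cos_add_two_pi, Real.cos_add_two_pi, Real.sin_add_two_pi, Real.sin_add_two_pi]
  unfold zt
  rw [sg_per hX, Zet_s4, Zet_s6', hd, hp, hU]
  ring

theorem zt_spec (hX : Tri X) {Ut : ℝ → ℝ} (hU : ∀ s, Ut (s + 6 * Real.pi) = Ut s)
    (h0 : ∀ s, Real.sin (2 * dd X s) * Ut s
      + Real.sin (2 * dd X (s + 2 * Real.pi)) * Ut (s + 2 * Real.pi)
      + Real.sin (2 * dd X (s + 4 * Real.pi)) * Ut (s + 4 * Real.pi) = 0) (s : ℝ) :
    ip (zt X Ut s) (en (2 * ps X s)) = - Ut s / 2 := by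
  have g0 : Real.sin (2 * dd X s) ≠ 0 := by
    have := sg_pos hX s
    intro h
    unfold sg at this
    rw [h, zero_mul, zero_mul] at this
    exact lt_irrefl _ this
  have g1 : Real.sin (2 * dd X (s + 2 * Real.pi)) ≠ 0 := by
    have := sg_pos hX s
    intro h
    unfold sg at this
    rw [h, mul_zero, zero_mul] at this
    exact lt_irrefl _ this
  have g2 : Real.sin (2 * dd X (s + 4 * Real.pi)) ≠ 0 := by
    have := sg_pos hX s
    intro h
    unfold sg at this
    rw [h, mul_zero] at this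
    exact lt_irrefl _ this
  have i0 : Real.cos (2 * ps X s) * Real.cos (2 * ps X s) + Real.sin (2 * ps X s) * Real.sin (2 * ps X s) = 1 := by
    have := Real.sin_sq_add_cos_sq (2 * ps X s)
    linarith
  have i1 : Real.cos (2 * ps X (s + 2 * Real.pi)) * Real.cos (2 * ps X s)
      + Real.sin (2 * ps X (s + 2 * Real.pi)) * Real.sin (2 * ps X s)
      = Real.cos (2 * dd X (s + 4 * Real.pi)) := by
    rw [← Real.cos_sub, Zet_p0 s, Zet_p1 s, Zet_d2 hX s, Real.cos_add_two_pi, ← Real.cos_neg]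
    congr 1
    ring
  have i2 : Real.cos (2 * ps X (s + 4 * Real.pi)) * Real.cos (2 * ps X s)
      + Real.sin (2 * ps X (s + 4 * Real.pi)) * Real.sin (2 * ps X s)
      = Real.cos (2 * dd X (s + 2 * Real.pi)) := by
    rw [← Real.cos_sub, Zet_p0 s, Zet_p2 hX s, Zet_d1 s]
    have e : X s + X (s + 4 * Real.pi) + 2 * Real.pi - (X (s + 2 * Real.pi) + X s)
      = X (s + 4 * Real.pi) - X (s + 2 * Real.pi) + 2 * Real.pi := by ring
    rw [e, Real.cos_add_two_pi]
  have hc : Real.cos (2 * dd X s) = Real.cos (2 * dd X (s + 2 * Real.pi)) * Real.cos (2 * dd X (s + 4 * Real.pi))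
      - Real.sin (2 * dd X (s + 2 * Real.pi)) * Real.sin (2 * dd X (s + 4 * Real.pi)) := by
    rw [← Real.cos_add]
    have e : 2 * dd X (s + 2 * Real.pi) + 2 * dd X (s + 4 * Real.pi) = - (2 * dd X s) + 2 * Real.pi := by
      rw [Zet_d0 s, Zet_d1 s, Zet_d2 hX s]
      ring
    rw [e, Real.cos_add_two_pi, Real.cos_neg]
  have k : ∀ x : ℝ, Real.sin (4 * x) = 2 * Real.sin (2 * x) * Real.cos (2 * x) := fun x => by
    rw [← Real.sin_two_mul]
    congr 1
    ring
  have hz : ip (zt X Ut s) (en (2 * ps X s)) = 1 / (4 * sg X s) *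
      (Real.sin (4 * dd X s) * Ut s * (Real.cos (2 * ps X s) * Real.cos (2 * ps X s)
        + Real.sin (2 * ps X s) * Real.sin (2 * ps X s))
      + Real.sin (4 * dd X (s + 2 * Real.pi)) * Ut (s + 2 * Real.pi) *
        (Real.cos (2 * ps X (s + 2 * Real.pi)) * Real.cos (2 * ps X s)
          + Real.sin (2 * ps X (s + 2 * Real.pi)) * Real.sin (2 * ps X s))
      + Real.sin (4 * dd X (s + 4 * Real.pi)) * Ut (s + 4 * Real.pi) *
        (Real.cos (2 * ps X (s + 4 * Real.pi)) * Real.cos (2 * ps X s)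
          + Real.sin (2 * ps X (s + 4 * Real.pi)) * Real.sin (2 * ps X s))) := by
    simp only [ip, zt, en, Complex.add_re, Complex.add_im, Complex.re_ofReal_mul,
      Complex.im_ofReal_mul]
    ring
  rw [hz, i0, i1, i2, k, k, k, hc]
  have h := h0 s
  unfold sg
  generalize Real.sin (2 * dd X s) = A at *
  generalize Real.sin (2 * dd X (s + 2 * Real.pi)) = B at *
  generalize Real.sin (2 * dd X (s + 4 * Real.pi)) = C at *
  generalize Real.cos (2 * dd X (s + 2 * Real.pi)) = c1 at *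
  generalize Real.cos (2 * dd X (s + 4 * Real.pi)) = c2 at *
  field_simp
  linear_combination 4 * c1 * c2 * h

end Pool.Agent.H1.BP
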