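import Pool.Agent.H1.BP.Ptw
import Pool.Agent.H1.BP.Wid
import Pool.Agent.H1.BP.Zet

/-
ROW End1.  From U(psi) = -2 ip z (en (2 psi)) for all psi, (al,o1,o2) /= 0, to the conclusion.
 uu' = UU (Ptw.uu_deriv); the function C + ip z (i en(2psi)) = C - z.re sin 2psi + z.im cos 2psi has derivative -2 z.re cos 2psi - 2 z.im sin 2psi = -2 ip z (en 2psi).  So uu psi = C - z.re sin 2psi + z.im cos 2psi.
 al = 0: uu(psi+pi) = uu(psi) and uu = -2 h on, on(psi+pi) = -on psi: (h psi + h(psi+pi)) on(psi) = 0 for all psi, width_pos: on = 0 identically, so o1=o2=0: contradiction.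
 al /= 0: (h - on/al)^2 = (uu psi)/al + (on psi/al)^2, and on^2 is a combination of 1, cos 2psi, sin 2psi.
-/

set_option autoImplicit false
open Set

namespace Pool.Agent.H1.BP

theorem end1_uu {h : ℝ → ℝ} (hs : Supp h) (al o1 o2 : ℝ) (z : ℂ)
    (hz : ∀ s, UU h al o1 o2 s = -2 * ip z (en (2 * s))) :
    ∃ C : ℝ, ∀ s, uu h al o1 o2 s = C - z.re * Real.sin (2 * s) + z.im * Real.cos (2 * s) := by
  let G : ℝ → ℝ := fun x => uu h al o1 o2 x - (z.im * Real.cos (2 * x) - z.re * Real.sin (2 * x))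
  have hG : ∀ x, HasDerivAt G 0 x := by
    intro x
    have h1 := uu_deriv hs al o1 o2 x
    have hl : HasDerivAt (fun x : ℝ => 2 * x) 2 x := by
      simpa using (hasDerivAt_id x).const_mul (2 : ℝ)
    have h2 : HasDerivAt (fun x : ℝ => Real.cos (2 * x)) (-Real.sin (2 * x) * 2) x := hl.cos
    have h3 : HasDerivAt (fun x : ℝ => Real.sin (2 * x)) (Real.cos (2 * x) * 2) x := hl.sin
    have h4 := h1.sub ((h2.const_mul z.im).sub (h3.const_mul z.re))
    have e : UU h al o1 o2 x - (z.im * (-Real.sin (2 * x) * 2) - z.re * (Real.cos (2 * x) * 2)) = 0 := by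
      rw [hz x]
      simp only [ip, en]
      ring
    rw [e] at h4
    exact h4
  have hd : Differentiable ℝ G := fun x => (hG x).differentiableAt
  have hc : ∀ x, G x = G 0 := fun x => is_const_of_deriv_eq_zero hd (fun y => (hG y).deriv) x 0
  refine ⟨G 0, fun s => ?_⟩
  have := hc s
  have e2 : G s = uu h al o1 o2 s - (z.im * Real.cos (2 * s) - z.re * Real.sin (2 * s)) := rfl
  linarith

theorem end1 {h : ℝ → ℝ} (hs : Supp h) (al o1 o2 : ℝ) (hne : ¬ (al = 0 ∧ o1 = 0 ∧ o2 = 0)) (z : ℂ)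
    (hz : ∀ s, UU h al o1 o2 s = -2 * ip z (en (2 * s))) :
    ∃ c1 c2 C0 C1 C2 : ℝ, ∀ s, (h s - (c1 * Real.cos s + c2 * Real.sin s)) ^ 2
      = C0 + C1 * Real.cos (2 * s) + C2 * Real.sin (2 * s) := by
  obtain ⟨C, hC⟩ := end1_uu hs al o1 o2 z hz
  by_cases hal : al = 0
  · exfalso
    have hon : ∀ x, on o1 o2 x = 0 := by
      intro x
      have h1 := hC x
      have h2 := hC (x + Real.pi)
      have e1 : 2 * (x + Real.pi) = 2 * x + 2 * Real.pi := by ring
      rw [e1, Real.sin_add_two_pi, Real.cos_add_two_pi] at h2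
      have e2 : on o1 o2 (x + Real.pi) = - on o1 o2 x := by
        simp only [on, Real.cos_add_pi, Real.sin_add_pi]
        ring
      simp only [uu] at h1 h2
      rw [e2, hal] at h2
      rw [hal] at h1
      have h3 : (h x + h (x + Real.pi)) * on o1 o2 x = 0 := by linarith
      rcases mul_eq_zero.mp h3 with h4 | h4
      · exact absurd h4 (ne_of_gt (width_pos hs x))
      · exact h4
    have ha := hon 0
    have hb := hon (Real.pi / 2)
    simp only [on, Real.cos_zero, Real.sin_zero, Real.cos_pi_div_two, Real.sin_pi_div_two] at ha hb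
    exact hne ⟨hal, by linarith, by linarith⟩
  · refine ⟨o1 / al, o2 / al, C / al + (o1 ^ 2 + o2 ^ 2) / (2 * al ^ 2),
      z.im / al + (o1 ^ 2 - o2 ^ 2) / (2 * al ^ 2), - z.re / al + o1 * o2 / al ^ 2, fun s => ?_⟩
    have h1 := hC s
    simp only [uu, on] at h1
    have e1 : Real.cos (2 * s) = Real.cos s ^ 2 - Real.sin s ^ 2 := by
      rw [Real.cos_two_mul]
      nlinarith [Real.sin_sq_add_cos_sq s]
    have e2 : Real.sin (2 * s) = 2 * Real.sin s * Real.cos s := Real.sin_two_mul s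
    have e3 : Real.sin s ^ 2 + Real.cos s ^ 2 = 1 := Real.sin_sq_add_cos_sq s
    have h2 : (h s - (o1 / al * Real.cos s + o2 / al * Real.sin s)) ^ 2
        = (al * h s ^ 2 - 2 * h s * (o1 * Real.cos s + o2 * Real.sin s)) / al
          + (o1 * Real.cos s + o2 * Real.sin s) ^ 2 / al ^ 2 := by
      field_simp
      ring
    have h3 : (o1 * Real.cos s + o2 * Real.sin s) ^ 2
        = (o1 ^ 2 + o2 ^ 2) / 2 + (o1 ^ 2 - o2 ^ 2) / 2 * Real.cos (2 * s) + o1 * o2 * Real.sin (2 * s) := by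
      rw [e1, e2]
      linear_combination ((o1 ^ 2 + o2 ^ 2) / 2) * e3
    rw [h2, h1, h3]
    field_simp
    ring

end Pool.Agent.H1.BP
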