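import Pool.Agent.H1.BP.IdA

/-
ROW IdB.  8 QQ in the parameter s of the 3-periodic circle.  X : Tri, X (s+2pi) = f (X s).
 ps X s = (X(s+2pi)+X s)/2, dd X s = (X(s+2pi)-X s)/2 are C^1, (ps)' = (X'(s+2pi)+X' s)/2 > 0, ps (s+6pi) = ps s + 2pi, dd (s+6pi) = dd s.
 ps is a bijection of R; let D t := dd X (ps^{-1} t) (continuous, 2pi-periodic): with s = ps^{-1} t: t - D t = X s, t + D t = X (s+2pi) = f (X s).  idA applies.
 (1) int_0^{2pi} Ph8 t (D t) dt = int over any period = int_{ps 0}^{ps (6pi)} Ph8 t (D t) dt = int_0^{6pi} Ph8 (ps s) (dd s) ps'(s) ds   (intervalIntegral.integral_comp_mul_deriv).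
 (2) write u,U,UD,w,wD at ps s; U' := d/ds U(ps s) = UD ps', u' = U ps', w' = wD ps'; D = dd s.  K-term: Kf D UD^2 ps' = Kf D (deriv Ut)^2/ps'.
     Remaining: r(s) := [2 Kf D UD (u-2w) + U(U+2wD) sin 2D + 2 Lf D U (U-2wD)] ps' .   2Kf D = D - sin(4D)/4, 2 Lf D = D + sin(4D)/4.
     at(s) = aa h f (X s) = al1 - be, at(s+2pi) = al1 + be with al1 = (u+2w)/2 + (u-2w)/2 cos 2D, be = U/2 sin 2D (Ptw.kap0, kap1 with x = X s, y = X (s+2pi) = f x; for at(s+2pi) use hf.inv).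
     Claim r(s) - 2 at(s+2pi) at'(s) = d/ds [ U(u-2w)(D - sin(4D)/4) - al1^2 + be^2 + 2 al1 be ]  (compute both sides: 2(al1+be)(al1'-be') = (al1^2 - be^2 - 2 al1 be)' + 4 be al1',
       4 be al1' = 2 U sin 2D [ (u'+2w')/2 + (u'-2w')/2 cos 2D - (u-2w) sin 2D D' ], (D - sin(4D)/4)' = 2 sin^2(2D) D').
     The bracket is 6pi-periodic and C^1, so its derivative integrates to 0 over 0..6pi.
-/

set_option autoImplicit false
open Set MeasureTheory

namespace Pool.Agent.H1.BP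

variable {h : ℝ → ℝ}

theorem IdB_on_per (o1 o2 x : ℝ) : on o1 o2 (x + 2 * Real.pi) = on o1 o2 x := by
  unfold on
  rw [Real.cos_add_two_pi, Real.sin_add_two_pi]

theorem IdB_ot_per (o1 o2 x : ℝ) : ot o1 o2 (x + 2 * Real.pi) = ot o1 o2 x := by
  unfold ot
  rw [Real.cos_add_two_pi, Real.sin_add_two_pi]

theorem IdB_uu_per (hs : Supp h) (al o1 o2 x : ℝ) :
    uu h al o1 o2 (x + 2 * Real.pi) = uu h al o1 o2 x := by
  unfold uu
  rw [hs.per, IdB_on_per]

theorem IdB_UU_per (hs : Supp h) (al o1 o2 x : ℝ) :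
    UU h al o1 o2 (x + 2 * Real.pi) = UU h al o1 o2 x := by
  unfold UU
  rw [d1_per hs, hs.per, IdB_on_per, IdB_ot_per]

theorem IdB_UD_per (hs : Supp h) (al o1 o2 x : ℝ) :
    UD h al o1 o2 (x + 2 * Real.pi) = UD h al o1 o2 x := by
  unfold UD
  rw [d1_per hs, d2_per hs, hs.per, IdB_on_per, IdB_ot_per]

theorem IdB_wf_per (hs : Supp h) (al o1 o2 x : ℝ) :
    wf h al o1 o2 (x + 2 * Real.pi) = wf h al o1 o2 x := by
  unfold wf
  rw [d1_per hs, IdB_ot_per]

theorem IdB_wD_per (hs : Supp h) (al o1 o2 x : ℝ) :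
    wD h al o1 o2 (x + 2 * Real.pi) = wD h al o1 o2 x := by
  unfold wD
  rw [d1_per hs, d2_per hs, IdB_on_per, IdB_ot_per]

theorem IdB_Ph8_per (hs : Supp h) (al o1 o2 x D : ℝ) :
    Ph8 h al o1 o2 (x + 2 * Real.pi) D = Ph8 h al o1 o2 x D := by
  unfold Ph8
  rw [IdB_UD_per hs, IdB_UU_per hs, IdB_uu_per hs, IdB_wf_per hs, IdB_wD_per hs]

theorem IdB_on_c (o1 o2 : ℝ) : Continuous (on o1 o2) := by
  unfold on
  fun_prop

theorem IdB_ot_c (o1 o2 : ℝ) : Continuous (ot o1 o2) := by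
  unfold ot
  fun_prop

theorem IdB_uu_c (hs : Supp h) (al o1 o2 : ℝ) : Continuous (uu h al o1 o2) := by
  have h0 := c0 hs
  have h3 := IdB_on_c o1 o2
  unfold uu
  fun_prop

theorem IdB_UU_c (hs : Supp h) (al o1 o2 : ℝ) : Continuous (UU h al o1 o2) := by
  have h0 := c0 hs
  have h1 := c1 hs
  have h3 := IdB_on_c o1 o2
  have h4 := IdB_ot_c o1 o2
  unfold UU
  fun_prop

theorem IdB_UD_c (hs : Supp h) (al o1 o2 : ℝ) : Continuous (UD h al o1 o2) := by
  have h0 := c0 hs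
  have h1 := c1 hs
  have h2 := c2 hs
  have h3 := IdB_on_c o1 o2
  have h4 := IdB_ot_c o1 o2
  unfold UD
  fun_prop

theorem IdB_wf_c (hs : Supp h) (al o1 o2 : ℝ) : Continuous (wf h al o1 o2) := by
  have h1 := c1 hs
  have h4 := IdB_ot_c o1 o2
  unfold wf
  fun_prop

theorem IdB_wD_c (hs : Supp h) (al o1 o2 : ℝ) : Continuous (wD h al o1 o2) := by
  have h0 := c0 hs
  have h1 := c1 hs
  have h2 := c2 hs
  have h3 := IdB_on_c o1 o2
  have h4 := IdB_ot_c o1 o2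
  unfold wD
  fun_prop

theorem IdB_Kf_c : Continuous Kf := by
  unfold Kf
  fun_prop

theorem IdB_Lf_c : Continuous Lf := by
  unfold Lf
  fun_prop

theorem IdB_Ph8_c (hs : Supp h) (al o1 o2 : ℝ) {p d : ℝ → ℝ} (hp : Continuous p)
    (hd : Continuous d) : Continuous (fun s => Ph8 h al o1 o2 (p s) (d s)) := by
  have h1 := IdB_uu_c hs al o1 o2
  have h2 := IdB_UU_c hs al o1 o2
  have h3 := IdB_UD_c hs al o1 o2
  have h4 := IdB_wf_c hs al o1 o2
  have h5 := IdB_wD_c hs al o1 o2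
  have h6 := IdB_Kf_c
  have h7 := IdB_Lf_c
  unfold Ph8
  fun_prop

noncomputable def IdB_a (h : ℝ → ℝ) (al o1 o2 x D : ℝ) : ℝ :=
  (uu h al o1 o2 x + 2 * wf h al o1 o2 x) / 2
    + (uu h al o1 o2 x - 2 * wf h al o1 o2 x) / 2 * Real.cos (2 * D)

noncomputable def IdB_b (h : ℝ → ℝ) (al o1 o2 x D : ℝ) : ℝ :=
  UU h al o1 o2 x / 2 * Real.sin (2 * D)

noncomputable def IdB_a1 (h : ℝ → ℝ) (al o1 o2 x D p' d' : ℝ) : ℝ :=
  (UU h al o1 o2 x * p' + 2 * (wD h al o1 o2 x * p')) / 2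
    + (UU h al o1 o2 x * p' - 2 * (wD h al o1 o2 x * p')) / 2 * Real.cos (2 * D)
    - (uu h al o1 o2 x - 2 * wf h al o1 o2 x) * Real.sin (2 * D) * d'

noncomputable def IdB_b1 (h : ℝ → ℝ) (al o1 o2 x D p' d' : ℝ) : ℝ :=
  UD h al o1 o2 x * p' / 2 * Real.sin (2 * D) + UU h al o1 o2 x * Real.cos (2 * D) * d'

theorem IdB_cos2 {d : ℝ → ℝ} {d' s : ℝ} (hd : HasDerivAt d d' s) (c : ℝ) :
    HasDerivAt (fun s => Real.cos (c * d s)) (-Real.sin (c * d s) * (c * d')) s :=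
  (hd.const_mul c).cos

theorem IdB_sin2 {d : ℝ → ℝ} {d' s : ℝ} (hd : HasDerivAt d d' s) (c : ℝ) :
    HasDerivAt (fun s => Real.sin (c * d s)) (Real.cos (c * d s) * (c * d')) s :=
  (hd.const_mul c).sin

theorem IdB_ha (hs : Supp h) (al o1 o2 : ℝ) {p d : ℝ → ℝ} {p' d' s : ℝ}
    (hp : HasDerivAt p p' s) (hd : HasDerivAt d d' s) :
    HasDerivAt (fun s => IdB_a h al o1 o2 (p s) (d s)) (IdB_a1 h al o1 o2 (p s) (d s) p' d') s := by
  have h1 : HasDerivAt (fun s => uu h al o1 o2 (p s)) (UU h al o1 o2 (p s) * p') s :=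
    (uu_deriv hs al o1 o2 (p s)).comp s hp
  have h2 : HasDerivAt (fun s => wf h al o1 o2 (p s)) (wD h al o1 o2 (p s) * p') s :=
    (wf_deriv hs al o1 o2 (p s)).comp s hp
  have h3 := ((h1.add (h2.const_mul 2)).div_const 2).add
    (((h1.sub (h2.const_mul 2)).div_const 2).mul (IdB_cos2 hd 2))
  refine HasDerivAt.congr_deriv (f := fun s => IdB_a h al o1 o2 (p s) (d s)) h3 ?_
  unfold IdB_a1
  simp only [Pi.add_apply, Pi.sub_apply]
  ring

theorem IdB_hb (hs : Supp h) (al o1 o2 : ℝ) {p d : ℝ → ℝ} {p' d' s : ℝ}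
    (hp : HasDerivAt p p' s) (hd : HasDerivAt d d' s) :
    HasDerivAt (fun s => IdB_b h al o1 o2 (p s) (d s)) (IdB_b1 h al o1 o2 (p s) (d s) p' d') s := by
  have h1 : HasDerivAt (fun s => UU h al o1 o2 (p s)) (UD h al o1 o2 (p s) * p') s :=
    (UU_deriv hs al o1 o2 (p s)).comp s hp
  have h3 := (h1.div_const 2).mul (IdB_sin2 hd 2)
  refine HasDerivAt.congr_deriv (f := fun s => IdB_b h al o1 o2 (p s) (d s)) h3 ?_
  unfold IdB_b1
  ring

noncomputable def IdB_B (h : ℝ → ℝ) (al o1 o2 x D : ℝ) : ℝ :=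
  UU h al o1 o2 x * (uu h al o1 o2 x - 2 * wf h al o1 o2 x) * (D - Real.sin (4 * D) / 4)
    - IdB_a h al o1 o2 x D ^ 2 + IdB_b h al o1 o2 x D ^ 2
    + 2 * (IdB_a h al o1 o2 x D * IdB_b h al o1 o2 x D)

/-- the derivative of the bracket -/
theorem IdB_hB (hs : Supp h) (al o1 o2 : ℝ) {p d : ℝ → ℝ} {p' d' s : ℝ}
    (hp : HasDerivAt p p' s) (hd : HasDerivAt d d' s) :
    HasDerivAt (fun s => IdB_B h al o1 o2 (p s) (d s))
      (Ph8 h al o1 o2 (p s) (d s) * p' - (Kf (d s) * UD h al o1 o2 (p s) ^ 2 * p'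
        - 4 * Lf (d s) * UU h al o1 o2 (p s) ^ 2 * p'
        + 2 * (IdB_a h al o1 o2 (p s) (d s) + IdB_b h al o1 o2 (p s) (d s))
          * (IdB_a1 h al o1 o2 (p s) (d s) p' d' - IdB_b1 h al o1 o2 (p s) (d s) p' d'))) s := by
  have h1 : HasDerivAt (fun s => uu h al o1 o2 (p s)) (UU h al o1 o2 (p s) * p') s :=
    (uu_deriv hs al o1 o2 (p s)).comp s hp
  have h2 : HasDerivAt (fun s => wf h al o1 o2 (p s)) (wD h al o1 o2 (p s) * p') s :=
    (wf_deriv hs al o1 o2 (p s)).comp s hp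
  have h3 : HasDerivAt (fun s => UU h al o1 o2 (p s)) (UD h al o1 o2 (p s) * p') s :=
    (UU_deriv hs al o1 o2 (p s)).comp s hp
  have h4 := IdB_ha hs al o1 o2 hp hd
  have h5 := IdB_hb hs al o1 o2 hp hd
  have h6 := (h3.mul (h1.sub (h2.const_mul 2))).mul (hd.sub ((IdB_sin2 hd 4).div_const 4))
  have h7 := ((h6.sub (h4.pow 2)).add (h5.pow 2)).add ((h4.mul h5).const_mul 2)
  refine HasDerivAt.congr_deriv (f := fun s => IdB_B h al o1 o2 (p s) (d s)) h7 ?_
  have t1 : Real.sin (4 * d s) = 2 * Real.sin (2 * d s) * Real.cos (2 * d s) := by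
    rw [← Real.sin_two_mul]
    ring_nf
  have t2 : Real.cos (4 * d s) = 1 - 2 * Real.sin (2 * d s) ^ 2 := by
    have h := Real.cos_two_mul (2 * d s)
    rw [Real.cos_sq'] at h
    rw [show 4 * d s = 2 * (2 * d s) by ring, h]
    ring
  unfold Ph8 Kf Lf IdB_a1 IdB_b1
  simp only [Pi.mul_apply, Pi.sub_apply, t1, t2]
  unfold IdB_b
  generalize IdB_a h al o1 o2 (p s) (d s) = A
  generalize UU h al o1 o2 (p s) = U
  generalize UD h al o1 o2 (p s) = U1
  generalize uu h al o1 o2 (p s) = u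
  generalize wf h al o1 o2 (p s) = w
  generalize wD h al o1 o2 (p s) = w1
  generalize Real.sin (2 * d s) = S
  generalize Real.cos (2 * d s) = C
  ring

theorem IdB_B_per (hs : Supp h) (al o1 o2 x D : ℝ) :
    IdB_B h al o1 o2 (x + 2 * Real.pi) D = IdB_B h al o1 o2 x D := by
  unfold IdB_B IdB_a IdB_b
  rw [IdB_UU_per hs, IdB_uu_per hs, IdB_wf_per hs]

theorem IdB_X {X : ℝ → ℝ} (hX : Tri X) (s : ℝ) : HasDerivAt X (deriv X s) s :=
  ((hX.smooth.differentiable (by norm_num)) s).hasDerivAt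

theorem IdB_X2 {X : ℝ → ℝ} (hX : Tri X) (s c : ℝ) :
    HasDerivAt (fun s => X (s + c)) (deriv X (s + c)) s :=
  (IdB_X hX (s + c)).comp_add_const s c

theorem IdB_Xc {X : ℝ → ℝ} (hX : Tri X) : Continuous (deriv X) :=
  hX.smooth.continuous_deriv le_rfl

theorem IdB_ps {X : ℝ → ℝ} (hX : Tri X) (s : ℝ) :
    HasDerivAt (ps X) ((deriv X (s + 2 * Real.pi) + deriv X s) / 2) s :=
  ((IdB_X2 hX s (2 * Real.pi)).add (IdB_X hX s)).div_const 2

theorem IdB_dd {X : ℝ → ℝ} (hX : Tri X) (s : ℝ) :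
    HasDerivAt (dd X) ((deriv X (s + 2 * Real.pi) - deriv X s) / 2) s :=
  ((IdB_X2 hX s (2 * Real.pi)).sub (IdB_X hX s)).div_const 2

theorem IdB_psper {X : ℝ → ℝ} (hX : Tri X) (s : ℝ) :
    ps X (s + 6 * Real.pi) = ps X s + 2 * Real.pi := by
  unfold ps
  rw [show s + 6 * Real.pi + 2 * Real.pi = (s + 2 * Real.pi) + 6 * Real.pi by ring, hX.per, hX.per]
  ring

theorem IdB_ddper {X : ℝ → ℝ} (hX : Tri X) (s : ℝ) :
    dd X (s + 6 * Real.pi) = dd X s := by
  unfold dd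
  rw [show s + 6 * Real.pi + 2 * Real.pi = (s + 2 * Real.pi) + 6 * Real.pi by ring, hX.per, hX.per]
  ring

theorem IdB_psmono {X : ℝ → ℝ} (hX : Tri X) : StrictMono (ps X) := by
  refine strictMono_of_deriv_pos (fun s => ?_)
  rw [(IdB_ps hX s).deriv]
  have h1 := hX.pos s
  have h2 := hX.pos (s + 2 * Real.pi)
  linarith

theorem IdB_psnat {X : ℝ → ℝ} (hX : Tri X) (n : ℕ) (s : ℝ) :
    ps X (s + n * (6 * Real.pi)) = ps X s + n * (2 * Real.pi) := by
  induction n with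
  | zero => simp
  | succ n ih =>
    rw [show s + ((n + 1 : ℕ) : ℝ) * (6 * Real.pi) = (s + n * (6 * Real.pi)) + 6 * Real.pi by
      push_cast; ring, IdB_psper hX, ih]
    push_cast
    ring

theorem IdB_pssurj {X : ℝ → ℝ} (hX : Tri X) : Function.Surjective (ps X) := by
  intro t
  have hc : Continuous (ps X) :=
    continuous_iff_continuousAt.2 (fun s => (IdB_ps hX s).continuousAt)
  have hpi := Real.pi_pos
  obtain ⟨n, hn⟩ := exists_nat_ge (|t - ps X 0| / (2 * Real.pi))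
  rw [div_le_iff₀ (by positivity)] at hn
  obtain ⟨h1, h2⟩ := abs_le.1 hn
  have h3 : ps X (0 + n * (6 * Real.pi)) = ps X 0 + n * (2 * Real.pi) := IdB_psnat hX n 0
  have h4 : ps X (-(n * (6 * Real.pi)) + n * (6 * Real.pi))
      = ps X (-(n * (6 * Real.pi))) + n * (2 * Real.pi) := IdB_psnat hX n _
  rw [neg_add_cancel] at h4
  rw [zero_add] at h3
  have h5 : -(n * (6 * Real.pi)) ≤ n * (6 * Real.pi) := by
    have : (0:ℝ) ≤ n * (6 * Real.pi) := by positivity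
    linarith
  obtain ⟨s, _, hs⟩ := intermediate_value_Icc h5 hc.continuousOn
    (show t ∈ Icc (ps X (-(n * (6 * Real.pi)))) (ps X (n * (6 * Real.pi))) from
      ⟨by linarith, by linarith⟩)
  exact ⟨s, hs⟩

theorem IdB_aa0 {f : ℝ → ℝ} {X : ℝ → ℝ} (hXf : ∀ s, X (s + 2 * Real.pi) = f (X s))
    (al o1 o2 s : ℝ) : aa h f al o1 o2 (X s)
      = IdB_a h al o1 o2 (ps X s) (dd X s) - IdB_b h al o1 o2 (ps X s) (dd X s) := by
  have hk := kap0 h al o1 o2 (X s) (f (X s))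
  have h1 : (X s + f (X s)) / 2 = ps X s := by
    unfold ps
    rw [hXf]
    ring
  have h2 : f (X s) - X s = 2 * dd X s := by
    unfold dd
    rw [hXf]
    ring
  rw [h1, h2] at hk
  unfold aa IdB_a IdB_b
  rw [hk]

theorem IdB_aa1 {f : ℝ → ℝ} (hf : Circle h f) {X : ℝ → ℝ}
    (hXf : ∀ s, X (s + 2 * Real.pi) = f (X s))
    (al o1 o2 s : ℝ) : aa h f al o1 o2 (X (s + 2 * Real.pi))
      = IdB_a h al o1 o2 (ps X s) (dd X s) + IdB_b h al o1 o2 (ps X s) (dd X s) := by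
  have hk := kap1 h al o1 o2 (X s) (f (X s))
  have h1 : (X s + f (X s)) / 2 = ps X s := by
    unfold ps
    rw [hXf]
    ring
  have h2 : f (X s) - X s = 2 * dd X s := by
    unfold dd
    rw [hXf]
    ring
  rw [h1, h2, hf.inv] at hk
  unfold aa IdB_a IdB_b
  rw [hXf, hk]

theorem idB (hs : Supp h) {f : ℝ → ℝ} (hf : Circle h f) {X : ℝ → ℝ} (hX : Tri X)
    (hXf : ∀ s, X (s + 2 * Real.pi) = f (X s)) (al o1 o2 : ℝ) :
    8 * QQ h f al o1 o2 = ∫ s in (0 : ℝ)..(6 * Real.pi),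
      (Kf (dd X s) * deriv (fun s => UU h al o1 o2 (ps X s)) s ^ 2 / deriv (ps X) s
        - 4 * Lf (dd X s) * UU h al o1 o2 (ps X s) ^ 2 * deriv (ps X) s
        + 2 * aa h f al o1 o2 (X (s + 2 * Real.pi)) * deriv (fun s => aa h f al o1 o2 (X s)) s) := by
  have hpc : Continuous (ps X) :=
    continuous_iff_continuousAt.2 (fun s => (IdB_ps hX s).continuousAt)
  have hdc : Continuous (dd X) :=
    continuous_iff_continuousAt.2 (fun s => (IdB_dd hX s).continuousAt)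
  have hXc := IdB_Xc hX
  obtain ⟨e, he⟩ : ∃ e : ℝ ≃o ℝ, ∀ s, e s = ps X s :=
    ⟨(IdB_psmono hX).orderIsoOfSurjective _ (IdB_pssurj hX), fun s => rfl⟩
  have he1 : ∀ s, e.symm (ps X s) = s := fun s => by rw [← he, OrderIso.symm_apply_apply]
  have he2 : ∀ t, ps X (e.symm t) = t := fun t => by rw [← he, OrderIso.apply_symm_apply]
  have hec : Continuous e.symm := e.symm.continuous
  have heper : ∀ t, e.symm (t + 2 * Real.pi) = e.symm t + 6 * Real.pi := by
    intro t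
    have h1 : ps X (e.symm t + 6 * Real.pi) = t + 2 * Real.pi := by
      rw [IdB_psper hX, he2]
    rw [← h1, he1]
  have hXm : StrictMono X := strictMono_of_deriv_pos hX.pos
  have hpi := Real.pi_pos
  have hD0 : ∀ t, 0 ≤ dd X (e.symm t) := by
    intro t
    unfold dd
    have h1 := hXm (show e.symm t < e.symm t + 2 * Real.pi by linarith)
    linarith
  have hD : ∀ t, f (t - dd X (e.symm t)) = t + dd X (e.symm t) := by
    intro t
    have h1 : t - dd X (e.symm t) = X (e.symm t) := by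
      have h2 := he2 t
      unfold ps at h2
      unfold dd
      linarith
    have h3 : t + dd X (e.symm t) = X (e.symm t + 2 * Real.pi) := by
      have h2 := he2 t
      unfold ps at h2
      unfold dd
      linarith
    rw [h1, h3, hXf]
  rw [idA hs hf (fun t => dd X (e.symm t)) hD0 hD al o1 o2]
  obtain ⟨G, hG⟩ : ∃ G : ℝ → ℝ, G = fun t => Ph8 h al o1 o2 t (dd X (e.symm t)) := ⟨_, rfl⟩
  have hGc : Continuous G := by
    rw [hG]
    exact IdB_Ph8_c hs al o1 o2 continuous_id (hdc.comp hec)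
  have hGp : Function.Periodic G (2 * Real.pi) := by
    intro t
    rw [hG]
    show Ph8 h al o1 o2 (t + 2 * Real.pi) (dd X (e.symm (t + 2 * Real.pi)))
      = Ph8 h al o1 o2 t (dd X (e.symm t))
    rw [heper, IdB_ddper hX, IdB_Ph8_per hs]
  have hGs : ∀ s, G (ps X s) = Ph8 h al o1 o2 (ps X s) (dd X s) := by
    intro s
    rw [hG]
    show Ph8 h al o1 o2 (ps X s) (dd X (e.symm (ps X s))) = _
    rw [he1]
  have e1 : ∫ t in (0 : ℝ)..(2 * Real.pi), Ph8 h al o1 o2 t (dd X (e.symm t))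
      = ∫ s in (0 : ℝ)..(6 * Real.pi), G (ps X s) * ((deriv X (s + 2 * Real.pi) + deriv X s) / 2) := by
    have h1 : ∫ t in (0 : ℝ)..(2 * Real.pi), Ph8 h al o1 o2 t (dd X (e.symm t))
        = ∫ t in (0 : ℝ)..(2 * Real.pi), G t := by rw [hG]
    have h2 := hGp.intervalIntegral_add_eq 0 (ps X 0)
    rw [zero_add] at h2
    have h3 : ps X 0 + 2 * Real.pi = ps X (6 * Real.pi) := by
      rw [← IdB_psper hX, zero_add]
    have h4 := intervalIntegral.integral_comp_mul_deriv (a := 0) (b := 6 * Real.pi) (f := ps X)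
      (f' := fun s => (deriv X (s + 2 * Real.pi) + deriv X s) / 2) (g := G)
      (fun x _ => IdB_ps hX x) (by fun_prop) hGc
    rw [h1, h2, h3, ← h4]
    rfl
  rw [e1]
  obtain ⟨B', hB'⟩ : ∃ B' : ℝ → ℝ, B' = fun s =>
      Ph8 h al o1 o2 (ps X s) (dd X s) * ((deriv X (s + 2 * Real.pi) + deriv X s) / 2)
      - (Kf (dd X s) * UD h al o1 o2 (ps X s) ^ 2 * ((deriv X (s + 2 * Real.pi) + deriv X s) / 2)
        - 4 * Lf (dd X s) * UU h al o1 o2 (ps X s) ^ 2
          * ((deriv X (s + 2 * Real.pi) + deriv X s) / 2)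
        + 2 * (IdB_a h al o1 o2 (ps X s) (dd X s) + IdB_b h al o1 o2 (ps X s) (dd X s))
          * (IdB_a1 h al o1 o2 (ps X s) (dd X s) ((deriv X (s + 2 * Real.pi) + deriv X s) / 2)
              ((deriv X (s + 2 * Real.pi) - deriv X s) / 2)
            - IdB_b1 h al o1 o2 (ps X s) (dd X s) ((deriv X (s + 2 * Real.pi) + deriv X s) / 2)
              ((deriv X (s + 2 * Real.pi) - deriv X s) / 2))) := ⟨_, rfl⟩
  have k1 := IdB_uu_c hs al o1 o2
  have k2 := IdB_UU_c hs al o1 o2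
  have k3 := IdB_UD_c hs al o1 o2
  have k4 := IdB_wf_c hs al o1 o2
  have k5 := IdB_wD_c hs al o1 o2
  have k6 := IdB_Kf_c
  have k7 := IdB_Lf_c
  have k8 := IdB_Ph8_c hs al o1 o2 hpc hdc
  have hB'c : Continuous B' := by
    rw [hB']
    unfold IdB_a IdB_b IdB_a1 IdB_b1
    fun_prop
  have hBd : ∀ s, HasDerivAt (fun s => IdB_B h al o1 o2 (ps X s) (dd X s)) (B' s) s := by
    intro s
    rw [hB']
    exact IdB_hB hs al o1 o2 (IdB_ps hX s) (IdB_dd hX s)
  have hB0 : ∫ s in (0 : ℝ)..(6 * Real.pi), B' s = 0 := by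
    rw [intervalIntegral.integral_eq_sub_of_hasDerivAt (fun s _ => hBd s)
      (hB'c.intervalIntegrable _ _)]
    have h1 := IdB_psper hX 0
    have h2 := IdB_ddper hX 0
    rw [zero_add] at h1 h2
    simp only [h1, h2, IdB_B_per hs, sub_self]
  have hI : ∀ s, (Kf (dd X s) * deriv (fun s => UU h al o1 o2 (ps X s)) s ^ 2 / deriv (ps X) s
        - 4 * Lf (dd X s) * UU h al o1 o2 (ps X s) ^ 2 * deriv (ps X) s
        + 2 * aa h f al o1 o2 (X (s + 2 * Real.pi)) * deriv (fun s => aa h f al o1 o2 (X s)) s)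
      = G (ps X s) * ((deriv X (s + 2 * Real.pi) + deriv X s) / 2) - B' s := by
    intro s
    have h1 : deriv (fun s => UU h al o1 o2 (ps X s)) s
        = UD h al o1 o2 (ps X s) * ((deriv X (s + 2 * Real.pi) + deriv X s) / 2) :=
      ((UU_deriv hs al o1 o2 (ps X s)).comp s (IdB_ps hX s)).deriv
    have h2 : deriv (ps X) s = (deriv X (s + 2 * Real.pi) + deriv X s) / 2 := (IdB_ps hX s).deriv
    have h3 : deriv (fun s => aa h f al o1 o2 (X s)) s
        = IdB_a1 h al o1 o2 (ps X s) (dd X s) ((deriv X (s + 2 * Real.pi) + deriv X s) / 2)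
              ((deriv X (s + 2 * Real.pi) - deriv X s) / 2)
            - IdB_b1 h al o1 o2 (ps X s) (dd X s) ((deriv X (s + 2 * Real.pi) + deriv X s) / 2)
              ((deriv X (s + 2 * Real.pi) - deriv X s) / 2) := by
      have h4 : (fun s => aa h f al o1 o2 (X s)) = fun s =>
          IdB_a h al o1 o2 (ps X s) (dd X s) - IdB_b h al o1 o2 (ps X s) (dd X s) := by
        funext s
        exact IdB_aa0 hXf al o1 o2 s
      rw [h4]
      exact ((IdB_ha hs al o1 o2 (IdB_ps hX s) (IdB_dd hX s)).sub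
        (IdB_hb hs al o1 o2 (IdB_ps hX s) (IdB_dd hX s))).deriv
    have h5 : 0 < (deriv X (s + 2 * Real.pi) + deriv X s) / 2 := by
      have h6 := hX.pos s
      have h7 := hX.pos (s + 2 * Real.pi)
      linarith
    rw [h1, h2, h3, IdB_aa1 hf hXf al o1 o2 s, hGs, hB']
    have h8 : Kf (dd X s) * (UD h al o1 o2 (ps X s) * ((deriv X (s + 2 * Real.pi) + deriv X s) / 2))
        ^ 2 / ((deriv X (s + 2 * Real.pi) + deriv X s) / 2)
        = Kf (dd X s) * UD h al o1 o2 (ps X s) ^ 2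
          * ((deriv X (s + 2 * Real.pi) + deriv X s) / 2) := by
      field_simp
    rw [h8]
    ring
  simp only [hI]
  rw [intervalIntegral.integral_sub _ (hB'c.intervalIntegrable _ _), hB0, sub_zero]
  refine Continuous.intervalIntegrable ?_ _ _
  have h9 : Continuous (fun s => G (ps X s)) := hGc.comp hpc
  fun_prop

end Pool.Agent.H1.BP
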