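import Pool.Agent.H1.BP.Mx2

/-
ROW Lip.  A circle of 3-periodic orbits is C^1.
(1) g x = p0 x (f x) is Lipschitz: for x < x' < x + small: f x < f x', so (p0 decreasing in the second variable) g x' - g x = p0 x' (f x') - p0 x (f x) <= p0 x' (f x) - p0 x (f x) <= C (x'-x),
    and with x = f w, x' = f w' (w < w'): g x' - g x = p1 w' x' - p1 w x >= p1 w x' - p1 w x >= -C (x'-x)  (p1 increasing in the first variable).
(2) f is locally Lipschitz: p0 x (f x) - p0 x (f x') = [g x - g x'] + [p0 x' (f x') - p0 x (f x')] is O(|x-x'|), and p0 x . has derivative - R x y with R >= c > 0 for y between f x and f x' (compactness: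
    x + e <= y <= x+2pi-e).  So |f x' - f x| <= C |x' - x| for |x'-x| small, uniformly (everything is 2pi-periodic).
(3) Fix x; x1 = f x, x2 = f x1, x3 = x + 2pi. For t small: D1 = f(x+t) - x1, D2 = f(f(x+t)) - x2, both O(t).  The stationarity conditions  p1 (x+t) (x1+D1) = p0 (x1+D1) (x2+D2),  p1 (x1+D1) (x2+D2) = p0 (x2+D2) (x+t+2pi)
    (hf.inv at x+t and f(x+t), with h3), expanded to first order (differentiability of p0, p1, Der.p0_C1, p1_C1):
      r0 t + a1 D1 + r1 D2 = o(t),   r2 t + r1 D1 + a2 D2 = o(t),    r0 = R x x1, r1 = R x1 x2, r2 = R x2 x3, a1 = Syy x x1 + Sxx x1 x2, a2 = Syy x1 x2 + Sxx x2 x3.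
    (d/d of p1 x y: R dx + Syy dy;  of p0 x y: -Sxx dx - R dy.)
    a1 a2 - r1^2 > 0: by J3_le with a=0 the form a1 b^2 + a2 c^2 + 2 r1 b c is <= 0, so a1,a2 <= 0 and a1 a2 >= r1^2; if a1 a2 = r1^2 (so a1 < 0) take b = r1, c = -a1 > 0 ... i.e. b,c > 0 with
    a1 b^2 + a2 c^2 + 2 r1 b c = 0 (b = r1, c = -a1: a1 r1^2 + a2 a1^2 - 2 r1^2 a1 = a1 (a1 a2 - r1^2) = 0), then J3_le with (e, b, c), e > 0 small: a0 e^2 + 2 e (r0 b + r2 c) <= 0 for all small e > 0: contradiction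
    as r0 b + r2 c > 0.
    So D1/t -> (r1 r2 - r0 a2)/(a1 a2 - r1^2) : HasDerivAt f (...) x, and the derivative is continuous in x.  It is > 0: r1 r2 > 0, -r0 a2 >= 0.
-/

set_option autoImplicit false
open Set

namespace Pool.Agent.H1.BP

variable {h : ℝ → ℝ}

/-- the quadratic form of the Hessian: the lower right block is nonsingular -/
theorem Lip_det {A0 a1 a2 r0 r1 r2 : ℝ} (h0 : 0 < r0) (h1 : 0 < r1) (h2 : 0 < r2)
    (hQ : ∀ a b c : ℝ, A0 * a ^ 2 + a1 * b ^ 2 + a2 * c ^ 2 + 2 * r0 * a * b + 2 * r1 * b * c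
      + 2 * r2 * c * a ≤ 0) : a2 ≤ 0 ∧ 0 < a1 * a2 - r1 ^ 2 := by
  have ha2 : a2 ≤ 0 := by
    have := hQ 0 0 1
    linarith
  have ha1 : a1 ≤ 0 := by
    have := hQ 0 1 0
    linarith
  have ha1' : a1 < 0 := by
    rcases ha1.lt_or_eq with h | h
    · exact h
    · exfalso
      have h3 := hQ 0 ((1 - a2) / r1) 1
      rw [h] at h3
      have e : 2 * r1 * ((1 - a2) / r1) * 1 = 2 * (1 - a2) := by
        field_simp
      rw [e] at h3
      nlinarith
  refine ⟨ha2, ?_⟩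
  by_contra hcon
  push Not at hcon
  set q := r0 * r1 - r2 * a1 with hq
  have hq0 : 0 < q := by
    have : 0 < r0 * r1 := mul_pos h0 h1
    have : r2 * a1 < 0 := mul_neg_of_pos_of_neg h2 ha1'
    linarith
  set e := q / (|A0| + 1) with he
  have hA : 0 < |A0| + 1 := by positivity
  have he0 : 0 < e := div_pos hq0 hA
  have h3 := hQ e r1 (-a1)
  have h4 : A0 * e ^ 2 + a1 * r1 ^ 2 + a2 * (-a1) ^ 2 + 2 * r0 * e * r1 + 2 * r1 * r1 * (-a1)
      + 2 * r2 * (-a1) * e = e * (A0 * e + 2 * q) + a1 * (a1 * a2 - r1 ^ 2) := by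
    rw [hq]
    ring
  rw [h4] at h3
  have h5 : 0 ≤ a1 * (a1 * a2 - r1 ^ 2) := mul_nonneg_of_nonpos_of_nonpos ha1 hcon
  have h6 : -q ≤ A0 * e := by
    have h7 : -(|A0| * e) ≤ A0 * e := by
      have := neg_abs_le A0
      nlinarith
    have h8 : |A0| * e ≤ q := by
      rw [he, mul_div_assoc']
      rw [div_le_iff₀ hA]
      nlinarith [abs_nonneg A0]
    linarith
  have h9 : 0 < e * (A0 * e + 2 * q) := mul_pos he0 (by linarith)
  linarith

/-- mean value theorem for points in any order -/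
theorem Lip_mvt {G G' : ℝ → ℝ} (hG : ∀ s, HasDerivAt G (G' s) s) (a b : ℝ) :
    ∃ ξ, |ξ - a| ≤ |b - a| ∧ G b - G a = G' ξ * (b - a) := by
  have hc : Continuous G := continuous_iff_continuousAt.mpr fun s => (hG s).continuousAt
  rcases lt_trichotomy a b with hab | hab | hab
  · obtain ⟨ξ, hξ, he⟩ := exists_hasDerivAt_eq_slope G G' hab hc.continuousOn (fun s _ => hG s)
    refine ⟨ξ, ?_, ?_⟩
    · rw [abs_of_pos (sub_pos.mpr hξ.1), abs_of_pos (sub_pos.mpr hab)]
      linarith [hξ.2]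
    · rw [he]
      have : b - a ≠ 0 := by linarith [sub_pos.mpr hab]
      field_simp
  · subst hab
    exact ⟨a, by simp, by simp⟩
  · obtain ⟨ξ, hξ, he⟩ := exists_hasDerivAt_eq_slope G G' hab hc.continuousOn (fun s _ => hG s)
    refine ⟨ξ, ?_, ?_⟩
    · rw [abs_of_neg (sub_neg.mpr hξ.2), abs_of_neg (sub_neg.mpr hab)]
      linarith [hξ.1]
    · rw [he]
      have : a - b ≠ 0 := by linarith [sub_pos.mpr hab]
      field_simp
      ring

theorem Lip_tend {l : Filter ℝ} {u ξ : ℝ → ℝ} {a : ℝ} (hu : Filter.Tendsto u l (nhds a))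
    (h : ∀ t, |ξ t - a| ≤ |u t - a|) : Filter.Tendsto ξ l (nhds a) := by
  rw [tendsto_iff_norm_sub_tendsto_zero] at hu ⊢
  exact squeeze_zero (fun t => norm_nonneg _) h hu

/-- exact first order expansion along a path -/
theorem Lip_diff {F Fx Fy : ℝ → ℝ → ℝ} (hx : ∀ x y, HasDerivAt (fun x => F x y) (Fx x y) x)
    (hy : ∀ x y, HasDerivAt (fun y => F x y) (Fy x y) y)
    (cx : Continuous fun z : ℝ × ℝ => Fx z.1 z.2) (cy : Continuous fun z : ℝ × ℝ => Fy z.1 z.2)
    {l : Filter ℝ} {u v : ℝ → ℝ} {a b : ℝ} (hu : Filter.Tendsto u l (nhds a))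
    (hv : Filter.Tendsto v l (nhds b)) :
    ∃ A B : ℝ → ℝ, Filter.Tendsto A l (nhds (Fx a b)) ∧ Filter.Tendsto B l (nhds (Fy a b)) ∧
      ∀ t, F (u t) (v t) - F a b = A t * (u t - a) + B t * (v t - b) := by
  have e1 : ∀ t, ∃ ξ, |ξ - a| ≤ |u t - a| ∧ F (u t) (v t) - F a (v t) = Fx ξ (v t) * (u t - a) :=
    fun t => Lip_mvt (G := fun s => F s (v t)) (G' := fun s => Fx s (v t)) (fun s => hx s (v t)) a (u t)
  have e2 : ∀ t, ∃ ξ, |ξ - b| ≤ |v t - b| ∧ F a (v t) - F a b = Fy a ξ * (v t - b) :=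
    fun t => Lip_mvt (G := fun s => F a s) (G' := fun s => Fy a s) (fun s => hy a s) b (v t)
  choose ξ hξ hξe using e1
  choose η hη hηe using e2
  refine ⟨fun t => Fx (ξ t) (v t), fun t => Fy a (η t), ?_, ?_, fun t => ?_⟩
  · have h1 := (cx.tendsto (a, b)).comp ((Lip_tend hu hξ).prodMk_nhds hv)
    exact h1
  · have h1 := (cy.tendsto (a, b)).comp ((tendsto_const_nhds (x := a)).prodMk_nhds (Lip_tend hv hη))
    exact h1
  · have h1 := hξe t
    have h2 := hηe t
    linarith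

theorem circle_C1 (hs : Supp h) {f : ℝ → ℝ} (hf : Circle h f) (h3 : ∀ x, f (f (f x)) = x + 2 * Real.pi) :
    ContDiff ℝ 1 f ∧ ∀ x, 0 < deriv f x := by
  have hcf := hf.cont
  have hR0 : ∀ x, 0 < R h x (f x) := fun x => R_pos hs (hf.lo x) (hf.hi x)
  have hR1 : ∀ x, 0 < R h (f x) (f (f x)) := fun x => R_pos hs (hf.lo (f x)) (hf.hi (f x))
  have hR2 : ∀ x, 0 < R h (f (f x)) (x + 2 * Real.pi) := fun x => by
    have h1 := hf.lo (f (f x))
    have h2 := hf.hi (f (f x))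
    rw [h3] at h1 h2
    exact R_pos hs h1 h2
  set a1 : ℝ → ℝ := fun x => Syy h x (f x) + Sxx h (f x) (f (f x)) with ha1
  set a2 : ℝ → ℝ := fun x => Syy h (f x) (f (f x)) + Sxx h (f (f x)) (x + 2 * Real.pi) with ha2
  have hdet : ∀ x, a2 x ≤ 0 ∧ 0 < a1 x * a2 x - R h (f x) (f (f x)) ^ 2 := fun x =>
    Lip_det (hR0 x) (hR1 x) (hR2 x) (fun a b c => J3_le hs hf h3 x a b c)
  set c : ℝ → ℝ := fun x => (R h (f x) (f (f x)) * R h (f (f x)) (x + 2 * Real.pi) -
    R h x (f x) * a2 x) / (a1 x * a2 x - R h (f x) (f (f x)) ^ 2) with hc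
  have hcpos : ∀ x, 0 < c x := by
    intro x
    have h1 := mul_pos (hR1 x) (hR2 x)
    have h2 := mul_nonneg_of_nonpos_of_nonpos (hdet x).1 (neg_nonpos.mpr (hR0 x).le)
    exact div_pos (by linarith) (hdet x).2
  have hder : ∀ x, HasDerivAt f (c x) x := by
    intro x
    rw [hasDerivAt_iff_tendsto_slope_zero]
    have hu0 : Filter.Tendsto (fun t : ℝ => x + t) (nhdsWithin 0 {0}ᶜ) (nhds x) := by
      have h1 : Filter.Tendsto (fun t : ℝ => x + t) (nhds 0) (nhds (x + 0)) :=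
        (continuous_const.add continuous_id).tendsto 0
      rw [add_zero] at h1
      exact h1.mono_left nhdsWithin_le_nhds
    have hu1 : Filter.Tendsto (fun t : ℝ => f (x + t)) (nhdsWithin 0 {0}ᶜ) (nhds (f x)) :=
      (hcf.tendsto x).comp hu0
    have hu2 : Filter.Tendsto (fun t : ℝ => f (f (x + t))) (nhdsWithin 0 {0}ᶜ) (nhds (f (f x))) :=
      (hcf.tendsto (f x)).comp hu1
    have hu3 : Filter.Tendsto (fun t : ℝ => x + t + 2 * Real.pi) (nhdsWithin 0 {0}ᶜ)
        (nhds (x + 2 * Real.pi)) := hu0.add_const _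
    obtain ⟨A1, B1, hA1, hB1, e1⟩ := Lip_diff (p1_x hs) (p1_y hs) (R_c hs) (Syy_c hs) hu0 hu1
    obtain ⟨A2, B2, hA2, hB2, e2⟩ := Lip_diff (p0_x hs) (p0_y hs) (Sxx_c hs).neg (R_c hs).neg hu1 hu2
    obtain ⟨A3, B3, hA3, hB3, e3⟩ := Lip_diff (p1_x hs) (p1_y hs) (R_c hs) (Syy_c hs) hu1 hu2
    obtain ⟨A4, B4, hA4, hB4, e4⟩ := Lip_diff (p0_x hs) (p0_y hs) (Sxx_c hs).neg (R_c hs).neg hu2 hu3
    have hN : Filter.Tendsto (fun t => (-B2 t) * (-B4 t) - A1 t * (B3 t - A4 t)) (nhdsWithin 0 {0}ᶜ)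
        (nhds (R h (f x) (f (f x)) * R h (f (f x)) (x + 2 * Real.pi) - R h x (f x) * a2 x)) := by
      have h1 := (hB2.neg.mul hB4.neg).sub (hA1.mul (hB3.sub hA4))
      refine h1.congr' (Filter.Eventually.of_forall fun t => rfl) |>.trans_eq ?_
      simp only [ha2, neg_neg, sub_neg_eq_add]
    have hD : Filter.Tendsto (fun t => (B1 t - A2 t) * (B3 t - A4 t) - (-B2 t) * A3 t)
        (nhdsWithin 0 {0}ᶜ) (nhds (a1 x * a2 x - R h (f x) (f (f x)) ^ 2)) := by
      have h1 := ((hB1.sub hA2).mul (hB3.sub hA4)).sub (hB2.neg.mul hA3)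
      refine h1.congr' (Filter.Eventually.of_forall fun t => rfl) |>.trans_eq ?_
      simp only [ha1, ha2, neg_neg, sub_neg_eq_add, sq]
    have hq := hN.div hD (hdet x).2.ne'
    have hDne : ∀ᶠ t in nhdsWithin (0 : ℝ) {0}ᶜ,
        (B1 t - A2 t) * (B3 t - A4 t) - (-B2 t) * A3 t ≠ 0 :=
      (hD.eventually (lt_mem_nhds (hdet x).2)).mono fun t ht => ne_of_gt ht
    refine hq.congr' ?_
    filter_upwards [hDne, self_mem_nhdsWithin] with t ht ht0
    have ht0' : t ≠ 0 := ht0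
    have q1 := e1 t
    have q2 := e2 t
    have q3 := e3 t
    have q4 := e4 t
    have i1 := hf.inv x
    have i2 := hf.inv (x + t)
    have i3 := hf.inv (f x)
    have i4 := hf.inv (f (x + t))
    rw [h3] at i3 i4
    simp only [Pi.div_apply]
    rw [smul_eq_mul, div_eq_iff ht]
    have k1 : A1 t * t + (B1 t - A2 t) * (f (x + t) - f x) - B2 t * (f (f (x + t)) - f (f x)) = 0 := by
      have : x + t - x = t := by ring
      rw [this] at q1
      linarith
    have k2 : -B4 t * t + A3 t * (f (x + t) - f x) + (B3 t - A4 t) * (f (f (x + t)) - f (f x)) = 0 := by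
      have : x + t + 2 * Real.pi - (x + 2 * Real.pi) = t := by ring
      rw [this] at q4
      linarith
    have k3 : ((B1 t - A2 t) * (B3 t - A4 t) - (-B2 t) * A3 t) * (f (x + t) - f x) =
        ((-B2 t) * (-B4 t) - A1 t * (B3 t - A4 t)) * t := by
      linear_combination (B3 t - A4 t) * k1 + B2 t * k2
    have k4 : t⁻¹ * (f (x + t) - f x) * ((B1 t - A2 t) * (B3 t - A4 t) - (-B2 t) * A3 t) =
        t⁻¹ * (((-B2 t) * (-B4 t) - A1 t * (B3 t - A4 t)) * t) := by
      rw [← k3]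
      ring
    rw [k4]
    field_simp
  have hderiv : deriv f = c := funext fun x => (hder x).deriv
  refine ⟨contDiff_one_iff_deriv.mpr ⟨fun x => (hder x).differentiableAt, ?_⟩, fun x => ?_⟩
  · rw [hderiv]
    have q0 : Continuous fun x => R h x (f x) := (R_c hs).comp (continuous_id.prodMk hcf)
    have q1 : Continuous fun x => R h (f x) (f (f x)) :=
      (R_c hs).comp (hcf.prodMk (hcf.comp hcf))
    have q2 : Continuous fun x => R h (f (f x)) (x + 2 * Real.pi) :=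
      (R_c hs).comp ((hcf.comp hcf).prodMk (continuous_id.add continuous_const))
    have q3 : Continuous a1 :=
      ((Syy_c hs).comp (continuous_id.prodMk hcf)).add ((Sxx_c hs).comp (hcf.prodMk (hcf.comp hcf)))
    have q4 : Continuous a2 :=
      ((Syy_c hs).comp (hcf.prodMk (hcf.comp hcf))).add
        ((Sxx_c hs).comp ((hcf.comp hcf).prodMk (continuous_id.add continuous_const)))
    exact ((q1.mul q2).sub (q0.mul q4)).div ((q3.mul q4).sub (q1.pow 2)) fun x => (hdet x).2.ne'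
  · rw [hderiv]
    exact hcpos x

end Pool.Agent.H1.BP
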