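import Pool.Agent.H1.BP.Defs

/-
ROW Prm (pure calculus).  sigma x := x + f x + f (f x) is C^1 with derivative >= 1, a bijection; X := sigma^{-1} is C^1 with positive derivative (inverse function theorem in one variable:
HasDerivAt.of_local_left_inverse / ContDiff of the inverse via toOpenPartialHomeomorph, or OrderIso + HasStrictDerivAt).  sigma (f x) = f x + f f x + x + 2pi = sigma x + 2pi, so X (s+2pi) = f (X s).
X(s+6pi) = f f f X s = X s + 2pi; X s + X(s+2pi)+X(s+4pi) = X s + f X s + f f X s = sigma (X s) = s. gap from hg.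
-/

set_option autoImplicit false
open Set

namespace Pool.Agent.H1.BP

theorem tri_exists (f : ℝ → ℝ) (hf : ContDiff ℝ 1 f) (hpos : ∀ x, 0 < deriv f x)
    (h3 : ∀ x, f (f (f x)) = x + 2 * Real.pi) (hg : ∀ x, f x < x + Real.pi) :
    ∃ X : ℝ → ℝ, Tri X ∧ ∀ s, X (s + 2 * Real.pi) = f (X s) := by
  have hfd : Differentiable ℝ f := hf.differentiable (by norm_num)
  have hfc' : Continuous (deriv f) := hf.continuous_deriv (by norm_num)
  have hfc : Continuous f := hf.continuous
  have hfm : StrictMono f := strictMono_of_deriv_pos hpos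
  obtain ⟨σ, hσ⟩ : ∃ σ : ℝ → ℝ, ∀ x, σ x = x + f x + f (f x) := ⟨_, fun _ => rfl⟩
  have hσf : σ = fun x => x + f x + f (f x) := funext hσ
  obtain ⟨σ', hσ'⟩ : ∃ σ' : ℝ → ℝ, ∀ x, σ' x = 1 + deriv f x + deriv f (f x) * deriv f x :=
    ⟨_, fun _ => rfl⟩
  have hσ'c : Continuous σ' := by
    have : σ' = fun x => 1 + deriv f x + deriv f (f x) * deriv f x := funext hσ'
    rw [this]
    exact (continuous_const.add hfc').add ((hfc'.comp hfc).mul hfc')
  have hσ'pos : ∀ x, 0 < σ' x := by
    intro x
    rw [hσ']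
    have h1 := hpos x
    have h2 := mul_pos (hpos (f x)) (hpos x)
    linarith
  have hd : ∀ x, HasDerivAt σ (σ' x) x := by
    intro x
    have h1 : HasDerivAt f (deriv f x) x := (hfd x).hasDerivAt
    have h2 : HasDerivAt f (deriv f (f x)) (f x) := (hfd (f x)).hasDerivAt
    have h3 : HasDerivAt (fun x => f (f x)) (deriv f (f x) * deriv f x) x := h2.comp x h1
    have h4 := ((hasDerivAt_id x).add h1).add h3
    rw [hσf, hσ']
    exact h4
  have hσc : Continuous σ := by
    rw [hσf]
    exact (continuous_id.add hfc).add (hfc.comp hfc)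
  have hσm : StrictMono σ := by
    intro x y hxy
    rw [hσ, hσ]
    have h1 := hfm hxy
    have h2 := hfm h1
    linarith
  have htop : Filter.Tendsto σ Filter.atTop Filter.atTop := by
    refine Filter.tendsto_atTop_mono' Filter.atTop (f₁ := fun x => x + (f 0 + f (f 0))) ?_ ?_
    · filter_upwards [Filter.eventually_ge_atTop (0 : ℝ)] with x hx
      rw [hσ]
      have h1 := hfm.monotone hx
      have h2 := hfm.monotone h1
      linarith
    · exact Filter.tendsto_atTop_add_const_right _ _ Filter.tendsto_id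
  have hbot : Filter.Tendsto σ Filter.atBot Filter.atBot := by
    refine Filter.tendsto_atBot_mono' Filter.atBot (f₁ := fun x => x + (f 0 + f (f 0))) ?_ ?_
    · filter_upwards [Filter.eventually_le_atBot (0 : ℝ)] with x hx
      rw [hσ]
      have h1 := hfm.monotone hx
      have h2 := hfm.monotone h1
      linarith
    · exact Filter.tendsto_atBot_add_const_right _ _ Filter.tendsto_id
  have hsurj : Function.Surjective σ := hσc.surjective htop hbot
  let e : ℝ ≃o ℝ := hσm.orderIsoOfSurjective σ hsurj
  have he : ∀ x, e x = σ x := fun x => rfl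
  obtain ⟨X, hX⟩ : ∃ X : ℝ → ℝ, X = e.symm := ⟨_, rfl⟩
  have hXc : Continuous X := by
    rw [hX]
    exact e.symm.continuous
  have hr : ∀ s, σ (X s) = s := by
    intro s
    rw [hX, ← he]
    exact e.apply_symm_apply s
  have hinj : ∀ s x, σ x = s → X s = x := by
    intro s x h
    apply hσm.injective
    rw [hr, h]
  have hXd : ∀ s, HasDerivAt X (σ' (X s))⁻¹ s := by
    intro s
    exact HasDerivAt.of_local_left_inverse hXc.continuousAt (hd (X s)) (hσ'pos _).ne'
      (Filter.Eventually.of_forall hr)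
  have hXderiv : deriv X = fun s => (σ' (X s))⁻¹ := by
    funext s
    exact (hXd s).deriv
  have hshift : ∀ s, X (s + 2 * Real.pi) = f (X s) := by
    intro s
    apply hinj
    have h1 := hr s
    rw [hσ] at h1
    rw [hσ, h3]
    linarith
  have hf2 : ∀ x, f (x + 2 * Real.pi) = f x + 2 * Real.pi := by
    intro x
    rw [← h3 x, h3 (f x)]
  refine ⟨X, ⟨?_, ?_, ?_, ?_, ?_⟩, hshift⟩
  · rw [contDiff_one_iff_deriv]
    refine ⟨fun s => (hXd s).differentiableAt, ?_⟩
    rw [hXderiv]
    exact (hσ'c.comp hXc).inv₀ (fun s => (hσ'pos _).ne')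
  · intro s
    rw [hXderiv]
    exact inv_pos.2 (hσ'pos _)
  · intro s
    apply hinj
    have h1 := hr s
    rw [hσ] at h1
    rw [hσ, hf2, hf2]
    linarith
  · intro s
    have h1 : X (s + 4 * Real.pi) = f (f (X s)) := by
      rw [← hshift, ← hshift]
      congr 1
      ring
    rw [h1, hshift, ← hσ, hr]
  · intro s
    rw [hshift]
    exact hg _

end Pool.Agent.H1.BP
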