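import Pool.Agent.H1.BP.Der

/-
ROW Ptw.  Pointwise identities (pure algebra + trigonometry).  With psi=(x+y)/2, d=(y-x)/2: x=psi-d, y=psi+d,
 on x = m cos d - m1 sin d,  on y = m cos d + m1 sin d,  ot x = m1 cos d + m sin d,  ot y = m1 cos d - m sin d,  m = on psi, m1 = ot psi.
 Substitute sin(2 d) = 2 sin d cos d, cos (2 d) = cos^2 - sin^2, sin^2 = 1 - cos^2 and ring / linear_combination ( ... ) * (sin^2+cos^2-1).
 All three identities were checked numerically.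
-/

set_option autoImplicit false
open Set

namespace Pool.Agent.H1.BP

noncomputable section

/-- derivative of `UU` -/
def UD (h : ℝ → ℝ) (al o1 o2 x : ℝ) : ℝ :=
  2 * al * (deriv h x ^ 2 + h x * deriv (deriv h) x) - 2 * deriv (deriv h) x * on o1 o2 x
    - 4 * deriv h x * ot o1 o2 x + 2 * h x * on o1 o2 x

def wf (h : ℝ → ℝ) (al o1 o2 x : ℝ) : ℝ := al * deriv h x ^ 2 / 2 - deriv h x * ot o1 o2 x

/-- derivative of `wf` -/
def wD (h : ℝ → ℝ) (al o1 o2 x : ℝ) : ℝ :=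
  al * deriv h x * deriv (deriv h) x - deriv (deriv h) x * ot o1 o2 x + deriv h x * on o1 o2 x

/-- `kappa_phi nu` at the incoming / outgoing line -/
def k0 (h : ℝ → ℝ) (al o1 o2 x y : ℝ) : ℝ := -(p0 h x y * ot o1 o2 x) * nu0 h al o1 o2 x y
def k1 (h : ℝ → ℝ) (al o1 o2 x y : ℝ) : ℝ := -(p1 h x y * ot o1 o2 y) * nu1 h al o1 o2 x y

/-- the density after removing the terms that cancel by invariance, as a function of `(psi, d)` -/
def Hd (h : ℝ → ℝ) (al o1 o2 s d : ℝ) : ℝ :=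
  (UD h al o1 o2 s ^ 2 * Real.sin (2 * d) ^ 2 - 4 * UU h al o1 o2 s ^ 2 * Real.cos (2 * d) ^ 2) / 16
  + (UD h al o1 o2 s * (uu h al o1 o2 s - 2 * wf h al o1 o2 s) * Real.sin (2 * d) ^ 2
    + UU h al o1 o2 s * (UU h al o1 o2 s + 2 * wD h al o1 o2 s) * Real.cos (2 * d)
    + UU h al o1 o2 s * (UU h al o1 o2 s - 2 * wD h al o1 o2 s) * Real.cos (2 * d) ^ 2) / 8

end

variable {h : ℝ → ℝ}

private theorem on_hd (o1 o2 x : ℝ) : HasDerivAt (fun x => on o1 o2 x) (ot o1 o2 x) x := by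
  have h1 := ((Real.hasDerivAt_cos x).const_mul o1).add ((Real.hasDerivAt_sin x).const_mul o2)
  refine HasDerivAt.congr_deriv h1 ?_
  unfold ot
  ring

private theorem ot_hd (o1 o2 x : ℝ) : HasDerivAt (fun x => ot o1 o2 x) (-on o1 o2 x) x := by
  have h1 := ((Real.hasDerivAt_cos x).const_mul o2).sub ((Real.hasDerivAt_sin x).const_mul o1)
  refine HasDerivAt.congr_deriv h1 ?_
  unfold on
  ring

theorem UU_deriv (hs : Supp h) (al o1 o2 x : ℝ) :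
    HasDerivAt (UU h al o1 o2) (UD h al o1 o2 x) x := by
  have a0 := hd0 hs x
  have a1 := hd1 hs x
  have b0 := on_hd o1 o2 x
  have b1 := ot_hd o1 o2 x
  have h1 := (((a0.const_mul (2 * al)).mul a1).sub ((a1.const_mul 2).mul b0)).sub
    ((a0.const_mul 2).mul b1)
  refine HasDerivAt.congr_deriv h1 ?_
  unfold UD
  ring

theorem uu_deriv (hs : Supp h) (al o1 o2 x : ℝ) :
    HasDerivAt (uu h al o1 o2) (UU h al o1 o2 x) x := by
  have a0 := hd0 hs x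
  have b0 := on_hd o1 o2 x
  have h1 := ((a0.pow 2).const_mul al).sub ((a0.const_mul 2).mul b0)
  refine HasDerivAt.congr_deriv h1 ?_
  unfold UU
  push_cast
  ring

theorem wf_deriv (hs : Supp h) (al o1 o2 x : ℝ) :
    HasDerivAt (wf h al o1 o2) (wD h al o1 o2 x) x := by
  have a1 := hd1 hs x
  have b1 := ot_hd o1 o2 x
  have h1 := (((a1.pow 2).const_mul al).div_const 2).sub (a1.mul b1)
  refine HasDerivAt.congr_deriv h1 ?_
  unfold wD
  push_cast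
  ring

private theorem on_sub_x (o1 o2 x y : ℝ) : on o1 o2 x =
    on o1 o2 ((x + y) / 2) * Real.cos ((y - x) / 2) - ot o1 o2 ((x + y) / 2) * Real.sin ((y - x) / 2) := by
  have h1 : x = (x + y) / 2 - (y - x) / 2 := by ring
  unfold on ot
  conv_lhs => rw [h1, Real.cos_sub, Real.sin_sub]
  ring

private theorem on_sub_y (o1 o2 x y : ℝ) : on o1 o2 y =
    on o1 o2 ((x + y) / 2) * Real.cos ((y - x) / 2) + ot o1 o2 ((x + y) / 2) * Real.sin ((y - x) / 2) := by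
  have h1 : y = (x + y) / 2 + (y - x) / 2 := by ring
  unfold on ot
  conv_lhs => rw [h1, Real.cos_add, Real.sin_add]
  ring

private theorem ot_sub_x (o1 o2 x y : ℝ) : ot o1 o2 x =
    ot o1 o2 ((x + y) / 2) * Real.cos ((y - x) / 2) + on o1 o2 ((x + y) / 2) * Real.sin ((y - x) / 2) := by
  have h1 : x = (x + y) / 2 - (y - x) / 2 := by ring
  unfold on ot
  conv_lhs => rw [h1, Real.cos_sub, Real.sin_sub]
  ring

private theorem ot_sub_y (o1 o2 x y : ℝ) : ot o1 o2 y =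
    ot o1 o2 ((x + y) / 2) * Real.cos ((y - x) / 2) - on o1 o2 ((x + y) / 2) * Real.sin ((y - x) / 2) := by
  have h1 : y = (x + y) / 2 + (y - x) / 2 := by ring
  unfold on ot
  conv_lhs => rw [h1, Real.cos_add, Real.sin_add]
  ring

private theorem ptw_alg (al h0 h1 h2 m m1 c s : ℝ) (hsc : s ^ 2 + c ^ 2 = 1) :
    (((h2 - h0) * s / 2 - h1 * c) * (al * (h0 * c - h1 * s) - (m * c - m1 * s)) ^ 2
      + 2 * ((h0 + h2) * s / 2) * (al * (h0 * c - h1 * s) - (m * c - m1 * s))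
        * (al * (h0 * c + h1 * s) - (m * c + m1 * s))
      + ((h2 - h0) * s / 2 + h1 * c) * (al * (h0 * c + h1 * s) - (m * c + m1 * s)) ^ 2)
      * ((h0 + h2) * s / 2)
    = (-((h0 * c - h1 * s) * (m1 * c + m * s))) * (al * (h0 * c - h1 * s) - (m * c - m1 * s))
        * ((h0 + h2) * s / 2)
      - (-((h0 * c + h1 * s) * (m1 * c - m * s))) * (al * (h0 * c + h1 * s) - (m * c + m1 * s))
        * ((h0 + h2) * s / 2)
      + (((2 * al * (h1 ^ 2 + h0 * h2) - 2 * h2 * m - 4 * h1 * m1 + 2 * h0 * m) ^ 2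
            * (2 * s * c) ^ 2
          - 4 * (2 * al * h0 * h1 - 2 * h1 * m - 2 * h0 * m1) ^ 2 * (2 * c ^ 2 - 1) ^ 2) / 16
        + ((2 * al * (h1 ^ 2 + h0 * h2) - 2 * h2 * m - 4 * h1 * m1 + 2 * h0 * m)
            * ((al * h0 ^ 2 - 2 * h0 * m) - 2 * (al * h1 ^ 2 / 2 - h1 * m1)) * (2 * s * c) ^ 2
          + (2 * al * h0 * h1 - 2 * h1 * m - 2 * h0 * m1)
            * ((2 * al * h0 * h1 - 2 * h1 * m - 2 * h0 * m1) + 2 * (al * h1 * h2 - h2 * m1 + h1 * m))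
            * (2 * c ^ 2 - 1)
          + (2 * al * h0 * h1 - 2 * h1 * m - 2 * h0 * m1)
            * ((2 * al * h0 * h1 - 2 * h1 * m - 2 * h0 * m1) - 2 * (al * h1 * h2 - h2 * m1 + h1 * m))
            * (2 * c ^ 2 - 1) ^ 2) / 8) := by
  linear_combination (2*al^2*h0^2*h1^2*c^2 + (-1)*al^2*h0^2*h1^2*s^2 + (-1)*al^2*h0^2*h1^2 +
    2*al^2*h0*h1^2*h2*c^2 + (-1)*al^2*h0*h1^2*h2*s^2 + (-1)*al^2*h0*h1^2*h2 +
    (-4)*al*h0^2*h1*m1*c^2 + 2*al*h0^2*h1*m1*s^2 + 2*al*h0^2*h1*m1 + (-2)*al*h0*h1^2*m*c^2 +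
    1*al*h0*h1^2*m*s^2 + 1*al*h0*h1^2*m + (-4)*al*h0*h1*h2*m1*c^2 + 2*al*h0*h1*h2*m1*s^2 +
    2*al*h0*h1*h2*m1 + (-2)*al*h1^2*h2*m*c^2 + 1*al*h1^2*h2*m*s^2 + 1*al*h1^2*h2*m +
    2*h0^2*m1^2*c^2 + (-1)*h0^2*m1^2*s^2 + (-1)*h0^2*m1^2 + 2*h0*h1*m*m1*c^2 + (-1)*h0*h1*m*m1*s^2 +
    (-1)*h0*h1*m*m1 + 2*h0*h2*m1^2*c^2 + (-1)*h0*h2*m1^2*s^2 + (-1)*h0*h2*m1^2 + 2*h1*h2*m*m1*c^2 +
    (-1)*h1*h2*m*m1*s^2 + (-1)*h1*h2*m*m1) * hsc

theorem ptw (h : ℝ → ℝ) (al o1 o2 x y : ℝ) :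
    qd h al o1 o2 x y * R h x y
      = k0 h al o1 o2 x y * R h x y - k1 h al o1 o2 x y * R h x y
        + Hd h al o1 o2 ((x + y) / 2) ((y - x) / 2) := by
  have hsc : Real.sin ((y - x) / 2) ^ 2 + Real.cos ((y - x) / 2) ^ 2 = 1 :=
    Real.sin_sq_add_cos_sq _
  have key := ptw_alg al (h ((x + y) / 2)) (deriv h ((x + y) / 2)) (deriv (deriv h) ((x + y) / 2))
    (on o1 o2 ((x + y) / 2)) (ot o1 o2 ((x + y) / 2)) (Real.cos ((y - x) / 2))
    (Real.sin ((y - x) / 2)) hsc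
  unfold qd k0 k1 Hd nu0 nu1 R Sxx Syy p0 p1 UD UU uu wf wD
  rw [on_sub_x o1 o2 x y, on_sub_y o1 o2 x y, ot_sub_x o1 o2 x y, ot_sub_y o1 o2 x y,
    Real.sin_two_mul, Real.cos_two_mul]
  exact key

/-- `2 kappa` at the incoming line -/
theorem kap0 (h : ℝ → ℝ) (al o1 o2 x y : ℝ) :
    al * p0 h x y ^ 2 - 2 * p0 h x y * on o1 o2 x
      = (uu h al o1 o2 ((x + y) / 2) + 2 * wf h al o1 o2 ((x + y) / 2)) / 2
        + (uu h al o1 o2 ((x + y) / 2) - 2 * wf h al o1 o2 ((x + y) / 2)) / 2 * Real.cos (y - x)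
        - UU h al o1 o2 ((x + y) / 2) / 2 * Real.sin (y - x) := by
  have hsc : Real.sin ((y - x) / 2) ^ 2 + Real.cos ((y - x) / 2) ^ 2 = 1 :=
    Real.sin_sq_add_cos_sq _
  have h2 : y - x = 2 * ((y - x) / 2) := by ring
  have hc : Real.cos (y - x) = 2 * Real.cos ((y - x) / 2) ^ 2 - 1 := by
    conv_lhs => rw [h2, Real.cos_two_mul]
  have hsn : Real.sin (y - x) = 2 * Real.sin ((y - x) / 2) * Real.cos ((y - x) / 2) := by
    conv_lhs => rw [h2, Real.sin_two_mul]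
  rw [hc, hsn, on_sub_x o1 o2 x y]
  unfold p0 UU uu wf
  linear_combination (al * deriv h ((x + y) / 2) ^ 2
    - 2 * deriv h ((x + y) / 2) * ot o1 o2 ((x + y) / 2)) * hsc
theorem kap1 (h : ℝ → ℝ) (al o1 o2 x y : ℝ) :
    al * p1 h x y ^ 2 - 2 * p1 h x y * on o1 o2 y
      = (uu h al o1 o2 ((x + y) / 2) + 2 * wf h al o1 o2 ((x + y) / 2)) / 2
        + (uu h al o1 o2 ((x + y) / 2) - 2 * wf h al o1 o2 ((x + y) / 2)) / 2 * Real.cos (y - x)
        + UU h al o1 o2 ((x + y) / 2) / 2 * Real.sin (y - x) := by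
  have hsc : Real.sin ((y - x) / 2) ^ 2 + Real.cos ((y - x) / 2) ^ 2 = 1 :=
    Real.sin_sq_add_cos_sq _
  have h2 : y - x = 2 * ((y - x) / 2) := by ring
  have hc : Real.cos (y - x) = 2 * Real.cos ((y - x) / 2) ^ 2 - 1 := by
    conv_lhs => rw [h2, Real.cos_two_mul]
  have hsn : Real.sin (y - x) = 2 * Real.sin ((y - x) / 2) * Real.cos ((y - x) / 2) := by
    conv_lhs => rw [h2, Real.sin_two_mul]
  rw [hc, hsn, on_sub_y o1 o2 x y]
  unfold p1 UU uu wf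
  linear_combination (al * deriv h ((x + y) / 2) ^ 2
    - 2 * deriv h ((x + y) / 2) * ot o1 o2 ((x + y) / 2)) * hsc

/-- jump of `a` along the circle -/
theorem aa_jump (hs : Supp h) {f : ℝ → ℝ} (hf : Circle h f) (al o1 o2 x : ℝ) :
    aa h f al o1 o2 (f x) - aa h f al o1 o2 x
      = UU h al o1 o2 ((x + f x) / 2) * Real.sin (f x - x) := by
  have e0 := kap0 h al o1 o2 x (f x)
  have e1 := kap1 h al o1 o2 x (f x)
  unfold aa
  rw [← hf.inv x]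
  linear_combination e1 - e0

end Pool.Agent.H1.BP
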