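import Pool.Agent.H1.BP.Shf

/-
ROW Swp.  Two consequences of the shear lemma for the region x <= y <= f x.
f continuous strictly monotone, f(x+2pi)=f x+2pi, x <= f x <= x + 2pi; H continuous on the closed region, diagonally periodic.
Put K x u := if 0 <= u and x + u <= f x then H x (x+u) else 0  (measurable: the set {(x,u) | 0<=u, x+u<=f x} is closed, H(x,x+u) is continuous on it
  -> indicator of a closed set of a function continuous on it; e.g. ContinuousOn.measurable_piecewise; bounded: by periodicity it suffices to bound it on the compact set x in [0,2pi]).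
(1) int_{x} int_{y in x..f x} H x y dy = int_x int_u K x u (y=x+u, substitution integral_comp_add_left and restriction to Icc).
    With c=1: K (x-u) u = H (x-u) x when 0 <= u and x <= f (x-u), i.e. (x - u) in [fi x, x]  (fi right inverse of f: x <= f w iff fi x <= w). Substitute w = x-u.
(2) c = 1/2: K (x - u/2) u = H (x-u/2) (x+u/2) when 0 <= u, x+u/2 <= f (x - u/2) iff u/2 <= D x   [k(d) = f(x-d) - x - d is strictly decreasing, zero at D x].
    u = 2 d, du = 2 dd.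
-/

set_option autoImplicit false
open Set MeasureTheory

namespace Pool.Agent.H1.BP

private noncomputable def Swp_K (f : ℝ → ℝ) (H : ℝ → ℝ → ℝ) (x u : ℝ) : ℝ :=
  ({q : ℝ × ℝ | 0 ≤ q.2 ∧ q.1 + q.2 ≤ f q.1}).indicator (fun q => H q.1 (q.1 + q.2)) (x, u)

private theorem Swp_K_pos (f : ℝ → ℝ) (H : ℝ → ℝ → ℝ) (x u : ℝ) (h : 0 ≤ u ∧ x + u ≤ f x) :
    Swp_K f H x u = H x (x + u) := by
  unfold Swp_K
  rw [indicator_of_mem]
  exact h

private theorem Swp_K_neg (f : ℝ → ℝ) (H : ℝ → ℝ → ℝ) (x u : ℝ) (h : ¬ (0 ≤ u ∧ x + u ≤ f x)) :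
    Swp_K f H x u = 0 := by
  unfold Swp_K
  rw [indicator_of_notMem]
  exact h

private theorem Swp_closed (f : ℝ → ℝ) (hc : Continuous f) :
    IsClosed {q : ℝ × ℝ | 0 ≤ q.2 ∧ q.1 + q.2 ≤ f q.1} := by
  apply IsClosed.inter
  · exact isClosed_le continuous_const continuous_snd
  · exact isClosed_le (continuous_fst.add continuous_snd) (hc.comp continuous_fst)

private theorem Swp_cont (f : ℝ → ℝ) (H : ℝ → ℝ → ℝ)
    (hH : ContinuousOn (Function.uncurry H) {q | q.1 ≤ q.2 ∧ q.2 ≤ f q.1}) :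
    ContinuousOn (fun q : ℝ × ℝ => H q.1 (q.1 + q.2)) {q : ℝ × ℝ | 0 ≤ q.2 ∧ q.1 + q.2 ≤ f q.1} := by
  have h1 : Continuous (fun q : ℝ × ℝ => (q.1, q.1 + q.2)) :=
    continuous_fst.prodMk (continuous_fst.add continuous_snd)
  have h2 : MapsTo (fun q : ℝ × ℝ => (q.1, q.1 + q.2))
      {q : ℝ × ℝ | 0 ≤ q.2 ∧ q.1 + q.2 ≤ f q.1} {q | q.1 ≤ q.2 ∧ q.2 ≤ f q.1} := by
    intro q hq
    exact ⟨by have := hq.1; show q.1 ≤ q.1 + q.2; linarith, hq.2⟩
  exact hH.comp h1.continuousOn h2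

private theorem Swp_meas (f : ℝ → ℝ) (H : ℝ → ℝ → ℝ) (hc : Continuous f)
    (hH : ContinuousOn (Function.uncurry H) {q | q.1 ≤ q.2 ∧ q.2 ≤ f q.1}) :
    Measurable (Function.uncurry (Swp_K f H)) := by
  classical
  have e : Function.uncurry (Swp_K f H) =
      ({q : ℝ × ℝ | 0 ≤ q.2 ∧ q.1 + q.2 ≤ f q.1}).indicator (fun q => H q.1 (q.1 + q.2)) := by
    funext q
    rfl
  rw [e, ← piecewise_eq_indicator]
  exact ContinuousOn.measurable_piecewise (Swp_cont f H hH) continuousOn_const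
    (Swp_closed f hc).measurableSet

private theorem Swp_per (f : ℝ → ℝ) (H : ℝ → ℝ → ℝ)
    (hp : ∀ x, f (x + 2 * Real.pi) = f x + 2 * Real.pi)
    (hHp : ∀ x y, x ≤ y → y ≤ f x → H (x + 2 * Real.pi) (y + 2 * Real.pi) = H x y) (x u : ℝ) :
    Swp_K f H (x + 2 * Real.pi) u = Swp_K f H x u := by
  by_cases h : 0 ≤ u ∧ x + u ≤ f x
  · rw [Swp_K_pos f H x u h, Swp_K_pos f H _ u ⟨h.1, by rw [hp]; linarith [h.2]⟩,
      ← hHp x (x + u) (by linarith [h.1]) h.2]
    congr 1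
    ring
  · rw [Swp_K_neg f H x u h, Swp_K_neg f H _ u]
    intro h'
    apply h
    refine ⟨h'.1, ?_⟩
    have h2 := h'.2
    rw [hp] at h2
    linarith

private theorem Swp_supp (f : ℝ → ℝ) (H : ℝ → ℝ → ℝ) (hhi : ∀ x, f x ≤ x + 2 * Real.pi) (x u : ℝ)
    (hu : u ∉ Icc 0 (2 * Real.pi)) : Swp_K f H x u = 0 := by
  apply Swp_K_neg
  intro h
  apply hu
  refine ⟨h.1, ?_⟩
  have := hhi x
  linarith [h.2]

private theorem Swp_bound (f : ℝ → ℝ) (H : ℝ → ℝ → ℝ) (hc : Continuous f)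
    (hp : ∀ x, f (x + 2 * Real.pi) = f x + 2 * Real.pi) (hhi : ∀ x, f x ≤ x + 2 * Real.pi)
    (hH : ContinuousOn (Function.uncurry H) {q | q.1 ≤ q.2 ∧ q.2 ≤ f q.1})
    (hHp : ∀ x y, x ≤ y → y ≤ f x → H (x + 2 * Real.pi) (y + 2 * Real.pi) = H x y) :
    ∃ C : ℝ, ∀ x u, |Swp_K f H x u| ≤ C := by
  have hpi : 0 < 2 * Real.pi := by positivity
  have hcomp : IsCompact ({q : ℝ × ℝ | 0 ≤ q.2 ∧ q.1 + q.2 ≤ f q.1} ∩
      (Icc 0 (2 * Real.pi) ×ˢ Icc 0 (2 * Real.pi))) :=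
    (isCompact_Icc.prod isCompact_Icc).inter_left (Swp_closed f hc)
  obtain ⟨C, hC⟩ := hcomp.exists_bound_of_continuousOn
    ((Swp_cont f H hH).mono inter_subset_left)
  refine ⟨max C 0, fun x u => ?_⟩
  have hper : Function.Periodic (fun x => Swp_K f H x u) (2 * Real.pi) :=
    fun x => Swp_per f H hp hHp x u
  obtain ⟨y, hy, hxy⟩ := hper.exists_mem_Ico₀ hpi x
  have hxy' : Swp_K f H x u = Swp_K f H y u := hxy
  rw [hxy']
  by_cases h : 0 ≤ u ∧ y + u ≤ f y
  · rw [Swp_K_pos f H y u h]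
    have hu : u ≤ 2 * Real.pi := by
      have := hhi y
      linarith [h.2]
    have := hC (y, u) ⟨h, ⟨hy.1, hy.2.le⟩, ⟨h.1, hu⟩⟩
    rw [Real.norm_eq_abs] at this
    exact this.trans (le_max_left _ _)
  · rw [Swp_K_neg f H y u h, abs_zero]
    exact le_max_right _ _

/-- integral of a function which equals `g` on `[0,b]` and vanishes outside -/
private theorem Swp_int (k g : ℝ → ℝ) (b : ℝ) (hb : 0 ≤ b) (h1 : ∀ u ∈ Icc 0 b, k u = g u)
    (h2 : ∀ u, u ∉ Icc 0 b → k u = 0) : ∫ u, k u = ∫ u in (0 : ℝ)..b, g u := by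
  have e : k = (Icc 0 b).indicator g := by
    funext u
    by_cases hu : u ∈ Icc 0 b
    · rw [indicator_of_mem hu, h1 u hu]
    · rw [indicator_of_notMem hu, h2 u hu]
  rw [e, integral_indicator measurableSet_Icc, intervalIntegral.integral_of_le hb,
    integral_Icc_eq_integral_Ioc]

private theorem Swp_left (f : ℝ → ℝ) (H : ℝ → ℝ → ℝ) (hlo : ∀ x, x ≤ f x) (x : ℝ) :
    ∫ y in x..(f x), H x y = ∫ u, Swp_K f H x u := by
  rw [Swp_int (fun u => Swp_K f H x u) (fun u => H x (x + u)) (f x - x) (by linarith [hlo x])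
    (fun u hu => Swp_K_pos f H x u ⟨hu.1, by linarith [hu.2]⟩)
    (fun u hu => Swp_K_neg f H x u (fun h => hu ⟨h.1, by linarith [h.2]⟩))]
  have h := intervalIntegral.integral_comp_add_left (a := 0) (b := f x - x) (H x) x
  rw [h]
  congr 1 <;> ring

private theorem Swp_shear (f : ℝ → ℝ) (hc : Continuous f)
    (hp : ∀ x, f (x + 2 * Real.pi) = f x + 2 * Real.pi) (hlo : ∀ x, x ≤ f x) (hhi : ∀ x, f x ≤ x + 2 * Real.pi)
    (H : ℝ → ℝ → ℝ)
    (hH : ContinuousOn (Function.uncurry H) {q | q.1 ≤ q.2 ∧ q.2 ≤ f q.1})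
    (hHp : ∀ x y, x ≤ y → y ≤ f x → H (x + 2 * Real.pi) (y + 2 * Real.pi) = H x y) (c : ℝ) :
    ∫ x in (0 : ℝ)..(2 * Real.pi), ∫ y in x..(f x), H x y
      = ∫ x in (0 : ℝ)..(2 * Real.pi), ∫ u, Swp_K f H (x - c * u) u := by
  obtain ⟨C, hC⟩ := Swp_bound f H hc hp hhi hH hHp
  rw [← shear (Swp_K f H) (Swp_meas f H hc hH) (2 * Real.pi) C hC (Swp_supp f H hhi)
    (Swp_per f H hp hHp) c]
  apply intervalIntegral.integral_congr
  intro x _
  exact Swp_left f H hlo x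

theorem swap_xy (f fi : ℝ → ℝ) (hc : Continuous f) (hm : StrictMono f)
    (hp : ∀ x, f (x + 2 * Real.pi) = f x + 2 * Real.pi) (hlo : ∀ x, x ≤ f x) (hhi : ∀ x, f x ≤ x + 2 * Real.pi)
    (hfi : ∀ y, f (fi y) = y) (H : ℝ → ℝ → ℝ)
    (hH : ContinuousOn (Function.uncurry H) {q | q.1 ≤ q.2 ∧ q.2 ≤ f q.1})
    (hHp : ∀ x y, x ≤ y → y ≤ f x → H (x + 2 * Real.pi) (y + 2 * Real.pi) = H x y) :
    ∫ x in (0 : ℝ)..(2 * Real.pi), ∫ y in x..(f x), H x y
      = ∫ y in (0 : ℝ)..(2 * Real.pi), ∫ x in (fi y)..y, H x y := by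
  rw [Swp_shear f hc hp hlo hhi H hH hHp 1]
  apply intervalIntegral.integral_congr
  intro x _
  show ∫ u, Swp_K f H (x - 1 * u) u = ∫ w in (fi x)..x, H w x
  have hfx : fi x ≤ x := by
    have h2 : f (fi x) ≤ f x := by
      rw [hfi x]
      exact hlo x
    exact hm.le_iff_le.mp h2
  have hiff : ∀ u, x ≤ f (x - u) ↔ u ≤ x - fi x := by
    intro u
    constructor
    · intro h
      have h2 : f (fi x) ≤ f (x - u) := by
        rw [hfi x]
        exact h
      have := hm.le_iff_le.mp h2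
      linarith
    · intro h
      have h2 : f (fi x) ≤ f (x - u) := hm.monotone (by linarith)
      rw [hfi x] at h2
      exact h2
  rw [Swp_int (fun u => Swp_K f H (x - 1 * u) u) (fun u => H (x - u) x) (x - fi x)
    (by linarith) ?_ ?_]
  · have h := intervalIntegral.integral_comp_sub_left (a := 0) (b := x - fi x) (fun w => H w x) x
    rw [h]
    congr 1 <;> ring
  · intro u hu
    show Swp_K f H (x - 1 * u) u = H (x - u) x
    have e1 : x - 1 * u = x - u := by ring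
    have e2 : x - u + u = x := by ring
    rw [e1, Swp_K_pos f H (x - u) u ⟨hu.1, by rw [e2]; exact (hiff u).mpr hu.2⟩, e2]
  · intro u hu
    show Swp_K f H (x - 1 * u) u = 0
    have e1 : x - 1 * u = x - u := by ring
    have e2 : x - u + u = x := by ring
    rw [e1]
    apply Swp_K_neg
    intro h
    apply hu
    refine ⟨h.1, (hiff u).mp ?_⟩
    have := h.2
    rw [e2] at this
    exact this

theorem swap_pd (f D : ℝ → ℝ) (hc : Continuous f) (hm : StrictMono f)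
    (hp : ∀ x, f (x + 2 * Real.pi) = f x + 2 * Real.pi) (hlo : ∀ x, x ≤ f x) (hhi : ∀ x, f x ≤ x + 2 * Real.pi)
    (hD0 : ∀ s, 0 ≤ D s) (hD : ∀ s, f (s - D s) = s + D s) (H : ℝ → ℝ → ℝ)
    (hH : ContinuousOn (Function.uncurry H) {q | q.1 ≤ q.2 ∧ q.2 ≤ f q.1})
    (hHp : ∀ x y, x ≤ y → y ≤ f x → H (x + 2 * Real.pi) (y + 2 * Real.pi) = H x y) :
    ∫ x in (0 : ℝ)..(2 * Real.pi), ∫ y in x..(f x), H x y
      = ∫ s in (0 : ℝ)..(2 * Real.pi), ∫ d in (0 : ℝ)..(D s), 2 * H (s - d) (s + d) := by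
  rw [Swp_shear f hc hp hlo hhi H hH hHp (1 / 2)]
  apply intervalIntegral.integral_congr
  intro x _
  show ∫ u, Swp_K f H (x - 1 / 2 * u) u = ∫ d in (0 : ℝ)..(D x), 2 * H (x - d) (x + d)
  have hiff : ∀ u, x + u / 2 ≤ f (x - u / 2) ↔ u ≤ 2 * D x := by
    intro u
    constructor
    · intro h
      by_contra hu
      push Not at hu
      have h2 : f (x - u / 2) < f (x - D x) := hm (by linarith)
      rw [hD x] at h2
      linarith
    · intro h
      have h2 : f (x - D x) ≤ f (x - u / 2) := hm.monotone (by linarith)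
      rw [hD x] at h2
      linarith
  rw [Swp_int (fun u => Swp_K f H (x - 1 / 2 * u) u) (fun u => H (x - u / 2) (x + u / 2))
    (2 * D x) (by linarith [hD0 x]) ?_ ?_]
  · have h := intervalIntegral.integral_comp_div (a := 0) (b := 2 * D x)
      (fun d => H (x - d) (x + d)) (two_ne_zero)
    rw [h, intervalIntegral.integral_const_mul, smul_eq_mul]
    congr 2
    · ring
    · ring
  · intro u hu
    show Swp_K f H (x - 1 / 2 * u) u = H (x - u / 2) (x + u / 2)
    have e1 : x - 1 / 2 * u = x - u / 2 := by ring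
    have e2 : x - u / 2 + u = x + u / 2 := by ring
    rw [e1, Swp_K_pos f H (x - u / 2) u ⟨hu.1, by rw [e2]; exact (hiff u).mpr hu.2⟩, e2]
  · intro u hu
    show Swp_K f H (x - 1 / 2 * u) u = 0
    have e1 : x - 1 / 2 * u = x - u / 2 := by ring
    have e2 : x - u / 2 + u = x + u / 2 := by ring
    rw [e1]
    apply Swp_K_neg
    intro h
    apply hu
    refine ⟨h.1, (hiff u).mp ?_⟩
    have := h.2
    rw [e2] at this
    exact this

end Pool.Agent.H1.BP
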