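import Pool.Agent.H1.BP.Sub
import Pool.Agent.H1.BP.Swp

/-
ROW Inv.  Invariance of the measure R dx dy under (x,y) -> (y, nxt x y) on the region below a circle f.
fi = right inverse of f (f is a continuous strictly monotone bijection of R because f x >= x and f x <= x + 2pi give surjectivity by IVT).
LHS: swap_xy with H x y = phi y (nxt h x y) * R h x y (continuous on the region: nxt_cont, nxt_region; periodic: nxt_per, R_per, phi periodic):
 = int_{y in 0..2pi} int_{x in fi y..y} phi y (nxt h x y) * R h x y ; Sub.sub_nxt with x0 = fi y (f x0 = y): inner = int_{z in y..f y} phi y z * R h y z.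
-/

set_option autoImplicit false
open Set MeasureTheory

namespace Pool.Agent.H1.BP

variable {h : ℝ → ℝ}

theorem circle_inv_exists {f : ℝ → ℝ} (hf : Circle h f) : ∃ fi : ℝ → ℝ, (∀ y, f (fi y) = y) ∧ ∀ x, fi (f x) = x := by
  have hsur : ∀ y, ∃ x, f x = y := by
    intro y
    have hle : y - 2 * Real.pi ≤ y := by linarith [Real.pi_pos]
    have h1 : f (y - 2 * Real.pi) ≤ y := by
      have := hf.hi (y - 2 * Real.pi)
      linarith
    have h2 : y ≤ f y := (hf.lo y).le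
    obtain ⟨x, -, hx⟩ := intermediate_value_Icc hle hf.cont.continuousOn ⟨h1, h2⟩
    exact ⟨x, hx⟩
  choose fi hfi using hsur
  exact ⟨fi, hfi, fun x => hf.mono.injective (hfi (f x))⟩

theorem inv_nxt (hs : Supp h) {f : ℝ → ℝ} (hf : Circle h f) (phi : ℝ → ℝ → ℝ)
    (hphi : ContinuousOn (Function.uncurry phi) {q | q.1 ≤ q.2 ∧ q.2 ≤ f q.1})
    (hper : ∀ x y, x ≤ y → y ≤ f x → phi (x + 2 * Real.pi) (y + 2 * Real.pi) = phi x y) :
    ∫ x in (0 : ℝ)..(2 * Real.pi), ∫ y in x..(f x), phi y (nxt h x y) * R h x y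
      = ∫ x in (0 : ℝ)..(2 * Real.pi), ∫ y in x..(f x), phi x y * R h x y := by
  obtain ⟨fi, hfi, -⟩ := circle_inv_exists hf
  have hlt : ∀ x y : ℝ, y ≤ f x → y ≤ x + 2 * Real.pi := fun x y hy => hy.trans (hf.hi x).le
  have hmaps : ∀ q ∈ {q : ℝ × ℝ | q.1 ≤ q.2 ∧ q.2 ≤ f q.1},
      ((q.2, nxt h q.1 q.2) : ℝ × ℝ) ∈ {q : ℝ × ℝ | q.1 ≤ q.2 ∧ q.2 ≤ f q.1} :=
    fun q hq => nxt_region hs hf hq.1 hq.2
  have hnc : ContinuousOn (fun q : ℝ × ℝ => nxt h q.1 q.2) {q : ℝ × ℝ | q.1 ≤ q.2 ∧ q.2 ≤ f q.1} :=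
    (nxt_cont hs).mono (fun q hq => ⟨hq.1, hlt _ _ hq.2⟩)
  have hH : ContinuousOn (Function.uncurry fun x y => phi y (nxt h x y) * R h x y)
      {q | q.1 ≤ q.2 ∧ q.2 ≤ f q.1} := by
    have h1 : ContinuousOn (fun q : ℝ × ℝ => ((q.2, nxt h q.1 q.2) : ℝ × ℝ))
        {q : ℝ × ℝ | q.1 ≤ q.2 ∧ q.2 ≤ f q.1} := continuous_snd.continuousOn.prodMk hnc
    have h2 := hphi.comp h1 hmaps
    exact h2.mul (R_c hs).continuousOn
  have hHp : ∀ x y, x ≤ y → y ≤ f x →
      phi (y + 2 * Real.pi) (nxt h (x + 2 * Real.pi) (y + 2 * Real.pi)) * R h (x + 2 * Real.pi) (y + 2 * Real.pi)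
        = phi y (nxt h x y) * R h x y := by
    intro x y h1 h2
    have h3 := nxt_region hs hf h1 h2
    rw [nxt_per hs h1 (hlt _ _ h2), hper y (nxt h x y) h3.1 h3.2, R_per hs]
  rw [swap_xy f fi hf.cont hf.mono hf.per (fun x => (hf.lo x).le) (fun x => (hf.hi x).le) hfi
    (fun x y => phi y (nxt h x y) * R h x y) hH hHp]
  refine intervalIntegral.integral_congr (fun y _ => ?_)
  have hc : ContinuousOn (phi y) (Icc (f (fi y)) (f (f (fi y)))) := by
    have h1 : ContinuousOn (fun z : ℝ => ((y, z) : ℝ × ℝ)) (Icc (f (fi y)) (f (f (fi y)))) :=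
      (Continuous.prodMk_right y).continuousOn
    refine hphi.comp h1 (fun z hz => ?_)
    rw [hfi y] at hz
    exact ⟨hz.1, hz.2⟩
  have h1 := sub_nxt hs hf (fi y) (phi y) hc
  rw [hfi y] at h1
  exact h1

end Pool.Agent.H1.BP
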