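import Pool.Agent.H1.BP.Ptw
import Pool.Agent.H1.BP.Inv

/-
ROW IdA.  8 QQ as a one-dimensional integral over the bounce angle.
 QQ = int int (k0 - k1) R + Hd((x+y)/2,(y-x)/2)  (Ptw.ptw, linearity of the integrals of continuous functions).
 The first part vanishes: phi x y := k0 h al o1 o2 x y is continuous and periodic; phi y (nxt h x y) = k1 h al o1 o2 x y on the region since p0 h y (nxt h x y) = p1 h x y (nxt_spec), nu0 at (y, nxt) = nu1 at (x,y);
 so Inv.inv_nxt gives int int k1 R = int int k0 R.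
 The rest: swap_pd with H x y = Hd ((x+y)/2) ((y-x)/2): = int_{s in 0..2pi} int_{d in 0..D s} 2 Hd s d, and
  int_0^D 16 Hd s d dd = UD^2 K - 4 UU^2 L + 2 UD (u-2w) K + U (U+2wD) sin(2D) + 2 U (U-2wD) L,  K = int_0^D sin^2 2d = (D - sin(4D)/4)/2, L = int_0^D cos^2 2d = (D + sin(4D)/4)/2,
  int_0^D cos 2d = sin(2D)/2, i.e. 8 * 2 * int_0^D Hd = Ph8.  (intervalIntegral.integral_eq_sub_of_hasDerivAt with the explicit primitive.)
-/

set_option autoImplicit false
open Set MeasureTheory

namespace Pool.Agent.H1.BP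

noncomputable section

def Kf (d : ℝ) : ℝ := (d - Real.sin (4 * d) / 4) / 2
def Lf (d : ℝ) : ℝ := (d + Real.sin (4 * d) / 4) / 2

def Ph8 (h : ℝ → ℝ) (al o1 o2 s D : ℝ) : ℝ :=
  Kf D * UD h al o1 o2 s ^ 2 - 4 * Lf D * UU h al o1 o2 s ^ 2
  + 2 * Kf D * (UD h al o1 o2 s * (uu h al o1 o2 s - 2 * wf h al o1 o2 s))
  + UU h al o1 o2 s * (UU h al o1 o2 s + 2 * wD h al o1 o2 s) * Real.sin (2 * D)
  + 2 * Lf D * (UU h al o1 o2 s * (UU h al o1 o2 s - 2 * wD h al o1 o2 s))

end

variable {h : ℝ → ℝ}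

private theorem IdA_on_c (o1 o2 : ℝ) : Continuous (on o1 o2) := by unfold on; fun_prop
private theorem IdA_ot_c (o1 o2 : ℝ) : Continuous (ot o1 o2) := by unfold ot; fun_prop
private theorem IdA_on_per (o1 o2 x : ℝ) : on o1 o2 (x + 2 * Real.pi) = on o1 o2 x := by
  unfold on; rw [Real.cos_add_two_pi, Real.sin_add_two_pi]
private theorem IdA_ot_per (o1 o2 x : ℝ) : ot o1 o2 (x + 2 * Real.pi) = ot o1 o2 x := by
  unfold ot; rw [Real.cos_add_two_pi, Real.sin_add_two_pi]

private theorem IdA_UD_c (hs : Supp h) (al o1 o2 : ℝ) : Continuous (UD h al o1 o2) := by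
  have a0 := c0 hs
  have a1 := c1 hs
  have a2 := c2 hs
  have b0 := IdA_on_c o1 o2
  have b1 := IdA_ot_c o1 o2
  unfold UD
  exact (((continuous_const.mul ((a1.pow 2).add (a0.mul a2))).sub
    ((continuous_const.mul a2).mul b0)).sub ((continuous_const.mul a1).mul b1)).add
    ((continuous_const.mul a0).mul b0)

private theorem IdA_UU_c (hs : Supp h) (al o1 o2 : ℝ) : Continuous (UU h al o1 o2) :=
  continuous_iff_continuousAt.2 fun x => (UU_deriv hs al o1 o2 x).continuousAt
private theorem IdA_uu_c (hs : Supp h) (al o1 o2 : ℝ) : Continuous (uu h al o1 o2) :=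
  continuous_iff_continuousAt.2 fun x => (uu_deriv hs al o1 o2 x).continuousAt
private theorem IdA_wf_c (hs : Supp h) (al o1 o2 : ℝ) : Continuous (wf h al o1 o2) :=
  continuous_iff_continuousAt.2 fun x => (wf_deriv hs al o1 o2 x).continuousAt

private theorem IdA_wD_c (hs : Supp h) (al o1 o2 : ℝ) : Continuous (wD h al o1 o2) := by
  have a1 := c1 hs
  have a2 := c2 hs
  have b0 := IdA_on_c o1 o2
  have b1 := IdA_ot_c o1 o2
  unfold wD
  exact (((continuous_const.mul a1).mul a2).sub (a2.mul b1)).add (a1.mul b0)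

private theorem IdA_Hd_c (hs : Supp h) (al o1 o2 : ℝ) :
    Continuous (fun q : ℝ × ℝ => Hd h al o1 o2 q.1 q.2) := by
  have eD : Continuous (fun q : ℝ × ℝ => UD h al o1 o2 q.1) := (IdA_UD_c hs al o1 o2).comp continuous_fst
  have eU : Continuous (fun q : ℝ × ℝ => UU h al o1 o2 q.1) := (IdA_UU_c hs al o1 o2).comp continuous_fst
  have eu : Continuous (fun q : ℝ × ℝ => uu h al o1 o2 q.1) := (IdA_uu_c hs al o1 o2).comp continuous_fst
  have ew : Continuous (fun q : ℝ × ℝ => wf h al o1 o2 q.1) := (IdA_wf_c hs al o1 o2).comp continuous_fst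
  have eW : Continuous (fun q : ℝ × ℝ => wD h al o1 o2 q.1) := (IdA_wD_c hs al o1 o2).comp continuous_fst
  have es : Continuous (fun q : ℝ × ℝ => Real.sin (2 * q.2)) := by fun_prop
  have ec : Continuous (fun q : ℝ × ℝ => Real.cos (2 * q.2)) := by fun_prop
  unfold Hd
  fun_prop

private theorem IdA_Hd_per (hs : Supp h) (al o1 o2 s d : ℝ) :
    Hd h al o1 o2 (s + 2 * Real.pi) d = Hd h al o1 o2 s d := by
  unfold Hd UD UU uu wf wD
  rw [hs.per, d1_per hs, d2_per hs, IdA_on_per, IdA_ot_per]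

private theorem IdA_k0_c (hs : Supp h) (al o1 o2 : ℝ) :
    Continuous (fun q : ℝ × ℝ => k0 h al o1 o2 q.1 q.2) := by
  have e0 := p0_c hs
  have e1 : Continuous (fun q : ℝ × ℝ => on o1 o2 q.1) := (IdA_on_c o1 o2).comp continuous_fst
  have e2 : Continuous (fun q : ℝ × ℝ => ot o1 o2 q.1) := (IdA_ot_c o1 o2).comp continuous_fst
  unfold k0 nu0
  exact ((e0.mul e2).neg).mul ((continuous_const.mul e0).sub e1)

private theorem IdA_k1_c (hs : Supp h) (al o1 o2 : ℝ) :
    Continuous (fun q : ℝ × ℝ => k1 h al o1 o2 q.1 q.2) := by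
  have e0 := p1_c hs
  have e1 : Continuous (fun q : ℝ × ℝ => on o1 o2 q.2) := (IdA_on_c o1 o2).comp continuous_snd
  have e2 : Continuous (fun q : ℝ × ℝ => ot o1 o2 q.2) := (IdA_ot_c o1 o2).comp continuous_snd
  unfold k1 nu1
  exact ((e0.mul e2).neg).mul ((continuous_const.mul e0).sub e1)

private theorem IdA_k0_per (hs : Supp h) (al o1 o2 x y : ℝ) :
    k0 h al o1 o2 (x + 2 * Real.pi) (y + 2 * Real.pi) = k0 h al o1 o2 x y := by
  unfold k0 nu0
  rw [p0_per hs, IdA_on_per, IdA_ot_per]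

/-- continuity of the inner integral -/
private theorem IdA_inner {f : ℝ → ℝ} (hf : Continuous f) {G : ℝ → ℝ → ℝ}
    (hG : Continuous (Function.uncurry G)) : Continuous (fun x => ∫ y in x..(f x), G x y) := by
  have h1 : Continuous (fun x => ∫ y in (0 : ℝ)..(f x), G x y) :=
    intervalIntegral.continuous_parametric_intervalIntegral_of_continuous hG hf
  have h2 : Continuous (fun x => ∫ y in (0 : ℝ)..x, G x y) :=
    intervalIntegral.continuous_parametric_intervalIntegral_of_continuous hG continuous_id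
  have hc : ∀ x, Continuous (G x) := fun x => hG.comp (Continuous.prodMk_right x)
  have h3 : (fun x => ∫ y in x..(f x), G x y) =
      fun x => (∫ y in (0 : ℝ)..(f x), G x y) - ∫ y in (0 : ℝ)..x, G x y := by
    funext x
    exact (intervalIntegral.integral_interval_sub_left ((hc x).intervalIntegrable _ _)
      ((hc x).intervalIntegrable _ _)).symm
  rw [h3]
  exact h1.sub h2

private theorem IdA_Kf (d : ℝ) : HasDerivAt Kf (Real.sin (2 * d) ^ 2) d := by
  have h1 : HasDerivAt (fun d : ℝ => Real.sin (4 * d)) (Real.cos (4 * d) * 4) d := by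
    have h2 : HasDerivAt (fun d : ℝ => 4 * d) (4 * 1) d := (hasDerivAt_id d).const_mul 4
    rw [mul_one] at h2
    exact (Real.hasDerivAt_sin (4 * d)).comp d h2
  have h3 := ((hasDerivAt_id d).sub (h1.div_const 4)).div_const 2
  refine HasDerivAt.congr_deriv h3 ?_
  have h4 : Real.cos (4 * d) = 2 * Real.cos (2 * d) ^ 2 - 1 := by
    rw [← Real.cos_two_mul]; congr 1; ring
  have h5 := Real.sin_sq_add_cos_sq (2 * d)
  rw [h4]
  linear_combination (-1 : ℝ) * h5

private theorem IdA_Lf (d : ℝ) : HasDerivAt Lf (Real.cos (2 * d) ^ 2) d := by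
  have h1 : HasDerivAt (fun d : ℝ => Real.sin (4 * d)) (Real.cos (4 * d) * 4) d := by
    have h2 : HasDerivAt (fun d : ℝ => 4 * d) (4 * 1) d := (hasDerivAt_id d).const_mul 4
    rw [mul_one] at h2
    exact (Real.hasDerivAt_sin (4 * d)).comp d h2
  have h3 := ((hasDerivAt_id d).add (h1.div_const 4)).div_const 2
  refine HasDerivAt.congr_deriv h3 ?_
  have h4 : Real.cos (4 * d) = 2 * Real.cos (2 * d) ^ 2 - 1 := by
    rw [← Real.cos_two_mul]; congr 1; ring
  rw [h4]
  ring

private theorem IdA_prim (al o1 o2 s d : ℝ) :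
    HasDerivAt (fun d => Ph8 h al o1 o2 s d) (16 * Hd h al o1 o2 s d) d := by
  have hK := IdA_Kf d
  have hL := IdA_Lf d
  have hS : HasDerivAt (fun d : ℝ => Real.sin (2 * d)) (Real.cos (2 * d) * 2) d := by
    have h2 : HasDerivAt (fun d : ℝ => 2 * d) (2 * 1) d := (hasDerivAt_id d).const_mul 2
    rw [mul_one] at h2
    exact (Real.hasDerivAt_sin (2 * d)).comp d h2
  have h1 := ((((hK.mul_const (UD h al o1 o2 s ^ 2)).sub
    ((hL.const_mul 4).mul_const (UU h al o1 o2 s ^ 2))).add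
    ((hK.const_mul 2).mul_const (UD h al o1 o2 s * (uu h al o1 o2 s - 2 * wf h al o1 o2 s)))).add
    (hS.const_mul (UU h al o1 o2 s * (UU h al o1 o2 s + 2 * wD h al o1 o2 s)))).add
    ((hL.const_mul 2).mul_const (UU h al o1 o2 s * (UU h al o1 o2 s - 2 * wD h al o1 o2 s)))
  refine HasDerivAt.congr_deriv h1 ?_
  unfold Hd
  ring

private theorem IdA_int (hs : Supp h) (al o1 o2 s D : ℝ) :
    8 * (∫ d in (0 : ℝ)..D, 2 * Hd h al o1 o2 s d) = Ph8 h al o1 o2 s D := by
  have hc : Continuous (fun d => Hd h al o1 o2 s d) := by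
    have e2 := (IdA_Hd_c hs al o1 o2).comp (Continuous.prodMk_right s)
    exact e2
  have hi : IntervalIntegrable (fun d => 16 * Hd h al o1 o2 s d) volume 0 D :=
    (continuous_const.mul hc).intervalIntegrable _ _
  have h1 := intervalIntegral.integral_eq_sub_of_hasDerivAt
    (f := fun d => Ph8 h al o1 o2 s d) (f' := fun d => 16 * Hd h al o1 o2 s d) (a := 0) (b := D)
    (fun d _ => IdA_prim al o1 o2 s d) hi
  have h2 : Ph8 h al o1 o2 s 0 = 0 := by
    unfold Ph8 Kf Lf
    simp
  rw [intervalIntegral.integral_const_mul, h2] at h1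
  rw [intervalIntegral.integral_const_mul]
  linarith

theorem idA (hs : Supp h) {f : ℝ → ℝ} (hf : Circle h f) (D : ℝ → ℝ) (hD0 : ∀ s, 0 ≤ D s)
    (hD : ∀ s, f (s - D s) = s + D s) (al o1 o2 : ℝ) :
    8 * QQ h f al o1 o2 = ∫ s in (0 : ℝ)..(2 * Real.pi), Ph8 h al o1 o2 s (D s) := by
  have hR := R_c hs
  have hk0 := IdA_k0_c hs al o1 o2
  have hk1 := IdA_k1_c hs al o1 o2
  have hH : Continuous (fun q : ℝ × ℝ => Hd h al o1 o2 ((q.1 + q.2) / 2) ((q.2 - q.1) / 2)) := by
    have e1 : Continuous (fun q : ℝ × ℝ => (((q.1 + q.2) / 2, (q.2 - q.1) / 2) : ℝ × ℝ)) := by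
      fun_prop
    have e2 := (IdA_Hd_c hs al o1 o2).comp e1
    exact e2
  have hlo : ∀ x, x ≤ f x := fun x => (hf.lo x).le
  -- the density
  have hA : QQ h f al o1 o2 =
      (∫ x in (0 : ℝ)..(2 * Real.pi), ∫ y in x..(f x), k0 h al o1 o2 x y * R h x y)
      - (∫ x in (0 : ℝ)..(2 * Real.pi), ∫ y in x..(f x), k1 h al o1 o2 x y * R h x y)
      + ∫ x in (0 : ℝ)..(2 * Real.pi), ∫ y in x..(f x),
          Hd h al o1 o2 ((x + y) / 2) ((y - x) / 2) := by
    have g0 : Continuous (Function.uncurry fun x y => k0 h al o1 o2 x y * R h x y) := hk0.mul hR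
    have g1 : Continuous (Function.uncurry fun x y => k1 h al o1 o2 x y * R h x y) := hk1.mul hR
    have g2 : Continuous (Function.uncurry fun x y => Hd h al o1 o2 ((x + y) / 2) ((y - x) / 2)) := hH
    have i0 := (IdA_inner hf.cont g0).intervalIntegrable (μ := volume) 0 (2 * Real.pi)
    have i1 := (IdA_inner hf.cont g1).intervalIntegrable (μ := volume) 0 (2 * Real.pi)
    have i2 := (IdA_inner hf.cont g2).intervalIntegrable (μ := volume) 0 (2 * Real.pi)
    rw [← intervalIntegral.integral_sub i0 i1, ← intervalIntegral.integral_add (i0.sub i1) i2]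
    unfold QQ
    refine intervalIntegral.integral_congr (fun x _ => ?_)
    have j0 : IntervalIntegrable (fun y => k0 h al o1 o2 x y * R h x y) volume x (f x) :=
      (g0.comp (Continuous.prodMk_right x)).intervalIntegrable _ _
    have j1 : IntervalIntegrable (fun y => k1 h al o1 o2 x y * R h x y) volume x (f x) :=
      (g1.comp (Continuous.prodMk_right x)).intervalIntegrable _ _
    have j2 : IntervalIntegrable (fun y => Hd h al o1 o2 ((x + y) / 2) ((y - x) / 2)) volume x (f x) :=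
      (g2.comp (Continuous.prodMk_right x)).intervalIntegrable _ _
    show (∫ y in x..(f x), qd h al o1 o2 x y * R h x y) = _
    have e : (fun y => qd h al o1 o2 x y * R h x y) = fun y =>
        (k0 h al o1 o2 x y * R h x y - k1 h al o1 o2 x y * R h x y)
          + Hd h al o1 o2 ((x + y) / 2) ((y - x) / 2) := funext fun y => ptw h al o1 o2 x y
    rw [e, intervalIntegral.integral_add (j0.sub j1) j2, intervalIntegral.integral_sub j0 j1]
  -- invariance
  have hB : (∫ x in (0 : ℝ)..(2 * Real.pi), ∫ y in x..(f x), k0 h al o1 o2 x y * R h x y)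
      = ∫ x in (0 : ℝ)..(2 * Real.pi), ∫ y in x..(f x), k1 h al o1 o2 x y * R h x y := by
    rw [← inv_nxt hs hf (k0 h al o1 o2) hk0.continuousOn
      (fun x y _ _ => IdA_k0_per hs al o1 o2 x y)]
    refine intervalIntegral.integral_congr (fun x _ => ?_)
    refine intervalIntegral.integral_congr (fun y hy => ?_)
    rw [uIcc_of_le (hlo x)] at hy
    have h1 := nxt_spec hs hy.1 (hy.2.trans (hf.hi x).le)
    show k0 h al o1 o2 y (nxt h x y) * R h x y = k1 h al o1 o2 x y * R h x y
    unfold k0 k1 nu0 nu1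
    rw [h1]
  -- the remaining part
  have hC := swap_pd f D hf.cont hf.mono hf.per hlo (fun x => (hf.hi x).le) hD0 hD
    (fun x y => Hd h al o1 o2 ((x + y) / 2) ((y - x) / 2)) hH.continuousOn (by
      intro x y _ _
      show Hd h al o1 o2 ((x + 2 * Real.pi + (y + 2 * Real.pi)) / 2)
        ((y + 2 * Real.pi - (x + 2 * Real.pi)) / 2) = Hd h al o1 o2 ((x + y) / 2) ((y - x) / 2)
      rw [show (x + 2 * Real.pi + (y + 2 * Real.pi)) / 2 = (x + y) / 2 + 2 * Real.pi by ring,
        show (y + 2 * Real.pi - (x + 2 * Real.pi)) / 2 = (y - x) / 2 by ring, IdA_Hd_per hs])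
  rw [hA, hB, sub_self, zero_add, hC, ← intervalIntegral.integral_const_mul]
  refine intervalIntegral.integral_congr (fun s _ => ?_)
  show 8 * (∫ d in (0 : ℝ)..(D s),
    2 * Hd h al o1 o2 ((s - d + (s + d)) / 2) ((s + d - (s - d)) / 2)) = Ph8 h al o1 o2 s (D s)
  rw [← IdA_int hs al o1 o2 s (D s)]
  congr 1
  refine intervalIntegral.integral_congr (fun d _ => ?_)
  show 2 * Hd h al o1 o2 ((s - d + (s + d)) / 2) ((s + d - (s - d)) / 2) = 2 * Hd h al o1 o2 s d
  rw [show (s - d + (s + d)) / 2 = s by ring, show (s + d - (s - d)) / 2 = d by ring]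

end Pool.Agent.H1.BP
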