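import Pool.Agent.H1.BP.Zet
import Pool.Agent.H1.BP.IdA

/-
ROW Zid.  The exact identity (note H1_BIL section 7; checked numerically).
Write zeta = zt X Ut (C^1, 2pi-periodic), Ut s = -2 ip zeta (en 2ps) (zt_spec; the hypothesis of zt_spec follows from hjump: sin(2dd) Ut telescopes, at(s+6pi)=at s).
Per s let N = ip zeta (en th), T = ip zeta (i en th), c = ip zeta' (en th), th = 2 ps X s, D = dd X s, sigma = sin(4D)/4; at s = C s + z s with z s = ip (zeta s) (i en (2 X s)) and C 2pi-periodic C^1: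
  C := at - z is 2pi-periodic because z(s+2pi) - z(s) = ip zeta (i(en(2X(s+2pi)) - en(2 X s))) = -2 sin(2D) N = Ut sin 2D = at(s+2pi)-at(s).
LHS integrand F(s) = Kf D Ut'^2/ps' - 4 Lf D Ut^2 ps' + 2 at(s+2pi) at'(s), integrated over 0..6pi = int_0^{2pi} [F(s)+F(s+2pi)+F(s+4pi)].
  Kf Ut'^2/ps' = 4 Kf c^2/ps' + 16 Kf c T + 8 Kf th' T^2;  4 Lf Ut^2 ps' = 8 Lf th' N^2   (Ut' = -2(c + th' T)).
  z s = T cos 2D + N sin 2D, z(s+2pi) = T cos 2D - N sin 2D (2X s = th - 2D, 2 X(s+2pi) = th + 2D).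
  16 Kf cT + 8 Kf th' T^2 - 8 Lf th' N^2 = 4 D (NT)' - 4 D cr zeta zeta' - 8 sigma c T - 4 sigma th' |zeta|^2.
  2 at(s+2pi) at'(s) = [C^2 + C z(s+2pi) ... exact terms; use: sum over the three values is 2 * sum z_{k+1} z_k' + derivative of a periodic function], 2 z(s+2pi) z'(s) = (z(s+2pi) z(s))' + 4 sigma(-cr zeta zeta' + th'|zeta|^2) + 4 N T D'.
  Sum over k=0,1,2 (sum D_k = pi): = periodic derivative - 4 pi cr zeta zeta' - 4 sum sigma_k (c_k T_k + N_k ip zeta' (i en th_k)), the last sum is 0 by sum_sin4.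
  So int F = int_0^{2pi} [ sum_k Af(D_k) c_k^2/ps'_k - 4 pi cr zeta zeta' ]   (4 Kf D = Af D).
Rotated frame: eta = e^{is} conj zeta, eta' - i eta = e^{is} conj zeta'; en(th_k) = e^{is} conj(en x_{k+2}) (x_k+x_{k+1} = s - x_{k+2}); so c_k = ip (zeta') (en th_k) = ip (eta' - i eta) (en x_{k+2}), and
  cr eta eta' = - cr zeta zeta' + |zeta|^2... precisely cr eta eta' = |eta|^2 - cr zeta zeta'.  The edge k=1 gives ed X s, k=2 gives ed X (s+2pi), k=0 gives ed X (s+4pi)  (Af (dd X (s+6pi)) = Af (dd X s), X(s+4pi) = x_2).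
-/

set_option autoImplicit false
open Set MeasureTheory

namespace Pool.Agent.H1.BP

private theorem Zid_L1 (D S4 v Dp N T c e r m : ℝ) (hv : v ≠ 0) (h1 : T ^ 2 + N ^ 2 = m)
    (h2 : c * T - N * e = -r) :
    (D - S4 / 4) / 2 * (-2 * (c + v * T)) ^ 2 / (v / 2)
      - 4 * ((D + S4 / 4) / 2) * (-2 * N) ^ 2 * (v / 2)
      - 4 * (Dp * N * T + D * (c + v * T) * T + D * N * (e - v * N))
      + (S4 * (-r + v * m) + 4 * N * T * Dp)
    = (2 * D - S4 / 2) * c ^ 2 / (v / 2) - 4 * D * r - S4 * (c * T + N * e) := by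
  have e1 : (D - S4 / 4) / 2 * (-2 * (c + v * T)) ^ 2 / (v / 2) =
      (D - S4 / 4) * 4 * (c ^ 2 / v + 2 * c * T + v * T ^ 2) := by
    field_simp
    ring
  have e2 : (2 * D - S4 / 2) * c ^ 2 / (v / 2) = (D - S4 / 4) * 4 * (c ^ 2 / v) := by
    field_simp
    ring
  rw [e1, e2]
  linear_combination (-(S4 * v)) * h1 + (4 * D - S4) * h2

private theorem Zid_tr (x y : ℝ) :
    Real.sin (2 * x) = Real.sin (y + x) * Real.cos (y - x) - Real.cos (y + x) * Real.sin (y - x) ∧
    Real.cos (2 * x) = Real.cos (y + x) * Real.cos (y - x) + Real.sin (y + x) * Real.sin (y - x) ∧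
    Real.sin (2 * y) = Real.sin (y + x) * Real.cos (y - x) + Real.cos (y + x) * Real.sin (y - x) ∧
    Real.cos (2 * y) = Real.cos (y + x) * Real.cos (y - x) - Real.sin (y + x) * Real.sin (y - x) := by
  refine ⟨?_, ?_, ?_, ?_⟩
  · rw [← Real.sin_sub]
    congr 1
    ring
  · rw [← Real.cos_sub]
    congr 1
    ring
  · rw [← Real.sin_add]
    congr 1
    ring
  · rw [← Real.cos_add]
    congr 1
    ring

private theorem Zid_L2 (p q p' q' x y x' y' : ℝ) :
    (-p * Real.sin (2 * y) + q * Real.cos (2 * y)) *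
      (-p' * Real.sin (2 * x) + q' * Real.cos (2 * x)
        - 2 * x' * (p * Real.cos (2 * x) + q * Real.sin (2 * x)))
    - (-p * Real.sin (2 * x) + q * Real.cos (2 * x)) *
      (-p' * Real.sin (2 * y) + q' * Real.cos (2 * y)
        - 2 * y' * (p * Real.cos (2 * y) + q * Real.sin (2 * y)))
    = Real.sin (4 * ((y - x) / 2)) * (-(p * q' - q * p') + (y' + x') * (p ^ 2 + q ^ 2))
      + 4 * (p * Real.cos (y + x) + q * Real.sin (y + x)) *
          (-p * Real.sin (y + x) + q * Real.cos (y + x)) * ((y' - x') / 2) := by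
  obtain ⟨t1, t2, t3, t4⟩ := Zid_tr x y
  have h4 : 4 * ((y - x) / 2) = 2 * (y - x) := by ring
  rw [t1, t2, t3, t4, h4, Real.sin_two_mul]
  have hc := Real.sin_sq_add_cos_sq (y + x)
  have hC := Real.sin_sq_add_cos_sq (y - x)
  obtain ⟨c, ec⟩ : ∃ c, Real.cos (y + x) = c := ⟨_, rfl⟩
  obtain ⟨s, es⟩ : ∃ s, Real.sin (y + x) = s := ⟨_, rfl⟩
  obtain ⟨C, eC⟩ : ∃ C, Real.cos (y - x) = C := ⟨_, rfl⟩
  obtain ⟨S, eS⟩ : ∃ S, Real.sin (y - x) = S := ⟨_, rfl⟩
  rw [ec, es] at hc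
  rw [eC, eS] at hC
  rw [ec, es, eC, eS]
  linear_combination (2 * C * S * (-(p * q' - q * p') + (y' + x') * (p ^ 2 + q ^ 2))) * hc
    + (2 * (y' - x') * (p * c + q * s) * (-p * s + q * c)) * hC

private theorem Zid_L3 (p q x y : ℝ) :
    (-p * Real.sin (2 * y) + q * Real.cos (2 * y)) - (-p * Real.sin (2 * x) + q * Real.cos (2 * x))
    = (-2 * (p * Real.cos (y + x) + q * Real.sin (y + x))) * Real.sin (y - x) := by
  obtain ⟨t1, t2, t3, t4⟩ := Zid_tr x y
  rw [t1, t2, t3, t4]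
  ring

/-- `sum (a_{k+1} a_k' - a_k a_{k+1}')` depends on the differences only. -/
private theorem Zid_L4 (a0 a1 a2 b0 b1 b2 z0 z1 z2 w0 w1 w2 : ℝ) (h1 : a1 - a0 = z1 - z0)
    (h2 : a2 - a1 = z2 - z1) (h3 : b1 - b0 = w1 - w0) (h4 : b2 - b1 = w2 - w1) :
    (a1 * b0 - a0 * b1) + (a2 * b1 - a1 * b2) + (a0 * b2 - a2 * b0) =
    (z1 * w0 - z0 * w1) + (z2 * w1 - z1 * w2) + (z0 * w2 - z2 * w0) := by
  have e1 : a1 = a0 + (z1 - z0) := by linarith
  have e2 : a2 = a0 + (z2 - z0) := by linarith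
  have e3 : b1 = b0 + (w1 - w0) := by linarith
  have e4 : b2 = b0 + (w2 - w0) := by linarith
  rw [e1, e2, e3, e4]
  ring

/-- the derivative of `(cos, sin)`-combinations -/
private theorem Zid_dr {f : ℝ → ℂ} {f' : ℂ} {t : ℝ} (h : HasDerivAt f f' t) :
    HasDerivAt (fun t => (f t).re) f'.re t := by
  have := (Complex.reCLM.hasFDerivAt (x := f t)).comp_hasDerivAt t h
  exact this

private theorem Zid_di {f : ℝ → ℂ} {f' : ℂ} {t : ℝ} (h : HasDerivAt f f' t) :
    HasDerivAt (fun t => (f t).im) f'.im t := by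
  have := (Complex.imCLM.hasFDerivAt (x := f t)).comp_hasDerivAt t h
  exact this

private theorem Zid_den (t : ℝ) : HasDerivAt en (Complex.I * en t) t := by
  have h1 : HasDerivAt (fun t : ℝ => ((Real.cos t : ℝ) : ℂ) + ((Real.sin t : ℝ) : ℂ) * Complex.I)
      (((-Real.sin t : ℝ) : ℂ) + ((Real.cos t : ℝ) : ℂ) * Complex.I) t :=
    (Real.hasDerivAt_cos t).ofReal_comp.add ((Real.hasDerivAt_sin t).ofReal_comp.mul_const _)
  have e1 : (fun t : ℝ => ((Real.cos t : ℝ) : ℂ) + ((Real.sin t : ℝ) : ℂ) * Complex.I) = en := by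
    funext t
    apply Complex.ext <;> simp [en, -Complex.ofReal_cos, -Complex.ofReal_sin]
  have e2 : (((-Real.sin t : ℝ) : ℂ) + ((Real.cos t : ℝ) : ℂ) * Complex.I) = Complex.I * en t := by
    apply Complex.ext <;> simp [en, -Complex.ofReal_cos, -Complex.ofReal_sin]
  rw [e1, e2] at h1
  exact h1

noncomputable section

/-- the rotated loop -/
def et (X Ut : ℝ → ℝ) (s : ℝ) : ℂ := en s * (starRingEnd ℂ) (zt X Ut s)

end

private theorem Zid_det {X Ut : ℝ → ℝ} {t : ℝ}
    (h : HasDerivAt (zt X Ut) (deriv (zt X Ut) t) t) :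
    deriv (et X Ut) t - Complex.I * et X Ut t = en t * (starRingEnd ℂ) (deriv (zt X Ut) t) := by
  have h1 : HasDerivAt (fun t => (starRingEnd ℂ) (zt X Ut t))
      ((starRingEnd ℂ) (deriv (zt X Ut) t)) t := h.star
  have h2 : HasDerivAt (et X Ut) (Complex.I * en t * (starRingEnd ℂ) (zt X Ut t) +
      en t * (starRingEnd ℂ) (deriv (zt X Ut) t)) t := (Zid_den t).mul h1
  rw [h2.deriv]
  unfold et
  ring


private noncomputable def Zid_N (X Ut : ℝ → ℝ) (t : ℝ) : ℝ :=
  (zt X Ut t).re * Real.cos (X (t + 2 * Real.pi) + X t)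
    + (zt X Ut t).im * Real.sin (X (t + 2 * Real.pi) + X t)

private noncomputable def Zid_T (X Ut : ℝ → ℝ) (t : ℝ) : ℝ :=
  -(zt X Ut t).re * Real.sin (X (t + 2 * Real.pi) + X t)
    + (zt X Ut t).im * Real.cos (X (t + 2 * Real.pi) + X t)

private noncomputable def Zid_c (X Ut : ℝ → ℝ) (t : ℝ) : ℝ :=
  (deriv (zt X Ut) t).re * Real.cos (X (t + 2 * Real.pi) + X t)
    + (deriv (zt X Ut) t).im * Real.sin (X (t + 2 * Real.pi) + X t)

private noncomputable def Zid_e (X Ut : ℝ → ℝ) (t : ℝ) : ℝ :=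
  -(deriv (zt X Ut) t).re * Real.sin (X (t + 2 * Real.pi) + X t)
    + (deriv (zt X Ut) t).im * Real.cos (X (t + 2 * Real.pi) + X t)

private noncomputable def Zid_r (X Ut : ℝ → ℝ) (t : ℝ) : ℝ :=
  (zt X Ut t).re * (deriv (zt X Ut) t).im - (zt X Ut t).im * (deriv (zt X Ut) t).re

private noncomputable def Zid_z (X Ut : ℝ → ℝ) (t : ℝ) : ℝ :=
  -(zt X Ut t).re * Real.sin (2 * X t) + (zt X Ut t).im * Real.cos (2 * X t)

private noncomputable def Zid_w (X Ut : ℝ → ℝ) (t : ℝ) : ℝ :=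
  -(deriv (zt X Ut) t).re * Real.sin (2 * X t) + (deriv (zt X Ut) t).im * Real.cos (2 * X t)
    - 2 * deriv X t * ((zt X Ut t).re * Real.cos (2 * X t) + (zt X Ut t).im * Real.sin (2 * X t))

private theorem Zid_dX {X : ℝ → ℝ} (hX : Tri X) (t : ℝ) : HasDerivAt X (deriv X t) t :=
  ((hX.smooth.differentiable one_ne_zero) t).hasDerivAt

private theorem Zid_dz {X Ut : ℝ → ℝ} (hX : Tri X) (hU : ContDiff ℝ 1 Ut) (t : ℝ) :
    HasDerivAt (zt X Ut) (deriv (zt X Ut) t) t :=
  (((zt_C1 hX hU).differentiable one_ne_zero) t).hasDerivAt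

private theorem Zid_dth {X : ℝ → ℝ} (hX : Tri X) (t : ℝ) :
    HasDerivAt (fun t => X (t + 2 * Real.pi) + X t)
      (deriv X (t + 2 * Real.pi) + deriv X t) t :=
  (HasDerivAt.comp_add_const t (2 * Real.pi) (Zid_dX hX (t + 2 * Real.pi))).add (Zid_dX hX t)

private theorem Zid_hN {X Ut : ℝ → ℝ} (hX : Tri X) (hU : ContDiff ℝ 1 Ut) (t : ℝ) :
    HasDerivAt (Zid_N X Ut) (Zid_c X Ut t + (deriv X (t + 2 * Real.pi) + deriv X t) * Zid_T X Ut t)
      t := by
  have h1 := Zid_dr (Zid_dz hX hU t)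
  have h2 := Zid_di (Zid_dz hX hU t)
  have h3 := (h1.mul (Zid_dth hX t).cos).add (h2.mul (Zid_dth hX t).sin)
  refine HasDerivAt.congr_deriv (h3.congr_of_eventuallyEq (Filter.Eventually.of_forall fun t => rfl)) ?_
  unfold Zid_c Zid_T
  ring

private theorem Zid_hT {X Ut : ℝ → ℝ} (hX : Tri X) (hU : ContDiff ℝ 1 Ut) (t : ℝ) :
    HasDerivAt (Zid_T X Ut) (Zid_e X Ut t - (deriv X (t + 2 * Real.pi) + deriv X t) * Zid_N X Ut t)
      t := by
  have h1 := Zid_dr (Zid_dz hX hU t)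
  have h2 := Zid_di (Zid_dz hX hU t)
  have h3 := (h1.neg.mul (Zid_dth hX t).sin).add (h2.mul (Zid_dth hX t).cos)
  refine HasDerivAt.congr_deriv (h3.congr_of_eventuallyEq (Filter.Eventually.of_forall fun t => rfl)) ?_
  unfold Zid_e Zid_N
  simp only [Pi.neg_apply]
  ring

private theorem Zid_hz {X Ut : ℝ → ℝ} (hX : Tri X) (hU : ContDiff ℝ 1 Ut) (t : ℝ) :
    HasDerivAt (Zid_z X Ut) (Zid_w X Ut t) t := by
  have h1 := Zid_dr (Zid_dz hX hU t)
  have h2 := Zid_di (Zid_dz hX hU t)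
  have h4 : HasDerivAt (fun t => 2 * X t) (2 * deriv X t) t := (Zid_dX hX t).const_mul 2
  have h3 := (h1.neg.mul h4.sin).add (h2.mul h4.cos)
  refine HasDerivAt.congr_deriv (h3.congr_of_eventuallyEq (Filter.Eventually.of_forall fun t => rfl)) ?_
  unfold Zid_w
  simp only [Pi.neg_apply]
  ring

private theorem Zid_dps {X : ℝ → ℝ} (hX : Tri X) (t : ℝ) :
    deriv (ps X) t = (deriv X (t + 2 * Real.pi) + deriv X t) / 2 :=
  ((Zid_dth hX t).div_const 2).deriv

private theorem Zid_hdd {X : ℝ → ℝ} (hX : Tri X) (t : ℝ) :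
    HasDerivAt (dd X) ((deriv X (t + 2 * Real.pi) - deriv X t) / 2) t :=
  ((HasDerivAt.comp_add_const t (2 * Real.pi) (Zid_dX hX (t + 2 * Real.pi))).sub
    (Zid_dX hX t)).div_const 2

private theorem Zid_id {X Ut : ℝ → ℝ} (t : ℝ) :
    Zid_T X Ut t ^ 2 + Zid_N X Ut t ^ 2 = (zt X Ut t).re ^ 2 + (zt X Ut t).im ^ 2 ∧
    Zid_c X Ut t * Zid_T X Ut t - Zid_N X Ut t * Zid_e X Ut t = -Zid_r X Ut t := by
  have hc := Real.sin_sq_add_cos_sq (X (t + 2 * Real.pi) + X t)
  unfold Zid_T Zid_N Zid_c Zid_e Zid_r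
  constructor
  · linear_combination ((zt X Ut t).re ^ 2 + (zt X Ut t).im ^ 2) * hc
  · linear_combination (-((zt X Ut t).re * (deriv (zt X Ut) t).im
      - (zt X Ut t).im * (deriv (zt X Ut) t).re)) * hc

/-- the primitive -/
private noncomputable def Zid_g (X Ut a : ℝ → ℝ) (t : ℝ) : ℝ :=
  a (t + 2 * Real.pi) * a t + 4 * (dd X t * Zid_N X Ut t * Zid_T X Ut t)

private noncomputable def Zid_gd (X Ut a : ℝ → ℝ) (t : ℝ) : ℝ :=
  (deriv a (t + 2 * Real.pi) * a t + a (t + 2 * Real.pi) * deriv a t) +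
    4 * ((deriv X (t + 2 * Real.pi) - deriv X t) / 2 * Zid_N X Ut t * Zid_T X Ut t +
      dd X t * (Zid_c X Ut t + (deriv X (t + 2 * Real.pi) + deriv X t) * Zid_T X Ut t)
        * Zid_T X Ut t +
      dd X t * Zid_N X Ut t *
        (Zid_e X Ut t - (deriv X (t + 2 * Real.pi) + deriv X t) * Zid_N X Ut t))

private theorem Zid_hg {X Ut a : ℝ → ℝ} (hX : Tri X) (hU : ContDiff ℝ 1 Ut)
    (ha : ContDiff ℝ 1 a) (t : ℝ) : HasDerivAt (Zid_g X Ut a) (Zid_gd X Ut a t) t := by
  have ha1 : ∀ t, HasDerivAt a (deriv a t) t := fun t =>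
    ((ha.differentiable one_ne_zero) t).hasDerivAt
  have h1 := (HasDerivAt.comp_add_const t (2 * Real.pi) (ha1 (t + 2 * Real.pi))).mul (ha1 t)
  have h2 := (((Zid_hdd hX t).mul (Zid_hN hX hU t)).mul (Zid_hT hX hU t)).const_mul 4
  refine HasDerivAt.congr_deriv ((h1.add h2).congr_of_eventuallyEq
    (Filter.Eventually.of_forall fun t => rfl)) ?_
  unfold Zid_gd
  simp only [Pi.mul_apply]
  ring

/-- The pointwise identity. -/
private theorem Zid_pt {X Ut a : ℝ → ℝ} (hX : Tri X) (hU : ContDiff ℝ 1 Ut)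
    (hp : ∀ t, zt X Ut (t + 2 * Real.pi) = zt X Ut t)
    (hp' : ∀ t, deriv (zt X Ut) (t + 2 * Real.pi) = deriv (zt X Ut) t)
    (hUN : ∀ t, Ut t = -2 * Zid_N X Ut t) (t : ℝ) :
    (Kf (dd X t) * deriv Ut t ^ 2 / deriv (ps X) t - 4 * Lf (dd X t) * Ut t ^ 2 * deriv (ps X) t
        + 2 * a (t + 2 * Real.pi) * deriv a t) - Zid_gd X Ut a t =
      Af (dd X t) * Zid_c X Ut t ^ 2 / ((deriv X (t + 2 * Real.pi) + deriv X t) / 2)
        - 4 * dd X t * Zid_r X Ut t
        - Real.sin (4 * dd X t) * (Zid_c X Ut t * Zid_T X Ut t + Zid_N X Ut t * Zid_e X Ut t)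
        - (Zid_z X Ut (t + 2 * Real.pi) * Zid_w X Ut t - Zid_z X Ut t * Zid_w X Ut (t + 2 * Real.pi))
        + (a (t + 2 * Real.pi) * deriv a t - a t * deriv a (t + 2 * Real.pi)) := by
  have hdU : deriv Ut t =
      -2 * (Zid_c X Ut t + (deriv X (t + 2 * Real.pi) + deriv X t) * Zid_T X Ut t) := by
    have h1 : Ut = fun t => -2 * Zid_N X Ut t := funext hUN
    have h2 := ((Zid_hN hX hU t).const_mul (-2)).deriv
    rw [← h2]
    exact congrArg (fun f => deriv f t) h1
  have hv : deriv X (t + 2 * Real.pi) + deriv X t ≠ 0 := by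
    have := hX.pos (t + 2 * Real.pi)
    have := hX.pos t
    positivity
  obtain ⟨i1, i2⟩ := Zid_id (X := X) (Ut := Ut) t
  have h1 := Zid_L1 (dd X t) (Real.sin (4 * dd X t)) (deriv X (t + 2 * Real.pi) + deriv X t)
    ((deriv X (t + 2 * Real.pi) - deriv X t) / 2) _ _ _ _ _ _ hv i1 i2
  have h2 := Zid_L2 (zt X Ut t).re (zt X Ut t).im (deriv (zt X Ut) t).re (deriv (zt X Ut) t).im
    (X t) (X (t + 2 * Real.pi)) (deriv X t) (deriv X (t + 2 * Real.pi))
  have h3 : Zid_z X Ut (t + 2 * Real.pi) * Zid_w X Ut t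
      - Zid_z X Ut t * Zid_w X Ut (t + 2 * Real.pi) =
      Real.sin (4 * dd X t) * (-Zid_r X Ut t + (deriv X (t + 2 * Real.pi) + deriv X t) *
        ((zt X Ut t).re ^ 2 + (zt X Ut t).im ^ 2))
      + 4 * Zid_N X Ut t * Zid_T X Ut t * ((deriv X (t + 2 * Real.pi) - deriv X t) / 2) := by
    unfold Zid_z Zid_w Zid_r Zid_N Zid_T dd
    rw [hp, hp']
    exact h2
  rw [h3, Zid_dps hX, hdU, hUN t]
  unfold Zid_gd Kf Lf Af
  linear_combination h1

private theorem Zid_ip (s x : ℝ) (w : ℂ) : ip (en s * (starRingEnd ℂ) w) (en x) =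
    w.re * Real.cos (s - x) + w.im * Real.sin (s - x) := by
  rw [Real.cos_sub, Real.sin_sub]
  unfold ip en
  simp only [Complex.mul_re, Complex.mul_im, Complex.conj_re, Complex.conj_im]
  ring

private theorem Zid_cr (s : ℝ) (z w v : ℂ)
    (h : v - Complex.I * (en s * (starRingEnd ℂ) z) = en s * (starRingEnd ℂ) w) :
    cr (en s * (starRingEnd ℂ) z) v = Complex.normSq (en s * (starRingEnd ℂ) z)
      - (z.re * w.im - z.im * w.re) := by
  have h1 : v = Complex.I * (en s * (starRingEnd ℂ) z) + en s * (starRingEnd ℂ) w := by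
    rw [← h]
    ring
  have hc := Real.sin_sq_add_cos_sq s
  rw [h1]
  unfold cr en
  simp only [Complex.normSq_apply, Complex.mul_re, Complex.mul_im, Complex.conj_re,
    Complex.conj_im, Complex.add_re, Complex.add_im, Complex.I_re, Complex.I_im]
  linear_combination (-(z.re * w.im - z.im * w.re)) * hc

private theorem Zid_three (H : ℝ → ℝ) (hH : Continuous H) :
    ∫ s in (0 : ℝ)..(6 * Real.pi), H s =
      ∫ s in (0 : ℝ)..(2 * Real.pi), (H s + H (s + 2 * Real.pi) + H (s + 4 * Real.pi)) := by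
  have hi : ∀ a b : ℝ, IntervalIntegrable H volume a b := fun a b => hH.intervalIntegrable a b
  have h1 : ∫ s in (0 : ℝ)..(2 * Real.pi), H (s + 2 * Real.pi) =
      ∫ s in (2 * Real.pi)..(4 * Real.pi), H s := by
    rw [intervalIntegral.integral_comp_add_right]
    congr 1 <;> ring
  have h2 : ∫ s in (0 : ℝ)..(2 * Real.pi), H (s + 4 * Real.pi) =
      ∫ s in (4 * Real.pi)..(6 * Real.pi), H s := by
    rw [intervalIntegral.integral_comp_add_right]
    congr 1 <;> ring
  have c1 : Continuous fun s => H (s + 2 * Real.pi) := hH.comp (continuous_add_const _)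
  have c2 : Continuous fun s => H (s + 4 * Real.pi) := hH.comp (continuous_add_const _)
  have c3 : Continuous fun s => H s + H (s + 2 * Real.pi) := hH.add c1
  have q1 : ∫ s in (0 : ℝ)..(2 * Real.pi), (H s + H (s + 2 * Real.pi) + H (s + 4 * Real.pi)) =
      (∫ s in (0 : ℝ)..(2 * Real.pi), (H s + H (s + 2 * Real.pi))) +
        ∫ s in (0 : ℝ)..(2 * Real.pi), H (s + 4 * Real.pi) :=
    intervalIntegral.integral_add (c3.intervalIntegrable _ _) (c2.intervalIntegrable _ _)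
  have q2 : ∫ s in (0 : ℝ)..(2 * Real.pi), (H s + H (s + 2 * Real.pi)) =
      (∫ s in (0 : ℝ)..(2 * Real.pi), H s) + ∫ s in (0 : ℝ)..(2 * Real.pi), H (s + 2 * Real.pi) :=
    intervalIntegral.integral_add (hH.intervalIntegrable _ _) (c1.intervalIntegrable _ _)
  rw [q1, q2, h1, h2,
    intervalIntegral.integral_add_adjacent_intervals (hi _ _) (hi _ _),
    intervalIntegral.integral_add_adjacent_intervals (hi _ _) (hi _ _)]

/-- The sum over the three vertices. -/
private theorem Zid_sum {X Ut a : ℝ → ℝ} (hX : Tri X) (hU : ContDiff ℝ 1 Ut) (ha : ContDiff ℝ 1 a)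
    (hap : ∀ s, a (s + 6 * Real.pi) = a s)
    (hp : ∀ t, zt X Ut (t + 2 * Real.pi) = zt X Ut t)
    (hp' : ∀ t, deriv (zt X Ut) (t + 2 * Real.pi) = deriv (zt X Ut) t)
    (hjump : ∀ s, a (s + 2 * Real.pi) - a s = Ut s * Real.sin (2 * dd X s))
    (hUN : ∀ t, Ut t = -2 * Zid_N X Ut t) (s : ℝ) (H : ℝ → ℝ)
    (hH : ∀ t, H t = Af (dd X t) * Zid_c X Ut t ^ 2 / ((deriv X (t + 2 * Real.pi) + deriv X t) / 2)
        - 4 * dd X t * Zid_r X Ut t
        - Real.sin (4 * dd X t) * (Zid_c X Ut t * Zid_T X Ut t + Zid_N X Ut t * Zid_e X Ut t)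
        - (Zid_z X Ut (t + 2 * Real.pi) * Zid_w X Ut t - Zid_z X Ut t * Zid_w X Ut (t + 2 * Real.pi))
        + (a (t + 2 * Real.pi) * deriv a t - a t * deriv a (t + 2 * Real.pi))) :
    H s + H (s + 2 * Real.pi) + H (s + 4 * Real.pi) =
      ed X s (deriv (et X Ut) s - Complex.I * et X Ut s)
      + ed X (s + 2 * Real.pi) (deriv (et X Ut) s - Complex.I * et X Ut s)
      + ed X (s + 4 * Real.pi) (deriv (et X Ut) s - Complex.I * et X Ut s)
      + 4 * Real.pi * cr (et X Ut s) (deriv (et X Ut) s)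
      - 4 * Real.pi * Complex.normSq (et X Ut s) := by
  have e1 : s + 2 * Real.pi + 2 * Real.pi = s + 4 * Real.pi := by ring
  have e2 : s + 4 * Real.pi + 2 * Real.pi = s + 6 * Real.pi := by ring
  have e3 : s + 2 * Real.pi + 4 * Real.pi = s + 6 * Real.pi := by ring
  have e4 : s + 4 * Real.pi + 4 * Real.pi = s + 2 * Real.pi + 6 * Real.pi := by ring
  have hja : ∀ t, a (t + 2 * Real.pi) - a t = Zid_z X Ut (t + 2 * Real.pi) - Zid_z X Ut t := by
    intro t
    have h1 := Zid_L3 (zt X Ut t).re (zt X Ut t).im (X t) (X (t + 2 * Real.pi))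
    have h2 : 2 * dd X t = X (t + 2 * Real.pi) - X t := by
      unfold dd
      ring
    rw [hjump, h2, hUN t]
    unfold Zid_z Zid_N
    rw [hp]
    exact h1.symm
  have ha1 : ∀ t, HasDerivAt a (deriv a t) t := fun t =>
    ((ha.differentiable one_ne_zero) t).hasDerivAt
  have hjb : ∀ t, deriv a (t + 2 * Real.pi) - deriv a t =
      Zid_w X Ut (t + 2 * Real.pi) - Zid_w X Ut t := by
    intro t
    have h1 := (HasDerivAt.comp_add_const t (2 * Real.pi) (ha1 (t + 2 * Real.pi))).sub (ha1 t)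
    have h2 := (HasDerivAt.comp_add_const t (2 * Real.pi)
      (Zid_hz hX hU (t + 2 * Real.pi))).sub (Zid_hz hX hU t)
    have h3 : (fun t => a (t + 2 * Real.pi)) - a =
        (fun t => Zid_z X Ut (t + 2 * Real.pi)) - Zid_z X Ut := funext hja
    rw [h3] at h1
    exact h1.unique h2
  have hap' : deriv a (s + 6 * Real.pi) = deriv a s := by
    have h1 : (fun t => a (t + 6 * Real.pi)) = a := funext hap
    have h2 := deriv_comp_add_const a (6 * Real.pi) s
    rw [h1] at h2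
    exact h2.symm
  have ja0 := hja s
  have ja1 := hja (s + 2 * Real.pi)
  have ja2 := hja (s + 4 * Real.pi)
  have jb0 := hjb s
  have jb1 := hjb (s + 2 * Real.pi)
  have jb2 := hjb (s + 4 * Real.pi)
  rw [e1] at ja1 jb1
  rw [e2] at ja2 jb2
  have hz6 : Zid_z X Ut (s + 6 * Real.pi) = Zid_z X Ut s := by
    have := hap s
    linarith
  have hw6 : Zid_w X Ut (s + 6 * Real.pi) = Zid_w X Ut s := by
    linarith
  have hL4 := Zid_L4 _ _ _ _ _ _ _ _ _ _ _ _ ja0 ja1 jb0 jb1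
  have hp4 : zt X Ut (s + 4 * Real.pi) = zt X Ut s := by rw [← e1, hp, hp]
  have hp4' : deriv (zt X Ut) (s + 4 * Real.pi) = deriv (zt X Ut) s := by rw [← e1, hp', hp']
  have hr1 : Zid_r X Ut (s + 2 * Real.pi) = Zid_r X Ut s := by
    unfold Zid_r
    rw [hp, hp']
  have hr2 : Zid_r X Ut (s + 4 * Real.pi) = Zid_r X Ut s := by
    unfold Zid_r
    rw [hp4, hp4']
  have hD : dd X s + dd X (s + 2 * Real.pi) + dd X (s + 4 * Real.pi) = Real.pi := by
    unfold dd
    rw [e1, e2, hX.per]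
    ring
  -- the trigonometric sum
  have h2ps : ∀ t, 2 * ps X t = X (t + 2 * Real.pi) + X t := by
    intro t
    unfold ps
    ring
  have hS : Real.sin (4 * dd X s) * (Zid_c X Ut s * Zid_T X Ut s + Zid_N X Ut s * Zid_e X Ut s)
      + Real.sin (4 * dd X (s + 2 * Real.pi)) *
        (Zid_c X Ut (s + 2 * Real.pi) * Zid_T X Ut (s + 2 * Real.pi)
          + Zid_N X Ut (s + 2 * Real.pi) * Zid_e X Ut (s + 2 * Real.pi))
      + Real.sin (4 * dd X (s + 4 * Real.pi)) *
        (Zid_c X Ut (s + 4 * Real.pi) * Zid_T X Ut (s + 4 * Real.pi)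
          + Zid_N X Ut (s + 4 * Real.pi) * Zid_e X Ut (s + 4 * Real.pi)) = 0 := by
    obtain ⟨g1, g2, g3⟩ := sum_sin4 hX s
    rw [h2ps, h2ps, h2ps] at g1 g2 g3
    unfold Zid_c Zid_T Zid_N Zid_e
    rw [hp, hp', hp4, hp4']
    linear_combination ((zt X Ut s).re * (deriv (zt X Ut) s).im
        + (zt X Ut s).im * (deriv (zt X Ut) s).re) * (g1 - g2)
      + (2 * ((zt X Ut s).im * (deriv (zt X Ut) s).im
        - (zt X Ut s).re * (deriv (zt X Ut) s).re)) * g3
  -- the right hand side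
  have hv := Zid_det (Zid_dz hX hU s)
  have hcr := Zid_cr s (zt X Ut s) (deriv (zt X Ut) s) (deriv (et X Ut) s) hv
  have hsum := hX.sum s
  have k1 : ip (en s * (starRingEnd ℂ) (deriv (zt X Ut) s)) (en (X s)) =
      Zid_c X Ut (s + 2 * Real.pi) := by
    rw [Zid_ip]
    unfold Zid_c
    rw [e1, hp']
    have : s - X s = X (s + 4 * Real.pi) + X (s + 2 * Real.pi) := by linarith
    rw [this]
  have k2 : ip (en s * (starRingEnd ℂ) (deriv (zt X Ut) s)) (en (X (s + 2 * Real.pi))) =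
      Zid_c X Ut (s + 4 * Real.pi) := by
    rw [Zid_ip]
    unfold Zid_c
    rw [e2, hp4', hX.per]
    have : X s + 2 * Real.pi + X (s + 4 * Real.pi) =
        (s - X (s + 2 * Real.pi)) + 2 * Real.pi := by linarith
    rw [this, Real.cos_add_two_pi, Real.sin_add_two_pi]
  have k3 : ip (en s * (starRingEnd ℂ) (deriv (zt X Ut) s)) (en (X (s + 4 * Real.pi))) =
      Zid_c X Ut s := by
    rw [Zid_ip]
    unfold Zid_c
    have : s - X (s + 4 * Real.pi) = X (s + 2 * Real.pi) + X s := by linarith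
    rw [this]
  have d1 : dd X (s + 6 * Real.pi) = dd X s := by
    unfold dd
    have e5 : s + 6 * Real.pi + 2 * Real.pi = s + 2 * Real.pi + 6 * Real.pi := by ring
    rw [e5, hX.per, hX.per]
    ring
  have hed1 : ed X s (deriv (et X Ut) s - Complex.I * et X Ut s) =
      Af (dd X (s + 2 * Real.pi)) * Zid_c X Ut (s + 2 * Real.pi) ^ 2 /
        ((deriv X (s + 4 * Real.pi) + deriv X (s + 2 * Real.pi)) / 2) := by
    rw [hv]
    unfold ed
    rw [k1]
    unfold Av wv
    rw [add_comm (deriv X (s + 2 * Real.pi))]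
  have hed2 : ed X (s + 2 * Real.pi) (deriv (et X Ut) s - Complex.I * et X Ut s) =
      Af (dd X (s + 4 * Real.pi)) * Zid_c X Ut (s + 4 * Real.pi) ^ 2 /
        ((deriv X (s + 6 * Real.pi) + deriv X (s + 4 * Real.pi)) / 2) := by
    rw [hv]
    unfold ed
    rw [k2]
    unfold Av wv
    rw [e1, e3, add_comm (deriv X (s + 4 * Real.pi))]
  have hed3 : ed X (s + 4 * Real.pi) (deriv (et X Ut) s - Complex.I * et X Ut s) =
      Af (dd X s) * Zid_c X Ut s ^ 2 /
        ((deriv X (s + 2 * Real.pi) + deriv X s) / 2) := by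
    rw [hv]
    unfold ed
    rw [k3]
    unfold Av wv
    rw [e2, e4, d1, dX_per hX, dX_per hX, add_comm (deriv X s)]
  have het : et X Ut s = en s * (starRingEnd ℂ) (zt X Ut s) := rfl
  rw [hed1, hed2, hed3, het, hcr, hH s, hH (s + 2 * Real.pi), hH (s + 4 * Real.pi), e1, e2, hr1,
    hr2, hz6, hw6, hap, hap']
  have hrr : Zid_r X Ut s = (zt X Ut s).re * (deriv (zt X Ut) s).im
      - (zt X Ut s).im * (deriv (zt X Ut) s).re := rfl
  rw [← hrr]
  linear_combination (-4 * Zid_r X Ut s) * hD - hS + hL4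

theorem zid {X : ℝ → ℝ} (hX : Tri X) (Ut at' : ℝ → ℝ) (hU : ContDiff ℝ 1 Ut) (ha : ContDiff ℝ 1 at')
    (hUp : ∀ s, Ut (s + 6 * Real.pi) = Ut s) (hap : ∀ s, at' (s + 6 * Real.pi) = at' s)
    (hjump : ∀ s, at' (s + 2 * Real.pi) - at' s = Ut s * Real.sin (2 * dd X s)) :
    ∫ s in (0 : ℝ)..(6 * Real.pi),
      (Kf (dd X s) * deriv Ut s ^ 2 / deriv (ps X) s - 4 * Lf (dd X s) * Ut s ^ 2 * deriv (ps X) s
        + 2 * at' (s + 2 * Real.pi) * deriv at' s) = EE X (et X Ut) := by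
  have hp := zt_per hX hUp
  have hp' : ∀ t, deriv (zt X Ut) (t + 2 * Real.pi) = deriv (zt X Ut) t := by
    intro t
    have h1 : (fun t => zt X Ut (t + 2 * Real.pi)) = zt X Ut := funext hp
    have h2 := deriv_comp_add_const (zt X Ut) (2 * Real.pi) t
    rw [h1] at h2
    exact h2.symm
  have h0 : ∀ s, Real.sin (2 * dd X s) * Ut s
      + Real.sin (2 * dd X (s + 2 * Real.pi)) * Ut (s + 2 * Real.pi)
      + Real.sin (2 * dd X (s + 4 * Real.pi)) * Ut (s + 4 * Real.pi) = 0 := by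
    intro s
    have j0 := hjump s
    have j1 := hjump (s + 2 * Real.pi)
    have j2 := hjump (s + 4 * Real.pi)
    have e1 : s + 2 * Real.pi + 2 * Real.pi = s + 4 * Real.pi := by ring
    have e2 : s + 4 * Real.pi + 2 * Real.pi = s + 6 * Real.pi := by ring
    rw [e1] at j1
    rw [e2, hap] at j2
    linear_combination -j0 - j1 - j2
  have hUN : ∀ t, Ut t = -2 * Zid_N X Ut t := by
    intro t
    have h1 := zt_spec hX hUp h0 t
    have h2 : 2 * ps X t = X (t + 2 * Real.pi) + X t := by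
      unfold ps
      ring
    rw [h2] at h1
    have h3 : ip (zt X Ut t) (en (X (t + 2 * Real.pi) + X t)) = Zid_N X Ut t := rfl
    rw [h3] at h1
    linarith
  obtain ⟨F, hF⟩ : ∃ F : ℝ → ℝ, F = fun s => Kf (dd X s) * deriv Ut s ^ 2 / deriv (ps X) s
      - 4 * Lf (dd X s) * Ut s ^ 2 * deriv (ps X) s
      + 2 * at' (s + 2 * Real.pi) * deriv at' s := ⟨_, rfl⟩
  -- continuity
  have cX : Continuous X := hX.smooth.continuous
  have cX' : Continuous (deriv X) := hX.smooth.continuous_deriv le_rfl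
  have cU : Continuous Ut := hU.continuous
  have cU' : Continuous (deriv Ut) := hU.continuous_deriv le_rfl
  have ca : Continuous at' := ha.continuous
  have ca' : Continuous (deriv at') := ha.continuous_deriv le_rfl
  have cz : Continuous (zt X Ut) := (zt_C1 hX hU).continuous
  have cz' : Continuous (deriv (zt X Ut)) := (zt_C1 hX hU).continuous_deriv le_rfl
  have cs : Continuous fun t : ℝ => t + 2 * Real.pi := continuous_add_const _
  have cXs : Continuous fun t => X (t + 2 * Real.pi) := cX.comp cs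
  have cXs' : Continuous fun t => deriv X (t + 2 * Real.pi) := cX'.comp cs
  have cas : Continuous fun t => at' (t + 2 * Real.pi) := ca.comp cs
  have cas' : Continuous fun t => deriv at' (t + 2 * Real.pi) := ca'.comp cs
  have cdd : Continuous (dd X) := (cXs.sub cX).div_const 2
  have czr : Continuous fun t => (zt X Ut t).re := Complex.continuous_re.comp cz
  have czi : Continuous fun t => (zt X Ut t).im := Complex.continuous_im.comp cz
  have czr' : Continuous fun t => (deriv (zt X Ut) t).re := Complex.continuous_re.comp cz'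
  have czi' : Continuous fun t => (deriv (zt X Ut) t).im := Complex.continuous_im.comp cz'
  have ccos : Continuous fun t => Real.cos (X (t + 2 * Real.pi) + X t) :=
    Real.continuous_cos.comp (cXs.add cX)
  have csin : Continuous fun t => Real.sin (X (t + 2 * Real.pi) + X t) :=
    Real.continuous_sin.comp (cXs.add cX)
  have cN : Continuous (Zid_N X Ut) := (czr.mul ccos).add (czi.mul csin)
  have cT : Continuous (Zid_T X Ut) := (czr.neg.mul csin).add (czi.mul ccos)
  have cc : Continuous (Zid_c X Ut) := (czr'.mul ccos).add (czi'.mul csin)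
  have ce : Continuous (Zid_e X Ut) := (czr'.neg.mul csin).add (czi'.mul ccos)
  have cps : Continuous (deriv (ps X)) := by
    have h1 : deriv (ps X) = fun t => (deriv X (t + 2 * Real.pi) + deriv X t) / 2 :=
      funext (Zid_dps hX)
    rw [h1]
    exact (cXs'.add cX').div_const 2
  have hps : ∀ t, deriv (ps X) t ≠ 0 := by
    intro t
    rw [Zid_dps hX]
    have := hX.pos (t + 2 * Real.pi)
    have := hX.pos t
    positivity
  have cK : Continuous fun t => Kf (dd X t) := by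
    unfold Kf
    exact (cdd.sub ((Real.continuous_sin.comp (cdd.const_mul 4)).div_const 4)).div_const 2
  have cL : Continuous fun t => Lf (dd X t) := by
    unfold Lf
    exact (cdd.add ((Real.continuous_sin.comp (cdd.const_mul 4)).div_const 4)).div_const 2
  have cF : Continuous F := by
    rw [hF]
    exact (((cK.mul (cU'.pow 2)).div cps hps).sub
      (((cL.const_mul 4).mul (cU.pow 2)).mul cps)).add ((cas.const_mul 2).mul ca')
  have cv : Continuous fun t => deriv X (t + 2 * Real.pi) + deriv X t := cXs'.add cX'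
  have cg : Continuous (Zid_gd X Ut at') :=
    ((cas'.mul ca).add (cas.mul ca')).add
      ((((((cXs'.sub cX').div_const 2).mul cN).mul cT).add
        ((cdd.mul (cc.add (cv.mul cT))).mul cT)).add
        ((cdd.mul cN).mul (ce.sub (cv.mul cN))) |>.const_mul 4)
  have hint : ∫ s in (0 : ℝ)..(6 * Real.pi), Zid_gd X Ut at' s =
      Zid_g X Ut at' (6 * Real.pi) - Zid_g X Ut at' 0 :=
    intervalIntegral.integral_eq_sub_of_hasDerivAt (fun t _ => Zid_hg hX hU ha t)
      (cg.intervalIntegrable _ _)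
  have hgp : Zid_g X Ut at' (6 * Real.pi) = Zid_g X Ut at' 0 := by
    have e0 : 6 * Real.pi = 0 + 6 * Real.pi := (zero_add _).symm
    have e5 : 0 + 6 * Real.pi + 2 * Real.pi = 0 + 2 * Real.pi + 6 * Real.pi := by ring
    have hN6 : Zid_N X Ut (0 + 6 * Real.pi) = Zid_N X Ut 0 := by
      have h1 := hUN (0 + 6 * Real.pi)
      rw [hUp, hUN 0] at h1
      linarith
    have hz6 : zt X Ut (0 + 6 * Real.pi) = zt X Ut 0 := by
      have e6 : 0 + 6 * Real.pi = 0 + 2 * Real.pi + 2 * Real.pi + 2 * Real.pi := by ring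
      rw [e6, hp, hp, hp]
    have hT6 : Zid_T X Ut (0 + 6 * Real.pi) = Zid_T X Ut 0 := by
      unfold Zid_T
      rw [e5, hX.per, hX.per, hz6]
      have e7 : X (0 + 2 * Real.pi) + 2 * Real.pi + (X 0 + 2 * Real.pi) =
          X (0 + 2 * Real.pi) + X 0 + 2 * Real.pi + 2 * Real.pi := by ring
      rw [e7, Real.cos_add_two_pi, Real.cos_add_two_pi, Real.sin_add_two_pi, Real.sin_add_two_pi]
    have hD6 : dd X (0 + 6 * Real.pi) = dd X 0 := by
      unfold dd
      rw [e5, hX.per, hX.per]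
      ring
    rw [e0]
    unfold Zid_g
    rw [hN6, hT6, hD6, e5, hap, hap]
  have hH : Continuous fun t => F t - Zid_gd X Ut at' t := cF.sub cg
  have h1 : ∫ s in (0 : ℝ)..(6 * Real.pi), F s =
      ∫ s in (0 : ℝ)..(6 * Real.pi), (F s - Zid_gd X Ut at' s) := by
    rw [intervalIntegral.integral_sub (cF.intervalIntegrable _ _) (cg.intervalIntegrable _ _), hint,
      hgp, sub_self, sub_zero]
  have h2 : ∫ s in (0 : ℝ)..(6 * Real.pi), F s = EE X (et X Ut) := by
    rw [h1, Zid_three _ hH]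
    unfold EE
    refine intervalIntegral.integral_congr fun s _ => ?_
    refine Zid_sum hX hU ha hap hp hp' hjump hUN s (fun t => F t - Zid_gd X Ut at' t) (fun t => ?_)
    rw [hF]
    exact Zid_pt hX hU hp hp' hUN t
  rw [hF] at h2
  exact h2

end Pool.Agent.H1.BP
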