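import Pool.Agent.H1.BP.Hop
import Pool.Agent.H1.BP.Ptw
import Pool.Agent.H1.BP.IdB
import Pool.Agent.H1.BP.Lip
import Pool.Agent.H1.BP.Ang
import Pool.Agent.H1.BP.Prm
import Pool.Agent.H1.BP.Cat
import Pool.Agent.H1.BP.Zid
import Pool.Agent.H1.BP.End1

set_option autoImplicit false
open Set MeasureTheory

namespace Pool.Agent.H1.BP

theorem core_en_eq (s : ℝ) : en s = Complex.exp (Complex.I * s) := by
  apply Complex.ext
  · simp [en, mul_comm Complex.I, Complex.exp_ofReal_mul_I_re]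
  · simp [en, mul_comm Complex.I, Complex.exp_ofReal_mul_I_im]

theorem core_en_ne (s : ℝ) : en s ≠ 0 := by
  rw [core_en_eq]; exact Complex.exp_ne_zero _

theorem core_en_C1 : ContDiff ℝ 1 en := by
  have h : en = fun s : ℝ => Complex.exp (Complex.I * s) := funext core_en_eq
  rw [h]
  have h1 : ContDiff ℝ 1 (fun s : ℝ => (s : ℂ)) := Complex.ofRealCLM.contDiff
  exact (contDiff_const.mul h1).cexp

theorem core_et_C1 {X : ℝ → ℝ} (hX : Tri X) {Ut : ℝ → ℝ} (hU : ContDiff ℝ 1 Ut) :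
    ContDiff ℝ 1 (et X Ut) := by
  have h1 := zt_C1 hX hU
  have h2 : ContDiff ℝ 1 (fun s => (starRingEnd ℂ) (zt X Ut s)) :=
    Complex.conjCLE.contDiff.comp h1
  exact core_en_C1.mul h2

theorem core_en_per (s : ℝ) : en (s + 2 * Real.pi) = en s := by
  simp [en, Real.cos_add_two_pi, Real.sin_add_two_pi]

theorem core_et_per {X : ℝ → ℝ} (hX : Tri X) {Ut : ℝ → ℝ} (hU : ∀ s, Ut (s + 6 * Real.pi) = Ut s) (s : ℝ) :
    et X Ut (s + 2 * Real.pi) = et X Ut s := by
  simp only [et, core_en_per, zt_per hX hU]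

/-- the lifted field on the bounces -/
noncomputable def Uv (h X : ℝ → ℝ) (t : Fin 3 → ℝ) (s : ℝ) : ℝ := UU h (t 0) (t 1) (t 2) (ps X s)

theorem core_lin (h X : ℝ → ℝ) (t : Fin 3 → ℝ) (s : ℝ) :
    ∑ i, (t i : ℂ) * et X (Uv h X (Pi.single i 1)) s = et X (Uv h X t) s := by
  rw [Fin.sum_univ_three]
  have e0 : ∀ s, Uv h X t s = t 0 * Uv h X (Pi.single 0 1) s + t 1 * Uv h X (Pi.single 1 1) s
      + t 2 * Uv h X (Pi.single 2 1) s := by
    intro s
    simp only [Uv, UU, on, ot, Pi.single_apply]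
    simp
    ring
  simp only [et, zt, map_mul, map_add, Complex.conj_ofReal]
  rw [e0 s, e0 (s + 2 * Real.pi), e0 (s + 4 * Real.pi)]
  push_cast
  ring

theorem core_UU_C1 {h : ℝ → ℝ} (hs : Supp h) (al o1 o2 : ℝ) : ContDiff ℝ 1 (UU h al o1 o2) := by
  have h1 : ContDiff ℝ 1 h := hs.smooth.of_le (by norm_num)
  have h2 : ContDiff ℝ 1 (deriv h) := by
    have := hs.smooth
    rw [show (2 : WithTop ℕ∞) = 1 + 1 by norm_num] at this
    exact (contDiff_succ_iff_deriv.1 this).2.2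
  have h3 : ContDiff ℝ 1 (on o1 o2) := by
    unfold on
    exact (contDiff_const.mul Real.contDiff_cos).add (contDiff_const.mul Real.contDiff_sin)
  have h4 : ContDiff ℝ 1 (ot o1 o2) := by
    unfold ot
    exact (contDiff_const.mul Real.contDiff_cos).sub (contDiff_const.mul Real.contDiff_sin)
  unfold UU
  exact (((contDiff_const.mul h1).mul h2).sub ((contDiff_const.mul h2).mul h3)).sub
    ((contDiff_const.mul h1).mul h4)

theorem core_ps_C1 {X : ℝ → ℝ} (hX : Tri X) : ContDiff ℝ 1 (ps X) := by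
  unfold ps
  have h1 := hX.smooth
  have h2 : ContDiff ℝ 1 (fun s => X (s + 2 * Real.pi)) := h1.comp (contDiff_id.add contDiff_const)
  exact (h2.add h1).div_const 2

theorem core_ps_per {X : ℝ → ℝ} (hX : Tri X) (s : ℝ) : ps X (s + 6 * Real.pi) = ps X s + 2 * Real.pi := by
  unfold ps
  rw [show s + 6 * Real.pi + 2 * Real.pi = (s + 2 * Real.pi) + 6 * Real.pi by ring, hX.per, hX.per]
  ring

theorem core_surj {g : ℝ → ℝ} (hc : Continuous g) (hp : ∀ s, g (s + 6 * Real.pi) = g s + 2 * Real.pi)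
    (v : ℝ) : ∃ s, g s = v := by
  have hn : ∀ n : ℕ, g (6 * Real.pi * n) = g 0 + 2 * Real.pi * n := by
    intro n
    induction n with
    | zero => simp
    | succ n ih =>
      push_cast
      rw [show 6 * Real.pi * ((n : ℝ) + 1) = 6 * Real.pi * n + 6 * Real.pi by ring, hp, ih]; ring
  have hm : ∀ n : ℕ, g (-(6 * Real.pi * n)) = g 0 - 2 * Real.pi * n := by
    intro n
    induction n with
    | zero => simp
    | succ n ih =>
      have := hp (-(6 * Real.pi * ((n : ℝ) + 1)))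
      rw [show -(6 * Real.pi * ((n : ℝ) + 1)) + 6 * Real.pi = -(6 * Real.pi * n) by ring, ih] at this
      push_cast
      linarith
  obtain ⟨n, hn1⟩ := exists_nat_gt (|v - g 0| / (2 * Real.pi))
  have hpi : 0 < 2 * Real.pi := by positivity
  rw [div_lt_iff₀ hpi] at hn1
  have h1 := abs_lt.1 hn1
  have h2 : v ∈ Icc (g (-(6 * Real.pi * n))) (g (6 * Real.pi * n)) := by
    rw [hn, hm]; constructor <;> nlinarith [h1.1, h1.2]
  have h3 : -(6 * Real.pi * (n : ℝ)) ≤ 6 * Real.pi * n := by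
    have : 0 ≤ 6 * Real.pi * (n : ℝ) := by positivity
    linarith
  obtain ⟨s, -, hs⟩ := intermediate_value_Icc h3 hc.continuousOn h2
  exact ⟨s, hs⟩

theorem core_p0_C1 {h : ℝ → ℝ} (hs : Supp h) {f : ℝ → ℝ} (hf : ContDiff ℝ 1 f) :
    ContDiff ℝ 1 (fun x => p0 h x (f x)) := by
  have h1 : ContDiff ℝ 1 h := hs.smooth.of_le (by norm_num)
  have h2 : ContDiff ℝ 1 (deriv h) := by
    have := hs.smooth
    rw [show (2 : WithTop ℕ∞) = 1 + 1 by norm_num] at this
    exact (contDiff_succ_iff_deriv.1 this).2.2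
  have h3 : ContDiff ℝ 1 (fun x => (x + f x) / 2) := (contDiff_id.add hf).div_const 2
  have h4 : ContDiff ℝ 1 (fun x => (f x - x) / 2) := (hf.sub contDiff_id).div_const 2
  unfold p0
  exact ((h1.comp h3).mul (Real.contDiff_cos.comp h4)).sub ((h2.comp h3).mul (Real.contDiff_sin.comp h4))

theorem core_aa_C1 {h : ℝ → ℝ} (hs : Supp h) {f : ℝ → ℝ} (hf : ContDiff ℝ 1 f) (al o1 o2 : ℝ) :
    ContDiff ℝ 1 (aa h f al o1 o2) := by
  have h1 := core_p0_C1 hs hf
  have h3 : ContDiff ℝ 1 (on o1 o2) := by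
    unfold on
    exact (contDiff_const.mul Real.contDiff_cos).add (contDiff_const.mul Real.contDiff_sin)
  unfold aa
  exact (contDiff_const.mul (h1.pow 2)).sub ((contDiff_const.mul h1).mul h3)

theorem core_hder_per {h : ℝ → ℝ} (hs : Supp h) (x : ℝ) : deriv h (x + 2 * Real.pi) = deriv h x := by
  have : (fun y => h (y + 2 * Real.pi)) = h := funext hs.per
  have h2 : deriv (fun y => h (y + 2 * Real.pi)) x = deriv h (x + 2 * Real.pi) :=
    deriv_comp_add_const h (2 * Real.pi) x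
  rw [← h2, this]

theorem core_p0_per {h : ℝ → ℝ} (hs : Supp h) (x y : ℝ) :
    p0 h (x + 2 * Real.pi) (y + 2 * Real.pi) = p0 h x y := by
  unfold p0
  rw [show (x + 2 * Real.pi + (y + 2 * Real.pi)) / 2 = (x + y) / 2 + 2 * Real.pi by ring,
    show (y + 2 * Real.pi - (x + 2 * Real.pi)) / 2 = (y - x) / 2 by ring, hs.per, core_hder_per hs]

theorem core_aa_per {h : ℝ → ℝ} (hs : Supp h) {f : ℝ → ℝ} (hf : Circle h f) (al o1 o2 x : ℝ) :
    aa h f al o1 o2 (x + 2 * Real.pi) = aa h f al o1 o2 x := by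
  unfold aa on
  rw [hf.per, core_p0_per hs, Real.cos_add_two_pi, Real.sin_add_two_pi]

/-- **The core theorem.** If every point `(x, y)` below an invariant circle `f` of 3-periodic orbits lies on an
invariant circle, the support function is, up to a translation, the one of an ellipse. -/
theorem core {h : ℝ → ℝ} (hs : Supp h) {f : ℝ → ℝ} (hf : Circle h f)
    (h3 : ∀ x, f (f (f x)) = x + 2 * Real.pi)
    (hfill : ∀ x y, x < y → y < f x → ∃ F, Circle h F ∧ F x = y) :
    ∃ c1 c2 C0 C1 C2 : ℝ, ∀ s, (h s - (c1 * Real.cos s + c2 * Real.sin s)) ^ 2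
      = C0 + C1 * Real.cos (2 * s) + C2 * Real.sin (2 * s) := by
  obtain ⟨hfC, hfp⟩ := circle_C1 hs hf h3
  obtain ⟨X, hX, hXf⟩ := tri_exists f hfC hfp h3 (circle_gap hs hf h3)
  have hps := core_ps_C1 hX
  have hUC : ∀ t : Fin 3 → ℝ, ContDiff ℝ 1 (Uv h X t) := fun t => (core_UU_C1 hs _ _ _).comp hps
  have hUper : ∀ (al o1 o2 x : ℝ), UU h al o1 o2 (x + 2 * Real.pi) = UU h al o1 o2 x := by
    intro al o1 o2 x
    simp only [UU, on, ot, hs.per, core_hder_per hs, Real.cos_add_two_pi, Real.sin_add_two_pi]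
  have hUp : ∀ (t : Fin 3 → ℝ) (s : ℝ), Uv h X t (s + 6 * Real.pi) = Uv h X t s := by
    intro t s
    simp only [Uv, core_ps_per hX, hUper]
  have haC : ∀ t : Fin 3 → ℝ, ContDiff ℝ 1 (fun s => aa h f (t 0) (t 1) (t 2) (X s)) :=
    fun t => (core_aa_C1 hs hfC _ _ _).comp hX.smooth
  have hap : ∀ (t : Fin 3 → ℝ) (s : ℝ),
      aa h f (t 0) (t 1) (t 2) (X (s + 6 * Real.pi)) = aa h f (t 0) (t 1) (t 2) (X s) := by
    intro t s
    rw [hX.per, core_aa_per hs hf]
  have hjump : ∀ (t : Fin 3 → ℝ) (s : ℝ),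
      aa h f (t 0) (t 1) (t 2) (X (s + 2 * Real.pi)) - aa h f (t 0) (t 1) (t 2) (X s)
        = Uv h X t s * Real.sin (2 * dd X s) := by
    intro t s
    have := aa_jump hs hf (t 0) (t 1) (t 2) (X s)
    rw [← hXf] at this
    rw [this]
    unfold Uv ps dd
    rw [add_comm (X s), show 2 * ((X (s + 2 * Real.pi) - X s) / 2) = X (s + 2 * Real.pi) - X s by ring]
  have hE : ∀ t : Fin 3 → ℝ, EE X (fun s => ∑ i, (t i : ℂ) * et X (Uv h X (Pi.single i 1)) s) ≤ 0 := by
    intro t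
    have e1 : (fun s => ∑ i, (t i : ℂ) * et X (Uv h X (Pi.single i 1)) s) = et X (Uv h X t) :=
      funext (core_lin h X t)
    rw [e1, ← zid hX (Uv h X t) (fun s => aa h f (t 0) (t 1) (t 2) (X s)) (hUC t) (haC t) (hUp t) (hap t)
      (hjump t)]
    have e2 := idB hs hf hX hXf (t 0) (t 1) (t 2)
    have e3 := hopf hs hf hfill (t 0) (t 1) (t 2)
    have e4 : (∫ s in (0 : ℝ)..(6 * Real.pi),
      (Kf (dd X s) * deriv (Uv h X t) s ^ 2 / deriv (ps X) s
        - 4 * Lf (dd X s) * Uv h X t s ^ 2 * deriv (ps X) s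
        + 2 * aa h f (t 0) (t 1) (t 2) (X (s + 2 * Real.pi))
          * deriv (fun s => aa h f (t 0) (t 1) (t 2) (X s)) s)) = 8 * QQ h f (t 0) (t 1) (t 2) := by
      rw [e2]
      rfl
    rw [e4]
    linarith
  obtain ⟨t, ht, c, hc⟩ := cat hX (fun i => et X (Uv h X (Pi.single i 1))) (fun i => core_et_C1 hX (hUC _))
    (fun i s => core_et_per hX (hUp _) s) hE
  have hz : ∀ s, zt X (Uv h X t) s = (starRingEnd ℂ) c := by
    intro s
    have h1 := hc s
    rw [core_lin, ← core_en_eq] at h1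
    unfold et at h1
    rw [mul_comm c] at h1
    have h2 := mul_left_cancel₀ (core_en_ne s) h1
    rw [← h2, Complex.conj_conj]
  have h0 : ∀ s, Real.sin (2 * dd X s) * Uv h X t s
      + Real.sin (2 * dd X (s + 2 * Real.pi)) * Uv h X t (s + 2 * Real.pi)
      + Real.sin (2 * dd X (s + 4 * Real.pi)) * Uv h X t (s + 4 * Real.pi) = 0 := by
    intro s
    have j1 := hjump t s
    have j2 := hjump t (s + 2 * Real.pi)
    have j3 := hjump t (s + 4 * Real.pi)
    have j4 := hap t s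
    rw [show s + 2 * Real.pi + 2 * Real.pi = s + 4 * Real.pi by ring] at j2
    rw [show s + 4 * Real.pi + 2 * Real.pi = s + 6 * Real.pi by ring] at j3
    linarith
  refine end1 hs (t 0) (t 1) (t 2) ?_ ((starRingEnd ℂ) c) ?_
  · rintro ⟨a0, a1, a2⟩
    apply ht
    funext i
    fin_cases i
    · exact a0
    · exact a1
    · exact a2
  · intro v
    obtain ⟨s, hv⟩ := core_surj hps.continuous (core_ps_per hX) v
    have h1 := zt_spec hX (hUp t) h0 s
    rw [hz, hv] at h1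
    have h2 : Uv h X t s = UU h (t 0) (t 1) (t 2) v := by unfold Uv; rw [hv]
    rw [← h2]
    linarith

end Pool.Agent.H1.BP
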