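import Mathlib

/-
MP_85545d : rigidity of billiards whose invariant circles fill the region up to rotation number 1/3.
Definitions.  See team-store H1_BIL.md.
-/

set_option autoImplicit false

namespace Pool.Agent.H1.BP

open Set

noncomputable section

/-- `h` is the support function of a convex body whose boundary has positive and finite curvature. -/
structure Supp (h : ℝ → ℝ) : Prop where
  smooth : ContDiff ℝ 2 h
  per : ∀ x, h (x + 2 * Real.pi) = h x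
  curv : ∀ x, 0 < h x + deriv (deriv h) x

/-- the signed distance of the incoming line (normal angle `x`) at the bounce between the lines with normal
angles `x` and `y`; this is `- S_x` -/
def p0 (h : ℝ → ℝ) (x y : ℝ) : ℝ :=
  h ((x + y) / 2) * Real.cos ((y - x) / 2) - deriv h ((x + y) / 2) * Real.sin ((y - x) / 2)

/-- the signed distance of the outgoing line (normal angle `y`); this is `S_y` -/
def p1 (h : ℝ → ℝ) (x y : ℝ) : ℝ :=
  h ((x + y) / 2) * Real.cos ((y - x) / 2) + deriv h ((x + y) / 2) * Real.sin ((y - x) / 2)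

/-- the generating function -/
def SS (h : ℝ → ℝ) (x y : ℝ) : ℝ := 2 * h ((x + y) / 2) * Real.sin ((y - x) / 2)

/-- `S_xy` -/
def R (h : ℝ → ℝ) (x y : ℝ) : ℝ :=
  (h ((x + y) / 2) + deriv (deriv h) ((x + y) / 2)) * Real.sin ((y - x) / 2) / 2

/-- `S_xx` -/
def Sxx (h : ℝ → ℝ) (x y : ℝ) : ℝ :=
  (deriv (deriv h) ((x + y) / 2) - h ((x + y) / 2)) * Real.sin ((y - x) / 2) / 2
    - deriv h ((x + y) / 2) * Real.cos ((y - x) / 2)

/-- `S_yy` -/
def Syy (h : ℝ → ℝ) (x y : ℝ) : ℝ :=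
  (deriv (deriv h) ((x + y) / 2) - h ((x + y) / 2)) * Real.sin ((y - x) / 2) / 2
    + deriv h ((x + y) / 2) * Real.cos ((y - x) / 2)

/-- an invariant circle of the billiard map, as the (lifted) circle map `f` on normal angles of lines -/
structure Circle (h f : ℝ → ℝ) : Prop where
  cont : Continuous f
  mono : StrictMono f
  per : ∀ x, f (x + 2 * Real.pi) = f x + 2 * Real.pi
  lo : ∀ x, x < f x
  hi : ∀ x, f x < x + 2 * Real.pi
  inv : ∀ x, p1 h x (f x) = p0 h (f x) (f (f x))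

/-- `o . n(x)` for `o = (o1, o2)` -/
def on (o1 o2 x : ℝ) : ℝ := o1 * Real.cos x + o2 * Real.sin x

/-- `o . t(x)` -/
def ot (o1 o2 x : ℝ) : ℝ := o2 * Real.cos x - o1 * Real.sin x

/-- the test field `nu = al p - o.n(x)` at the incoming line -/
def nu0 (h : ℝ → ℝ) (al o1 o2 x y : ℝ) : ℝ := al * p0 h x y - on o1 o2 x

/-- the test field at the outgoing line -/
def nu1 (h : ℝ → ℝ) (al o1 o2 x y : ℝ) : ℝ := al * p1 h x y - on o1 o2 y

/-- the second variation density (without the factor `S_xy` of the invariant measure) -/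
def qd (h : ℝ → ℝ) (al o1 o2 x y : ℝ) : ℝ :=
  Sxx h x y * nu0 h al o1 o2 x y ^ 2 + 2 * R h x y * nu0 h al o1 o2 x y * nu1 h al o1 o2 x y
    + Syy h x y * nu1 h al o1 o2 x y ^ 2

/-- the Hopf form of the region `x < y < f x` -/
def QQ (h f : ℝ → ℝ) (al o1 o2 : ℝ) : ℝ :=
  ∫ x in (0 : ℝ)..(2 * Real.pi), ∫ y in x..(f x), qd h al o1 o2 x y * R h x y

/-- `u = al h^2 - 2 h o.n` -/
def uu (h : ℝ → ℝ) (al o1 o2 x : ℝ) : ℝ := al * h x ^ 2 - 2 * h x * on o1 o2 x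

/-- `U = u'` -/
def UU (h : ℝ → ℝ) (al o1 o2 x : ℝ) : ℝ :=
  2 * al * h x * deriv h x - 2 * deriv h x * on o1 o2 x - 2 * h x * ot o1 o2 x

/-- `a = al g^2 - 2 g o.n` on the circle `f`, `g x = p0 x (f x)` -/
def aa (h f : ℝ → ℝ) (al o1 o2 x : ℝ) : ℝ :=
  al * p0 h x (f x) ^ 2 - 2 * p0 h x (f x) * on o1 o2 x

/-- cross product and scalar product of complex numbers -/
def cr (z w : ℂ) : ℝ := z.re * w.im - z.im * w.re
def ip (z w : ℂ) : ℝ := z.re * w.re + z.im * w.im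

/-- the symmetric matrix `(a b; b c)` applied to `z` -/
def app (a b c : ℝ) (z : ℂ) : ℂ := ⟨a * z.re + b * z.im, b * z.re + c * z.im⟩

/-- `n(x) = e^{ix}` -/
def en (x : ℝ) : ℂ := ⟨Real.cos x, Real.sin x⟩

/-- A family of triangles of a circle of 3-periodic orbits, parametrised by `s = x_0 + x_1 + x_2`:
`x_k(s) = X (s + 2 pi k)`. -/
structure Tri (X : ℝ → ℝ) : Prop where
  smooth : ContDiff ℝ 1 X
  pos : ∀ s, 0 < deriv X s
  per : ∀ s, X (s + 6 * Real.pi) = X s + 2 * Real.pi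
  sum : ∀ s, X s + X (s + 2 * Real.pi) + X (s + 4 * Real.pi) = s
  gap : ∀ s, X (s + 2 * Real.pi) < X s + Real.pi

/-- half opening angle of the bounce between `x_0` and `x_1` -/
def dd (X : ℝ → ℝ) (s : ℝ) : ℝ := (X (s + 2 * Real.pi) - X s) / 2

/-- normal angle of the bounce between `x_0` and `x_1` -/
def ps (X : ℝ → ℝ) (s : ℝ) : ℝ := (X (s + 2 * Real.pi) + X s) / 2

/-- `A(d) = 2 d - sin(4 d)/2` -/
def Af (d : ℝ) : ℝ := 2 * d - Real.sin (4 * d) / 2

/-- `sin 2 d_0 sin 2 d_1 sin 2 d_2` -/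
def sg (X : ℝ → ℝ) (s : ℝ) : ℝ :=
  Real.sin (2 * dd X s) * Real.sin (2 * dd X (s + 2 * Real.pi)) * Real.sin (2 * dd X (s + 4 * Real.pi))

/-- weight at the vertex `x_0`: the opposite edge is the one between `x_1` and `x_2` -/
def Av (X : ℝ → ℝ) (s : ℝ) : ℝ := Af (dd X (s + 2 * Real.pi))

/-- `(x_1' + x_2')/2`, the speed of the bounce angle of the opposite edge of `x_0` -/
def wv (X : ℝ → ℝ) (s : ℝ) : ℝ := (deriv X (s + 2 * Real.pi) + deriv X (s + 4 * Real.pi)) / 2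

/-- the energy density contributed by the vertex `x_0`; `w = eta' - i eta` -/
def ed (X : ℝ → ℝ) (s : ℝ) (w : ℂ) : ℝ := Av X s * ip w (en (X s)) ^ 2 / wv X s

/-- the energy of a loop `eta` -/
def EE (X : ℝ → ℝ) (eta : ℝ → ℂ) : ℝ :=
  ∫ s in (0 : ℝ)..(2 * Real.pi),
    (ed X s (deriv eta s - Complex.I * eta s)
      + ed X (s + 2 * Real.pi) (deriv eta s - Complex.I * eta s)
      + ed X (s + 4 * Real.pi) (deriv eta s - Complex.I * eta s)
      + 4 * Real.pi * cr (eta s) (deriv eta s) - 4 * Real.pi * Complex.normSq (eta s))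

/-- the matrix `M = sum A_j E_j E_j^T` -/
def m11 (X : ℝ → ℝ) (s : ℝ) : ℝ :=
  Av X s * Real.cos (X s) ^ 2 + Av X (s + 2 * Real.pi) * Real.cos (X (s + 2 * Real.pi)) ^ 2
    + Av X (s + 4 * Real.pi) * Real.cos (X (s + 4 * Real.pi)) ^ 2
def m12 (X : ℝ → ℝ) (s : ℝ) : ℝ :=
  Av X s * Real.cos (X s) * Real.sin (X s)
    + Av X (s + 2 * Real.pi) * Real.cos (X (s + 2 * Real.pi)) * Real.sin (X (s + 2 * Real.pi))
    + Av X (s + 4 * Real.pi) * Real.cos (X (s + 4 * Real.pi)) * Real.sin (X (s + 4 * Real.pi))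
def m22 (X : ℝ → ℝ) (s : ℝ) : ℝ :=
  Av X s * Real.sin (X s) ^ 2 + Av X (s + 2 * Real.pi) * Real.sin (X (s + 2 * Real.pi)) ^ 2
    + Av X (s + 4 * Real.pi) * Real.sin (X (s + 4 * Real.pi)) ^ 2
/-- its determinant -/
def Dt (X : ℝ → ℝ) (s : ℝ) : ℝ := m11 X s * m22 X s - m12 X s ^ 2

/-- the entries of `g = M / sqrt (det M)` -/
def g11 (X : ℝ → ℝ) (s : ℝ) : ℝ := m11 X s / Real.sqrt (Dt X s)
def g12 (X : ℝ → ℝ) (s : ℝ) : ℝ := m12 X s / Real.sqrt (Dt X s)
def g22 (X : ℝ → ℝ) (s : ℝ) : ℝ := m22 X s / Real.sqrt (Dt X s)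

/-- the interpolating loop `zeta` of a function `Ut` on the bounces (`Ut s = U (psi_0 (s))`) -/
def zt (X Ut : ℝ → ℝ) (s : ℝ) : ℂ :=
  ((1 / (4 * sg X s) : ℝ) : ℂ) *
    (((Real.sin (4 * dd X s) * Ut s : ℝ) : ℂ) * en (2 * ps X s)
      + ((Real.sin (4 * dd X (s + 2 * Real.pi)) * Ut (s + 2 * Real.pi) : ℝ) : ℂ)
          * en (2 * ps X (s + 2 * Real.pi))
      + ((Real.sin (4 * dd X (s + 4 * Real.pi)) * Ut (s + 4 * Real.pi) : ℝ) : ℂ)
          * en (2 * ps X (s + 4 * Real.pi)))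

end

end Pool.Agent.H1.BP
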