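import Pool.Agent.H1.BP.Defs

/-
ROW Der.  Elementary calculus of the generating function.  All functions of (x,y) are evaluated at psi=(x+y)/2,
delta=(y-x)/2.  h is C^2, so h, deriv h, deriv (deriv h) are continuous, h and deriv h have derivatives (hs.smooth).
Proofs: chain rule + product rule, then ring.  Periodicity: deriv h and deriv (deriv h) are 2 pi periodic
(Function.Periodic.deriv or deriv_comp_add_const).  Note (x+2pi+(y+2pi))/2 = (x+y)/2 + 2pi.
-/

set_option autoImplicit false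
open Set

namespace Pool.Agent.H1.BP

variable {h : ℝ → ℝ}

private theorem per_deriv {u : ℝ → ℝ} {c : ℝ} (hu : ∀ x, u (x + c) = u x) (x : ℝ) :
    deriv u (x + c) = deriv u x := by
  have h1 : (fun x => u (x + c)) = u := funext hu
  have h2 := deriv_comp_add_const u c x
  rw [h1] at h2
  exact h2.symm

theorem d1_per (hs : Supp h) (x : ℝ) : deriv h (x + 2 * Real.pi) = deriv h x :=
  per_deriv hs.per x
theorem d2_per (hs : Supp h) (x : ℝ) : deriv (deriv h) (x + 2 * Real.pi) = deriv (deriv h) x :=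
  per_deriv (d1_per hs) x
theorem hd0 (hs : Supp h) (x : ℝ) : HasDerivAt h (deriv h x) x :=
  (hs.smooth.differentiable (by norm_num) x).hasDerivAt

private theorem cd1 (hs : Supp h) : ContDiff ℝ 1 (deriv h) := by
  have h1 : ContDiff ℝ (1 + 1) h := by
    have h2 := hs.smooth
    have h3 : ((1 : WithTop ℕ∞) + 1) = 2 := by norm_num
    rw [h3]; exact h2
  exact (contDiff_succ_iff_deriv.1 h1).2.2

theorem hd1 (hs : Supp h) (x : ℝ) : HasDerivAt (deriv h) (deriv (deriv h) x) x :=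
  ((cd1 hs).differentiable (by norm_num) x).hasDerivAt
theorem c0 (hs : Supp h) : Continuous h := hs.smooth.continuous
theorem c1 (hs : Supp h) : Continuous (deriv h) := (cd1 hs).continuous
theorem c2 (hs : Supp h) : Continuous (deriv (deriv h)) :=
  (cd1 hs).continuous_deriv (by norm_num)

private theorem mid_x (x y : ℝ) : HasDerivAt (fun x : ℝ => (x + y) / 2) (1 / 2) x :=
  ((hasDerivAt_id x).add_const y).div_const 2
private theorem mid_y (x y : ℝ) : HasDerivAt (fun y : ℝ => (x + y) / 2) (1 / 2) y :=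
  ((hasDerivAt_id y).const_add x).div_const 2
private theorem dif_x (x y : ℝ) : HasDerivAt (fun x : ℝ => (y - x) / 2) (-1 / 2) x :=
  ((hasDerivAt_id x).const_sub y).div_const 2
private theorem dif_y (x y : ℝ) : HasDerivAt (fun y : ℝ => (y - x) / 2) (1 / 2) y :=
  ((hasDerivAt_id y).sub_const x).div_const 2

/-- derivative in `x` of `u(psi) cos delta` and of `u(psi) sin delta` -/
private theorem uc_x {u : ℝ → ℝ} {u' : ℝ} (x y : ℝ) (hu : HasDerivAt u u' ((x + y) / 2)) :
    HasDerivAt (fun x => u ((x + y) / 2) * Real.cos ((y - x) / 2))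
      (u' * (1 / 2) * Real.cos ((y - x) / 2)
        + u ((x + y) / 2) * (-Real.sin ((y - x) / 2) * (-1 / 2))) x :=
  (hu.comp x (mid_x x y)).mul ((Real.hasDerivAt_cos _).comp x (dif_x x y))
private theorem us_x {u : ℝ → ℝ} {u' : ℝ} (x y : ℝ) (hu : HasDerivAt u u' ((x + y) / 2)) :
    HasDerivAt (fun x => u ((x + y) / 2) * Real.sin ((y - x) / 2))
      (u' * (1 / 2) * Real.sin ((y - x) / 2)
        + u ((x + y) / 2) * (Real.cos ((y - x) / 2) * (-1 / 2))) x :=
  (hu.comp x (mid_x x y)).mul ((Real.hasDerivAt_sin _).comp x (dif_x x y))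
private theorem uc_y {u : ℝ → ℝ} {u' : ℝ} (x y : ℝ) (hu : HasDerivAt u u' ((x + y) / 2)) :
    HasDerivAt (fun y => u ((x + y) / 2) * Real.cos ((y - x) / 2))
      (u' * (1 / 2) * Real.cos ((y - x) / 2)
        + u ((x + y) / 2) * (-Real.sin ((y - x) / 2) * (1 / 2))) y :=
  (hu.comp y (mid_y x y)).mul ((Real.hasDerivAt_cos _).comp y (dif_y x y))
private theorem us_y {u : ℝ → ℝ} {u' : ℝ} (x y : ℝ) (hu : HasDerivAt u u' ((x + y) / 2)) :
    HasDerivAt (fun y => u ((x + y) / 2) * Real.sin ((y - x) / 2))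
      (u' * (1 / 2) * Real.sin ((y - x) / 2)
        + u ((x + y) / 2) * (Real.cos ((y - x) / 2) * (1 / 2))) y :=
  (hu.comp y (mid_y x y)).mul ((Real.hasDerivAt_sin _).comp y (dif_y x y))

private theorem SS_eq (x y : ℝ) : SS h x y = 2 * (h ((x + y) / 2) * Real.sin ((y - x) / 2)) := by
  unfold SS; ring

theorem SS_x (hs : Supp h) (x y : ℝ) : HasDerivAt (fun x => SS h x y) (-p0 h x y) x := by
  have h1 := (us_x x y (hd0 hs ((x + y) / 2))).const_mul 2
  have h2 : (fun x => SS h x y) = fun x => 2 * (h ((x + y) / 2) * Real.sin ((y - x) / 2)) :=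
    funext fun x => SS_eq x y
  rw [h2]
  refine h1.congr_deriv ?_
  unfold p0; ring
theorem SS_y (hs : Supp h) (x y : ℝ) : HasDerivAt (fun y => SS h x y) (p1 h x y) y := by
  have h1 := (us_y x y (hd0 hs ((x + y) / 2))).const_mul 2
  have h2 : (fun y => SS h x y) = fun y => 2 * (h ((x + y) / 2) * Real.sin ((y - x) / 2)) :=
    funext fun y => SS_eq x y
  rw [h2]
  refine h1.congr_deriv ?_
  unfold p1; ring
theorem p0_x (hs : Supp h) (x y : ℝ) : HasDerivAt (fun x => p0 h x y) (-Sxx h x y) x := by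
  refine ((uc_x x y (hd0 hs ((x + y) / 2))).sub (us_x x y (hd1 hs ((x + y) / 2)))).congr_deriv ?_
  unfold Sxx; ring
theorem p0_y (hs : Supp h) (x y : ℝ) : HasDerivAt (fun y => p0 h x y) (-R h x y) y := by
  refine ((uc_y x y (hd0 hs ((x + y) / 2))).sub (us_y x y (hd1 hs ((x + y) / 2)))).congr_deriv ?_
  unfold R; ring
theorem p1_x (hs : Supp h) (x y : ℝ) : HasDerivAt (fun x => p1 h x y) (R h x y) x := by
  refine ((uc_x x y (hd0 hs ((x + y) / 2))).add (us_x x y (hd1 hs ((x + y) / 2)))).congr_deriv ?_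
  unfold R; ring
theorem p1_y (hs : Supp h) (x y : ℝ) : HasDerivAt (fun y => p1 h x y) (Syy h x y) y := by
  refine ((uc_y x y (hd0 hs ((x + y) / 2))).add (us_y x y (hd1 hs ((x + y) / 2)))).congr_deriv ?_
  unfold Syy; ring

private theorem cm : Continuous (fun z : ℝ × ℝ => (z.1 + z.2) / 2) := by fun_prop
private theorem cs : Continuous (fun z : ℝ × ℝ => Real.sin ((z.2 - z.1) / 2)) := by fun_prop
private theorem cc : Continuous (fun z : ℝ × ℝ => Real.cos ((z.2 - z.1) / 2)) := by fun_prop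

theorem SS_c (hs : Supp h) : Continuous (fun z : ℝ × ℝ => SS h z.1 z.2) := by
  unfold SS
  exact (continuous_const.mul ((c0 hs).comp cm)).mul cs
theorem p0_c (hs : Supp h) : Continuous (fun z : ℝ × ℝ => p0 h z.1 z.2) := by
  unfold p0
  exact (((c0 hs).comp cm).mul cc).sub (((c1 hs).comp cm).mul cs)
theorem p1_c (hs : Supp h) : Continuous (fun z : ℝ × ℝ => p1 h z.1 z.2) := by
  unfold p1
  exact (((c0 hs).comp cm).mul cc).add (((c1 hs).comp cm).mul cs)
theorem R_c (hs : Supp h) : Continuous (fun z : ℝ × ℝ => R h z.1 z.2) := by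
  unfold R
  exact ((((c0 hs).comp cm).add ((c2 hs).comp cm)).mul cs).div_const 2
theorem Sxx_c (hs : Supp h) : Continuous (fun z : ℝ × ℝ => Sxx h z.1 z.2) := by
  unfold Sxx
  exact (((((c2 hs).comp cm).sub ((c0 hs).comp cm)).mul cs).div_const 2).sub
    (((c1 hs).comp cm).mul cc)
theorem Syy_c (hs : Supp h) : Continuous (fun z : ℝ × ℝ => Syy h z.1 z.2) := by
  unfold Syy
  exact (((((c2 hs).comp cm).sub ((c0 hs).comp cm)).mul cs).div_const 2).add
    (((c1 hs).comp cm).mul cc)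
theorem qd_c (hs : Supp h) (al o1 o2 : ℝ) : Continuous (fun z : ℝ × ℝ => qd h al o1 o2 z.1 z.2) := by
  have e1 : Continuous (fun z : ℝ × ℝ => on o1 o2 z.1) := by unfold on; fun_prop
  have e2 : Continuous (fun z : ℝ × ℝ => on o1 o2 z.2) := by unfold on; fun_prop
  have n0 : Continuous (fun z : ℝ × ℝ => nu0 h al o1 o2 z.1 z.2) := by
    unfold nu0; exact (continuous_const.mul (p0_c hs)).sub e1
  have n1 : Continuous (fun z : ℝ × ℝ => nu1 h al o1 o2 z.1 z.2) := by
    unfold nu1; exact (continuous_const.mul (p1_c hs)).sub e2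
  unfold qd
  exact (((Sxx_c hs).mul (n0.pow 2)).add (((continuous_const.mul (R_c hs)).mul n0).mul n1)).add
    ((Syy_c hs).mul (n1.pow 2))

private theorem dm {n : WithTop ℕ∞} : ContDiff ℝ n (fun z : ℝ × ℝ => (z.1 + z.2) / 2) :=
  (contDiff_fst.add contDiff_snd).div_const 2
private theorem dl {n : WithTop ℕ∞} : ContDiff ℝ n (fun z : ℝ × ℝ => (z.2 - z.1) / 2) :=
  (contDiff_snd.sub contDiff_fst).div_const 2
private theorem ds {n : WithTop ℕ∞} : ContDiff ℝ n (fun z : ℝ × ℝ => Real.sin ((z.2 - z.1) / 2)) :=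
  Real.contDiff_sin.comp dl
private theorem dc {n : WithTop ℕ∞} : ContDiff ℝ n (fun z : ℝ × ℝ => Real.cos ((z.2 - z.1) / 2)) :=
  Real.contDiff_cos.comp dl

/-- joint differentiability -/
theorem SS_C1 (hs : Supp h) : ContDiff ℝ 2 (fun z : ℝ × ℝ => SS h z.1 z.2) := by
  unfold SS
  exact (contDiff_const.mul (hs.smooth.comp dm)).mul ds
theorem p0_C1 (hs : Supp h) : ContDiff ℝ 1 (fun z : ℝ × ℝ => p0 h z.1 z.2) := by
  unfold p0
  exact (((hs.smooth.of_le (by norm_num)).comp dm).mul dc).sub (((cd1 hs).comp dm).mul ds)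
theorem p1_C1 (hs : Supp h) : ContDiff ℝ 1 (fun z : ℝ × ℝ => p1 h z.1 z.2) := by
  unfold p1
  exact (((hs.smooth.of_le (by norm_num)).comp dm).mul dc).add (((cd1 hs).comp dm).mul ds)

private theorem mp (x y : ℝ) : (x + 2 * Real.pi + (y + 2 * Real.pi)) / 2 = (x + y) / 2 + 2 * Real.pi := by
  ring
private theorem df (x y : ℝ) : (y + 2 * Real.pi - (x + 2 * Real.pi)) / 2 = (y - x) / 2 := by
  ring

theorem p0_per (hs : Supp h) (x y : ℝ) : p0 h (x + 2 * Real.pi) (y + 2 * Real.pi) = p0 h x y := by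
  unfold p0; rw [mp, df, hs.per, d1_per hs]
theorem p1_per (hs : Supp h) (x y : ℝ) : p1 h (x + 2 * Real.pi) (y + 2 * Real.pi) = p1 h x y := by
  unfold p1; rw [mp, df, hs.per, d1_per hs]
theorem SS_per (hs : Supp h) (x y : ℝ) : SS h (x + 2 * Real.pi) (y + 2 * Real.pi) = SS h x y := by
  unfold SS; rw [mp, df, hs.per]
theorem R_per (hs : Supp h) (x y : ℝ) : R h (x + 2 * Real.pi) (y + 2 * Real.pi) = R h x y := by
  unfold R; rw [mp, df, hs.per, d2_per hs]
theorem Sxx_per (hs : Supp h) (x y : ℝ) : Sxx h (x + 2 * Real.pi) (y + 2 * Real.pi) = Sxx h x y := by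
  unfold Sxx; rw [mp, df, hs.per, d1_per hs, d2_per hs]
theorem Syy_per (hs : Supp h) (x y : ℝ) : Syy h (x + 2 * Real.pi) (y + 2 * Real.pi) = Syy h x y := by
  unfold Syy; rw [mp, df, hs.per, d1_per hs, d2_per hs]
theorem qd_per (hs : Supp h) (al o1 o2 x y : ℝ) :
    qd h al o1 o2 (x + 2 * Real.pi) (y + 2 * Real.pi) = qd h al o1 o2 x y := by
  have o (z : ℝ) : on o1 o2 (z + 2 * Real.pi) = on o1 o2 z := by
    unfold on; rw [Real.cos_add_two_pi, Real.sin_add_two_pi]
  unfold qd nu0 nu1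
  rw [Sxx_per hs, Syy_per hs, R_per hs, p0_per hs, p1_per hs, o, o]

theorem R_pos (hs : Supp h) {x y : ℝ} (h1 : x < y) (h2 : y < x + 2 * Real.pi) : 0 < R h x y := by
  have h3 : 0 < Real.sin ((y - x) / 2) := Real.sin_pos_of_pos_of_lt_pi (by linarith) (by linarith)
  have h4 := hs.curv ((x + y) / 2)
  unfold R
  positivity
theorem R_nonneg (hs : Supp h) {x y : ℝ} (h1 : x ≤ y) (h2 : y ≤ x + 2 * Real.pi) : 0 ≤ R h x y := by
  have h3 : 0 ≤ Real.sin ((y - x) / 2) :=
    Real.sin_nonneg_of_nonneg_of_le_pi (by linarith) (by linarith)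
  have h4 := hs.curv ((x + y) / 2)
  unfold R
  positivity
theorem p0_diag (y : ℝ) : p0 h y y = h y := by
  unfold p0
  rw [show (y + y) / 2 = y by ring, show (y - y) / 2 = 0 by ring, Real.cos_zero, Real.sin_zero]
  ring
theorem p0_end (y : ℝ) : p0 h y (y + 2 * Real.pi) = - h (y + Real.pi) := by
  unfold p0
  rw [show (y + (y + 2 * Real.pi)) / 2 = y + Real.pi by ring,
    show (y + 2 * Real.pi - y) / 2 = Real.pi by ring, Real.cos_pi, Real.sin_pi]
  ring
theorem p1_diag (y : ℝ) : p1 h y y = h y := by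
  unfold p1
  rw [show (y + y) / 2 = y by ring, show (y - y) / 2 = 0 by ring, Real.cos_zero, Real.sin_zero]
  ring
/-- here `psi = y - pi`, and `h (y - pi) = h (y + pi)` -/
theorem p1_end (hs : Supp h) (y : ℝ) : p1 h (y - 2 * Real.pi) y = - h (y + Real.pi) := by
  unfold p1
  rw [show (y - 2 * Real.pi + y) / 2 = y - Real.pi by ring,
    show (y - (y - 2 * Real.pi)) / 2 = Real.pi by ring, Real.cos_pi, Real.sin_pi]
  have h1 := hs.per (y - Real.pi)
  rw [show y - Real.pi + 2 * Real.pi = y + Real.pi by ring] at h1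
  rw [← h1]
  ring
theorem p0_anti (hs : Supp h) (y : ℝ) :
    StrictAntiOn (fun z => p0 h y z) (Icc y (y + 2 * Real.pi)) := by
  refine strictAntiOn_of_deriv_neg (convex_Icc _ _) ?_ ?_
  · exact fun z _ => (p0_y hs y z).continuousAt.continuousWithinAt
  · intro z hz
    rw [interior_Icc] at hz
    rw [(p0_y hs y z).deriv]
    have := R_pos hs hz.1 hz.2
    linarith
theorem p1_mono (hs : Supp h) (y : ℝ) :
    StrictMonoOn (fun x => p1 h x y) (Icc (y - 2 * Real.pi) y) := by
  refine strictMonoOn_of_deriv_pos (convex_Icc _ _) ?_ ?_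
  · exact fun z _ => (p1_x hs z y).continuousAt.continuousWithinAt
  · intro z hz
    rw [interior_Icc] at hz
    rw [(p1_x hs z y).deriv]
    exact R_pos hs hz.2 (by linarith [hz.1])

end Pool.Agent.H1.BP
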