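import Pool.Agent.H1.BP.Mx1

/-
ROW Mx2.  Second variation along a circle is <= 0.
x_i = f^[i] x, x_i < x_{i+1} < x_i + 2pi.  phi(t) = sum_{i<N} SS h (x_i + t xi_i) (x_{i+1} + t xi_{i+1}).
For |t| small all pairs stay in {a<b<a+2pi}; by calib each term <= m + G(b) - G(a), telescoping sum = N m + G(x_N) - G(x_0) (xi_0 = xi_N = 0) = phi(0).  So IsLocalMax phi 0.
phi is C^2: phi'(t) = sum [ -p0(..) xi_i + p1(..) xi_{i+1} ] (SS_x, SS_y with the chain rule for t -> (x_i + t xi_i, x_{i+1} + t xi_{i+1}); e.g. use SS_C1 to get HasFDerivAt, or differentiate the explicit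
formula SS h (x_i+t xi_i) (x_{i+1}+t xi_{i+1}) = 2 h(psi_i + t (xi_i+xi_{i+1})/2) sin(d_i + t (xi_{i+1}-xi_i)/2) directly in one variable: first derivative
 2 h' a sin + 2 h b cos with a=(xi_i+xi_{i+1})/2, b=(xi_{i+1}-xi_i)/2; second derivative at t=0: 2 h'' a^2 sin + 4 h' a b cos - 2 h b^2 sin, and this equals Sxx xi_i^2 + 2 R xi_i xi_{i+1} + Syy xi_{i+1}^2 (ring)).
IsLocalMax and phi''(0) > 0 is impossible: isLocalMin_of_deriv_deriv_pos gives a local minimum too, so phi is locally constant, phi''(0)=0.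
-/

set_option autoImplicit false
open Set

namespace Pool.Agent.H1.BP

variable {h : ℝ → ℝ}

/-- second order necessary condition -/
private lemma neg_second {φ φ1 : ℝ → ℝ} {c : ℝ} (h0 : ∀ t, HasDerivAt φ (φ1 t) t)
    (h1 : HasDerivAt φ1 c 0) (hmax : IsLocalMax φ 0) : c ≤ 0 := by
  by_contra hc
  push Not at hc
  have hd : deriv φ = φ1 := by
    funext t
    exact (h0 t).deriv
  have hdd : deriv (deriv φ) 0 = c := by
    rw [hd]
    exact h1.deriv
  have hz : deriv φ 0 = 0 := hmax.deriv_eq_zero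
  have hmin : IsLocalMin φ 0 := by
    apply isLocalMin_of_deriv_deriv_pos
    · rw [hdd]
      exact hc
    · exact hz
    · exact (h0 0).continuousAt
  have heq : φ =ᶠ[nhds 0] fun _ => φ 0 := by
    filter_upwards [hmax, hmin] with t ht1 ht2
    exact le_antisymm ht1 ht2
  have h2 : deriv φ =ᶠ[nhds 0] deriv (fun _ : ℝ => φ 0) := heq.deriv
  have h3 : deriv (deriv φ) 0 = deriv (deriv (fun _ : ℝ => φ 0)) 0 := h2.deriv_eq
  have h4 : deriv (fun _ : ℝ => φ 0) = fun _ => (0 : ℝ) := by
    funext t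
    simp
  rw [h4, hdd] at h3
  simp at h3
  linarith

private lemma dA (hs : Supp h) (x y u v t : ℝ) :
    HasDerivAt (fun t => SS h (x + t * u) (y + t * v))
      (-p0 h (x + t * u) (y + t * v) * u + p1 h (x + t * u) (y + t * v) * v) t := by
  have e0 : HasDerivAt (fun t : ℝ => x + t * u) u t := by
    simpa using ((hasDerivAt_id t).mul_const u).const_add x
  have e0' : HasDerivAt (fun t : ℝ => y + t * v) v t := by
    simpa using ((hasDerivAt_id t).mul_const v).const_add y
  have e1 : HasDerivAt (fun t : ℝ => (x + t * u + (y + t * v)) / 2) ((u + v) / 2) t :=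
    (e0.add e0').div_const 2
  have e2 : HasDerivAt (fun t : ℝ => (y + t * v - (x + t * u)) / 2) ((v - u) / 2) t :=
    (e0'.sub e0).div_const 2
  have H0 : HasDerivAt (fun t : ℝ => h ((x + t * u + (y + t * v)) / 2))
      (deriv h ((x + t * u + (y + t * v)) / 2) * ((u + v) / 2)) t :=
    HasDerivAt.comp t (hd0 hs ((x + t * u + (y + t * v)) / 2)) e1
  have S := e2.sin
  have K := (H0.const_mul 2).mul S
  refine HasDerivAt.congr_deriv K ?_
  unfold p0 p1
  ring

private lemma dB (hs : Supp h) (x y u v t : ℝ) :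
    HasDerivAt (fun t => -p0 h (x + t * u) (y + t * v) * u + p1 h (x + t * u) (y + t * v) * v)
      (Sxx h (x + t * u) (y + t * v) * u ^ 2 + 2 * R h (x + t * u) (y + t * v) * u * v
        + Syy h (x + t * u) (y + t * v) * v ^ 2) t := by
  have e0 : HasDerivAt (fun t : ℝ => x + t * u) u t := by
    simpa using ((hasDerivAt_id t).mul_const u).const_add x
  have e0' : HasDerivAt (fun t : ℝ => y + t * v) v t := by
    simpa using ((hasDerivAt_id t).mul_const v).const_add y
  have e1 : HasDerivAt (fun t : ℝ => (x + t * u + (y + t * v)) / 2) ((u + v) / 2) t :=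
    (e0.add e0').div_const 2
  have e2 : HasDerivAt (fun t : ℝ => (y + t * v - (x + t * u)) / 2) ((v - u) / 2) t :=
    (e0'.sub e0).div_const 2
  have H0 : HasDerivAt (fun t : ℝ => h ((x + t * u + (y + t * v)) / 2))
      (deriv h ((x + t * u + (y + t * v)) / 2) * ((u + v) / 2)) t :=
    HasDerivAt.comp t (hd0 hs ((x + t * u + (y + t * v)) / 2)) e1
  have H1 : HasDerivAt (fun t : ℝ => deriv h ((x + t * u + (y + t * v)) / 2))
      (deriv (deriv h) ((x + t * u + (y + t * v)) / 2) * ((u + v) / 2)) t :=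
    HasDerivAt.comp (h₂ := deriv h) t (hd1 hs ((x + t * u + (y + t * v)) / 2)) e1
  have S := e2.sin
  have C := e2.cos
  have K0 : HasDerivAt (fun t => p0 h (x + t * u) (y + t * v)) _ t := (H0.mul C).sub (H1.mul S)
  have K1 : HasDerivAt (fun t => p1 h (x + t * u) (y + t * v)) _ t := (H0.mul C).add (H1.mul S)
  have K := (K0.neg.mul_const u).add (K1.mul_const v)
  refine HasDerivAt.congr_deriv K ?_
  unfold Sxx R Syy
  ring

private lemma near (a b u v : ℝ) (h1 : a < b) (h2 : b < a + 2 * Real.pi) :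
    ∀ᶠ t in nhds (0 : ℝ), a + t * u < b + t * v ∧ b + t * v < a + t * u + 2 * Real.pi := by
  have c1 : Filter.Tendsto (fun t : ℝ => (b + t * v) - (a + t * u)) (nhds 0) (nhds (b - a)) := by
    have hc : Continuous (fun t : ℝ => (b + t * v) - (a + t * u)) := by fun_prop
    have := hc.tendsto 0
    simpa using this
  have p1 : ∀ᶠ t in nhds (0 : ℝ), 0 < (b + t * v) - (a + t * u) :=
    c1.eventually (lt_mem_nhds (by linarith))
  have p2 : ∀ᶠ t in nhds (0 : ℝ), (b + t * v) - (a + t * u) < 2 * Real.pi :=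
    c1.eventually (gt_mem_nhds (by linarith))
  filter_upwards [p1, p2] with t q1 q2
  exact ⟨by linarith, by linarith⟩

theorem JN_le (hs : Supp h) {f : ℝ → ℝ} (hf : Circle h f) (x : ℝ) (N : ℕ) (xi : ℕ → ℝ)
    (h0 : xi 0 = 0) (hN : xi N = 0) :
    ∑ i ∈ Finset.range N, (Sxx h (f^[i] x) (f^[i + 1] x) * xi i ^ 2
      + 2 * R h (f^[i] x) (f^[i + 1] x) * xi i * xi (i + 1)
      + Syy h (f^[i] x) (f^[i + 1] x) * xi (i + 1) ^ 2) ≤ 0 := by
  obtain ⟨G, m, hG, hm, hle⟩ := calib hs hf
  have key := neg_second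
    (φ := fun t => ∑ i ∈ Finset.range N,
      SS h (f^[i] x + t * xi i) (f^[i + 1] x + t * xi (i + 1)))
    (φ1 := fun t => ∑ i ∈ Finset.range N,
      (-p0 h (f^[i] x + t * xi i) (f^[i + 1] x + t * xi (i + 1)) * xi i
        + p1 h (f^[i] x + t * xi i) (f^[i + 1] x + t * xi (i + 1)) * xi (i + 1)))
    (c := ∑ i ∈ Finset.range N, (Sxx h (f^[i] x + 0 * xi i) (f^[i + 1] x + 0 * xi (i + 1)) * xi i ^ 2
      + 2 * R h (f^[i] x + 0 * xi i) (f^[i + 1] x + 0 * xi (i + 1)) * xi i * xi (i + 1)
      + Syy h (f^[i] x + 0 * xi i) (f^[i + 1] x + 0 * xi (i + 1)) * xi (i + 1) ^ 2))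
    (fun t => HasDerivAt.fun_sum (fun i _ => dA hs _ _ _ _ t))
    (HasDerivAt.fun_sum (fun i _ => dB hs _ _ _ _ 0)) ?_
  · simpa using key
  · have hev : ∀ᶠ t in nhds (0 : ℝ), ∀ i ∈ Finset.range N,
        (f^[i] x + t * xi i < f^[i + 1] x + t * xi (i + 1) ∧
          f^[i + 1] x + t * xi (i + 1) < f^[i] x + t * xi i + 2 * Real.pi) := by
      rw [Filter.eventually_all_finset]
      intro i _
      apply near
      · rw [Function.iterate_succ_apply']
        exact hf.lo _
      · rw [Function.iterate_succ_apply']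
        exact hf.hi _
    have h00 : ∑ i ∈ Finset.range N, SS h (f^[i] x + 0 * xi i) (f^[i + 1] x + 0 * xi (i + 1))
        = N * m + (G (f^[N] x) - G x) := by
      have e : ∀ i ∈ Finset.range N,
          SS h (f^[i] x + 0 * xi i) (f^[i + 1] x + 0 * xi (i + 1))
            = m + (G (f^[i + 1] x) - G (f^[i] x)) := by
        intro i _
        have q := hm (f^[i] x)
        rw [zero_mul, zero_mul, add_zero, add_zero, Function.iterate_succ_apply']
        linarith
      rw [Finset.sum_congr rfl e, Finset.sum_add_distrib, Finset.sum_const, Finset.card_range,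
        nsmul_eq_mul, Finset.sum_range_sub (fun i => G (f^[i] x))]
      simp
    filter_upwards [hev] with t ht
    show ∑ i ∈ Finset.range N, SS h (f^[i] x + t * xi i) (f^[i + 1] x + t * xi (i + 1))
      ≤ ∑ i ∈ Finset.range N, SS h (f^[i] x + 0 * xi i) (f^[i + 1] x + 0 * xi (i + 1))
    rw [h00]
    have e : ∀ i ∈ Finset.range N,
        SS h (f^[i] x + t * xi i) (f^[i + 1] x + t * xi (i + 1))
          ≤ m + (G (f^[i + 1] x + t * xi (i + 1)) - G (f^[i] x + t * xi i)) := by
      intro i hi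
      have q := hle _ _ (ht i hi).1 (ht i hi).2
      linarith
    refine (Finset.sum_le_sum e).trans (le_of_eq ?_)
    rw [Finset.sum_add_distrib, Finset.sum_const, Finset.card_range,
      nsmul_eq_mul, Finset.sum_range_sub (fun i => G (f^[i] x + t * xi i))]
    simp [h0, hN]

/-- the periodic version for a circle of 3-periodic orbits: the quadratic form of the Hessian of the 3-periodic
action is negative semidefinite. Same proof with N = 3 and xi_3 = xi_0: G (x + 2 pi) - G x is constant because its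
derivative is g(x+2pi) - g(x) = 0 (p0_per, hf.per). -/
theorem J3_le (hs : Supp h) {f : ℝ → ℝ} (hf : Circle h f) (h3 : ∀ x, f (f (f x)) = x + 2 * Real.pi)
    (x a b c : ℝ) :
    (Syy h (f (f x)) (x + 2 * Real.pi) + Sxx h x (f x)) * a ^ 2
      + (Syy h x (f x) + Sxx h (f x) (f (f x))) * b ^ 2
      + (Syy h (f x) (f (f x)) + Sxx h (f (f x)) (x + 2 * Real.pi)) * c ^ 2
      + 2 * R h x (f x) * a * b + 2 * R h (f x) (f (f x)) * b * c
      + 2 * R h (f (f x)) (x + 2 * Real.pi) * c * a ≤ 0 := by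
  obtain ⟨G, m, hG, hm, hle⟩ := calib hs hf
  have hc : ∀ z w, G (z + 2 * Real.pi) - G z = G (w + 2 * Real.pi) - G w := by
    have hd : ∀ z, HasDerivAt (fun z => G (z + 2 * Real.pi) - G z) 0 z := by
      intro z
      have k1 : HasDerivAt (fun z => G (z + 2 * Real.pi))
          (p0 h (z + 2 * Real.pi) (f (z + 2 * Real.pi))) z :=
        HasDerivAt.comp_add_const z (2 * Real.pi) (hG (z + 2 * Real.pi))
      have k2 := k1.sub (hG z)
      refine HasDerivAt.congr_deriv k2 ?_
      rw [hf.per, p0_per hs]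
      ring
    intro z w
    exact is_const_of_deriv_eq_zero (f := fun z => G (z + 2 * Real.pi) - G z)
      (fun z => (hd z).differentiableAt) (fun z => (hd z).deriv) z w
  have key := neg_second
    (φ := fun t => SS h (x + t * a) (f x + t * b) + SS h (f x + t * b) (f (f x) + t * c)
      + SS h (f (f x) + t * c) (x + 2 * Real.pi + t * a))
    (φ1 := fun t => (-p0 h (x + t * a) (f x + t * b) * a + p1 h (x + t * a) (f x + t * b) * b)
      + (-p0 h (f x + t * b) (f (f x) + t * c) * b + p1 h (f x + t * b) (f (f x) + t * c) * c)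
      + (-p0 h (f (f x) + t * c) (x + 2 * Real.pi + t * a) * c
        + p1 h (f (f x) + t * c) (x + 2 * Real.pi + t * a) * a))
    (fun t => ((dA hs _ _ _ _ t).add (dA hs _ _ _ _ t)).add (dA hs _ _ _ _ t))
    (((dB hs _ _ _ _ 0).add (dB hs _ _ _ _ 0)).add (dB hs _ _ _ _ 0)) ?_
  · simp only [zero_mul, add_zero] at key
    linarith
  · have g1 : f x < f (f x) := hf.lo _
    have g2 : f (f x) < f x + 2 * Real.pi := hf.hi _
    have g3 : f (f x) < x + 2 * Real.pi := by
      rw [← h3 x]
      exact hf.lo _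
    have g4 : x + 2 * Real.pi < f (f x) + 2 * Real.pi := by
      have := hf.lo x
      linarith
    have E1 := near x (f x) a b (hf.lo x) (hf.hi x)
    have E2 := near (f x) (f (f x)) b c g1 g2
    have E3 := near (f (f x)) (x + 2 * Real.pi) c a g3 g4
    have q1 := hm x
    have q2 := hm (f x)
    have q3 := hm (f (f x))
    rw [h3 x] at q3
    filter_upwards [E1, E2, E3] with t t1 t2 t3
    have r1 := hle _ _ t1.1 t1.2
    have r2 := hle _ _ t2.1 t2.2
    have r3 := hle _ _ t3.1 t3.2
    have r4 := hc (x + t * a) x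
    have e : x + t * a + 2 * Real.pi = x + 2 * Real.pi + t * a := by ring
    rw [e] at r4
    show SS h (x + t * a) (f x + t * b) + SS h (f x + t * b) (f (f x) + t * c)
      + SS h (f (f x) + t * c) (x + 2 * Real.pi + t * a)
      ≤ SS h (x + 0 * a) (f x + 0 * b) + SS h (f x + 0 * b) (f (f x) + 0 * c)
      + SS h (f (f x) + 0 * c) (x + 2 * Real.pi + 0 * a)
    simp only [zero_mul, add_zero]
    linarith

end Pool.Agent.H1.BP
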