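import Pool.Agent.H1.BP.Inv
import Pool.Agent.H1.BP.Mx2

/-
ROW Hop.  The Hopf inequality QQ <= 0.
Let T (x,y) = (y, nxt h x y), orb n = T^[n].  For phi continuous on the closed region Om = {x <= y <= f x} and diagonally periodic:
 I(phi) := int int phi x y R x y.   T maps Om into itself (nxt_region), T is continuous on Om (nxt_cont) and commutes with the diagonal shift (nxt_per), so phi o T^[n] is again continuous on Om and
 periodic, and I(phi o T^[n]) = I(phi) by induction with Inv.inv_nxt.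
Put b11 = Sxx nu0^2, b12 = 2 R nu0 nu1, b22 = Syy nu1^2 (continuous, periodic).  chi i = 1 for 1 <= i <= N-1, chi 0 = chi N = 0, N >= 2.
 For (x,y) with x<y<f x take the circle F of hfill (F x = y): nxt_circle gives T^[i] (x,y) = (F^[i] x, F^[i+1] x), and JN_le for F with xi i = chi i * nu0 (F^[i] x) (F^[i+1] x); because of
 F.inv, nu0 at step i+1 equals nu1 at step i.  So  sum_{i<N} [chi_i^2 b11 + chi_i chi_{i+1} b12 + chi_{i+1}^2 b22](T^[i](x,y)) <= 0 for all x<y<f x.
 Multiply by R >= 0, integrate (continuous functions on Om):  (N-2) (I11+I12+I22) + I22 + I11 <= 0 for all N >= 2, hence QQ = I11+I12+I22 <= 0.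
-/

set_option autoImplicit false
open Set MeasureTheory

namespace Pool.Agent.H1.BP

variable {h : ℝ → ℝ}

/-- the closed region below the circle -/
def HOm (f : ℝ → ℝ) : Set (ℝ × ℝ) := {q | q.1 ≤ q.2 ∧ q.2 ≤ f q.1}

/-- the shift on pairs of lines -/
noncomputable def HT (h : ℝ → ℝ) (q : ℝ × ℝ) : ℝ × ℝ := (q.2, nxt h q.1 q.2)

/-- double integral over the region -/
noncomputable def HJ (f : ℝ → ℝ) (G : ℝ × ℝ → ℝ) : ℝ :=
  ∫ x in (0 : ℝ)..(2 * Real.pi), ∫ y in x..(f x), G (x, y)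

theorem hop_inner_cont {f : ℝ → ℝ} (hf : Continuous f) (hlo : ∀ x, x ≤ f x) {G : ℝ × ℝ → ℝ}
    (hG : ContinuousOn G (HOm f)) : Continuous (fun x => ∫ y in x..(f x), G (x, y)) := by
  have e : (fun x => ∫ y in x..(f x), G (x, y))
      = fun x => (f x - x) * ∫ t in (0 : ℝ)..1, G (x, x + (f x - x) * (max 0 (min t 1))) := by
    funext x
    have e1 : ∫ t in (0 : ℝ)..1, G (x, x + (f x - x) * (max 0 (min t 1)))
        = ∫ t in (0 : ℝ)..1, G (x, x + (f x - x) * t) := by
      apply intervalIntegral.integral_congr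
      intro t ht
      rw [uIcc_of_le (zero_le_one : (0 : ℝ) ≤ 1)] at ht
      have : max 0 (min t 1) = t := by
        rw [min_eq_left ht.2, max_eq_right ht.1]
      simp only [this]
    have e2 := intervalIntegral.smul_integral_comp_add_mul (a := (0 : ℝ)) (b := 1)
      (fun y => G (x, y)) (f x - x) x
    rw [e1]
    simp only [smul_eq_mul, mul_zero, add_zero, mul_one, add_sub_cancel] at e2
    exact e2.symm
  rw [e]
  apply Continuous.mul (hf.sub continuous_id)
  apply intervalIntegral.continuous_parametric_intervalIntegral_of_continuous'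
  have hmap : Continuous (fun z : ℝ × ℝ => (z.1, z.1 + (f z.1 - z.1) * (max 0 (min z.2 1)))) := by
    fun_prop
  apply ContinuousOn.comp_continuous hG hmap
  rintro ⟨x, t⟩
  have h1 : 0 ≤ max 0 (min t 1) := le_max_left _ _
  have h2 : max 0 (min t 1) ≤ 1 := max_le zero_le_one (min_le_right _ _)
  have h3 := hlo x
  constructor
  · show x ≤ x + (f x - x) * (max 0 (min t 1))
    have := mul_nonneg (sub_nonneg.mpr h3) h1
    linarith
  · show x + (f x - x) * (max 0 (min t 1)) ≤ f x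
    have := mul_le_mul_of_nonneg_left h2 (sub_nonneg.mpr h3)
    linarith

theorem hop_slice {f : ℝ → ℝ} (hlo : ∀ x, x ≤ f x) {G : ℝ × ℝ → ℝ}
    (hG : ContinuousOn G (HOm f)) (x : ℝ) :
    IntervalIntegrable (fun y => G (x, y)) volume x (f x) := by
  apply ContinuousOn.intervalIntegrable
  rw [uIcc_of_le (hlo x)]
  apply hG.comp (by fun_prop)
  intro y hy
  exact ⟨hy.1, hy.2⟩

theorem HJ_sum {f : ℝ → ℝ} (hf : Continuous f) (hlo : ∀ x, x ≤ f x) (N : ℕ) (G : ℕ → ℝ × ℝ → ℝ)
    (hG : ∀ i, ContinuousOn (G i) (HOm f)) :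
    HJ f (fun q => ∑ i ∈ Finset.range N, G i q) = ∑ i ∈ Finset.range N, HJ f (G i) := by
  unfold HJ
  have e : ∀ x, ∫ y in x..(f x), ∑ i ∈ Finset.range N, G i (x, y)
      = ∑ i ∈ Finset.range N, ∫ y in x..(f x), G i (x, y) := by
    intro x
    exact intervalIntegral.integral_finset_sum (fun i _ => hop_slice hlo (hG i) x)
  simp only [e]
  exact intervalIntegral.integral_finset_sum
    (fun i _ => (hop_inner_cont hf hlo (hG i)).intervalIntegrable _ _)

theorem HJ_add {f : ℝ → ℝ} (hf : Continuous f) (hlo : ∀ x, x ≤ f x) (G K : ℝ × ℝ → ℝ)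
    (hG : ContinuousOn G (HOm f)) (hK : ContinuousOn K (HOm f)) :
    HJ f (fun q => G q + K q) = HJ f G + HJ f K := by
  unfold HJ
  have e : ∀ x, ∫ y in x..(f x), (G (x, y) + K (x, y))
      = (∫ y in x..(f x), G (x, y)) + ∫ y in x..(f x), K (x, y) := by
    intro x
    exact intervalIntegral.integral_add (hop_slice hlo hG x) (hop_slice hlo hK x)
  simp only [e]
  exact intervalIntegral.integral_add
    ((hop_inner_cont hf hlo hG).intervalIntegrable _ _)
    ((hop_inner_cont hf hlo hK).intervalIntegrable _ _)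

theorem HJ_smul {f : ℝ → ℝ} (c : ℝ) (G : ℝ × ℝ → ℝ) :
    HJ f (fun q => c * G q) = c * HJ f G := by
  unfold HJ
  simp only [intervalIntegral.integral_const_mul]

theorem HJ_nonpos {f : ℝ → ℝ} (hlo : ∀ x, x ≤ f x) {G : ℝ × ℝ → ℝ}
    (hG : ∀ q ∈ HOm f, G q ≤ 0) : HJ f G ≤ 0 := by
  unfold HJ
  have hpi : (0 : ℝ) ≤ 2 * Real.pi := by positivity
  have key : ∀ x, ∫ y in x..(f x), G (x, y) ≤ 0 := by
    intro x
    have := intervalIntegral.integral_nonneg (f := fun y => - G (x, y)) (μ := volume) (hlo x)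
      (fun y hy => neg_nonneg.mpr (hG (x, y) ⟨hy.1, hy.2⟩))
    rw [intervalIntegral.integral_neg] at this
    linarith
  have := intervalIntegral.integral_nonneg (f := fun x => - ∫ y in x..(f x), G (x, y)) (μ := volume)
    hpi (fun x _ => neg_nonneg.mpr (key x))
  rw [intervalIntegral.integral_neg] at this
  linarith

theorem HT_mem (hs : Supp h) {f : ℝ → ℝ} (hf : Circle h f) {q : ℝ × ℝ} (hq : q ∈ HOm f) :
    HT h q ∈ HOm f := by
  obtain ⟨h1, h2⟩ := hq
  exact nxt_region hs hf h1 h2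

theorem HT_cont (hs : Supp h) {f : ℝ → ℝ} (hf : Circle h f) : ContinuousOn (HT h) (HOm f) := by
  unfold HT
  apply ContinuousOn.prodMk continuousOn_snd
  apply (nxt_cont hs).mono
  rintro q ⟨h1, h2⟩
  exact ⟨h1, h2.trans (hf.hi q.1).le⟩

theorem HT_per (hs : Supp h) {f : ℝ → ℝ} (hf : Circle h f) {q : ℝ × ℝ} (hq : q ∈ HOm f) :
    HT h (q.1 + 2 * Real.pi, q.2 + 2 * Real.pi)
      = ((HT h q).1 + 2 * Real.pi, (HT h q).2 + 2 * Real.pi) := by
  obtain ⟨h1, h2⟩ := hq
  have := nxt_per hs h1 (h2.trans (hf.hi q.1).le)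
  unfold HT
  simp only [this]

theorem HT_inv (hs : Supp h) {f : ℝ → ℝ} (hf : Circle h f) (n : ℕ) : ∀ (phi : ℝ × ℝ → ℝ),
    ContinuousOn phi (HOm f) →
    (∀ q ∈ HOm f, phi (q.1 + 2 * Real.pi, q.2 + 2 * Real.pi) = phi q) →
    ContinuousOn (fun q => phi ((HT h)^[n] q)) (HOm f) ∧
    (∀ q ∈ HOm f, phi ((HT h)^[n] (q.1 + 2 * Real.pi, q.2 + 2 * Real.pi)) = phi ((HT h)^[n] q)) ∧
    HJ f (fun q => phi ((HT h)^[n] q) * R h q.1 q.2) = HJ f (fun q => phi q * R h q.1 q.2) := by
  induction n with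
  | zero =>
    intro phi hc hp
    exact ⟨hc, hp, rfl⟩
  | succ n ih =>
    intro phi hc hp
    obtain ⟨c1, c2, c3⟩ := ih phi hc hp
    refine ⟨?_, ?_, ?_⟩
    · have e : (fun q => phi ((HT h)^[n + 1] q)) = (fun q => phi ((HT h)^[n] q)) ∘ (HT h) := by
        funext q
        simp only [Function.iterate_succ_apply, Function.comp]
      rw [e]
      exact c1.comp (HT_cont hs hf) (fun q hq => HT_mem hs hf hq)
    · intro q hq
      rw [Function.iterate_succ_apply, Function.iterate_succ_apply, HT_per hs hf hq]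
      exact c2 _ (HT_mem hs hf hq)
    · rw [← c3]
      have := inv_nxt hs hf (fun x y => phi ((HT h)^[n] (x, y)))
        (by
          have e : Function.uncurry (fun x y => phi ((HT h)^[n] (x, y)))
              = fun q => phi ((HT h)^[n] q) := by
            funext q; rfl
          rw [e]; exact c1)
        (fun x y h1 h2 => c2 (x, y) ⟨h1, h2⟩)
      unfold HJ
      rw [← this]
      rfl

theorem hop_orbit (hs : Supp h) {F : ℝ → ℝ} (hF : Circle h F) (x : ℝ) (i : ℕ) :
    (HT h)^[i] (x, F x) = (F^[i] x, F^[i + 1] x) := by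
  induction i with
  | zero => rfl
  | succ i ih =>
    rw [Function.iterate_succ_apply', ih]
    have e1 : F^[i + 1] x = F (F^[i] x) := Function.iterate_succ_apply' F i x
    have e2 : F^[i + 1 + 1] x = F (F^[i + 1] x) := Function.iterate_succ_apply' F (i + 1) x
    have e3 := nxt_circle hs hF (F^[i] x)
    show (F^[i + 1] x, nxt h (F^[i] x) (F^[i + 1] x)) = (F^[i + 1] x, F^[i + 1 + 1] x)
    rw [e2, e1, e3]

/-- the cut-off -/
def hchi (M i : ℕ) : ℝ := if 1 ≤ i ∧ i ≤ M + 1 then 1 else 0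

theorem hchi_sq (M i : ℕ) : hchi M i ^ 2 = hchi M i := by
  unfold hchi; split_ifs <;> norm_num

theorem hchi_sum (M : ℕ) : ∑ i ∈ Finset.range (M + 2), hchi M i = M + 1 := by
  rw [Finset.sum_range_succ']
  have e : ∀ i ∈ Finset.range (M + 1), hchi M (i + 1) = 1 := by
    intro i hi
    rw [Finset.mem_range] at hi
    unfold hchi
    rw [if_pos ⟨by omega, by omega⟩]
  rw [Finset.sum_congr rfl e]
  unfold hchi
  simp

theorem hchi_sum1 (M : ℕ) : ∑ i ∈ Finset.range (M + 2), hchi M (i + 1) = M + 1 := by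
  rw [Finset.sum_range_succ]
  have e : ∀ i ∈ Finset.range (M + 1), hchi M (i + 1) = 1 := by
    intro i hi
    rw [Finset.mem_range] at hi
    unfold hchi
    rw [if_pos ⟨by omega, by omega⟩]
  rw [Finset.sum_congr rfl e]
  unfold hchi
  rw [if_neg (by omega)]
  simp

theorem hchi_sum2 (M : ℕ) : ∑ i ∈ Finset.range (M + 2), hchi M i * hchi M (i + 1) = M := by
  rw [Finset.sum_range_succ, Finset.sum_range_succ']
  have e : ∀ i ∈ Finset.range M, hchi M (i + 1) * hchi M (i + 1 + 1) = 1 := by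
    intro i hi
    rw [Finset.mem_range] at hi
    unfold hchi
    rw [if_pos ⟨by omega, by omega⟩, if_pos ⟨by omega, by omega⟩]
    norm_num
  rw [Finset.sum_congr rfl e]
  have z0 : hchi M 0 = 0 := by unfold hchi; rw [if_neg (by omega)]
  have z1 : hchi M (M + 1 + 1) = 0 := by unfold hchi; rw [if_neg (by omega)]
  rw [z0, z1]
  simp

theorem on_per' (o1 o2 x : ℝ) : on o1 o2 (x + 2 * Real.pi) = on o1 o2 x := by
  unfold on
  rw [Real.cos_add_two_pi, Real.sin_add_two_pi]

theorem on_c' (o1 o2 : ℝ) : Continuous (on o1 o2) := by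
  unfold on
  fun_prop

theorem hopf (hs : Supp h) {f : ℝ → ℝ} (hf : Circle h f)
    (hfill : ∀ x y, x < y → y < f x → ∃ F, Circle h F ∧ F x = y) (al o1 o2 : ℝ) :
    QQ h f al o1 o2 ≤ 0 := by
  have hlo : ∀ x, x ≤ f x := fun x => (hf.lo x).le
  set b11 : ℝ × ℝ → ℝ := fun q => Sxx h q.1 q.2 * nu0 h al o1 o2 q.1 q.2 ^ 2 with hb11
  set b12 : ℝ × ℝ → ℝ := fun q => 2 * R h q.1 q.2 * nu0 h al o1 o2 q.1 q.2 * nu1 h al o1 o2 q.1 q.2
    with hb12
  set b22 : ℝ × ℝ → ℝ := fun q => Syy h q.1 q.2 * nu1 h al o1 o2 q.1 q.2 ^ 2 with hb22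
  have cR : Continuous (fun z : ℝ × ℝ => R h z.1 z.2) := R_c hs
  have cXX : Continuous (fun z : ℝ × ℝ => Sxx h z.1 z.2) := Sxx_c hs
  have cYY : Continuous (fun z : ℝ × ℝ => Syy h z.1 z.2) := Syy_c hs
  have cn0 : Continuous (fun z : ℝ × ℝ => nu0 h al o1 o2 z.1 z.2) := by
    unfold nu0
    exact (continuous_const.mul (p0_c hs)).sub ((on_c' o1 o2).comp continuous_fst)
  have cn1 : Continuous (fun z : ℝ × ℝ => nu1 h al o1 o2 z.1 z.2) := by
    unfold nu1
    exact (continuous_const.mul (p1_c hs)).sub ((on_c' o1 o2).comp continuous_snd)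
  have c11 : Continuous b11 := cXX.mul (cn0.pow 2)
  have c12 : Continuous b12 := ((continuous_const.mul cR).mul cn0).mul cn1
  have c22 : Continuous b22 := cYY.mul (cn1.pow 2)
  have pn0 : ∀ x y, nu0 h al o1 o2 (x + 2 * Real.pi) (y + 2 * Real.pi) = nu0 h al o1 o2 x y := by
    intro x y
    unfold nu0
    rw [p0_per hs, on_per']
  have pn1 : ∀ x y, nu1 h al o1 o2 (x + 2 * Real.pi) (y + 2 * Real.pi) = nu1 h al o1 o2 x y := by
    intro x y
    unfold nu1
    rw [p1_per hs, on_per']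
  have p11 : ∀ q ∈ HOm f, b11 (q.1 + 2 * Real.pi, q.2 + 2 * Real.pi) = b11 q := by
    intro q _
    simp only [hb11, Sxx_per hs, pn0]
  have p12 : ∀ q ∈ HOm f, b12 (q.1 + 2 * Real.pi, q.2 + 2 * Real.pi) = b12 q := by
    intro q _
    simp only [hb12, R_per hs, pn0, pn1]
  have p22 : ∀ q ∈ HOm f, b22 (q.1 + 2 * Real.pi, q.2 + 2 * Real.pi) = b22 q := by
    intro q _
    simp only [hb22, Syy_per hs, pn1]
  set I11 := HJ f (fun q => b11 q * R h q.1 q.2) with hI11
  set I12 := HJ f (fun q => b12 q * R h q.1 q.2) with hI12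
  set I22 := HJ f (fun q => b22 q * R h q.1 q.2) with hI22
  have eQ : QQ h f al o1 o2 = I11 + I12 + I22 := by
    have e : QQ h f al o1 o2
        = HJ f (fun q => (b11 q * R h q.1 q.2 + b12 q * R h q.1 q.2) + b22 q * R h q.1 q.2) := by
      unfold QQ HJ
      apply intervalIntegral.integral_congr
      intro x _
      apply intervalIntegral.integral_congr
      intro y _
      simp only [hb11, hb12, hb22, qd]
      ring
    have m11 : ContinuousOn (fun q : ℝ × ℝ => b11 q * R h q.1 q.2) (HOm f) := (c11.mul cR).continuousOn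
    have m12 : ContinuousOn (fun q : ℝ × ℝ => b12 q * R h q.1 q.2) (HOm f) := (c12.mul cR).continuousOn
    have m22 : ContinuousOn (fun q : ℝ × ℝ => b22 q * R h q.1 q.2) (HOm f) := (c22.mul cR).continuousOn
    have mm : ContinuousOn (fun q : ℝ × ℝ => b11 q * R h q.1 q.2 + b12 q * R h q.1 q.2) (HOm f) :=
      m11.add m12
    rw [e, HJ_add hf.cont hlo (fun q => b11 q * R h q.1 q.2 + b12 q * R h q.1 q.2)
      (fun q => b22 q * R h q.1 q.2) mm m22, HJ_add hf.cont hlo (fun q => b11 q * R h q.1 q.2)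
      (fun q => b12 q * R h q.1 q.2) m11 m12]
  -- the pointwise inequality
  have point : ∀ M : ℕ, ∀ q ∈ HOm f, ∑ i ∈ Finset.range (M + 2),
      ((hchi M i * (b11 ((HT h)^[i] q) * R h q.1 q.2)
        + hchi M i * hchi M (i + 1) * (b12 ((HT h)^[i] q) * R h q.1 q.2))
        + hchi M (i + 1) * (b22 ((HT h)^[i] q) * R h q.1 q.2)) ≤ 0 := by
    rintro M ⟨x, y⟩ ⟨h1, h2⟩
    simp only at h1 h2
    rcases eq_or_lt_of_le h1 with he | hlt
    · -- on the diagonal R = 0
      have hR : R h x y = 0 := by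
        unfold R
        rw [← he]
        simp
      simp [hR]
    · have hF : ∃ F, Circle h F ∧ F x = y := by
        rcases eq_or_lt_of_le h2 with he2 | hlt2
        · exact ⟨f, hf, he2.symm⟩
        · exact hfill x y hlt hlt2
      obtain ⟨F, hF, hFx⟩ := hF
      have hR : 0 ≤ R h x y := R_nonneg hs hlt.le (h2.trans (hf.hi x).le)
      have hj := JN_le hs hF x (M + 2)
        (fun i => hchi M i * nu0 h al o1 o2 (F^[i] x) (F^[i + 1] x))
        (by
          have : hchi M 0 = 0 := by unfold hchi; rw [if_neg (by omega)]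
          simp only [this, zero_mul])
        (by
          have : hchi M (M + 2) = 0 := by unfold hchi; rw [if_neg (by omega)]
          simp only [this, zero_mul])
      have hmul := mul_nonpos_of_nonpos_of_nonneg hj hR
      rw [Finset.sum_mul] at hmul
      refine le_of_eq_of_le (Finset.sum_congr rfl ?_) hmul
      intro i _
      have hT : (HT h)^[i] (x, y) = (F^[i] x, F^[i + 1] x) := by
        rw [← hFx]; exact hop_orbit hs hF x i
      have hnu : nu0 h al o1 o2 (F^[i + 1] x) (F^[i + 1 + 1] x)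
          = nu1 h al o1 o2 (F^[i] x) (F^[i + 1] x) := by
        have e1 : F^[i + 1] x = F (F^[i] x) := Function.iterate_succ_apply' F i x
        have e2 : F^[i + 1 + 1] x = F (F^[i + 1] x) := Function.iterate_succ_apply' F (i + 1) x
        have e3 := hF.inv (F^[i] x)
        unfold nu0 nu1
        rw [e2, e1, ← e3]
      rw [hT]
      simp only [hb11, hb12, hb22, hnu]
      have s1 := hchi_sq M i
      have s2 := hchi_sq M (i + 1)
      calc _ = (Sxx h (F^[i] x) (F^[i + 1] x) * (hchi M i * nu0 h al o1 o2 (F^[i] x) (F^[i + 1] x) ^ 2)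
            + 2 * R h (F^[i] x) (F^[i + 1] x) * (hchi M i * nu0 h al o1 o2 (F^[i] x) (F^[i + 1] x))
              * (hchi M (i + 1) * nu1 h al o1 o2 (F^[i] x) (F^[i + 1] x))
            + Syy h (F^[i] x) (F^[i + 1] x)
              * (hchi M (i + 1) * nu1 h al o1 o2 (F^[i] x) (F^[i + 1] x) ^ 2)) * R h x y := by ring
        _ = _ := by
          rw [mul_pow, mul_pow, s1, s2]
  -- integrated inequality
  have integ : ∀ M : ℕ, ((M : ℝ) + 1) * I11 + M * I12 + ((M : ℝ) + 1) * I22 ≤ 0 := by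
    intro M
    have hle := HJ_nonpos hlo (point M)
    have k11 := fun i => HT_inv hs hf i b11 c11.continuousOn p11
    have k12 := fun i => HT_inv hs hf i b12 c12.continuousOn p12
    have k22 := fun i => HT_inv hs hf i b22 c22.continuousOn p22
    have d11 : ∀ i, ContinuousOn (fun q => hchi M i * (b11 ((HT h)^[i] q) * R h q.1 q.2)) (HOm f) :=
      fun i => continuousOn_const.mul ((k11 i).1.mul cR.continuousOn)
    have d12 : ∀ i, ContinuousOn
        (fun q => hchi M i * hchi M (i + 1) * (b12 ((HT h)^[i] q) * R h q.1 q.2)) (HOm f) :=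
      fun i => continuousOn_const.mul ((k12 i).1.mul cR.continuousOn)
    have d22 : ∀ i, ContinuousOn
        (fun q => hchi M (i + 1) * (b22 ((HT h)^[i] q) * R h q.1 q.2)) (HOm f) :=
      fun i => continuousOn_const.mul ((k22 i).1.mul cR.continuousOn)
    have d1 : ∀ i, ContinuousOn (fun q => hchi M i * (b11 ((HT h)^[i] q) * R h q.1 q.2)
        + hchi M i * hchi M (i + 1) * (b12 ((HT h)^[i] q) * R h q.1 q.2)) (HOm f) :=
      fun i => (d11 i).add (d12 i)
    have d0 : ∀ i, ContinuousOn (fun q => (hchi M i * (b11 ((HT h)^[i] q) * R h q.1 q.2)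
        + hchi M i * hchi M (i + 1) * (b12 ((HT h)^[i] q) * R h q.1 q.2))
        + hchi M (i + 1) * (b22 ((HT h)^[i] q) * R h q.1 q.2)) (HOm f) :=
      fun i => (d1 i).add (d22 i)
    rw [HJ_sum hf.cont hlo (M + 2) (fun i q => (hchi M i * (b11 ((HT h)^[i] q) * R h q.1 q.2)
        + hchi M i * hchi M (i + 1) * (b12 ((HT h)^[i] q) * R h q.1 q.2))
        + hchi M (i + 1) * (b22 ((HT h)^[i] q) * R h q.1 q.2)) d0] at hle
    have e : ∀ i ∈ Finset.range (M + 2), HJ f (fun q =>
        (hchi M i * (b11 ((HT h)^[i] q) * R h q.1 q.2)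
        + hchi M i * hchi M (i + 1) * (b12 ((HT h)^[i] q) * R h q.1 q.2))
        + hchi M (i + 1) * (b22 ((HT h)^[i] q) * R h q.1 q.2))
        = hchi M i * I11 + hchi M i * hchi M (i + 1) * I12 + hchi M (i + 1) * I22 := by
      intro i _
      rw [HJ_add hf.cont hlo (fun q => hchi M i * (b11 ((HT h)^[i] q) * R h q.1 q.2)
        + hchi M i * hchi M (i + 1) * (b12 ((HT h)^[i] q) * R h q.1 q.2))
        (fun q => hchi M (i + 1) * (b22 ((HT h)^[i] q) * R h q.1 q.2)) (d1 i) (d22 i),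
        HJ_add hf.cont hlo (fun q => hchi M i * (b11 ((HT h)^[i] q) * R h q.1 q.2))
        (fun q => hchi M i * hchi M (i + 1) * (b12 ((HT h)^[i] q) * R h q.1 q.2)) (d11 i) (d12 i),
        HJ_smul, HJ_smul, HJ_smul, (k11 i).2.2, (k12 i).2.2, (k22 i).2.2]
    rw [Finset.sum_congr rfl e, Finset.sum_add_distrib, Finset.sum_add_distrib,
      ← Finset.sum_mul, ← Finset.sum_mul, ← Finset.sum_mul, hchi_sum, hchi_sum1, hchi_sum2] at hle
    exact hle
  rw [eQ]
  by_contra hpos
  push Not at hpos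
  obtain ⟨M, hM⟩ := exists_nat_gt ((|I11| + |I22|) / (I11 + I12 + I22))
  rw [div_lt_iff₀ hpos] at hM
  have h1 := integ M
  have h2 : -|I11| ≤ I11 := neg_abs_le _
  have h3 : -|I22| ≤ I22 := neg_abs_le _
  nlinarith

end Pool.Agent.H1.BP
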