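import Pool.Agent.H1.BP.Defs

/-
ROW Mat.  Regularity, periodicity, positivity of the matrix entries of a Tri family.
X is C^1, 6pi-quasiperiodic.  dd X (s+2pi) etc: x_k := X(s+2pi k): dd X s in (0,pi/2) because 0 < X(s+2pi)-X s (X strictly increasing, hX.pos) and < pi (hX.gap); X(s+4pi)-X(s+2pi) in (0,pi) (gap at s+2pi), and
X(s+6pi)-X(s+4pi) = X s + 2pi - X(s+4pi) in (0,pi) (gap at s+4pi).  Af d = 2d - sin(4d)/2 > 0 for 0<d (sin x < x).
dd X (s+6pi) = dd X s, sin, cos of X(s+6pi) = of X s; so the three terms of m11 s are permuted by s -> s+2pi: m11,m12,m22,Dt,sg are 2pi-periodic.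
Dt = A0A1 sin^2(x1-x0) + A1A2 sin^2(x2-x1) + A0A2 sin^2(x2-x0) > 0.  All compositions of C^1 functions; sqrt of a positive C^1 function is C^1 (ContDiff.sqrt).
Derivatives of X: deriv X (s+6pi) = deriv X s;  deriv X s + deriv X (s+2pi) + deriv X (s+4pi) = 1 (differentiate hX.sum).
-/

set_option autoImplicit false
open Set

namespace Pool.Agent.H1.BP

variable {X : ℝ → ℝ}

theorem Mat_s1 (s : ℝ) : s + 2 * Real.pi + 2 * Real.pi = s + 4 * Real.pi := by ring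

theorem Mat_s2 (s : ℝ) : s + 2 * Real.pi + 4 * Real.pi = s + 6 * Real.pi := by ring

theorem Mat_s3 (s : ℝ) : s + 4 * Real.pi + 2 * Real.pi = s + 6 * Real.pi := by ring

theorem Mat_s4 (s : ℝ) : s + 6 * Real.pi + 2 * Real.pi = s + 2 * Real.pi + 6 * Real.pi := by ring

theorem Mat_s5 (s : ℝ) : s + 6 * Real.pi + 4 * Real.pi = s + 4 * Real.pi + 6 * Real.pi := by ring

theorem X_lt (hX : Tri X) (s : ℝ) : X s < X (s + 2 * Real.pi) :=
  strictMono_of_deriv_pos hX.pos (by linarith [Real.pi_pos])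

theorem dX_per (hX : Tri X) (s : ℝ) : deriv X (s + 6 * Real.pi) = deriv X s := by
  have h1 : (fun s => X (s + 6 * Real.pi)) = fun s => X s + 2 * Real.pi := funext hX.per
  have h2 := congrArg (fun f => deriv f s) h1
  simp only [deriv_comp_add_const, deriv_add_const] at h2
  exact h2

theorem dX_sum (hX : Tri X) (s : ℝ) :
    deriv X s + deriv X (s + 2 * Real.pi) + deriv X (s + 4 * Real.pi) = 1 := by
  have hd : Differentiable ℝ X := hX.smooth.differentiable (by norm_num)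
  have h0 : HasDerivAt X (deriv X s) s := (hd s).hasDerivAt
  have h1 : HasDerivAt (fun s => X (s + 2 * Real.pi)) (deriv X (s + 2 * Real.pi)) s :=
    (hd (s + 2 * Real.pi)).hasDerivAt.comp_add_const s (2 * Real.pi)
  have h2 : HasDerivAt (fun s => X (s + 4 * Real.pi)) (deriv X (s + 4 * Real.pi)) s :=
    (hd (s + 4 * Real.pi)).hasDerivAt.comp_add_const s (4 * Real.pi)
  have h3 := (h0.add h1).add h2
  have h4 : HasDerivAt (fun s : ℝ => s) 1 s := hasDerivAt_id s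
  have h5 : (X + (fun s => X (s + 2 * Real.pi)) + fun s => X (s + 4 * Real.pi)) = fun s : ℝ => s :=
    funext hX.sum
  rw [h5] at h3
  exact h3.unique h4

theorem gap2 (hX : Tri X) (s : ℝ) : X s + 2 * Real.pi - X (s + 4 * Real.pi) < Real.pi ∧
    0 < X s + 2 * Real.pi - X (s + 4 * Real.pi) := by
  have h1 := hX.gap (s + 4 * Real.pi)
  have h2 := X_lt hX (s + 4 * Real.pi)
  rw [Mat_s3, hX.per] at h1 h2
  constructor <;> linarith

theorem Mat_dd0 (hX : Tri X) (s : ℝ) : 0 < dd X s := by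
  unfold dd
  linarith [X_lt hX s]

theorem Mat_dd1 (hX : Tri X) (s : ℝ) : 2 * dd X s < Real.pi := by
  unfold dd
  linarith [hX.gap s]

theorem Mat_dd6 (hX : Tri X) (s : ℝ) : dd X (s + 6 * Real.pi) = dd X s := by
  unfold dd
  rw [Mat_s4, hX.per, hX.per]
  ring

theorem Mat_Av6 (hX : Tri X) (s : ℝ) : Av X (s + 6 * Real.pi) = Av X s := by
  unfold Av
  rw [Mat_s4, Mat_dd6 hX]

theorem Mat_Af {d : ℝ} (hd : 0 < d) : 0 < Af d := by
  unfold Af
  have := Real.sin_lt (by linarith : 0 < 4 * d)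
  linarith

theorem Av_pos (hX : Tri X) (s : ℝ) : 0 < Av X s := Mat_Af (Mat_dd0 hX _)

theorem wv_pos (hX : Tri X) (s : ℝ) : 0 < wv X s := by
  unfold wv
  have h1 := hX.pos (s + 2 * Real.pi)
  have h2 := hX.pos (s + 4 * Real.pi)
  linarith

theorem Mat_sin (hX : Tri X) (s : ℝ) : 0 < Real.sin (2 * dd X s) :=
  Real.sin_pos_of_pos_of_lt_pi (by linarith [Mat_dd0 hX s]) (Mat_dd1 hX s)

theorem sg_pos (hX : Tri X) (s : ℝ) : 0 < sg X s :=
  mul_pos (mul_pos (Mat_sin hX _) (Mat_sin hX _)) (Mat_sin hX _)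

theorem Mat_lag (A B C a b c : ℝ) :
    (A * Real.cos a ^ 2 + B * Real.cos b ^ 2 + C * Real.cos c ^ 2) *
      (A * Real.sin a ^ 2 + B * Real.sin b ^ 2 + C * Real.sin c ^ 2) -
      (A * Real.cos a * Real.sin a + B * Real.cos b * Real.sin b + C * Real.cos c * Real.sin c) ^ 2 =
      A * B * Real.sin (b - a) ^ 2 + B * C * Real.sin (c - b) ^ 2 + A * C * Real.sin (c - a) ^ 2 := by
  rw [Real.sin_sub, Real.sin_sub, Real.sin_sub]
  ring

theorem Dt_pos (hX : Tri X) (s : ℝ) : 0 < Dt X s := by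
  unfold Dt m11 m12 m22
  rw [Mat_lag]
  have h0 := Av_pos hX s
  have h1 := Av_pos hX (s + 2 * Real.pi)
  have h2 := Av_pos hX (s + 4 * Real.pi)
  have h3 : 0 < Real.sin (X (s + 2 * Real.pi) - X s) :=
    Real.sin_pos_of_pos_of_lt_pi (by linarith [X_lt hX s]) (by linarith [hX.gap s])
  have h4 : 0 < Av X s * Av X (s + 2 * Real.pi) * Real.sin (X (s + 2 * Real.pi) - X s) ^ 2 :=
    mul_pos (mul_pos h0 h1) (pow_pos h3 2)
  have h5 : 0 ≤ Av X (s + 2 * Real.pi) * Av X (s + 4 * Real.pi) *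
      Real.sin (X (s + 4 * Real.pi) - X (s + 2 * Real.pi)) ^ 2 :=
    mul_nonneg (mul_pos h1 h2).le (sq_nonneg _)
  have h6 : 0 ≤ Av X s * Av X (s + 4 * Real.pi) * Real.sin (X (s + 4 * Real.pi) - X s) ^ 2 :=
    mul_nonneg (mul_pos h0 h2).le (sq_nonneg _)
  linarith

theorem Mat_m11 (hX : Tri X) (s : ℝ) : 0 ≤ m11 X s := by
  unfold m11
  have h0 := Av_pos hX s
  have h1 := Av_pos hX (s + 2 * Real.pi)
  have h2 := Av_pos hX (s + 4 * Real.pi)
  positivity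

theorem m11_pos (hX : Tri X) (s : ℝ) : 0 < m11 X s := by
  refine lt_of_le_of_ne (Mat_m11 hX s) fun h => ?_
  have h1 := Dt_pos hX s
  unfold Dt at h1
  rw [← h] at h1
  nlinarith [sq_nonneg (m12 X s)]

theorem m11_per (hX : Tri X) (s : ℝ) : m11 X (s + 2 * Real.pi) = m11 X s := by
  unfold m11
  rw [Mat_s1, Mat_s2, Mat_Av6 hX, hX.per, Real.cos_add_two_pi]
  ring

theorem m12_per (hX : Tri X) (s : ℝ) : m12 X (s + 2 * Real.pi) = m12 X s := by
  unfold m12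
  rw [Mat_s1, Mat_s2, Mat_Av6 hX, hX.per, Real.cos_add_two_pi, Real.sin_add_two_pi]
  ring

theorem m22_per (hX : Tri X) (s : ℝ) : m22 X (s + 2 * Real.pi) = m22 X s := by
  unfold m22
  rw [Mat_s1, Mat_s2, Mat_Av6 hX, hX.per, Real.sin_add_two_pi]
  ring

theorem Dt_per (hX : Tri X) (s : ℝ) : Dt X (s + 2 * Real.pi) = Dt X s := by
  unfold Dt
  rw [m11_per hX, m12_per hX, m22_per hX]

theorem sg_per (hX : Tri X) (s : ℝ) : sg X (s + 2 * Real.pi) = sg X s := by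
  unfold sg
  rw [Mat_s1, Mat_s2, Mat_dd6 hX]
  ring

theorem Mat_dd_C1 (hX : Tri X) : ContDiff ℝ 1 (dd X) := by
  have h := hX.smooth
  unfold dd
  fun_prop

theorem Mat_Af_C1 : ContDiff ℝ 1 Af := by
  unfold Af
  fun_prop

theorem Mat_sh {F : ℝ → ℝ} (hF : ContDiff ℝ 1 F) (a : ℝ) : ContDiff ℝ 1 (fun s => F (s + a)) :=
  hF.comp (contDiff_id.add contDiff_const)

theorem Av_C1 (hX : Tri X) : ContDiff ℝ 1 (Av X) :=
  Mat_Af_C1.comp (Mat_sh (Mat_dd_C1 hX) (2 * Real.pi))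

theorem sg_C1 (hX : Tri X) : ContDiff ℝ 1 (sg X) := by
  have h := Mat_dd_C1 hX
  have h2 := Mat_sh h (2 * Real.pi)
  have h4 := Mat_sh h (4 * Real.pi)
  unfold sg
  fun_prop

theorem m11_C1 (hX : Tri X) : ContDiff ℝ 1 (m11 X) := by
  have h := hX.smooth
  have h2 := Mat_sh h (2 * Real.pi)
  have h4 := Mat_sh h (4 * Real.pi)
  have k := Av_C1 hX
  have k2 := Mat_sh k (2 * Real.pi)
  have k4 := Mat_sh k (4 * Real.pi)
  unfold m11
  fun_prop

theorem m12_C1 (hX : Tri X) : ContDiff ℝ 1 (m12 X) := by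
  have h := hX.smooth
  have h2 := Mat_sh h (2 * Real.pi)
  have h4 := Mat_sh h (4 * Real.pi)
  have k := Av_C1 hX
  have k2 := Mat_sh k (2 * Real.pi)
  have k4 := Mat_sh k (4 * Real.pi)
  unfold m12
  fun_prop

theorem m22_C1 (hX : Tri X) : ContDiff ℝ 1 (m22 X) := by
  have h := hX.smooth
  have h2 := Mat_sh h (2 * Real.pi)
  have h4 := Mat_sh h (4 * Real.pi)
  have k := Av_C1 hX
  have k2 := Mat_sh k (2 * Real.pi)
  have k4 := Mat_sh k (4 * Real.pi)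
  unfold m22
  fun_prop

theorem Dt_C1 (hX : Tri X) : ContDiff ℝ 1 (Dt X) :=
  ((m11_C1 hX).mul (m22_C1 hX)).sub ((m12_C1 hX).pow 2)

theorem Mat_sq_C1 (hX : Tri X) : ContDiff ℝ 1 (fun s => Real.sqrt (Dt X s)) :=
  (Dt_C1 hX).sqrt fun s => (Dt_pos hX s).ne'

theorem Mat_sq0 (hX : Tri X) (s : ℝ) : Real.sqrt (Dt X s) ≠ 0 := (Real.sqrt_pos.2 (Dt_pos hX s)).ne'

theorem g11_C1 (hX : Tri X) : ContDiff ℝ 1 (g11 X) :=
  (m11_C1 hX).div (Mat_sq_C1 hX) (Mat_sq0 hX)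

theorem g12_C1 (hX : Tri X) : ContDiff ℝ 1 (g12 X) :=
  (m12_C1 hX).div (Mat_sq_C1 hX) (Mat_sq0 hX)

theorem g22_C1 (hX : Tri X) : ContDiff ℝ 1 (g22 X) :=
  (m22_C1 hX).div (Mat_sq_C1 hX) (Mat_sq0 hX)

theorem g_det (hX : Tri X) (s : ℝ) : g11 X s * g22 X s - g12 X s ^ 2 = 1 := by
  have h1 : Real.sqrt (Dt X s) ^ 2 = Dt X s := Real.sq_sqrt (Dt_pos hX s).le
  have h2 : Dt X s = m11 X s * m22 X s - m12 X s ^ 2 := rfl
  have h3 := Mat_sq0 hX s
  unfold g11 g22 g12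
  have h4 : m11 X s / Real.sqrt (Dt X s) * (m22 X s / Real.sqrt (Dt X s)) -
      (m12 X s / Real.sqrt (Dt X s)) ^ 2 = (m11 X s * m22 X s - m12 X s ^ 2) / Real.sqrt (Dt X s) ^ 2 := by
    field_simp
  rw [h4, h1, ← h2]
  exact div_self (Dt_pos hX s).ne'

theorem g11_pos (hX : Tri X) (s : ℝ) : 0 < g11 X s :=
  div_pos (m11_pos hX s) (Real.sqrt_pos.2 (Dt_pos hX s))

theorem g11_per (hX : Tri X) (s : ℝ) : g11 X (s + 2 * Real.pi) = g11 X s := by
  unfold g11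
  rw [m11_per hX, Dt_per hX]

theorem g12_per (hX : Tri X) (s : ℝ) : g12 X (s + 2 * Real.pi) = g12 X s := by
  unfold g12
  rw [m12_per hX, Dt_per hX]

theorem g22_per (hX : Tri X) (s : ℝ) : g22 X (s + 2 * Real.pi) = g22 X s := by
  unfold g22
  rw [m22_per hX, Dt_per hX]

/-- the energy density (vertex `x_0`) is 6 pi periodic in `s` -/
theorem ed_per (hX : Tri X) (s : ℝ) (w : ℂ) : ed X (s + 6 * Real.pi) w = ed X s w := by
  have h1 : en (X (s + 6 * Real.pi)) = en (X s) := by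
    unfold en
    rw [hX.per, Real.cos_add_two_pi, Real.sin_add_two_pi]
  have h2 : wv X (s + 6 * Real.pi) = wv X s := by
    unfold wv
    rw [Mat_s4, Mat_s5, dX_per hX, dX_per hX]
  unfold ed
  rw [h1, h2, Mat_Av6 hX]

end Pool.Agent.H1.BP
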