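import Pool.Agent.H1.BP.Der

/-
ROW Mx1.  Calibration: c(x,y) = S(x,y) - G(y) + G(x), where G' = g, g(x) = p0 x (f x), is maximal exactly along the circle.
(1) g is continuous (p0_c, hf.cont); G x := int_0^x g, HasDerivAt G (g x) x.
(2) g (f w) = p0 (f w) (f (f w)) = p1 w (f w).
(3) for x < y < x + 2pi: d/dy c = p1 x y - g y. Let w with f w = y (IVT / surjectivity), so g y = p1 w y and y - 2pi < w < y (hf.hi, hf.lo).
    If y < f x then w < x, so p1 w y < p1 x y (p1_mono on Icc (y-2pi) y) and d/dy c > 0; if y > f x then d/dy c < 0.  Hence c(x,y) <= c(x, f x) for all y in (x, x+2pi).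
(4) m(x) := c(x, f x) is constant: for x' near x (so that f x in (x', x'+2pi) and f x' in (x, x+2pi)):
    c(x', f x) - c(x, f x) <= m(x') - m(x) <= c(x', f x') - c(x, f x').  c_x(v, y) = -p0 v y + g v, continuous, and zero at (x, f x). By the mean value theorem both ends are (x'-x) * c_x(v,y) with
    v between x and x' and y in {f x, f x'}, so they are o(x'-x): HasDerivAt m 0 x. is_const_of_deriv_eq_zero.
-/

set_option autoImplicit false
open Set

namespace Pool.Agent.H1.BP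

variable {h : ℝ → ℝ}

private theorem Mx1_surj {f : ℝ → ℝ} (hf : Circle h f) (y : ℝ) :
    ∃ w, f w = y ∧ y - 2 * Real.pi < w ∧ w < y := by
  have h1 : f (y - 2 * Real.pi) < y := by
    have := hf.hi (y - 2 * Real.pi)
    linarith
  have h2 : y < f y := hf.lo y
  have hp : y - 2 * Real.pi ≤ y := by linarith [Real.pi_pos]
  obtain ⟨w, hw, e⟩ := intermediate_value_Icc hp hf.cont.continuousOn ⟨h1.le, h2.le⟩
  refine ⟨w, e, lt_of_le_of_ne hw.1 ?_, lt_of_le_of_ne hw.2 ?_⟩
  · intro h3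
    rw [h3, e] at h1
    exact lt_irrefl _ h1
  · intro h3
    rw [h3] at e
    rw [e] at h2
    exact lt_irrefl _ h2

private theorem Mx1_gt (hs : Supp h) {f : ℝ → ℝ} (hf : Circle h f) {x y : ℝ} (h1 : x < y)
    (_ : y < x + 2 * Real.pi) (h3 : y < f x) : p0 h y (f y) < p1 h x y := by
  obtain ⟨w, e, w1, w2⟩ := Mx1_surj hf y
  have hwx : w < x := by
    rw [← e] at h3
    exact hf.mono.lt_iff_lt.1 h3
  have h4 := p1_mono hs y ⟨w1.le, w2.le⟩ ⟨by linarith, h1.le⟩ hwx
  have h5 := hf.inv w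
  rw [e] at h5
  rw [← h5]
  exact h4

private theorem Mx1_lt (hs : Supp h) {f : ℝ → ℝ} (hf : Circle h f) {x y : ℝ} (h1 : x < y)
    (h2 : y < x + 2 * Real.pi) (h3 : f x < y) : p1 h x y < p0 h y (f y) := by
  obtain ⟨w, e, w1, w2⟩ := Mx1_surj hf y
  have hwx : x < w := by
    rw [← e] at h3
    exact hf.mono.lt_iff_lt.1 h3
  have h4 := p1_mono hs y ⟨by linarith, h1.le⟩ ⟨w1.le, w2.le⟩ hwx
  have h5 := hf.inv w
  rw [e] at h5
  rw [← h5]
  exact h4

private theorem Mx1_gc (hs : Supp h) {f : ℝ → ℝ} (hf : Circle h f) :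
    Continuous (fun x => p0 h x (f x)) :=
  (p0_c hs).comp (continuous_id.prodMk hf.cont)

private theorem Mx1_max (hs : Supp h) {f G : ℝ → ℝ} (hf : Circle h f)
    (hG : ∀ x, HasDerivAt G (p0 h x (f x)) x) {x y : ℝ} (h1 : x < y) (h2 : y < x + 2 * Real.pi) :
    SS h x y - G y + G x ≤ SS h x (f x) - G (f x) + G x := by
  have hd : ∀ z, HasDerivAt (fun z => SS h x z - G z + G x) (p1 h x z - p0 h z (f z)) z :=
    fun z => ((SS_y hs x z).sub (hG z)).add_const _
  have hc : ∀ s : Set ℝ, ContinuousOn (fun z => SS h x z - G z + G x) s :=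
    fun s z _ => (hd z).continuousAt.continuousWithinAt
  have hdf : ∀ s : Set ℝ, DifferentiableOn ℝ (fun z => SS h x z - G z + G x) s :=
    fun s z _ => (hd z).differentiableAt.differentiableWithinAt
  rcases lt_trichotomy y (f x) with h3 | h3 | h3
  · have hm := monotoneOn_of_deriv_nonneg (convex_Icc y (f x)) (hc _) (hdf _) (fun z hz => by
      rw [interior_Icc] at hz
      rw [(hd z).deriv]
      have := Mx1_gt hs hf (h1.trans hz.1) (hz.2.trans (hf.hi x)) hz.2
      linarith)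
    exact hm (left_mem_Icc.2 h3.le) (right_mem_Icc.2 h3.le) h3.le
  · rw [h3]
  · have hm := antitoneOn_of_deriv_nonpos (convex_Icc (f x) y) (hc _) (hdf _) (fun z hz => by
      rw [interior_Icc] at hz
      rw [(hd z).deriv]
      have := Mx1_lt hs hf ((hf.lo x).trans hz.1) (hz.2.trans h2) hz.1
      linarith)
    exact hm (left_mem_Icc.2 h3.le) (right_mem_Icc.2 h3.le) h3.le

private theorem Mx1_deriv (hs : Supp h) {f G : ℝ → ℝ} (hf : Circle h f)
    (hG : ∀ x, HasDerivAt G (p0 h x (f x)) x) (x : ℝ) :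
    HasDerivAt (fun x => SS h x (f x) - G (f x) + G x) 0 x := by
  rw [hasDerivAt_iff_isLittleO, Asymptotics.isLittleO_iff]
  intro ε hε
  have hF : Continuous (fun z : ℝ × ℝ => -p0 h z.1 z.2 + p0 h z.1 (f z.1)) :=
    (p0_c hs).neg.add ((Mx1_gc hs hf).comp continuous_fst)
  have hF0 : -p0 h (x, f x).1 (x, f x).2 + p0 h (x, f x).1 (f (x, f x).1) = 0 := by simp
  have h1 := hF.tendsto (x, f x)
  rw [hF0] at h1
  have h2 := h1.eventually (Metric.ball_mem_nhds (0 : ℝ) hε)
  rw [Metric.eventually_nhds_iff] at h2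
  obtain ⟨δ, hδ, h3⟩ := h2
  have h4 : ∀ᶠ x' in nhds x, dist (f x') (f x) < δ :=
    (hf.cont.tendsto x).eventually (Metric.ball_mem_nhds (f x) hδ)
  have h5 : ∀ᶠ x' in nhds x, dist x' x < δ := Metric.ball_mem_nhds x hδ
  have h6 : ∀ᶠ x' in nhds x, f x' ∈ Ioo x (x + 2 * Real.pi) :=
    (hf.cont.tendsto x).eventually (Ioo_mem_nhds (hf.lo x) (hf.hi x))
  have h7 : ∀ᶠ x' in nhds x, x' ∈ Ioo (f x - 2 * Real.pi) (f x) :=
    Ioo_mem_nhds (by linarith [hf.hi x]) (hf.lo x)
  filter_upwards [h4, h5, h6, h7] with x' k4 k5 k6 k7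
  have key : ∀ y, dist y (f x) < δ →
      ‖(SS h x' y - G y + G x') - (SS h x y - G y + G x)‖ ≤ ε * ‖x' - x‖ := by
    intro y hy
    refine Convex.norm_image_sub_le_of_norm_hasDerivWithin_le (s := Metric.ball x δ)
      (f := fun v => SS h v y - G y + G v) (f' := fun v => -p0 h v y + p0 h v (f v))
      (fun v _ => (((SS_x hs v y).sub_const _).add (hG v)).hasDerivWithinAt) (fun v hv => ?_)
      (convex_ball x δ) (Metric.mem_ball_self hδ) k5
    have hd : dist (v, y) (x, f x) < δ := by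
      rw [Prod.dist_eq]
      exact max_lt hv hy
    have h8 := h3 hd
    rw [dist_zero_right] at h8
    exact h8.le
  have a1 := key (f x) (by rw [dist_self]; exact hδ)
  have a2 := key (f x') k4
  have b1 := Mx1_max hs hf hG k6.1 k6.2
  have b2 := Mx1_max hs hf hG (x := x') (y := f x) k7.2 (by linarith [k7.1])
  rw [smul_zero, sub_zero]
  rw [Real.norm_eq_abs, abs_le] at a1 a2 ⊢
  constructor
  · linarith [a1.1]
  · linarith [a2.2]

/-- the calibration inequality -/
theorem calib (hs : Supp h) {f : ℝ → ℝ} (hf : Circle h f) :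
    ∃ (G : ℝ → ℝ) (m : ℝ), (∀ x, HasDerivAt G (p0 h x (f x)) x) ∧
      (∀ x, SS h x (f x) - G (f x) + G x = m) ∧
      ∀ x y, x < y → y < x + 2 * Real.pi → SS h x y - G y + G x ≤ m := by
  obtain ⟨G, hG⟩ : ∃ G : ℝ → ℝ, ∀ x, HasDerivAt G (p0 h x (f x)) x :=
    ⟨fun x => ∫ t in (0 : ℝ)..x, p0 h t (f t),
      fun x => ((Mx1_gc hs hf).integral_hasStrictDerivAt 0 x).hasDerivAt⟩
  have hm : ∀ x, SS h x (f x) - G (f x) + G x = SS h 0 (f 0) - G (f 0) + G 0 := fun x =>
    is_const_of_deriv_eq_zero (f := fun x => SS h x (f x) - G (f x) + G x)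
      (fun z => (Mx1_deriv hs hf hG z).differentiableAt) (fun z => (Mx1_deriv hs hf hG z).deriv) x 0
  refine ⟨G, SS h 0 (f 0) - G (f 0) + G 0, hG, hm, fun x y h1 h2 => ?_⟩
  rw [← hm x]
  exact Mx1_max hs hf hG h1 h2

end Pool.Agent.H1.BP
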