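import Pool.Agent.H1.BP.Der

/-
ROW Nxt.  The next line of an orbit.  Zf h y p = the z in [y, y+2pi] with p0(y,z) = p; nxt h x y = Zf h y (p1 h x y).
p0(y,.) is continuous and strictly decreasing on [y,y+2pi] from h(y) to -h(y+pi) (Der).
(1) Zf_spec: IVT gives z with p0 y z = p; by strict antitonicity {w in Icc | p <= p0 y w} = Icc y z, whose sSup is z.
(2) Zf_cont: joint continuity on K = {(y,p) | p in Icc (-h(y+pi)) (h y)}: sequential argument / or: for e>0, near (y0,p0v) with z0 = Zf: if z0-e >= y0 then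
   p0(y0,z0-e) > p0v, so p0(y,z0-e) > p nearby, hence z > z0-e (if z <= z0 - e then p0 y z >= p0 y (z0-e) > p when z0-e in Icc; treat the ends: when z0 - e < y0
   then z >= y > z0 - e nearby).  Same from above.  (ContinuousOn via Metric.continuousOn_iff or squeeze.)
(3) p1_mem: x <= y <= x+2pi => p1 x y in Icc (-h(y+pi)) (h y): p1_mono between y-2pi and y.
(4) nxt_circle: z = f (f x) satisfies p0 (f x) z = p1 x (f x) (hf.inv) and f x < z < f x + 2pi.
(5) region: x <= y <= f x. Let w with f w = y (w <= x, since f is strictly monotone and surjective; w <= y, w > y - 2pi by hf.hi). p1 w y <= p1 x y <= p1 y y, i.e. (hf.inv w: p1 w (f w) = p0 (f w) (f (f w)))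
   p0 y (f y) <= p0 y (nxt x y) <= h y = p0 y y, so y <= nxt x y <= f y by strict antitonicity. Strict version the same.
-/

set_option autoImplicit false
open Set

namespace Pool.Agent.H1.BP

noncomputable section

/-- the solution `z ∈ [y, y + 2π]` of `p0 y z = p` -/
def Zf (h : ℝ → ℝ) (y p : ℝ) : ℝ := sSup {z | z ∈ Icc y (y + 2 * Real.pi) ∧ p ≤ p0 h y z}

/-- the line after `x, y` -/
def nxt (h : ℝ → ℝ) (x y : ℝ) : ℝ := Zf h y (p1 h x y)

end

variable {h : ℝ → ℝ}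

theorem Nxt_ex (hs : Supp h) {y p : ℝ} (hp : p ∈ Icc (-h (y + Real.pi)) (h y)) :
    ∃ z ∈ Icc y (y + 2 * Real.pi), p0 h y z = p := by
  have hpi := Real.pi_pos
  have hc : ContinuousOn (fun z => p0 h y z) (Icc y (y + 2 * Real.pi)) :=
    ((p0_c hs).comp (continuous_const.prodMk continuous_id)).continuousOn
  have h1 := intermediate_value_Icc' (by linarith : y ≤ y + 2 * Real.pi) hc
  have h2 : p ∈ Icc (p0 h y (y + 2 * Real.pi)) (p0 h y y) := by
    rw [p0_end, p0_diag]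
    exact hp
  obtain ⟨z, hz, he⟩ := h1 h2
  exact ⟨z, hz, he⟩

theorem Zf_unique (hs : Supp h) {y p z : ℝ} (hz : z ∈ Icc y (y + 2 * Real.pi)) (he : p0 h y z = p) :
    Zf h y p = z := by
  have hset : {w | w ∈ Icc y (y + 2 * Real.pi) ∧ p ≤ p0 h y w} = Icc y z := by
    ext w
    constructor
    · rintro ⟨hw, hpw⟩
      rw [← he] at hpw
      exact ⟨hw.1, ((p0_anti hs y).le_iff_ge hz hw).1 hpw⟩
    · intro hw
      have hw' : w ∈ Icc y (y + 2 * Real.pi) := ⟨hw.1, hw.2.trans hz.2⟩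
      refine ⟨hw', ?_⟩
      rw [← he]
      exact ((p0_anti hs y).le_iff_ge hz hw').2 hw.2
  unfold Zf
  rw [hset, csSup_Icc hz.1]

theorem Zf_mem (hs : Supp h) {y p : ℝ} (hp : p ∈ Icc (-h (y + Real.pi)) (h y)) :
    Zf h y p ∈ Icc y (y + 2 * Real.pi) := by
  obtain ⟨z, hz, he⟩ := Nxt_ex hs hp
  rw [Zf_unique hs hz he]
  exact hz

theorem Zf_spec (hs : Supp h) {y p : ℝ} (hp : p ∈ Icc (-h (y + Real.pi)) (h y)) :
    p0 h y (Zf h y p) = p := by
  obtain ⟨z, hz, he⟩ := Nxt_ex hs hp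
  rw [Zf_unique hs hz he]
  exact he

theorem Zf_cont (hs : Supp h) :
    ContinuousOn (fun q : ℝ × ℝ => Zf h q.1 q.2) {q | q.2 ∈ Icc (-h (q.1 + Real.pi)) (h q.1)} := by
  intro q0 hq0
  have hpi := Real.pi_pos
  have hq0' : q0.2 ∈ Icc (-h (q0.1 + Real.pi)) (h q0.1) := hq0
  have hm := Zf_mem hs hq0'
  have hsp := Zf_spec hs hq0'
  have cc : ∀ a : ℝ, Continuous (fun q : ℝ × ℝ => p0 h q.1 a - q.2) := fun a =>
    ((p0_c hs).comp (continuous_fst.prodMk continuous_const)).sub continuous_snd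
  have hK : ∀ᶠ q in nhdsWithin q0 {q : ℝ × ℝ | q.2 ∈ Icc (-h (q.1 + Real.pi)) (h q.1)},
      q.2 ∈ Icc (-h (q.1 + Real.pi)) (h q.1) := eventually_mem_nhdsWithin
  refine tendsto_order.2 ⟨fun a ha => ?_, fun b hb => ?_⟩
  · rcases hm.1.lt_or_eq with hlt | heq
    · obtain ⟨a', ha1, ha2⟩ := exists_between (max_lt ha hlt)
      have e1 : ∀ᶠ q : ℝ × ℝ in nhds q0, 0 < p0 h q.1 a' - q.2 := by
        refine (cc a').continuousAt.eventually_const_lt ?_
        have : p0 h q0.1 (Zf h q0.1 q0.2) < p0 h q0.1 a' :=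
          (p0_anti hs q0.1) ⟨(le_max_right _ _).trans ha1.le, ha2.le.trans hm.2⟩ hm ha2
        linarith
      have e2 : ∀ᶠ q : ℝ × ℝ in nhds q0, q.1 < a' :=
        continuous_fst.continuousAt.eventually_lt_const ((le_max_right _ _).trans_lt ha1)
      have e3 : ∀ᶠ q : ℝ × ℝ in nhds q0, a' - 2 * Real.pi < q.1 :=
        continuous_fst.continuousAt.eventually_const_lt (by have := hm.2; linarith)
      filter_upwards [hK, nhdsWithin_le_nhds e1, nhdsWithin_le_nhds e2, nhdsWithin_le_nhds e3]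
        with q k1 k2 k3 k4
      have hmq := Zf_mem hs k1
      have hsq := Zf_spec hs k1
      have haq : a' ∈ Icc q.1 (q.1 + 2 * Real.pi) := ⟨k3.le, by linarith⟩
      have h5 : p0 h q.1 (Zf h q.1 q.2) < p0 h q.1 a' := by linarith
      have h6 := ((p0_anti hs q.1).lt_iff_gt hmq haq).1 h5
      exact (le_max_left _ _).trans_lt (ha1.trans h6)
    · have e2 : ∀ᶠ q : ℝ × ℝ in nhds q0, a < q.1 :=
        continuous_fst.continuousAt.eventually_const_lt (by rw [heq]; exact ha)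
      filter_upwards [hK, nhdsWithin_le_nhds e2] with q k1 k2
      exact k2.trans_le (Zf_mem hs k1).1
  · rcases hm.2.lt_or_eq with hlt | heq
    · obtain ⟨b', hb1, hb2⟩ := exists_between (lt_min hb hlt)
      have e1 : ∀ᶠ q : ℝ × ℝ in nhds q0, p0 h q.1 b' - q.2 < 0 := by
        refine (cc b').continuousAt.eventually_lt_const ?_
        have : p0 h q0.1 b' < p0 h q0.1 (Zf h q0.1 q0.2) :=
          (p0_anti hs q0.1) hm ⟨hm.1.trans hb1.le, hb2.le.trans (min_le_right _ _)⟩ hb1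
        linarith
      have e2 : ∀ᶠ q : ℝ × ℝ in nhds q0, q.1 < b' :=
        continuous_fst.continuousAt.eventually_lt_const (hm.1.trans_lt hb1)
      have e3 : ∀ᶠ q : ℝ × ℝ in nhds q0, b' - 2 * Real.pi < q.1 :=
        continuous_fst.continuousAt.eventually_const_lt (by
          have := hb2.trans_le (min_le_right _ _)
          linarith)
      filter_upwards [hK, nhdsWithin_le_nhds e1, nhdsWithin_le_nhds e2, nhdsWithin_le_nhds e3]
        with q k1 k2 k3 k4
      have hmq := Zf_mem hs k1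
      have hsq := Zf_spec hs k1
      have hbq : b' ∈ Icc q.1 (q.1 + 2 * Real.pi) := ⟨k3.le, by linarith⟩
      have h5 : p0 h q.1 b' < p0 h q.1 (Zf h q.1 q.2) := by linarith
      have h6 := ((p0_anti hs q.1).lt_iff_gt hbq hmq).1 h5
      exact h6.trans (hb2.trans_le (min_le_left _ _))
    · have e2 : ∀ᶠ q : ℝ × ℝ in nhds q0, q.1 < b - 2 * Real.pi :=
        continuous_fst.continuousAt.eventually_lt_const (by
          have hb' : Zf h q0.1 q0.2 < b := hb
          linarith)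
      filter_upwards [hK, nhdsWithin_le_nhds e2] with q k1 k2
      have := (Zf_mem hs k1).2
      show Zf h q.1 q.2 < b
      linarith

theorem Nxt_x {x y : ℝ} (h1 : x ≤ y) (h2 : y ≤ x + 2 * Real.pi) :
    x ∈ Icc (y - 2 * Real.pi) y := ⟨by linarith, h1⟩

theorem p1_mem (hs : Supp h) {x y : ℝ} (h1 : x ≤ y) (h2 : y ≤ x + 2 * Real.pi) :
    p1 h x y ∈ Icc (-h (y + Real.pi)) (h y) := by
  have hpi := Real.pi_pos
  have hx := Nxt_x h1 h2
  have hm := (p1_mono hs y).monotoneOn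
  have ha : y - 2 * Real.pi ∈ Icc (y - 2 * Real.pi) y := ⟨le_rfl, by linarith⟩
  have hb : y ∈ Icc (y - 2 * Real.pi) y := ⟨by linarith, le_rfl⟩
  constructor
  · have := hm ha hx hx.1
    rw [← p1_end hs y]
    exact this
  · have := hm hx hb hx.2
    rw [← p1_diag (h := h) y]
    exact this

theorem nxt_spec (hs : Supp h) {x y : ℝ} (h1 : x ≤ y) (h2 : y ≤ x + 2 * Real.pi) :
    p0 h y (nxt h x y) = p1 h x y := Zf_spec hs (p1_mem hs h1 h2)

theorem nxt_mem (hs : Supp h) {x y : ℝ} (h1 : x ≤ y) (h2 : y ≤ x + 2 * Real.pi) :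
    nxt h x y ∈ Icc y (y + 2 * Real.pi) := Zf_mem hs (p1_mem hs h1 h2)

theorem nxt_unique (hs : Supp h) {x y z : ℝ} (hz : z ∈ Icc y (y + 2 * Real.pi))
    (he : p0 h y z = p1 h x y) : nxt h x y = z := Zf_unique hs hz he

theorem nxt_cont (hs : Supp h) :
    ContinuousOn (fun q : ℝ × ℝ => nxt h q.1 q.2) {q | q.1 ≤ q.2 ∧ q.2 ≤ q.1 + 2 * Real.pi} := by
  have h1 : ContinuousOn (fun q : ℝ × ℝ => (q.2, p1 h q.1 q.2))
      {q | q.1 ≤ q.2 ∧ q.2 ≤ q.1 + 2 * Real.pi} :=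
    (continuous_snd.prodMk (p1_c hs)).continuousOn
  exact (Zf_cont hs).comp h1 (fun q hq => p1_mem hs hq.1 hq.2)

theorem nxt_per (hs : Supp h) {x y : ℝ} (h1 : x ≤ y) (h2 : y ≤ x + 2 * Real.pi) :
    nxt h (x + 2 * Real.pi) (y + 2 * Real.pi) = nxt h x y + 2 * Real.pi := by
  have hm := nxt_mem hs h1 h2
  refine nxt_unique hs ⟨by linarith [hm.1], by linarith [hm.2]⟩ ?_
  rw [p0_per hs, p1_per hs]
  exact nxt_spec hs h1 h2

theorem nxt_circle (hs : Supp h) {f : ℝ → ℝ} (hf : Circle h f) (x : ℝ) :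
    nxt h x (f x) = f (f x) :=
  nxt_unique hs ⟨(hf.lo _).le, (hf.hi _).le⟩ (hf.inv x).symm

theorem Nxt_surj {f : ℝ → ℝ} (hf : Circle h f) (y : ℝ) :
    ∃ w ∈ Icc (y - 2 * Real.pi) y, f w = y := by
  have hpi := Real.pi_pos
  have h1 := intermediate_value_Icc (by linarith : y - 2 * Real.pi ≤ y) hf.cont.continuousOn
  have h2 : y ∈ Icc (f (y - 2 * Real.pi)) (f y) := by
    have h3 := hf.per (y - 2 * Real.pi)
    rw [sub_add_cancel] at h3
    have h4 := hf.hi y
    exact ⟨by linarith, (hf.lo y).le⟩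
  obtain ⟨w, hw, he⟩ := h1 h2
  exact ⟨w, hw, he⟩

theorem nxt_region (hs : Supp h) {f : ℝ → ℝ} (hf : Circle h f) {x y : ℝ} (h1 : x ≤ y) (h2 : y ≤ f x) :
    y ≤ nxt h x y ∧ nxt h x y ≤ f y := by
  have h3 : y ≤ x + 2 * Real.pi := h2.trans (hf.hi x).le
  have hm := nxt_mem hs h1 h3
  refine ⟨hm.1, ?_⟩
  obtain ⟨w, hw, he⟩ := Nxt_surj hf y
  have hwx : w ≤ x := hf.mono.le_iff_le.1 (by rw [he]; exact h2)
  have h4 : p1 h w y ≤ p1 h x y := (p1_mono hs y).monotoneOn hw (Nxt_x h1 h3) hwx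
  have h5 := hf.inv w
  rw [he] at h5
  rw [h5, ← nxt_spec hs h1 h3] at h4
  exact ((p0_anti hs y).le_iff_ge ⟨(hf.lo y).le, (hf.hi y).le⟩ hm).1 h4

theorem nxt_region_lt (hs : Supp h) {f : ℝ → ℝ} (hf : Circle h f) {x y : ℝ} (h1 : x < y) (h2 : y < f x) :
    y < nxt h x y ∧ nxt h x y < f y := by
  have hpi := Real.pi_pos
  have h3 : y ≤ x + 2 * Real.pi := h2.le.trans (hf.hi x).le
  have hm := nxt_mem hs h1.le h3
  have hx := Nxt_x h1.le h3
  constructor
  · have hb : y ∈ Icc (y - 2 * Real.pi) y := ⟨by linarith, le_rfl⟩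
    have h4 : p1 h x y < p1 h y y := (p1_mono hs y) hx hb h1
    rw [p1_diag, ← p0_diag (h := h) y, ← nxt_spec hs h1.le h3] at h4
    exact ((p0_anti hs y).lt_iff_gt hm ⟨le_rfl, by linarith⟩).1 h4
  · obtain ⟨w, hw, he⟩ := Nxt_surj hf y
    have hwx : w < x := hf.mono.lt_iff_lt.1 (by rw [he]; exact h2)
    have h4 : p1 h w y < p1 h x y := (p1_mono hs y) hw hx hwx
    have h5 := hf.inv w
    rw [he] at h5
    rw [h5, ← nxt_spec hs h1.le h3] at h4
    exact ((p0_anti hs y).lt_iff_gt ⟨(hf.lo y).le, (hf.hi y).le⟩ hm).1 h4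

end Pool.Agent.H1.BP
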