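import Pool.Agent.H1.BP.Defs

/-
ROW PwA.  The pointwise inequality in plain real variables (heart of the project; pure algebra + trigonometry).
Vertices j = 0,1,2, E_j = en x_j, opposite angles b_j: x1-x0 = pi-b2, x2-x1 = pi-b0, x0+2pi-x2 = pi-b1, b_j in (0,pi), b0+b1+b2 = pi.  s_j = sin b_j, c_j = cos b_j.
A_j = pi - b_j + s_j c_j  (= Af((pi-b_j)/2), since sin(2pi-2b) = -sin 2b).   A0+A1+A2 = 2pi + 2 s0 s1 s2  (sum of sin b cos b = 2 s0 s1 s2 when the b's add up to pi).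
M = sum A_j E_j E_j^T;  MJM = (det M) J;   det M = A0 A1 s2^2 + A1 A2 s0^2 + A2 A0 s1^2 > 0.
Given r put xi := -J M^{-1}... precisely xi with M xi = J r, i.e. xi = M^{-1} J r (2x2 inverse); e_j := E_j . xi.  Then
 (i)   cr r w = w . (J r) = w . (M xi) = sum A_j (w.E_j) e_j.
 (ii)  sum A_j (w.E_j)^2 / w_j + 8 pi sum A_j (w.E_j) e_j >= - 16 pi^2 sum A_j w_j e_j^2 = - 8 pi^2 sum A_j (1 - v_j) e_j^2   (complete squares; w_j = (1-v_j)/2 > 0).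
 (iii) r^T M r = Dt * xi^T M xi = Dt * sum A_j e_j^2;   |r|^2 + |M r|^2/Dt = tr(M) * (r^T M r)/Dt = tr(M) sum A_j e_j^2  (Cayley-Hamilton M^2 = tr M M - Dt I);  tr M = A0+A1+A2.
 (iv)  cr (M r) (M' r) / Dt = xi^T M J M' xi = sum_{i,j} ( A_i A_j' e_i e_j sin(x_i-x_j) + A_i A_j v_j (e_i^2 - 2 cos(x_i-x_j) e_i e_j) )
       (M' = sum A_j' E_j E_j^T + A_j v_j ((JE_j)E_j^T + E_j (JE_j)^T);  E_i.JE_j = sin(x_i-x_j), E_i.E_j = cos(x_i-x_j), E_i.xi = cos(x_i-x_j) e_j + sin(x_i-x_j) (JE_j.xi)).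
 (v)   sin(x0-x1) = -s2, cos(x0-x1) = -c2; sin(x1-x2) = -s0, cos(x1-x2) = -c0; sin(x2-x0) = -s1, cos(x2-x0) = -c1.   s0 e0 + s1 e1 + s2 e2 = 0.
       |xi|^2 s2^2 = e0^2+e1^2+2c2 e0 e1, |xi|^2 s1^2 = e0^2+e2^2+2 c1 e0 e2, |xi|^2 s0^2 = e1^2+e2^2+2 c0 e1 e2.
 Claim: T := tr(M) sum A_j e_j^2 + (iv) - 2 pi sum A_j (1-v_j) e_j^2 - 2 s0s1s2 sum A_j e_j^2 >= 0.  T is linear in (v0,v1,v2) when the terms without v are multiplied by v0+v1+v2 = 1; coefficient of v0: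
   T_0 = nu0 (A0 |xi|^2 + 2 s0 e1 e2), nu0 = A1 s2^2 + A2 s1^2  (+ the same sum 2 s0s1s2 sum A e^2 - itself = 0),   and cyclically.
   (uses A0+A1+A2 = 2pi+2s0s1s2, A1' = 2 s1^2 v0 + ..., A2' = -2 s2^2 v0 + ..., and s0 e0 = -s1 e1 - s2 e2.)
   e1 e2 >= -(1+c0)/2 |xi|^2: indeed |xi|^2 (1 + c0) + 2 e1 e2 = |xi|^2 - |xi|^2 cos(x2-x1) + 2 e1 e2 = 2 ((E1+E2)/|E1+E2| . xi)^2 * (...)  >= 0; simplest: with E1 = en(m-a), E2 = en(m+a), a=(x2-x1)/2: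
     e1 e2 = (en m . xi)^2 cos^2 a - (J en m . xi)^2 sin^2 a >= - |xi|^2 sin^2 a, and sin^2 a = (1 - cos(x2-x1))/2 = (1+c0)/2.
   A0 - s0 (1+c0) = pi - b0 - sin b0 >= 0  (sin b0 = sin(pi-b0) <= pi - b0).
Suggestion: first prove a lemma for e_j, |xi|^2 as real numbers satisfying (v), with the polynomial identity by linear_combination; then glue.
-/

set_option autoImplicit false
open Set

namespace Pool.Agent.H1.BP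

/-- `T_0` identity -/
theorem pwA_T0 (C0 S0 C1 S1 C2 S2 X Y A0 A1 A2 s0 s1 s2 p : ℝ)
    (h0 : C0 ^ 2 + S0 ^ 2 = 1) (h1 : C1 ^ 2 + S1 ^ 2 = 1) (h2 : C2 ^ 2 + S2 ^ 2 = 1)
    (hs0 : s0 = S2 * C1 - C2 * S1) (hs1 : s1 = S0 * C2 - C0 * S2) (hs2 : s2 = S1 * C0 - C1 * S0)
    (hp : A0 + A1 + A2 = 2 * p + 2 * s0 * s1 * s2) :
    2 * p * (A0 * (C0 * X + S0 * Y) ^ 2)
      + (A0 * (C0 * X + S0 * Y) * (-(2 * s1 ^ 2 * s2 * (C1 * X + S1 * Y))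
            - 2 * s2 ^ 2 * s1 * (C2 * X + S2 * Y) - A0 * (C0 * X + S0 * Y))
        + A1 * (C1 * X + S1 * Y) * (2 * s2 ^ 2 * s0 * (C2 * X + S2 * Y)
            + A0 * (-(C0 * X + S0 * Y) * (C1 * C0 + S1 * S0) + (-S0 * X + C0 * Y) * s2))
        + A2 * (C2 * X + S2 * Y) * (2 * s1 ^ 2 * s0 * (C1 * X + S1 * Y)
            + A0 * (-(C0 * X + S0 * Y) * (C2 * C0 + S2 * S0) - (-S0 * X + C0 * Y) * s1)))
      = (A1 * s2 ^ 2 + A2 * s1 ^ 2) * (A0 * (X ^ 2 + Y ^ 2)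
          + 2 * s0 * (C1 * X + S1 * Y) * (C2 * X + S2 * Y)) := by
  have hL : s0 * (C0 * X + S0 * Y) + s1 * (C1 * X + S1 * Y) + s2 * (C2 * X + S2 * Y) = 0 := by
    rw [hs0, hs1, hs2]; ring
  have e1 : C1 * X + S1 * Y = (C1 * C0 + S1 * S0) * (C0 * X + S0 * Y) + s2 * (-S0 * X + C0 * Y) := by
    rw [hs2]; linear_combination (-(C1 * X + S1 * Y)) * h0
  have e2 : C2 * X + S2 * Y = (C2 * C0 + S2 * S0) * (C0 * X + S0 * Y) - s1 * (-S0 * X + C0 * Y) := by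
    rw [hs1]; linear_combination (-(C2 * X + S2 * Y)) * h0
  have hn : X ^ 2 + Y ^ 2 = (C0 * X + S0 * Y) ^ 2 + (-S0 * X + C0 * Y) ^ 2 := by
    linear_combination (-(X ^ 2 + Y ^ 2)) * h0
  have hk1 : (C1 * C0 + S1 * S0) ^ 2 + s2 ^ 2 = 1 := by
    rw [hs2]; linear_combination (C0 ^ 2 + S0 ^ 2) * h1 + h0
  have hk2 : (C2 * C0 + S2 * S0) ^ 2 + s1 ^ 2 = 1 := by
    rw [hs1]; linear_combination (C0 ^ 2 + S0 ^ 2) * h2 + h0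
  generalize hE0 : C0 * X + S0 * Y = E0 at *
  generalize hE1 : C1 * X + S1 * Y = E1 at *
  generalize hE2 : C2 * X + S2 * Y = E2 at *
  generalize hq : -S0 * X + C0 * Y = q at *
  generalize hK1 : C1 * C0 + S1 * S0 = k1 at *
  generalize hK2 : C2 * C0 + S2 * S0 = k2 at *
  have n1 : E0 ^ 2 + E1 * (-E0 * k1 + q * s2) - s2 ^ 2 * (X ^ 2 + Y ^ 2) = 0 := by
    rw [e1, hn]; linear_combination (-(E0 ^ 2)) * hk1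
  have n2 : E0 ^ 2 + E2 * (-E0 * k2 - q * s1) - s1 ^ 2 * (X ^ 2 + Y ^ 2) = 0 := by
    rw [e2, hn]; linear_combination (-(E0 ^ 2)) * hk2
  have hp' : 2 * p = A0 + A1 + A2 - 2 * s0 * s1 * s2 := by linarith
  rw [hp']
  linear_combination (-2 * s1 * s2 * A0 * E0) * hL + A0 * A1 * n1 + A0 * A2 * n2

/-- the cross term as a sum -/
theorem pwA_cross (C0 S0 C1 S1 C2 S2 X Y A0 A1 A2 B0 B1 B2 v0 v1 v2 : ℝ) :
    ((A0 * C0 * S0 + A1 * C1 * S1 + A2 * C2 * S2) * X + (A0 * S0 ^ 2 + A1 * S1 ^ 2 + A2 * S2 ^ 2) * Y)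
      * ((B0 * C0 ^ 2 + B1 * C1 ^ 2 + B2 * C2 ^ 2
      - 2 * (A0 * v0 * C0 * S0 + A1 * v1 * C1 * S1 + A2 * v2 * C2 * S2)) * X
      + (B0 * C0 * S0 + B1 * C1 * S1 + B2 * C2 * S2
      + (A0 * v0 * (C0 ^ 2 - S0 ^ 2) + A1 * v1 * (C1 ^ 2 - S1 ^ 2) + A2 * v2 * (C2 ^ 2 - S2 ^ 2))) * Y)
    - ((A0 * C0 ^ 2 + A1 * C1 ^ 2 + A2 * C2 ^ 2) * X + (A0 * C0 * S0 + A1 * C1 * S1 + A2 * C2 * S2) * Y)
      * ((B0 * C0 * S0 + B1 * C1 * S1 + B2 * C2 * S2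
      + (A0 * v0 * (C0 ^ 2 - S0 ^ 2) + A1 * v1 * (C1 ^ 2 - S1 ^ 2) + A2 * v2 * (C2 ^ 2 - S2 ^ 2))) * X
      + (B0 * S0 ^ 2 + B1 * S1 ^ 2 + B2 * S2 ^ 2
      + 2 * (A0 * v0 * C0 * S0 + A1 * v1 * C1 * S1 + A2 * v2 * C2 * S2)) * Y)
    = A0 * (C0 * X + S0 * Y) * (B1 * (C1 * X + S1 * Y) * (-(S1 * C0 - C1 * S0))
          + B2 * (C2 * X + S2 * Y) * (S0 * C2 - C0 * S2)
          - A0 * v0 * (C0 * X + S0 * Y) * (C0 ^ 2 + S0 ^ 2)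
          + A1 * v1 * (-(C1 * X + S1 * Y) * (C0 * C1 + S0 * S1)
            + (-S1 * X + C1 * Y) * (-(S1 * C0 - C1 * S0)))
          + A2 * v2 * (-(C2 * X + S2 * Y) * (C0 * C2 + S0 * S2)
            + (-S2 * X + C2 * Y) * (S0 * C2 - C0 * S2)))
      + A1 * (C1 * X + S1 * Y) * (B0 * (C0 * X + S0 * Y) * (S1 * C0 - C1 * S0)
          + B2 * (C2 * X + S2 * Y) * (-(S2 * C1 - C2 * S1))
          - A1 * v1 * (C1 * X + S1 * Y) * (C1 ^ 2 + S1 ^ 2)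
          + A0 * v0 * (-(C0 * X + S0 * Y) * (C1 * C0 + S1 * S0)
            + (-S0 * X + C0 * Y) * (S1 * C0 - C1 * S0))
          + A2 * v2 * (-(C2 * X + S2 * Y) * (C1 * C2 + S1 * S2)
            + (-S2 * X + C2 * Y) * (-(S2 * C1 - C2 * S1))))
      + A2 * (C2 * X + S2 * Y) * (B0 * (C0 * X + S0 * Y) * (-(S0 * C2 - C0 * S2))
          + B1 * (C1 * X + S1 * Y) * (S2 * C1 - C2 * S1)
          - A2 * v2 * (C2 * X + S2 * Y) * (C2 ^ 2 + S2 ^ 2)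
          + A0 * v0 * (-(C0 * X + S0 * Y) * (C2 * C0 + S2 * S0)
            + (-S0 * X + C0 * Y) * (-(S0 * C2 - C0 * S2)))
          + A1 * v1 * (-(C1 * X + S1 * Y) * (C2 * C1 + S2 * S1)
            + (-S1 * X + C1 * Y) * (S2 * C1 - C2 * S1))) := by
  ring

/-- `|ξ|² (1 - cos(x - y)) + 2 (E_x·ξ)(E_y·ξ) ≥ 0` -/
theorem pwA_ee (C1 S1 C2 S2 X Y : ℝ) (h1 : C1 ^ 2 + S1 ^ 2 = 1) (h2 : C2 ^ 2 + S2 ^ 2 = 1) :
    0 ≤ (X ^ 2 + Y ^ 2) * (1 - (C1 * C2 + S1 * S2)) + 2 * (C1 * X + S1 * Y) * (C2 * X + S2 * Y) := by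
  set K := C1 * C2 - S1 * S2 with hK
  set H := C1 * S2 + S1 * C2 with hH
  have hKH : K ^ 2 + H ^ 2 = 1 := by
    rw [hK, hH]; linear_combination (C2 ^ 2 + S2 ^ 2) * h1 + h2
  have key : (X ^ 2 + Y ^ 2) * (1 - (C1 * C2 + S1 * S2)) + 2 * (C1 * X + S1 * Y) * (C2 * X + S2 * Y)
      = (((1 + K) * X + H * Y) ^ 2 + ((1 - K) * Y + H * X) ^ 2) / 2 := by
    rw [eq_div_iff (by norm_num : (2 : ℝ) ≠ 0)]
    have e : (X ^ 2 + Y ^ 2) * (1 - (C1 * C2 + S1 * S2)) + 2 * (C1 * X + S1 * Y) * (C2 * X + S2 * Y)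
        = X ^ 2 * (1 + K) + Y ^ 2 * (1 - K) + 2 * X * Y * H := by
      rw [hK, hH]; ring
    rw [e]
    linear_combination (-(X ^ 2 + Y ^ 2)) * hKH
  rw [key]
  positivity

/-- each `T_j` is nonnegative -/
theorem pwA_Tj (C1 S1 C2 S2 X Y A s nu : ℝ) (h1 : C1 ^ 2 + S1 ^ 2 = 1) (h2 : C2 ^ 2 + S2 ^ 2 = 1)
    (hs : 0 ≤ s) (hnu : 0 ≤ nu) (hA : s * (1 - (C1 * C2 + S1 * S2)) ≤ A) :
    0 ≤ nu * (A * (X ^ 2 + Y ^ 2) + 2 * s * (C1 * X + S1 * Y) * (C2 * X + S2 * Y)) := by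
  apply mul_nonneg hnu
  have h := mul_nonneg hs (pwA_ee C1 S1 C2 S2 X Y h1 h2)
  have h' : s * (1 - (C1 * C2 + S1 * S2)) * (X ^ 2 + Y ^ 2) ≤ A * (X ^ 2 + Y ^ 2) :=
    mul_le_mul_of_nonneg_right hA (by positivity)
  nlinarith [h, h']

/-- positivity of `T` -/
theorem pwA_T (C0 S0 C1 S1 C2 S2 X Y A0 A1 A2 B0 B1 B2 v0 v1 v2 s0 s1 s2 p : ℝ)
    (h0 : C0 ^ 2 + S0 ^ 2 = 1) (h1 : C1 ^ 2 + S1 ^ 2 = 1) (h2 : C2 ^ 2 + S2 ^ 2 = 1)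
    (hs0 : s0 = S2 * C1 - C2 * S1) (hs1 : s1 = S0 * C2 - C0 * S2) (hs2 : s2 = S1 * C0 - C1 * S0)
    (hp : A0 + A1 + A2 = 2 * p + 2 * s0 * s1 * s2)
    (hv0 : 0 ≤ v0) (hv1 : 0 ≤ v1) (hv2 : 0 ≤ v2)
    (p0 : 0 ≤ s0) (p1 : 0 ≤ s1) (p2 : 0 ≤ s2) (q0 : 0 ≤ A0) (q1 : 0 ≤ A1) (q2 : 0 ≤ A2)
    (hA0 : s0 * (1 - (C1 * C2 + S1 * S2)) ≤ A0)
    (hA1 : s1 * (1 - (C2 * C0 + S2 * S0)) ≤ A1)
    (hA2 : s2 * (1 - (C0 * C1 + S0 * S1)) ≤ A2)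
    (hB0 : B0 = 2 * s0 ^ 2 * (v2 - v1)) (hB1 : B1 = 2 * s1 ^ 2 * (v0 - v2))
    (hB2 : B2 = 2 * s2 ^ 2 * (v1 - v0)) :
    0 ≤ 2 * p * (A0 * v0 * (C0 * X + S0 * Y) ^ 2 + A1 * v1 * (C1 * X + S1 * Y) ^ 2
        + A2 * v2 * (C2 * X + S2 * Y) ^ 2)
      + (((A0 * C0 * S0 + A1 * C1 * S1 + A2 * C2 * S2) * X + (A0 * S0 ^ 2 + A1 * S1 ^ 2 + A2 * S2 ^ 2) * Y)
      * ((B0 * C0 ^ 2 + B1 * C1 ^ 2 + B2 * C2 ^ 2
      - 2 * (A0 * v0 * C0 * S0 + A1 * v1 * C1 * S1 + A2 * v2 * C2 * S2)) * X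
      + (B0 * C0 * S0 + B1 * C1 * S1 + B2 * C2 * S2
      + (A0 * v0 * (C0 ^ 2 - S0 ^ 2) + A1 * v1 * (C1 ^ 2 - S1 ^ 2) + A2 * v2 * (C2 ^ 2 - S2 ^ 2))) * Y)
    - ((A0 * C0 ^ 2 + A1 * C1 ^ 2 + A2 * C2 ^ 2) * X + (A0 * C0 * S0 + A1 * C1 * S1 + A2 * C2 * S2) * Y)
      * ((B0 * C0 * S0 + B1 * C1 * S1 + B2 * C2 * S2
      + (A0 * v0 * (C0 ^ 2 - S0 ^ 2) + A1 * v1 * (C1 ^ 2 - S1 ^ 2) + A2 * v2 * (C2 ^ 2 - S2 ^ 2))) * X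
      + (B0 * S0 ^ 2 + B1 * S1 ^ 2 + B2 * S2 ^ 2
      + 2 * (A0 * v0 * C0 * S0 + A1 * v1 * C1 * S1 + A2 * v2 * C2 * S2)) * Y)) := by
  have t0 := pwA_T0 C0 S0 C1 S1 C2 S2 X Y A0 A1 A2 s0 s1 s2 p h0 h1 h2 hs0 hs1 hs2 hp
  have t1 := pwA_T0 C1 S1 C2 S2 C0 S0 X Y A1 A2 A0 s1 s2 s0 p h1 h2 h0
    hs1 hs2 hs0 (by linarith)
  have t2 := pwA_T0 C2 S2 C0 S0 C1 S1 X Y A2 A0 A1 s2 s0 s1 p h2 h0 h1
    hs2 hs0 hs1 (by linarith)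
  have n0 := pwA_Tj C1 S1 C2 S2 X Y A0 s0 (A1 * s2 ^ 2 + A2 * s1 ^ 2) h1 h2 p0 (by positivity) hA0
  have n1 := pwA_Tj C2 S2 C0 S0 X Y A1 s1 (A2 * s0 ^ 2 + A0 * s2 ^ 2) h2 h0 p1 (by positivity) hA1
  have n2 := pwA_Tj C0 S0 C1 S1 X Y A2 s2 (A0 * s1 ^ 2 + A1 * s0 ^ 2) h0 h1 p2 (by positivity) hA2
  rw [← t0] at n0
  rw [← t1] at n1
  rw [← t2] at n2
  have m0 := mul_nonneg hv0 n0
  have m1 := mul_nonneg hv1 n1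
  have m2 := mul_nonneg hv2 n2
  rw [pwA_cross, ← hs0, ← hs1, ← hs2, h0, h1, h2, hB0, hB1, hB2]
  have key := add_nonneg (add_nonneg m0 m1) m2
  refine le_of_le_of_eq key ?_
  ring

/-- completing the square -/
theorem pwA_sq (A v W e q : ℝ) (hA : 0 ≤ A) (hv : v < 1) :
    -(8 * q ^ 2 * (A * (1 - v) * e ^ 2)) ≤ A * W ^ 2 / ((1 - v) / 2) + 8 * q * (A * W * e) := by
  have hω : 0 < (1 - v) / 2 := by linarith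
  have h : A * W ^ 2 / ((1 - v) / 2) + 8 * q * (A * W * e) + 8 * q ^ 2 * (A * (1 - v) * e ^ 2)
      = A * (W + 4 * q * ((1 - v) / 2) * e) ^ 2 / ((1 - v) / 2) := by
    rw [eq_div_iff hω.ne', add_mul, add_mul, div_mul_cancel₀ _ hω.ne']
    ring
  have h2 : 0 ≤ A * (W + 4 * q * ((1 - v) / 2) * e) ^ 2 / ((1 - v) / 2) := by positivity
  linarith

theorem pwA_Af (g : ℝ) : Af (g / 2) = g - Real.sin g * Real.cos g := by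
  unfold Af
  have : 4 * (g / 2) = 2 * g := by ring
  rw [this, Real.sin_two_mul]
  ring

theorem pwA_Ale (g : ℝ) (hg : 0 < g) : Real.sin g * (1 - Real.cos g) ≤ Af (g / 2) := by
  rw [pwA_Af]
  have := Real.sin_le hg.le
  nlinarith

theorem pwA_Apos (g : ℝ) (hg : 0 < g) (hg' : g < Real.pi) : 0 < Af (g / 2) := by
  rw [pwA_Af]
  have h1 := Real.sin_lt hg
  have h2 := Real.sin_pos_of_pos_of_lt_pi hg hg'
  have h3 := Real.cos_le_one g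
  nlinarith

theorem pwA_tr (g0 g1 g2 : ℝ) (h : g0 + g1 + g2 = 2 * Real.pi) :
    Af (g0 / 2) + Af (g1 / 2) + Af (g2 / 2)
      = 2 * Real.pi + 2 * Real.sin g0 * Real.sin g1 * Real.sin g2 := by
  rw [pwA_Af, pwA_Af, pwA_Af]
  have e : g2 = 2 * Real.pi - (g0 + g1) := by linarith
  rw [e, Real.sin_two_pi_sub, Real.cos_two_pi_sub, Real.sin_add, Real.cos_add]
  have k0 := Real.sin_sq_add_cos_sq g0
  have k1 := Real.sin_sq_add_cos_sq g1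
  linear_combination (Real.sin g1 * Real.cos g1) * k0 + (Real.sin g0 * Real.cos g0) * k1

theorem pwA_fin (Z0 Z1 Z2 q Sg A0 A1 A2 v0 v1 v2 W0 W1 W2 e0 e1 e2 K : ℝ)
    (g0 : -(8 * q ^ 2 * (A0 * (1 - v0) * e0 ^ 2)) ≤ Z0 + 8 * q * (A0 * W0 * e0))
    (g1 : -(8 * q ^ 2 * (A1 * (1 - v1) * e1 ^ 2)) ≤ Z1 + 8 * q * (A1 * W1 * e1))
    (g2 : -(8 * q ^ 2 * (A2 * (1 - v2) * e2 ^ 2)) ≤ Z2 + 8 * q * (A2 * W2 * e2))
    (T : 0 ≤ 4 * q * (2 * q * (A0 * v0 * e0 ^ 2 + A1 * v1 * e1 ^ 2 + A2 * v2 * e2 ^ 2) + K)) :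
    8 * q * Sg * (A0 * e0 ^ 2 + A1 * e1 ^ 2 + A2 * e2 ^ 2)
      ≤ Z0 + Z1 + Z2 + 8 * q * (A0 * W0 * e0 + A1 * W1 * e1 + A2 * W2 * e2)
        + 4 * q * ((2 * q + 2 * Sg) * (A0 * e0 ^ 2 + A1 * e1 ^ 2 + A2 * e2 ^ 2) + K) := by
  linarith

/-- the algebraic core: with `ξ = (X, Y)` the solution of `M ξ = J r` -/
theorem pwA_main (C0 S0 C1 S1 C2 S2 A0 A1 A2 B0 B1 B2 v0 v1 v2 s0 s1 s2 q : ℝ)
    (h0 : C0 ^ 2 + S0 ^ 2 = 1) (h1 : C1 ^ 2 + S1 ^ 2 = 1) (h2 : C2 ^ 2 + S2 ^ 2 = 1)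
    (hs0 : s0 = S2 * C1 - C2 * S1) (hs1 : s1 = S0 * C2 - C0 * S2) (hs2 : s2 = S1 * C0 - C1 * S0)
    (hp : A0 + A1 + A2 = 2 * q + 2 * s0 * s1 * s2) (hq : 0 < q)
    (hv0 : 0 ≤ v0) (hv1 : 0 ≤ v1) (hv2 : 0 ≤ v2) (hw0 : v0 < 1) (hw1 : v1 < 1) (hw2 : v2 < 1)
    (p0 : 0 < s0) (p1 : 0 < s1) (p2 : 0 < s2) (q0 : 0 < A0) (q1 : 0 < A1) (q2 : 0 < A2)
    (hA0 : s0 * (1 - (C1 * C2 + S1 * S2)) ≤ A0)
    (hA1 : s1 * (1 - (C2 * C0 + S2 * S0)) ≤ A1)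
    (hA2 : s2 * (1 - (C0 * C1 + S0 * S1)) ≤ A2)
    (hB0 : B0 = 2 * s0 ^ 2 * (v2 - v1)) (hB1 : B1 = 2 * s1 ^ 2 * (v0 - v2))
    (hB2 : B2 = 2 * s2 ^ 2 * (v1 - v0))
    (a b c a' b' c' Dm : ℝ)
    (ha : a = A0 * C0 ^ 2 + A1 * C1 ^ 2 + A2 * C2 ^ 2)
    (hb : b = A0 * C0 * S0 + A1 * C1 * S1 + A2 * C2 * S2)
    (hc : c = A0 * S0 ^ 2 + A1 * S1 ^ 2 + A2 * S2 ^ 2)
    (ha' : a' = B0 * C0 ^ 2 + B1 * C1 ^ 2 + B2 * C2 ^ 2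
      - 2 * (A0 * v0 * C0 * S0 + A1 * v1 * C1 * S1 + A2 * v2 * C2 * S2))
    (hb' : b' = B0 * C0 * S0 + B1 * C1 * S1 + B2 * C2 * S2
      + (A0 * v0 * (C0 ^ 2 - S0 ^ 2) + A1 * v1 * (C1 ^ 2 - S1 ^ 2) + A2 * v2 * (C2 ^ 2 - S2 ^ 2)))
    (hc' : c' = B0 * S0 ^ 2 + B1 * S1 ^ 2 + B2 * S2 ^ 2
      + 2 * (A0 * v0 * C0 * S0 + A1 * v1 * C1 * S1 + A2 * v2 * C2 * S2))
    (hD : Dm = a * c - b ^ 2) (w1 w2 r1 r2 : ℝ) :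
    0 < Dm ∧ 8 * q * (s2 * s0 * s1) * ((a * r1 ^ 2 + 2 * b * r1 * r2 + c * r2 ^ 2) / Dm)
      ≤ A0 * (w1 * C0 + w2 * S0) ^ 2 / ((1 - v0) / 2) + A1 * (w1 * C1 + w2 * S1) ^ 2 / ((1 - v1) / 2)
        + A2 * (w1 * C2 + w2 * S2) ^ 2 / ((1 - v2) / 2) + 8 * q * (r1 * w2 - r2 * w1)
        + 4 * q * ((r1 * r1 + r2 * r2)
          + ((a * r1 + b * r2) * (a * r1 + b * r2) + (b * r1 + c * r2) * (b * r1 + c * r2)) / Dm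
          + ((a * r1 + b * r2) * (b' * r1 + c' * r2) - (b * r1 + c * r2) * (a' * r1 + b' * r2)) / Dm) := by
  have hDm : Dm = A0 * A1 * s2 ^ 2 + A1 * A2 * s0 ^ 2 + A2 * A0 * s1 ^ 2 := by
    rw [hD, ha, hb, hc, hs0, hs1, hs2]; ring
  have hDpos : 0 < Dm := by rw [hDm]; positivity
  refine ⟨hDpos, ?_⟩
  obtain ⟨X, hX⟩ : ∃ X, X = -(b * r1 + c * r2) / Dm := ⟨_, rfl⟩
  obtain ⟨Y, hY⟩ : ∃ Y, Y = (a * r1 + b * r2) / Dm := ⟨_, rfl⟩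
  have hX' : X * Dm = -(b * r1 + c * r2) := by rw [hX, div_mul_cancel₀ _ hDpos.ne']
  have hY' : Y * Dm = a * r1 + b * r2 := by rw [hY, div_mul_cancel₀ _ hDpos.ne']
  have F1 : a * X + b * Y = -r2 := by
    apply mul_right_cancel₀ hDpos.ne'
    linear_combination a * hX' + b * hY' + r2 * hD
  have F2 : b * X + c * Y = r1 := by
    apply mul_right_cancel₀ hDpos.ne'
    linear_combination b * hX' + c * hY' - r1 * hD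
  have FQ : (a * r1 ^ 2 + 2 * b * r1 * r2 + c * r2 ^ 2) / Dm
      = A0 * (C0 * X + S0 * Y) ^ 2 + A1 * (C1 * X + S1 * Y) ^ 2 + A2 * (C2 * X + S2 * Y) ^ 2 := by
    rw [div_eq_iff hDpos.ne']
    have e : A0 * (C0 * X + S0 * Y) ^ 2 + A1 * (C1 * X + S1 * Y) ^ 2 + A2 * (C2 * X + S2 * Y) ^ 2
        = X * (a * X + b * Y) + Y * (b * X + c * Y) := by
      rw [ha, hb, hc]; ring
    rw [e, F1, F2]
    linear_combination r2 * hX' - r1 * hY'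
  have Ftr : a + c = A0 + A1 + A2 := by
    rw [ha, hc]; linear_combination A0 * h0 + A1 * h1 + A2 * h2
  have FN : (r1 * r1 + r2 * r2)
      + ((a * r1 + b * r2) * (a * r1 + b * r2) + (b * r1 + c * r2) * (b * r1 + c * r2)) / Dm
      = (a + c) * ((a * r1 ^ 2 + 2 * b * r1 * r2 + c * r2 ^ 2) / Dm) := by
    apply mul_right_cancel₀ hDpos.ne'
    rw [add_mul, div_mul_cancel₀ _ hDpos.ne', mul_assoc (a + c), div_mul_cancel₀ _ hDpos.ne', hD]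
    ring
  have FC : ((a * r1 + b * r2) * (b' * r1 + c' * r2) - (b * r1 + c * r2) * (a' * r1 + b' * r2)) / Dm
      = (b * X + c * Y) * (a' * X + b' * Y) - (a * X + b * Y) * (b' * X + c' * Y) := by
    rw [div_eq_iff hDpos.ne', F1, F2]
    linear_combination (-(a' * r1 + b' * r2)) * hX' - (b' * r1 + c' * r2) * hY'
  have FW : r1 * w2 - r2 * w1 = A0 * (w1 * C0 + w2 * S0) * (C0 * X + S0 * Y)
      + A1 * (w1 * C1 + w2 * S1) * (C1 * X + S1 * Y) + A2 * (w1 * C2 + w2 * S2) * (C2 * X + S2 * Y) := by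
    have e : A0 * (w1 * C0 + w2 * S0) * (C0 * X + S0 * Y)
      + A1 * (w1 * C1 + w2 * S1) * (C1 * X + S1 * Y) + A2 * (w1 * C2 + w2 * S2) * (C2 * X + S2 * Y)
        = w1 * (a * X + b * Y) + w2 * (b * X + c * Y) := by
      rw [ha, hb, hc]; ring
    rw [e, F1, F2]; ring
  have T := pwA_T C0 S0 C1 S1 C2 S2 X Y A0 A1 A2 B0 B1 B2 v0 v1 v2 s0 s1 s2 q h0 h1 h2 hs0 hs1 hs2 hp
    hv0 hv1 hv2 p0.le p1.le p2.le q0.le q1.le q2.le hA0 hA1 hA2 hB0 hB1 hB2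
  rw [← ha', ← hb', ← hc', ← ha, ← hb, ← hc] at T
  have g0 := pwA_sq A0 v0 (w1 * C0 + w2 * S0) (C0 * X + S0 * Y) q q0.le hw0
  have g1 := pwA_sq A1 v1 (w1 * C1 + w2 * S1) (C1 * X + S1 * Y) q q1.le hw1
  have g2 := pwA_sq A2 v2 (w1 * C2 + w2 * S2) (C2 * X + S2 * Y) q q2.le hw2
  have hp' : A0 + A1 + A2 = 2 * q + 2 * (s2 * s0 * s1) := by rw [hp]; ring
  rw [FN, FC, FW, FQ, Ftr, hp']
  have T' := mul_nonneg (by positivity : (0 : ℝ) ≤ 4 * q) T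
  exact pwA_fin _ _ _ _ _ _ _ _ _ _ _ _ _ _ _ _ _ _ g0 g1 g2 T'

theorem pwA (x0 x1 x2 v0 v1 v2 : ℝ) (hv0 : 0 ≤ v0) (hv1 : 0 ≤ v1) (hv2 : 0 ≤ v2) (hv : v0 + v1 + v2 = 1)
    (hw0 : v0 < 1) (hw1 : v1 < 1) (hw2 : v2 < 1)
    (h01 : 0 < x1 - x0) (h01' : x1 - x0 < Real.pi) (h12 : 0 < x2 - x1) (h12' : x2 - x1 < Real.pi)
    (h20 : 0 < x0 + 2 * Real.pi - x2) (h20' : x0 + 2 * Real.pi - x2 < Real.pi)
    (A0 A1 A2 B0 B1 B2 a b c a' b' c' Dm Sg : ℝ)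
    (hA0 : A0 = Af ((x2 - x1) / 2)) (hA1 : A1 = Af ((x0 + 2 * Real.pi - x2) / 2)) (hA2 : A2 = Af ((x1 - x0) / 2))
    (hB0 : B0 = 2 * Real.sin (x2 - x1) ^ 2 * (v2 - v1))
    (hB1 : B1 = 2 * Real.sin (x0 + 2 * Real.pi - x2) ^ 2 * (v0 - v2))
    (hB2 : B2 = 2 * Real.sin (x1 - x0) ^ 2 * (v1 - v0))
    (ha : a = A0 * Real.cos x0 ^ 2 + A1 * Real.cos x1 ^ 2 + A2 * Real.cos x2 ^ 2)
    (hb : b = A0 * Real.cos x0 * Real.sin x0 + A1 * Real.cos x1 * Real.sin x1 + A2 * Real.cos x2 * Real.sin x2)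
    (hc : c = A0 * Real.sin x0 ^ 2 + A1 * Real.sin x1 ^ 2 + A2 * Real.sin x2 ^ 2)
    (ha' : a' = B0 * Real.cos x0 ^ 2 + B1 * Real.cos x1 ^ 2 + B2 * Real.cos x2 ^ 2
      - 2 * (A0 * v0 * Real.cos x0 * Real.sin x0 + A1 * v1 * Real.cos x1 * Real.sin x1
        + A2 * v2 * Real.cos x2 * Real.sin x2))
    (hb' : b' = B0 * Real.cos x0 * Real.sin x0 + B1 * Real.cos x1 * Real.sin x1 + B2 * Real.cos x2 * Real.sin x2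
      + (A0 * v0 * (Real.cos x0 ^ 2 - Real.sin x0 ^ 2) + A1 * v1 * (Real.cos x1 ^ 2 - Real.sin x1 ^ 2)
        + A2 * v2 * (Real.cos x2 ^ 2 - Real.sin x2 ^ 2)))
    (hc' : c' = B0 * Real.sin x0 ^ 2 + B1 * Real.sin x1 ^ 2 + B2 * Real.sin x2 ^ 2
      + 2 * (A0 * v0 * Real.cos x0 * Real.sin x0 + A1 * v1 * Real.cos x1 * Real.sin x1
        + A2 * v2 * Real.cos x2 * Real.sin x2))
    (hD : Dm = a * c - b ^ 2)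
    (hS : Sg = Real.sin (x1 - x0) * Real.sin (x2 - x1) * Real.sin (x0 + 2 * Real.pi - x2)) (w r : ℂ) :
    0 < Dm ∧ 8 * Real.pi * Sg * ((a * r.re ^ 2 + 2 * b * r.re * r.im + c * r.im ^ 2) / Dm)
      ≤ A0 * ip w (en x0) ^ 2 / ((1 - v0) / 2) + A1 * ip w (en x1) ^ 2 / ((1 - v1) / 2)
        + A2 * ip w (en x2) ^ 2 / ((1 - v2) / 2) + 8 * Real.pi * cr r w
        + 4 * Real.pi * (Complex.normSq r + Complex.normSq (app a b c r) / Dm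
          + cr (app a b c r) (app a' b' c' r) / Dm) := by
  have c0 := Real.cos_sq_add_sin_sq x0
  have c1 := Real.cos_sq_add_sin_sq x1
  have c2 := Real.cos_sq_add_sin_sq x2
  have hs1 : Real.sin (x0 + 2 * Real.pi - x2)
      = Real.sin x0 * Real.cos x2 - Real.cos x0 * Real.sin x2 := by
    have : x0 + 2 * Real.pi - x2 = (x0 - x2) + 2 * Real.pi := by ring
    rw [this, Real.sin_add_two_pi, Real.sin_sub]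
  have hk1 : Real.cos (x0 + 2 * Real.pi - x2)
      = Real.cos x2 * Real.cos x0 + Real.sin x2 * Real.sin x0 := by
    have : x0 + 2 * Real.pi - x2 = (x0 - x2) + 2 * Real.pi := by ring
    rw [this, Real.cos_add_two_pi, Real.cos_sub]; ring
  have hk0 : Real.cos (x2 - x1) = Real.cos x1 * Real.cos x2 + Real.sin x1 * Real.sin x2 := by
    rw [Real.cos_sub]; ring
  have hk2 : Real.cos (x1 - x0) = Real.cos x0 * Real.cos x1 + Real.sin x0 * Real.sin x1 := by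
    rw [Real.cos_sub]; ring
  have htr := pwA_tr (x2 - x1) (x0 + 2 * Real.pi - x2) (x1 - x0) (by ring)
  have q0 := pwA_Apos (x2 - x1) h12 h12'
  have q1 := pwA_Apos (x0 + 2 * Real.pi - x2) h20 h20'
  have q2 := pwA_Apos (x1 - x0) h01 h01'
  have l0 := pwA_Ale (x2 - x1) h12
  have l1 := pwA_Ale (x0 + 2 * Real.pi - x2) h20
  have l2 := pwA_Ale (x1 - x0) h01
  rw [hk0] at l0
  rw [hk1] at l1
  rw [hk2] at l2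
  rw [← hA0] at htr q0 l0
  rw [← hA1] at htr q1 l1
  rw [← hA2] at htr q2 l2
  have key := pwA_main (Real.cos x0) (Real.sin x0) (Real.cos x1) (Real.sin x1) (Real.cos x2) (Real.sin x2)
    A0 A1 A2 B0 B1 B2 v0 v1 v2 (Real.sin (x2 - x1)) (Real.sin (x0 + 2 * Real.pi - x2)) (Real.sin (x1 - x0))
    Real.pi c0 c1 c2 (Real.sin_sub _ _) hs1 (Real.sin_sub _ _) htr Real.pi_pos hv0 hv1 hv2 hw0 hw1 hw2
    (Real.sin_pos_of_pos_of_lt_pi h12 h12') (Real.sin_pos_of_pos_of_lt_pi h20 h20')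
    (Real.sin_pos_of_pos_of_lt_pi h01 h01') q0 q1 q2 l0 l1 l2 hB0 hB1 hB2
    a b c a' b' c' Dm ha hb hc ha' hb' hc' hD w.re w.im r.re r.im
  rw [hS]
  exact key

end Pool.Agent.H1.BP
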