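import Pool.Agent.H1.BP.Mat
import Pool.Agent.H1.BP.PwA

/-
ROW Pw.  The pointwise inequality for a Tri family: PwA at x_k = X (s + 2 pi k), v_k = deriv X (s + 2 pi k).
 Av X s = Af((x2-x1)/2) = A0, Av X (s+2pi) = Af((x3 - x2)/2) = A1 with x3 = x0+2pi, Av X (s+4pi) = Af (dd X (s+6pi)) = Af((x1-x0)/2) = A2 (X(s+6pi)=X s+2pi, X(s+8pi) = X (s+2pi)+2pi).
 wv X s = (v1+v2)/2 = (1-v0)/2 etc.;  derivative of Af: Af' d = 2 - 2 cos 4d = 4 sin^2 2d, so deriv of Av X at s is 4 sin^2(x2-x1) (v2-v1)/2 = B0, etc.; deriv (m11 X) s = a' and so on.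
 g = M/sqrt Dt: |g r|^2 = |M r|^2/Dt;  g' r = M' r / sqrt Dt - (Dt'/(2 Dt^(3/2))) M r, so cr (g r) (g' r) = cr (M r) (M' r)/Dt.
-/

set_option autoImplicit false
open Set

namespace Pool.Agent.H1.BP

private theorem pw_q (X : ℝ → ℝ) (hX : Tri X) (t : ℝ) :
    t + 2 * Real.pi + 2 * Real.pi = t + 4 * Real.pi ∧ t + 4 * Real.pi + 2 * Real.pi = t + 6 * Real.pi ∧
    t + 2 * Real.pi + 4 * Real.pi = t + 6 * Real.pi ∧ t + 6 * Real.pi + 2 * Real.pi = (t + 2 * Real.pi) + 6 * Real.pi ∧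
    t + 4 * Real.pi + 4 * Real.pi = (t + 2 * Real.pi) + 6 * Real.pi ∧
    X (t + 6 * Real.pi) = X t + 2 * Real.pi ∧ X (t + 2 * Real.pi + 6 * Real.pi) = X (t + 2 * Real.pi) + 2 * Real.pi ∧
    deriv X (t + 6 * Real.pi) = deriv X t ∧ deriv X (t + 2 * Real.pi + 6 * Real.pi) = deriv X (t + 2 * Real.pi) :=
  ⟨by ring, by ring, by ring, by ring, by ring, hX.per t, hX.per _, dX_per hX t, dX_per hX _⟩

private theorem pw_Av0 {X : ℝ → ℝ} (hX : Tri X) (s : ℝ) :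
    Av X s = Af ((X (s + 4 * Real.pi) - X (s + 2 * Real.pi)) / 2) := by
  obtain ⟨q1, q2, q3, q4, q5, q6, q7, q8, q9⟩ := pw_q X hX s
  unfold Av dd
  rw [q1]

private theorem pw_Av1 {X : ℝ → ℝ} (hX : Tri X) (s : ℝ) :
    Av X (s + 2 * Real.pi) = Af ((X s + 2 * Real.pi - X (s + 4 * Real.pi)) / 2) := by
  obtain ⟨q1, q2, q3, q4, q5, q6, q7, q8, q9⟩ := pw_q X hX s
  unfold Av dd
  rw [q1, q2, q6]

private theorem pw_Av2 {X : ℝ → ℝ} (hX : Tri X) (s : ℝ) :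
    Av X (s + 4 * Real.pi) = Af ((X (s + 2 * Real.pi) - X s) / 2) := by
  obtain ⟨q1, q2, q3, q4, q5, q6, q7, q8, q9⟩ := pw_q X hX s
  unfold Av dd
  rw [q2, q4, q6, q7]
  ring_nf

private theorem pw_dX {X : ℝ → ℝ} (hX : Tri X) (t : ℝ) : HasDerivAt X (deriv X t) t :=
  ((hX.smooth.differentiable one_ne_zero) t).hasDerivAt

private theorem pw_dXc {X : ℝ → ℝ} (hX : Tri X) (c t : ℝ) : HasDerivAt (fun u => X (u + c)) (deriv X (t + c)) t :=
  HasDerivAt.comp_add_const t c (pw_dX hX (t + c))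

private theorem pw_Af (d : ℝ) : HasDerivAt Af (4 * Real.sin (2 * d) ^ 2) d := by
  have h1 : HasDerivAt (fun d : ℝ => 2 * d - Real.sin (4 * d) / 2) (2 * 1 - Real.cos (4 * d) * (4 * 1) / 2) d :=
    ((hasDerivAt_id d).const_mul 2).sub ((((hasDerivAt_id d).const_mul 4).sin).div_const 2)
  have h2 : 2 * 1 - Real.cos (4 * d) * (4 * 1) / 2 = 4 * Real.sin (2 * d) ^ 2 := by
    rw [show 4 * d = 2 * (2 * d) by ring, Real.cos_two_mul]
    have := Real.sin_sq_add_cos_sq (2 * d)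
    linear_combination (-4) * this
  rw [← h2]
  exact h1

private theorem pw_dAv {X : ℝ → ℝ} (hX : Tri X) (t : ℝ) :
    HasDerivAt (Av X) (2 * Real.sin (X (t + 4 * Real.pi) - X (t + 2 * Real.pi)) ^ 2
      * (deriv X (t + 4 * Real.pi) - deriv X (t + 2 * Real.pi))) t := by
  have h0 : HasDerivAt (fun u => (X (u + 4 * Real.pi) - X (u + 2 * Real.pi)) / 2)
      ((deriv X (t + 4 * Real.pi) - deriv X (t + 2 * Real.pi)) / 2) t :=
    ((pw_dXc hX (4 * Real.pi) t).sub (pw_dXc hX (2 * Real.pi) t)).div_const 2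
  have h1 := (pw_Af ((X (t + 4 * Real.pi) - X (t + 2 * Real.pi)) / 2)).comp t h0
  have h2 : (Af ∘ fun u => (X (u + 4 * Real.pi) - X (u + 2 * Real.pi)) / 2) = Av X := by
    funext u
    exact (pw_Av0 hX u).symm
  rw [h2] at h1
  have h3 : 4 * Real.sin (2 * ((X (t + 4 * Real.pi) - X (t + 2 * Real.pi)) / 2)) ^ 2
      * ((deriv X (t + 4 * Real.pi) - deriv X (t + 2 * Real.pi)) / 2)
      = 2 * Real.sin (X (t + 4 * Real.pi) - X (t + 2 * Real.pi)) ^ 2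
      * (deriv X (t + 4 * Real.pi) - deriv X (t + 2 * Real.pi)) := by
    rw [show 2 * ((X (t + 4 * Real.pi) - X (t + 2 * Real.pi)) / 2) = X (t + 4 * Real.pi) - X (t + 2 * Real.pi) by ring]
    ring
  rw [← h3]
  exact h1

/-- the numbers attached to a point `s` -/
private structure PwD (X : ℝ → ℝ) (s x0 x1 x2 v0 v1 v2 A0 A1 A2 B0 B1 B2 : ℝ) : Prop where
  hv0 : 0 ≤ v0
  hv1 : 0 ≤ v1
  hv2 : 0 ≤ v2
  hv : v0 + v1 + v2 = 1
  hw0 : v0 < 1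
  hw1 : v1 < 1
  hw2 : v2 < 1
  h01 : 0 < x1 - x0
  h01' : x1 - x0 < Real.pi
  h12 : 0 < x2 - x1
  h12' : x2 - x1 < Real.pi
  h20 : 0 < x0 + 2 * Real.pi - x2
  h20' : x0 + 2 * Real.pi - x2 < Real.pi
  hA0 : A0 = Af ((x2 - x1) / 2)
  hA1 : A1 = Af ((x0 + 2 * Real.pi - x2) / 2)
  hA2 : A2 = Af ((x1 - x0) / 2)
  hB0 : B0 = 2 * Real.sin (x2 - x1) ^ 2 * (v2 - v1)
  hB1 : B1 = 2 * Real.sin (x0 + 2 * Real.pi - x2) ^ 2 * (v0 - v2)
  hB2 : B2 = 2 * Real.sin (x1 - x0) ^ 2 * (v1 - v0)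
  hx0 : X s = x0
  hx1 : X (s + 2 * Real.pi) = x1
  hx2 : X (s + 4 * Real.pi) = x2
  e0 : Av X s = A0
  e1 : Av X (s + 2 * Real.pi) = A1
  e2 : Av X (s + 4 * Real.pi) = A2
  w0 : wv X s = (1 - v0) / 2
  w1 : wv X (s + 2 * Real.pi) = (1 - v1) / 2
  w2 : wv X (s + 4 * Real.pi) = (1 - v2) / 2
  dx0 : HasDerivAt X v0 s
  dx1 : HasDerivAt (fun u => X (u + 2 * Real.pi)) v1 s
  dx2 : HasDerivAt (fun u => X (u + 4 * Real.pi)) v2 s
  dA0 : HasDerivAt (Av X) B0 s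
  dA1 : HasDerivAt (fun u => Av X (u + 2 * Real.pi)) B1 s
  dA2 : HasDerivAt (fun u => Av X (u + 4 * Real.pi)) B2 s
  hS : sg X s = Real.sin (x1 - x0) * Real.sin (x2 - x1) * Real.sin (x0 + 2 * Real.pi - x2)

private theorem pw_data {X : ℝ → ℝ} (hX : Tri X) (s : ℝ) :
    ∃ x0 x1 x2 v0 v1 v2 A0 A1 A2 B0 B1 B2 : ℝ, PwD X s x0 x1 x2 v0 v1 v2 A0 A1 A2 B0 B1 B2 := by
  obtain ⟨q1, q2, q3, q4, q5, q6, q7, q8, q9⟩ := pw_q X hX s
  have p0 := hX.pos s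
  have p1 := hX.pos (s + 2 * Real.pi)
  have p2 := hX.pos (s + 4 * Real.pi)
  have ps := dX_sum hX s
  refine ⟨X s, X (s + 2 * Real.pi), X (s + 4 * Real.pi), deriv X s, deriv X (s + 2 * Real.pi),
    deriv X (s + 4 * Real.pi), Af ((X (s + 4 * Real.pi) - X (s + 2 * Real.pi)) / 2),
    Af ((X s + 2 * Real.pi - X (s + 4 * Real.pi)) / 2), Af ((X (s + 2 * Real.pi) - X s) / 2),
    2 * Real.sin (X (s + 4 * Real.pi) - X (s + 2 * Real.pi)) ^ 2
      * (deriv X (s + 4 * Real.pi) - deriv X (s + 2 * Real.pi)),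
    2 * Real.sin (X s + 2 * Real.pi - X (s + 4 * Real.pi)) ^ 2 * (deriv X s - deriv X (s + 4 * Real.pi)),
    2 * Real.sin (X (s + 2 * Real.pi) - X s) ^ 2 * (deriv X (s + 2 * Real.pi) - deriv X s), ?_⟩
  have hw0 : deriv X s < 1 := by linarith
  have hw1 : deriv X (s + 2 * Real.pi) < 1 := by linarith
  have hw2 : deriv X (s + 4 * Real.pi) < 1 := by linarith
  have hgap : X (s + 2 * Real.pi) - X s < Real.pi := by linarith [hX.gap s]
  refine ⟨p0.le, p1.le, p2.le, ps, hw0, hw1, hw2, sub_pos.2 (X_lt hX s), hgap, ?_, ?_,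
    (gap2 hX s).2, (gap2 hX s).1, rfl, rfl, rfl, rfl, rfl, rfl, rfl, rfl, rfl, pw_Av0 hX s, pw_Av1 hX s,
    pw_Av2 hX s, ?_, ?_, ?_, pw_dX hX s, pw_dXc hX _ s, pw_dXc hX _ s, pw_dAv hX s, ?_, ?_, ?_⟩
  · have := X_lt hX (s + 2 * Real.pi)
    rw [q1] at this
    exact sub_pos.2 this
  · have := hX.gap (s + 2 * Real.pi)
    rw [q1] at this
    linarith
  · unfold wv
    linarith
  · unfold wv
    rw [q1, q3, q8]
    linarith
  · unfold wv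
    rw [q2, q5, q8, q9]
    linarith
  · have h := HasDerivAt.comp_add_const s (2 * Real.pi) (pw_dAv hX (s + 2 * Real.pi))
    rw [q1, q3, q6, q8] at h
    exact h
  · have h := HasDerivAt.comp_add_const s (4 * Real.pi) (pw_dAv hX (s + 4 * Real.pi))
    rw [q2, q5, q6, q7, q8, q9, show X (s + 2 * Real.pi) + 2 * Real.pi - (X s + 2 * Real.pi)
      = X (s + 2 * Real.pi) - X s by ring] at h
    exact h
  · unfold sg dd
    rw [q1, q2, q6]
    ring_nf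

private theorem pw_m11 {X : ℝ → ℝ} {s x0 x1 x2 v0 v1 v2 A0 A1 A2 B0 B1 B2 : ℝ}
    (D : PwD X s x0 x1 x2 v0 v1 v2 A0 A1 A2 B0 B1 B2) :
    m11 X s = A0 * Real.cos x0 ^ 2 + A1 * Real.cos x1 ^ 2 + A2 * Real.cos x2 ^ 2 := by
  unfold m11
  rw [D.e0, D.e1, D.e2, D.hx0, D.hx1, D.hx2]

private theorem pw_m12 {X : ℝ → ℝ} {s x0 x1 x2 v0 v1 v2 A0 A1 A2 B0 B1 B2 : ℝ}
    (D : PwD X s x0 x1 x2 v0 v1 v2 A0 A1 A2 B0 B1 B2) :
    m12 X s = A0 * Real.cos x0 * Real.sin x0 + A1 * Real.cos x1 * Real.sin x1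
      + A2 * Real.cos x2 * Real.sin x2 := by
  unfold m12
  rw [D.e0, D.e1, D.e2, D.hx0, D.hx1, D.hx2]

private theorem pw_m22 {X : ℝ → ℝ} {s x0 x1 x2 v0 v1 v2 A0 A1 A2 B0 B1 B2 : ℝ}
    (D : PwD X s x0 x1 x2 v0 v1 v2 A0 A1 A2 B0 B1 B2) :
    m22 X s = A0 * Real.sin x0 ^ 2 + A1 * Real.sin x1 ^ 2 + A2 * Real.sin x2 ^ 2 := by
  unfold m22
  rw [D.e0, D.e1, D.e2, D.hx0, D.hx1, D.hx2]

private theorem pw_dm11 {X : ℝ → ℝ} {s x0 x1 x2 v0 v1 v2 A0 A1 A2 B0 B1 B2 : ℝ}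
    (D : PwD X s x0 x1 x2 v0 v1 v2 A0 A1 A2 B0 B1 B2) :
    HasDerivAt (m11 X) (B0 * Real.cos x0 ^ 2 + B1 * Real.cos x1 ^ 2 + B2 * Real.cos x2 ^ 2
      - 2 * (A0 * v0 * Real.cos x0 * Real.sin x0 + A1 * v1 * Real.cos x1 * Real.sin x1
        + A2 * v2 * Real.cos x2 * Real.sin x2)) s := by
  have h := ((D.dA0.mul (D.dx0.cos.pow 2)).add (D.dA1.mul (D.dx1.cos.pow 2))).add (D.dA2.mul (D.dx2.cos.pow 2))
  have h' : HasDerivAt (m11 X) _ s := h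
  refine h'.congr_deriv ?_
  simp only [D.e0, D.e1, D.e2, D.hx0, D.hx1, D.hx2, Pi.pow_apply]
  push_cast
  ring

private theorem pw_dm12 {X : ℝ → ℝ} {s x0 x1 x2 v0 v1 v2 A0 A1 A2 B0 B1 B2 : ℝ}
    (D : PwD X s x0 x1 x2 v0 v1 v2 A0 A1 A2 B0 B1 B2) :
    HasDerivAt (m12 X) (B0 * Real.cos x0 * Real.sin x0 + B1 * Real.cos x1 * Real.sin x1
      + B2 * Real.cos x2 * Real.sin x2
      + (A0 * v0 * (Real.cos x0 ^ 2 - Real.sin x0 ^ 2) + A1 * v1 * (Real.cos x1 ^ 2 - Real.sin x1 ^ 2)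
        + A2 * v2 * (Real.cos x2 ^ 2 - Real.sin x2 ^ 2))) s := by
  have h := (((D.dA0.mul D.dx0.cos).mul D.dx0.sin).add ((D.dA1.mul D.dx1.cos).mul D.dx1.sin)).add
    ((D.dA2.mul D.dx2.cos).mul D.dx2.sin)
  have h' : HasDerivAt (m12 X) _ s := h
  refine h'.congr_deriv ?_
  simp only [D.e0, D.e1, D.e2, D.hx0, D.hx1, D.hx2, Pi.mul_apply]
  ring

private theorem pw_dm22 {X : ℝ → ℝ} {s x0 x1 x2 v0 v1 v2 A0 A1 A2 B0 B1 B2 : ℝ}
    (D : PwD X s x0 x1 x2 v0 v1 v2 A0 A1 A2 B0 B1 B2) :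
    HasDerivAt (m22 X) (B0 * Real.sin x0 ^ 2 + B1 * Real.sin x1 ^ 2 + B2 * Real.sin x2 ^ 2
      + 2 * (A0 * v0 * Real.cos x0 * Real.sin x0 + A1 * v1 * Real.cos x1 * Real.sin x1
        + A2 * v2 * Real.cos x2 * Real.sin x2)) s := by
  have h := ((D.dA0.mul (D.dx0.sin.pow 2)).add (D.dA1.mul (D.dx1.sin.pow 2))).add (D.dA2.mul (D.dx2.sin.pow 2))
  have h' : HasDerivAt (m22 X) _ s := h
  refine h'.congr_deriv ?_
  simp only [D.e0, D.e1, D.e2, D.hx0, D.hx1, D.hx2, Pi.pow_apply]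
  push_cast
  ring

/-- the normalised matrix and its derivative, cross product -/
private theorem pw_alg (a b c a' b' c' q k : ℝ) (r : ℂ) :
    cr (app (a / q) (b / q) (c / q) r)
      (app (a' / q + k * a) (b' / q + k * b) (c' / q + k * c) r)
      = cr (app a b c r) (app a' b' c' r) / q ^ 2 := by
  unfold cr app
  simp only
  ring

private theorem pw_alg2 (a b c q : ℝ) (r : ℂ) :
    Complex.normSq (app (a / q) (b / q) (c / q) r) = Complex.normSq (app a b c r) / q ^ 2 := by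
  unfold app
  simp only [Complex.normSq_mk]
  ring

theorem pw {X : ℝ → ℝ} (hX : Tri X) (s : ℝ) (w r : ℂ) :
    8 * Real.pi * sg X s * ((m11 X s * r.re ^ 2 + 2 * m12 X s * r.re * r.im + m22 X s * r.im ^ 2) / Dt X s)
      ≤ ed X s w + ed X (s + 2 * Real.pi) w + ed X (s + 4 * Real.pi) w + 8 * Real.pi * cr r w
        + 4 * Real.pi * (Complex.normSq r + Complex.normSq (app (g11 X s) (g12 X s) (g22 X s) r)
          + cr (app (g11 X s) (g12 X s) (g22 X s) r)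
              (app (deriv (g11 X) s) (deriv (g12 X) s) (deriv (g22 X) s) r)) := by
  obtain ⟨x0, x1, x2, v0, v1, v2, A0, A1, A2, B0, B1, B2, D⟩ := pw_data hX s
  obtain ⟨-, h⟩ := pwA x0 x1 x2 v0 v1 v2 D.hv0 D.hv1 D.hv2 D.hv D.hw0 D.hw1 D.hw2 D.h01 D.h01' D.h12 D.h12'
    D.h20 D.h20' A0 A1 A2 B0 B1 B2 (m11 X s) (m12 X s) (m22 X s) _ _ _ (Dt X s) (sg X s) D.hA0 D.hA1 D.hA2
    D.hB0 D.hB1 D.hB2 (pw_m11 D) (pw_m12 D) (pw_m22 D) rfl rfl rfl rfl D.hS w r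
  have hDp := Dt_pos hX s
  have hq : 0 < Real.sqrt (Dt X s) := Real.sqrt_pos.2 hDp
  have hq2 : Real.sqrt (Dt X s) ^ 2 = Dt X s := Real.sq_sqrt hDp.le
  have hdD : HasDerivAt (Dt X) (deriv (Dt X) s) s :=
    (((Dt_C1 hX).differentiable one_ne_zero) s).hasDerivAt
  have hdq := hdD.sqrt hDp.ne'
  have hg : ∀ {m : ℝ → ℝ} {m' : ℝ}, HasDerivAt m m' s →
      deriv (fun u => m u / Real.sqrt (Dt X u)) s
        = m' / Real.sqrt (Dt X s)
          + (-(deriv (Dt X) s / (2 * Real.sqrt (Dt X s)) / Real.sqrt (Dt X s) ^ 2)) * m s := by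
    intro m m' hm
    have hm' : HasDerivAt (fun u => m u / Real.sqrt (Dt X u)) _ s := hm.div hdq hq.ne'
    rw [hm'.deriv]
    field_simp
    ring
  have h11 := hg (pw_dm11 D)
  have h12 := hg (pw_dm12 D)
  have h22 := hg (pw_dm22 D)
  have e11 : deriv (g11 X) s = _ := h11
  have e12 : deriv (g12 X) s = _ := h12
  have e22 : deriv (g22 X) s = _ := h22
  rw [e11, e12, e22]
  unfold g11 g12 g22
  rw [pw_alg, pw_alg2, hq2]
  have E0 : ed X s w = A0 * ip w (en x0) ^ 2 / ((1 - v0) / 2) := by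
    unfold ed
    rw [D.e0, D.hx0, D.w0]
  have E1 : ed X (s + 2 * Real.pi) w = A1 * ip w (en x1) ^ 2 / ((1 - v1) / 2) := by
    unfold ed
    rw [D.e1, D.hx1, D.w1]
  have E2 : ed X (s + 4 * Real.pi) w = A2 * ip w (en x2) ^ 2 / ((1 - v2) / 2) := by
    unfold ed
    rw [D.e2, D.hx2, D.w2]
  rw [E0, E1, E2]
  exact h

/-- the right hand side controls |r|^2 uniformly in s (continuity and periodicity of the positive definite matrix
8 pi sg M / Dt on [0, 2pi]) -/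
theorem pw_slack {X : ℝ → ℝ} (hX : Tri X) : ∃ c > 0, ∀ (s : ℝ) (r : ℂ), c * Complex.normSq r ≤
    8 * Real.pi * sg X s * ((m11 X s * r.re ^ 2 + 2 * m12 X s * r.re * r.im + m22 X s * r.im ^ 2) / Dt X s) := by
  have hm : ∀ s, 0 < m11 X s + m22 X s := by
    intro s
    have h1 := m11_pos hX s
    have h2 := Dt_pos hX s
    have h3 : 0 < m22 X s := by
      unfold Dt at h2
      by_contra hn
      push Not at hn
      nlinarith [sq_nonneg (m12 X s)]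
    linarith
  obtain ⟨φ, hφ⟩ : ∃ φ : ℝ → ℝ, φ = fun s => 8 * Real.pi * sg X s / (m11 X s + m22 X s) := ⟨_, rfl⟩
  have hc : Continuous φ := by
    rw [hφ]
    exact (continuous_const.mul (sg_C1 hX).continuous).div
      ((m11_C1 hX).continuous.add (m22_C1 hX).continuous) (fun s => (hm s).ne')
  have hp : ∀ s, 0 < φ s := by
    intro s
    rw [hφ]
    exact div_pos (mul_pos (mul_pos (by norm_num) Real.pi_pos) (sg_pos hX s)) (hm s)
  have hper : Function.Periodic φ (2 * Real.pi) := by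
    intro s
    rw [hφ]
    show 8 * Real.pi * sg X (s + 2 * Real.pi) / (m11 X (s + 2 * Real.pi) + m22 X (s + 2 * Real.pi)) = _
    rw [sg_per hX, m11_per hX, m22_per hX]
  obtain ⟨s0, hs0, hmin⟩ := isCompact_Icc.exists_isMinOn (s := Set.Icc (0 : ℝ) (2 * Real.pi))
    ⟨0, Set.left_mem_Icc.2 (by positivity)⟩ hc.continuousOn
  refine ⟨φ s0, hp s0, fun s r => ?_⟩
  obtain ⟨y, hy, hy'⟩ := hper.exists_mem_Ico₀ (by positivity) s
  have h1 : φ s0 ≤ φ s := by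
    rw [hy']
    exact hmin (Set.Ico_subset_Icc_self hy)
  have hr : 0 ≤ Complex.normSq r := Complex.normSq_nonneg r
  refine (mul_le_mul_of_nonneg_right h1 hr).trans ?_
  rw [hφ]
  show 8 * Real.pi * sg X s / (m11 X s + m22 X s) * Complex.normSq r ≤ _
  rw [div_mul_eq_mul_div, mul_div_assoc]
  apply mul_le_mul_of_nonneg_left _ (mul_pos (mul_pos (by norm_num) Real.pi_pos) (sg_pos hX s)).le
  rw [div_le_div_iff₀ (hm s) (Dt_pos hX s), Complex.normSq_apply]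
  unfold Dt
  nlinarith [sq_nonneg (m11 X s * r.re + m12 X s * r.im), sq_nonneg (m12 X s * r.re + m22 X s * r.im)]

end Pool.Agent.H1.BP
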