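import Mathlib

/-
ROW Shf (Mathlib only).  Shear lemma: K(x,u) measurable, bounded, zero for u outside [0,B], 2pi-periodic in x.  Then
  int_{x in 0..2pi} int_u K x u = int_{x in 0..2pi} int_u K (x - c u) u.
Proof. Fubini on [0,2pi] x R (both functions are integrable on Ioc 0 2pi x R: bounded, measurable, support in Ioc x Icc 0 B). For fixed u the inner integral over x in 0..2pi of K (x - c u) u is the
integral over (-c u)..(2pi - c u) of K x u (intervalIntegral.integral_comp_sub_right), = integral over 0..2pi (Function.Periodic.intervalIntegral_add_eq).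
-/

set_option autoImplicit false
open Set MeasureTheory

namespace Pool.Agent.H1.BP

theorem shear (K : ℝ → ℝ → ℝ) (hm : Measurable (Function.uncurry K)) (B C : ℝ)
    (hb : ∀ x u, |K x u| ≤ C) (h0 : ∀ x u, u ∉ Icc 0 B → K x u = 0)
    (hp : ∀ x u, K (x + 2 * Real.pi) u = K x u) (c : ℝ) :
    ∫ x in (0 : ℝ)..(2 * Real.pi), ∫ u, K x u
      = ∫ x in (0 : ℝ)..(2 * Real.pi), ∫ u, K (x - c * u) u := by
  have hpi : (0 : ℝ) ≤ 2 * Real.pi := by positivity
  have key : ∀ F : ℝ → ℝ → ℝ, Measurable (Function.uncurry F) → (∀ x u, |F x u| ≤ C) →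
      (∀ x u, u ∉ Icc 0 B → F x u = 0) →
      ∫ x in (0 : ℝ)..(2 * Real.pi), ∫ u, F x u = ∫ u, ∫ x in (0 : ℝ)..(2 * Real.pi), F x u := by
    intro F hF hFb hF0
    simp only [intervalIntegral.integral_of_le hpi]
    rw [integral_integral_swap]
    have h1 : Integrable (indicator ((univ : Set ℝ) ×ˢ Icc 0 B) fun _ => C)
        ((volume.restrict (Ioc 0 (2 * Real.pi))).prod (volume : Measure ℝ)) := by
      rw [integrable_indicator_iff (MeasurableSet.univ.prod measurableSet_Icc)]
      have hfin : ((volume.restrict (Ioc 0 (2 * Real.pi))).prod (volume : Measure ℝ))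
          ((univ : Set ℝ) ×ˢ Icc 0 B) ≠ ⊤ := by
        rw [Measure.prod_prod]
        apply ENNReal.mul_ne_top
        · rw [Measure.restrict_apply MeasurableSet.univ, univ_inter, Real.volume_Ioc]
          exact ENNReal.ofReal_ne_top
        · rw [Real.volume_Icc]
          exact ENNReal.ofReal_ne_top
      exact integrableOn_const hfin enorm_ne_top
    refine h1.mono' hF.aestronglyMeasurable (Filter.Eventually.of_forall fun z => ?_)
    by_cases hz : z.2 ∈ Icc 0 B
    · rw [indicator_of_mem (show z ∈ (univ : Set ℝ) ×ˢ Icc 0 B from ⟨mem_univ _, hz⟩)]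
      exact hFb z.1 z.2
    · rw [indicator_of_notMem (fun h => hz h.2)]
      have : Function.uncurry F z = 0 := hF0 z.1 z.2 hz
      rw [this]; simp
  rw [key K hm hb h0, key (fun x u => K (x - c * u) u) ?_ (fun x u => hb _ _) (fun x u hu => h0 _ _ hu)]
  · congr 1
    funext u
    rw [intervalIntegral.integral_comp_sub_right (fun x => K x u) (c * u)]
    have hper : Function.Periodic (fun x => K x u) (2 * Real.pi) := fun x => hp x u
    have := hper.intervalIntegral_add_eq 0 (0 - c * u)
    rw [zero_add] at this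
    rw [this]
    congr 1
    ring
  · exact hm.comp ((measurable_fst.sub (measurable_const.mul measurable_snd)).prodMk measurable_snd)

end Pool.Agent.H1.BP
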