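import Pool.Agent.H1.BP.Nxt

/-
ROW Sub.  One-dimensional substitution.  Let y = f x0.  Both sides equal the integral over p in [p0 y (f y), h y] of k(p) = phi (Zf h y p).
LHS: u(x) = p1 x y has derivative R x y (Der.p1_x), maps [x0,y] onto [p1 x0 y, p1 y y] = [p0 y (f y), h y] (hf.inv x0, p1_diag), increasing.
   intervalIntegral.integral_comp_mul_deriv''' (or ..._of_continuousOn): int_{x0}^{y} (k o u) u' = int_{u x0}^{u y} k; k is continuous on [p0 y (f y), h y]
   (Zf_cont with fixed first argument, and Zf h y p in [y, f y] there, phi ContinuousOn Icc y (f y)); k (u x) = phi (nxt h x y) by definition.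
RHS: u(z) = p0 y z has derivative - R y z, decreasing from h y to p0 y (f y); k(u z) = phi z (Zf_unique). int_y^{f y} (k o u)(-u') = - int_{h y}^{p0 y (f y)} k.
-/

set_option autoImplicit false
open Set

namespace Pool.Agent.H1.BP

variable {h : ℝ → ℝ}

theorem sub_nxt (hs : Supp h) {f : ℝ → ℝ} (hf : Circle h f) (x0 : ℝ) (phi : ℝ → ℝ)
    (hphi : ContinuousOn phi (Icc (f x0) (f (f x0)))) :
    ∫ x in x0..(f x0), phi (nxt h x (f x0)) * R h x (f x0)
      = ∫ z in (f x0)..(f (f x0)), phi z * R h (f x0) z := by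
  clear hphi
  obtain ⟨y, hy⟩ : ∃ y, y = f x0 := ⟨_, rfl⟩
  rw [← hy]
  have h1 : x0 < y := by
    rw [hy]
    exact hf.lo x0
  have h2 : y < x0 + 2 * Real.pi := by
    rw [hy]
    exact hf.hi x0
  have h3 : y < f y := hf.lo y
  have h4 : f y < y + 2 * Real.pi := hf.hi y
  have hinv : p1 h x0 y = p0 h y (f y) := by
    rw [hy]
    exact hf.inv x0
  have L : ∫ x in x0..y, phi (nxt h x y) * R h x y =
      ∫ p in (p1 h x0 y)..(p1 h y y), phi (Zf h y p) := by
    refine intervalIntegral.integral_comp_mul_deriv_of_deriv_nonneg (f := fun x => p1 h x y)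
      (f' := fun x => R h x y) (g := fun p => phi (Zf h y p)) (a := x0) (b := y) ?_ ?_ ?_
    · intro x _
      exact (p1_x hs x y).continuousAt.continuousWithinAt
    · intro x _
      exact p1_x hs x y
    · intro x hx
      rw [min_eq_left h1.le, max_eq_right h1.le] at hx
      exact R_nonneg hs hx.2.le (by linarith [hx.1])
  have M : ∫ z in y..(f y), phi (Zf h y (p0 h y z)) * (-R h y z) =
      ∫ p in (p0 h y y)..(p0 h y (f y)), phi (Zf h y p) := by
    refine intervalIntegral.integral_comp_mul_deriv_of_deriv_nonpos (f := fun z => p0 h y z)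
      (f' := fun z => -R h y z) (g := fun p => phi (Zf h y p)) (a := y) (b := f y) ?_ ?_ ?_
    · intro z _
      exact (p0_y hs y z).continuousAt.continuousWithinAt
    · intro z _
      exact p0_y hs y z
    · intro z hz
      rw [min_eq_left h3.le, max_eq_right h3.le] at hz
      exact neg_nonpos.2 (R_nonneg hs hz.1.le (by linarith [hz.2]))
  have N : ∫ z in y..(f y), phi (Zf h y (p0 h y z)) * (-R h y z) =
      -∫ z in y..(f y), phi z * R h y z := by
    rw [← intervalIntegral.integral_neg]
    refine intervalIntegral.integral_congr fun z hz => ?_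
    rw [Set.uIcc_of_le h3.le] at hz
    have e : Zf h y (p0 h y z) = z :=
      Zf_unique hs ⟨hz.1, by linarith [hz.2]⟩ rfl
    show phi (Zf h y (p0 h y z)) * (-R h y z) = -(phi z * R h y z)
    rw [e]
    ring
  rw [L, hinv, p1_diag, intervalIntegral.integral_symm, ← neg_eq_iff_eq_neg.2 N, M, p0_diag]

end Pool.Agent.H1.BP
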